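import Pool.Agent.L5helper10.TV.Qid

/-! Mean square of the second difference of the prime sum over blocks of heights. -/

set_option autoImplicit false

open Complex Filter Topology Set MeasureTheory H370

namespace Pool.Agent.L5helper10.TV

/-- the Gaussian window -/
noncomputable def g0 (x : ℝ) : ℝ := Real.exp (-x ^ 2 / 2)

noncomputable def rr (κ s x : ℝ) : ℝ := (g0 (x + s) - g0 x) / κ

noncomputable def pw (s x : ℝ) : ℝ := -(x + s) * g0 (x + s)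

lemma g0_pos (x : ℝ) : 0 < g0 x := Real.exp_pos _

lemma g0_cont : Continuous g0 := by unfold g0; fun_prop

lemma g0_shift (x y : ℝ) (h : |y - x| ≤ 1 / 2) : |y| * g0 y ≤ 6 * Real.exp (-x ^ 2 / 4) := by
  unfold g0
  have h1 : |y| ≤ Real.exp |y| := by have := Real.add_one_le_exp |y|; linarith
  have h2 : x ^ 2 ≤ y ^ 2 + |y| + 1 / 4 := by
    have e1 : |x| ≤ |y| + 1 / 2 := by
      have := abs_sub_abs_le_abs_sub x y
      rw [abs_sub_comm] at this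
      linarith
    have e2 : x ^ 2 = |x| ^ 2 := (sq_abs x).symm
    have e3 : y ^ 2 = |y| ^ 2 := (sq_abs y).symm
    rw [e2, e3]
    have := abs_nonneg x
    nlinarith
  have h3 : y ^ 2 = |y| ^ 2 := (sq_abs y).symm
  have h4 : Real.exp (13 / 8) ≤ 6 := by
    have e1 : Real.exp (13 / 8) ≤ Real.exp (1 / 2) ^ 3 * Real.exp (1 / 8) := by
      rw [← Real.exp_nat_mul, ← Real.exp_add]
      apply Real.exp_le_exp.2
      norm_num
    have e2 : Real.exp (1 / 2) ≤ 33 / 20 := by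
      have h := Real.exp_one_lt_d9
      have h2 : Real.exp (1 / 2) ^ 2 = Real.exp 1 := by rw [← Real.exp_nat_mul]; norm_num
      nlinarith [Real.exp_pos (1 / 2)]
    have e3 : Real.exp (1 / 8) ≤ 23 / 20 := by
      have := Real.exp_bound_div_one_sub_of_interval (x := 1 / 8) (by norm_num) (by norm_num)
      refine this.trans (by norm_num)
    calc Real.exp (13 / 8) ≤ Real.exp (1 / 2) ^ 3 * Real.exp (1 / 8) := e1
      _ ≤ (33 / 20) ^ 3 * (23 / 20) := by gcongr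
      _ ≤ 6 := by norm_num
  calc |y| * Real.exp (-y ^ 2 / 2) ≤ Real.exp |y| * Real.exp (-y ^ 2 / 2) :=
        mul_le_mul_of_nonneg_right h1 (Real.exp_pos _).le
    _ = Real.exp (|y| + -y ^ 2 / 2) := (Real.exp_add _ _).symm
    _ ≤ Real.exp (13 / 8 + -x ^ 2 / 4) := by
        apply Real.exp_le_exp.2
        nlinarith [sq_nonneg (|y| - 5 / 2)]
    _ = Real.exp (13 / 8) * Real.exp (-x ^ 2 / 4) := Real.exp_add _ _
    _ ≤ 6 * Real.exp (-x ^ 2 / 4) := mul_le_mul_of_nonneg_right h4 (Real.exp_pos _).le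

lemma win_g0 : Win g0 6 where
  cont := g0_cont
  bd x := by
    rw [abs_of_pos (g0_pos x)]
    unfold g0
    have : Real.exp (-x ^ 2 / 2) ≤ Real.exp (-x ^ 2 / 4) := Real.exp_le_exp.2 (by nlinarith [sq_nonneg x])
    have := Real.exp_pos (-x ^ 2 / 4)
    linarith

lemma win_pw (s : ℝ) (hs : |s| ≤ 1 / 2) : Win (pw s) 6 where
  cont := by
    unfold pw
    have := g0_cont
    fun_prop
  bd x := by
    unfold pw
    rw [abs_mul, abs_neg, abs_of_pos (g0_pos _)]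
    exact g0_shift x (x + s) (by simpa using hs)

lemma g0_deriv (x : ℝ) : HasDerivAt g0 (-x * g0 x) x := by
  unfold g0
  have h1 : HasDerivAt (fun x : ℝ => -x ^ 2 / 2) (-(2 * x) / 2) x := by
    have := ((hasDerivAt_id x).pow 2).neg.div_const 2
    refine this.congr_deriv ?_
    simp
  refine h1.exp.congr_deriv ?_
  ring

lemma win_rr (κ s : ℝ) (hκ : 0 < κ) (hs : |s| ≤ 1 / 2) (hsκ : |s| ≤ κ) : Win (rr κ s) 6 where
  cont := by
    unfold rr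
    have := g0_cont
    fun_prop
  bd x := by
    unfold rr
    rw [abs_div, abs_of_pos hκ, div_le_iff₀ hκ]
    have h := Convex.norm_image_sub_le_of_norm_hasDerivWithin_le (f := g0) (f' := fun y => -y * g0 y)
      (s := Metric.closedBall x (1 / 2)) (x := x) (y := x + s) (C := 6 * Real.exp (-x ^ 2 / 4))
      (fun y _ => (g0_deriv y).hasDerivWithinAt)
      (fun y hy => by
        rw [Metric.mem_closedBall, Real.dist_eq] at hy
        rw [norm_mul, norm_neg, Real.norm_eq_abs, Real.norm_eq_abs, abs_of_pos (g0_pos y)]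
        exact g0_shift x y hy)
      (convex_closedBall x (1 / 2)) (Metric.mem_closedBall_self (by norm_num))
      (by rw [Metric.mem_closedBall, Real.dist_eq]; simpa using hs)
    rw [Real.norm_eq_abs, Real.norm_eq_abs] at h
    have e : x + s - x = s := by ring
    rw [e] at h
    refine h.trans ?_
    exact mul_le_mul_of_nonneg_left hsκ (by positivity)

/-- the oscillating factor -/
noncomputable def E1 (κ t : ℝ) : ℂ := cexp (κ / 4 - I * (κ * t / 2))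
noncomputable def E2 (κ t : ℝ) : ℂ := cexp (-(κ / 4) + I * (κ * t / 2))

lemma MM_split (κ u t v : ℝ) (hκ : κ ≠ 0) : MM κ u t v = cexp (I * t * (u - v)) *
    (((1 / 2 + I * t) * (E1 κ t - E2 κ t)) * (g0 (u - v) : ℂ) +
      ((κ * (1 / 2 + I * t) * E1 κ t) * (rr κ (-(κ / 2)) (u - v) : ℂ) +
      (-(κ * (1 / 2 + I * t) * E2 κ t) * (rr κ (κ / 2) (u - v) : ℂ) +
      (E1 κ t * (pw (-(κ / 2)) (u - v) : ℂ) + -(E2 κ t) * (pw (κ / 2) (u - v) : ℂ))))) := by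
  have hk : (κ : ℂ) ≠ 0 := by exact_mod_cast hκ
  have m1 : (Real.exp (κ / 4) : ℂ) * mm t (u - v - κ / 2) = cexp (I * t * (u - v)) * E1 κ t *
      ((1 / 2 + I * t - (u - v + -(κ / 2))) * (g0 (u - v + -(κ / 2)) : ℂ)) := by
    unfold mm E1 g0
    rw [show u - v - κ / 2 = u - v + -(κ / 2) by ring, ← Complex.exp_add, ofReal_exp, ← mul_assoc,
      ← Complex.exp_add]
    congr 1
    · congr 1; push_cast; ring
    · push_cast; ring
  have m2 : (Real.exp (-κ / 4) : ℂ) * mm t (u - v + κ / 2) = cexp (I * t * (u - v)) * E2 κ t *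
      ((1 / 2 + I * t - (u - v + κ / 2)) * (g0 (u - v + κ / 2) : ℂ)) := by
    unfold mm E2 g0
    rw [← Complex.exp_add, ofReal_exp, ← mul_assoc, ← Complex.exp_add]
    congr 1
    · congr 1; push_cast; ring
    · push_cast; ring
  unfold MM
  rw [m1, m2]
  unfold rr pw
  push_cast
  field_simp
  ring

lemma SS_int (κ : ℝ) (hκ0 : 0 ≤ κ) (hκ : κ ≤ 1) {ω : ℝ → ℝ} {B : ℝ} (h : Win ω B) (u t : ℝ) :
    Integrable (fun v : ℝ => (fw κ ω u v : ℂ) * cexp (I * t * (u - v))) := by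
  have h1 : Integrable (fun v => (fw κ ω u v : ℂ)) := (fw_int κ hκ0 hκ h u).ofReal
  have hc : Continuous (fun v : ℝ => cexp (I * t * (u - v))) := by fun_prop
  have h2 := h1.bdd_mul (c := 1) (f := fun v : ℝ => cexp (I * t * (u - v))) hc.aestronglyMeasurable
    (Eventually.of_forall fun v => by
      rw [show I * t * (u - v) = ((t * (u - v) : ℝ) : ℂ) * I by push_cast; ring, Complex.norm_exp_ofReal_mul_I])
  refine h2.congr (Eventually.of_forall fun v => ?_)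
  simp only
  ring

lemma int5 {f0 f1 f2 f3 f4 : ℝ → ℂ} (i0 : Integrable f0) (i1 : Integrable f1) (i2 : Integrable f2)
    (i3 : Integrable f3) (i4 : Integrable f4) (a0 a1 a2 a3 a4 : ℂ) :
    ∫ v, (a0 * f0 v + (a1 * f1 v + (a2 * f2 v + (a3 * f3 v + a4 * f4 v)))) =
      a0 * (∫ v, f0 v) + (a1 * (∫ v, f1 v) + (a2 * (∫ v, f2 v) + (a3 * (∫ v, f3 v) + a4 * ∫ v, f4 v))) := by
  have j34 : Integrable (fun v => a3 * f3 v + a4 * f4 v) := (i3.const_mul a3).add (i4.const_mul a4)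
  have j234 : Integrable (fun v => a2 * f2 v + (a3 * f3 v + a4 * f4 v)) := (i2.const_mul a2).add j34
  have j1234 : Integrable (fun v => a1 * f1 v + (a2 * f2 v + (a3 * f3 v + a4 * f4 v))) :=
    (i1.const_mul a1).add j234
  rw [integral_add (i0.const_mul a0) j1234, integral_const_mul, integral_add (i1.const_mul a1) j234,
    integral_const_mul, integral_add (i2.const_mul a2) j34, integral_const_mul,
    integral_add (i3.const_mul a3) (i4.const_mul a4), integral_const_mul, integral_const_mul]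

theorem QP_split (κ u t : ℝ) (hκ0 : 0 < κ) (hκ : κ ≤ 1) : QP κ u t =
    ((1 / 2 + I * t) * (E1 κ t - E2 κ t)) * SS κ g0 u t +
      ((κ * (1 / 2 + I * t) * E1 κ t) * SS κ (rr κ (-(κ / 2))) u t +
      (-(κ * (1 / 2 + I * t) * E2 κ t) * SS κ (rr κ (κ / 2)) u t +
      (E1 κ t * SS κ (pw (-(κ / 2))) u t + -(E2 κ t) * SS κ (pw (κ / 2)) u t))) := by
  have hs1 : |-(κ / 2)| ≤ 1 / 2 := by rw [abs_neg, abs_of_pos (by linarith)]; linarith
  have hs2 : |κ / 2| ≤ 1 / 2 := by rw [abs_of_pos (by linarith)]; linarith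
  have hs3 : |-(κ / 2)| ≤ κ := by rw [abs_neg, abs_of_pos (by linarith)]; linarith
  have hs4 : |κ / 2| ≤ κ := by rw [abs_of_pos (by linarith)]; linarith
  have i0 := SS_int κ hκ0.le hκ win_g0 u t
  have i1 := SS_int κ hκ0.le hκ (win_rr κ (-(κ / 2)) hκ0 hs1 hs3) u t
  have i2 := SS_int κ hκ0.le hκ (win_rr κ (κ / 2) hκ0 hs2 hs4) u t
  have i3 := SS_int κ hκ0.le hκ (win_pw (-(κ / 2)) hs1) u t
  have i4 := SS_int κ hκ0.le hκ (win_pw (κ / 2) hs2) u t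
  rw [QP_eq κ u t hκ0 hκ]
  set a0 := (1 / 2 + I * t) * (E1 κ t - E2 κ t)
  set a1 := κ * (1 / 2 + I * t) * E1 κ t
  set a2 := -(κ * (1 / 2 + I * t) * E2 κ t)
  set a3 := E1 κ t
  set a4 := -(E2 κ t)
  have e : ∀ v : ℝ, (fk κ v : ℂ) * MM κ u t v = a0 * ((fw κ g0 u v : ℂ) * cexp (I * t * (u - v))) +
      (a1 * ((fw κ (rr κ (-(κ / 2))) u v : ℂ) * cexp (I * t * (u - v))) +
      (a2 * ((fw κ (rr κ (κ / 2)) u v : ℂ) * cexp (I * t * (u - v))) +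
      (a3 * ((fw κ (pw (-(κ / 2))) u v : ℂ) * cexp (I * t * (u - v))) +
      a4 * ((fw κ (pw (κ / 2)) u v : ℂ) * cexp (I * t * (u - v)))))) := by
    intro v
    rw [MM_split κ u t v hκ0.ne']
    unfold fw
    push_cast
    ring
  simp_rw [e]
  exact int5 i0 i1 i2 i3 i4 a0 a1 a2 a3 a4

lemma E1_norm (κ t : ℝ) (hκ : κ ≤ 1) : ‖E1 κ t‖ ≤ 2 := by
  unfold E1
  rw [Complex.norm_exp, show ((κ : ℂ) / 4 - I * (κ * t / 2)).re = κ / 4 by
    simp [Complex.mul_re]]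
  exact le_trans (Real.exp_le_exp.2 (by linarith)) exp_half_le

lemma E2_norm (κ t : ℝ) (hκ0 : 0 ≤ κ) : ‖E2 κ t‖ ≤ 2 := by
  unfold E2
  rw [Complex.norm_exp, show (-((κ : ℂ) / 4) + I * (κ * t / 2)).re = -(κ / 4) by
    simp [Complex.mul_re]]
  exact le_trans (Real.exp_le_exp.2 (by linarith)) exp_half_le

lemma E12_norm (κ t : ℝ) : ‖E1 κ t - E2 κ t‖ ^ 2 = 2 * Real.cosh (κ / 2) - 2 * Real.cos (κ * t) := by
  have h1 : E1 κ t = (Real.exp (κ / 4) : ℂ) * cexp (((-(κ * t / 2) : ℝ) : ℂ) * I) := by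
    unfold E1
    rw [ofReal_exp, ← Complex.exp_add]; congr 1; push_cast; ring
  have h2 : E2 κ t = (Real.exp (-(κ / 4)) : ℂ) * cexp (((κ * t / 2 : ℝ) : ℂ) * I) := by
    unfold E2
    rw [ofReal_exp, ← Complex.exp_add]; congr 1; push_cast; ring
  have h3 : E1 κ t - E2 κ t = (((Real.exp (κ / 4) - Real.exp (-(κ / 4))) * Real.cos (κ * t / 2) : ℝ) : ℂ) +
      ((-((Real.exp (κ / 4) + Real.exp (-(κ / 4))) * Real.sin (κ * t / 2)) : ℝ) : ℂ) * I := by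
    rw [h1, h2, Complex.exp_mul_I, Complex.exp_mul_I, ← Complex.ofReal_cos, ← Complex.ofReal_sin,
      ← Complex.ofReal_cos, ← Complex.ofReal_sin, Real.cos_neg, Real.sin_neg]
    push_cast
    ring
  rw [h3, ← Complex.normSq_eq_norm_sq, Complex.normSq_add_mul_I]
  have h4 : Real.exp (κ / 4) * Real.exp (-(κ / 4)) = 1 := by rw [← Real.exp_add]; simp
  have h5 : Real.exp (κ / 2) = Real.exp (κ / 4) ^ 2 := by rw [← Real.exp_nat_mul]; congr 1; push_cast; ring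
  have h6 : Real.exp (-(κ / 2)) = Real.exp (-(κ / 4)) ^ 2 := by rw [← Real.exp_nat_mul]; congr 1; push_cast; ring
  have h7 : Real.cos (κ * t) = Real.cos (κ * t / 2) ^ 2 - Real.sin (κ * t / 2) ^ 2 := by
    rw [← Real.cos_two_mul']; congr 1; ring
  have h8 := Real.sin_sq_add_cos_sq (κ * t / 2)
  rw [Real.cosh_eq, h5, h6, h7]
  set e := Real.exp (κ / 4)
  set f := Real.exp (-(κ / 4))
  set c := Real.cos (κ * t / 2)
  set s := Real.sin (κ * t / 2)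
  linear_combination (e ^ 2 + f ^ 2) * h8 + (2 * s ^ 2 - 2 * c ^ 2) * h4

lemma norm_add_sq_young (a b : ℂ) (η : ℝ) (hη : 0 < η) : ‖a + b‖ ^ 2 ≤ (1 + η) * ‖a‖ ^ 2 + (1 + 1 / η) * ‖b‖ ^ 2 := by
  have h1 : ‖a + b‖ ^ 2 ≤ (‖a‖ + ‖b‖) ^ 2 := pow_le_pow_left₀ (norm_nonneg _) (norm_add_le _ _) 2
  have h2 : 2 * ‖a‖ * ‖b‖ ≤ η * ‖a‖ ^ 2 + 1 / η * ‖b‖ ^ 2 := by
    have h3 : 0 ≤ (1 / η) * (η * ‖a‖ - ‖b‖) ^ 2 := by positivity
    have h4 : (1 / η) * (η * ‖a‖ - ‖b‖) ^ 2 = η * ‖a‖ ^ 2 - 2 * ‖a‖ * ‖b‖ + 1 / η * ‖b‖ ^ 2 := by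
      field_simp
      ring
    linarith
  nlinarith

lemma le_one_ev2 : ∀ᶠ κ in 𝓝[>] (0 : ℝ), κ ≤ 1 := by
  apply eventually_nhdsWithin_of_eventually_nhds
  exact eventually_le_nhds (by norm_num)

/-- the pointwise bound in a block -/
theorem QP_pt (x y η : ℝ) (hx : 0 < x) (hxy : x < y) (hη : 0 < η) (hη1 : η ≤ 1) :
    ∃ C : ℝ, 0 < C ∧ ∀ᶠ κ in 𝓝[>] (0 : ℝ), ∀ u t : ℝ, x / κ ≤ t → t ≤ y / κ →
      κ ^ 2 / ((2 - 2 * Real.cos x + 3 * (y - x)) * y ^ 2) * ‖QP κ u t‖ ^ 2 ≤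
        (1 + η) * ‖SS κ g0 u t‖ ^ 2 + C * κ ^ 2 * (‖SS κ (rr κ (-(κ / 2))) u t‖ ^ 2 + ‖SS κ (rr κ (κ / 2)) u t‖ ^ 2 +
          ‖SS κ (pw (-(κ / 2))) u t‖ ^ 2 + ‖SS κ (pw (κ / 2)) u t‖ ^ 2) := by
  have hy : 0 < y := by linarith
  set W := 2 - 2 * Real.cos x + 3 * (y - x) with hW
  have hW0 : 0 < W := by
    have := Real.cos_le_one x
    rw [hW]; linarith
  have ev1 : ∀ᶠ κ in 𝓝[>] (0 : ℝ), κ ^ 2 / 4 ≤ η / 3 * y ^ 2 := by
    have h1 : Tendsto (fun κ : ℝ => κ ^ 2 / 4) (𝓝[>] 0) (𝓝 0) := by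
      have : Tendsto (fun κ : ℝ => κ ^ 2 / 4) (𝓝 0) (𝓝 (0 ^ 2 / 4)) := by
        apply Continuous.tendsto; fun_prop
      rw [show (0 : ℝ) ^ 2 / 4 = 0 by norm_num] at this
      exact this.mono_left nhdsWithin_le_nhds
    exact h1.eventually_le_const (by positivity)
  have ev2 : ∀ᶠ κ in 𝓝[>] (0 : ℝ), 2 * Real.cosh (κ / 2) - 2 ≤ y - x := by
    have h1 : Tendsto (fun κ : ℝ => 2 * Real.cosh (κ / 2) - 2) (𝓝[>] 0) (𝓝 0) := by
      have : Tendsto (fun κ : ℝ => 2 * Real.cosh (κ / 2) - 2) (𝓝 0) (𝓝 (2 * Real.cosh (0 / 2) - 2)) := by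
        apply Continuous.tendsto
        have := Real.continuous_cosh
        fun_prop
      rw [show 2 * Real.cosh (0 / 2) - 2 = (0 : ℝ) by simp] at this
      exact this.mono_left nhdsWithin_le_nhds
    exact h1.eventually_le_const (by linarith)
  refine ⟨(1 + 1 / (η / 3)) * (16 * (2 * y ^ 2 + 1)) / (W * y ^ 2), by positivity, ?_⟩
  filter_upwards [ev1, ev2, le_one_ev2, self_mem_nhdsWithin] with κ h1 h2 h3 h4 u t ht1 ht2
  have hκ : 0 < κ := h4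
  rw [QP_split κ u t hκ h3]
  set A := SS κ g0 u t
  set B1 := SS κ (rr κ (-(κ / 2))) u t
  set B2 := SS κ (rr κ (κ / 2)) u t
  set B3 := SS κ (pw (-(κ / 2))) u t
  set B4 := SS κ (pw (κ / 2)) u t
  have hκt1 : x ≤ κ * t := by rw [div_le_iff₀ hκ] at ht1; linarith
  have hκt2 : κ * t ≤ y := by rw [le_div_iff₀ hκ] at ht2; linarith
  have hc1 : κ ^ 2 * ‖(1 / 2 + I * t : ℂ)‖ ^ 2 ≤ (1 + η / 3) * y ^ 2 := by
    have e1 : ‖(1 / 2 + I * t : ℂ)‖ ^ 2 = 1 / 4 + t ^ 2 := by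
      rw [← Complex.normSq_eq_norm_sq, show (1 / 2 + I * t : ℂ) = ((1 / 2 : ℝ) : ℂ) + (t : ℂ) * I by push_cast; ring,
        Complex.normSq_add_mul_I]
      norm_num
    rw [e1]
    have e2 : (κ * t) ^ 2 ≤ y ^ 2 := pow_le_pow_left₀ (by linarith) hκt2 2
    nlinarith
  have hcos : 2 * Real.cosh (κ / 2) - 2 * Real.cos (κ * t) ≤ W := by
    have e3 : |Real.cos (κ * t) - Real.cos x| ≤ |κ * t - x| := Real.abs_cos_sub_cos_le (κ * t) x
    rw [abs_of_nonneg (by linarith : 0 ≤ κ * t - x)] at e3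
    have e4 := (abs_le.1 e3).1
    rw [hW]; linarith
  have hE := E12_norm κ t
  have hE1 := E1_norm κ t h3
  have hE2 := E2_norm κ t hκ.le
  have hmain : κ ^ 2 * ‖((1 / 2 + I * t) * (E1 κ t - E2 κ t)) * A‖ ^ 2 ≤ (1 + η / 3) * (W * y ^ 2) * ‖A‖ ^ 2 := by
    rw [norm_mul, norm_mul, mul_pow, mul_pow, hE]
    have e5 : 0 ≤ 2 * Real.cosh (κ / 2) - 2 * Real.cos (κ * t) := by rw [← hE]; positivity
    calc κ ^ 2 * (‖(1 / 2 + I * t : ℂ)‖ ^ 2 * (2 * Real.cosh (κ / 2) - 2 * Real.cos (κ * t)) * ‖A‖ ^ 2)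
        = (κ ^ 2 * ‖(1 / 2 + I * t : ℂ)‖ ^ 2) * (2 * Real.cosh (κ / 2) - 2 * Real.cos (κ * t)) * ‖A‖ ^ 2 := by ring
      _ ≤ ((1 + η / 3) * y ^ 2) * W * ‖A‖ ^ 2 := by gcongr
      _ = _ := by ring
  have hrest : ‖(κ * (1 / 2 + I * t) * E1 κ t) * B1 + (-(κ * (1 / 2 + I * t) * E2 κ t) * B2 +
      (E1 κ t * B3 + -(E2 κ t) * B4))‖ ^ 2 ≤ (16 * (2 * y ^ 2 + 1)) * (‖B1‖ ^ 2 + ‖B2‖ ^ 2 + ‖B3‖ ^ 2 + ‖B4‖ ^ 2) := by
    set c := ‖(κ * (1 / 2 + I * t) : ℂ)‖ with hc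
    have hc2 : c ^ 2 ≤ 2 * y ^ 2 := by
      rw [hc, norm_mul, Complex.norm_real, Real.norm_of_nonneg hκ.le, mul_pow]
      refine hc1.trans ?_
      nlinarith [sq_nonneg y]
    have hc0 : 0 ≤ c := norm_nonneg _
    have b1 : ‖(κ * (1 / 2 + I * t) * E1 κ t) * B1‖ ≤ 2 * c * ‖B1‖ := by
      rw [norm_mul, norm_mul, ← hc]
      nlinarith [norm_nonneg B1, mul_nonneg hc0 (norm_nonneg B1)]
    have b2 : ‖-(κ * (1 / 2 + I * t) * E2 κ t) * B2‖ ≤ 2 * c * ‖B2‖ := by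
      rw [norm_mul, norm_neg, norm_mul, ← hc]
      nlinarith [norm_nonneg B2, mul_nonneg hc0 (norm_nonneg B2)]
    have b3 : ‖E1 κ t * B3‖ ≤ 2 * ‖B3‖ := by
      rw [norm_mul]; exact mul_le_mul_of_nonneg_right hE1 (norm_nonneg _)
    have b4 : ‖-(E2 κ t) * B4‖ ≤ 2 * ‖B4‖ := by
      rw [norm_mul, norm_neg]; exact mul_le_mul_of_nonneg_right hE2 (norm_nonneg _)
    have hsum : ‖(κ * (1 / 2 + I * t) * E1 κ t) * B1 + (-(κ * (1 / 2 + I * t) * E2 κ t) * B2 +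
      (E1 κ t * B3 + -(E2 κ t) * B4))‖ ≤ 2 * c * ‖B1‖ + (2 * c * ‖B2‖ + (2 * ‖B3‖ + 2 * ‖B4‖)) := by
      refine (norm_add_le _ _).trans (add_le_add b1 ((norm_add_le _ _).trans (add_le_add b2
        ((norm_add_le _ _).trans (add_le_add b3 b4)))))
    refine (pow_le_pow_left₀ (norm_nonneg _) hsum 2).trans ?_
    set p := ‖B1‖
    set q := ‖B2‖
    set r := ‖B3‖
    set s := ‖B4‖
    have k1 : (2 * c * p + (2 * c * q + (2 * r + 2 * s))) ^ 2 ≤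
        4 * ((2 * c * p) ^ 2 + (2 * c * q) ^ 2 + (2 * r) ^ 2 + (2 * s) ^ 2) := by
      nlinarith [sq_nonneg (2 * c * p - 2 * c * q), sq_nonneg (2 * c * p - 2 * r), sq_nonneg (2 * c * p - 2 * s),
        sq_nonneg (2 * c * q - 2 * r), sq_nonneg (2 * c * q - 2 * s), sq_nonneg (2 * r - 2 * s)]
    refine k1.trans ?_
    have k2 : c ^ 2 * p ^ 2 ≤ (2 * y ^ 2) * p ^ 2 := mul_le_mul_of_nonneg_right hc2 (sq_nonneg _)
    have k3 : c ^ 2 * q ^ 2 ≤ (2 * y ^ 2) * q ^ 2 := mul_le_mul_of_nonneg_right hc2 (sq_nonneg _)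
    have k4 : 0 ≤ y ^ 2 * r ^ 2 := by positivity
    have k5 : 0 ≤ y ^ 2 * s ^ 2 := by positivity
    nlinarith [sq_nonneg p, sq_nonneg q, sq_nonneg r, sq_nonneg s]
  set Rs := (κ * (1 / 2 + I * t) * E1 κ t) * B1 + (-(κ * (1 / 2 + I * t) * E2 κ t) * B2 +
      (E1 κ t * B3 + -(E2 κ t) * B4)) with hRs
  have hy2 := norm_add_sq_young (((1 / 2 + I * t) * (E1 κ t - E2 κ t)) * A) Rs (η / 3) (by positivity)
  set Sg := ‖B1‖ ^ 2 + ‖B2‖ ^ 2 + ‖B3‖ ^ 2 + ‖B4‖ ^ 2 with hSg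
  have hWy : 0 < W * y ^ 2 := by positivity
  rw [div_mul_eq_mul_div, div_le_iff₀ hWy]
  calc κ ^ 2 * ‖((1 / 2 + I * t) * (E1 κ t - E2 κ t)) * A + Rs‖ ^ 2
      ≤ κ ^ 2 * ((1 + η / 3) * ‖((1 / 2 + I * t) * (E1 κ t - E2 κ t)) * A‖ ^ 2 + (1 + 1 / (η / 3)) * ‖Rs‖ ^ 2) :=
        mul_le_mul_of_nonneg_left hy2 (sq_nonneg _)
    _ = (1 + η / 3) * (κ ^ 2 * ‖((1 / 2 + I * t) * (E1 κ t - E2 κ t)) * A‖ ^ 2) +
        κ ^ 2 * (1 + 1 / (η / 3)) * ‖Rs‖ ^ 2 := by ring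
    _ ≤ (1 + η / 3) * ((1 + η / 3) * (W * y ^ 2) * ‖A‖ ^ 2) +
        κ ^ 2 * (1 + 1 / (η / 3)) * ((16 * (2 * y ^ 2 + 1)) * Sg) := by gcongr
    _ = ((1 + η / 3) * (1 + η / 3) * ‖A‖ ^ 2 + (1 + 1 / (η / 3)) * (16 * (2 * y ^ 2 + 1)) / (W * y ^ 2) *
        κ ^ 2 * Sg) * (W * y ^ 2) := by field_simp
    _ ≤ ((1 + η) * ‖A‖ ^ 2 + (1 + 1 / (η / 3)) * (16 * (2 * y ^ 2 + 1)) / (W * y ^ 2) *
        κ ^ 2 * Sg) * (W * y ^ 2) := by
        apply mul_le_mul_of_nonneg_right _ hWy.le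
        apply add_le_add_left
        apply mul_le_mul_of_nonneg_right _ (sq_nonneg _)
        nlinarith

end Pool.Agent.L5helper10.TV
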