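import Pool.Agent.L5helper10.TV.Wr

/-! Lower bound for the Cesàro means of the normalised variance. -/

set_option autoImplicit false

open Filter Topology Set MeasureTheory
open scoped ENNReal

namespace Pool.Agent.L5helper10.TV

lemma GG_Icc_le (a u : ℝ) : GG (Icc 0 a) u ≤ max (a - u) 0 := by
  unfold GG
  have h1 : volume {v : ℝ | v ∈ Icc 0 a ∧ v - u ∈ Icc 0 a} ≤ volume (Icc u a) := by
    apply measure_mono
    rintro v ⟨h1, h2⟩
    exact ⟨by linarith [h2.1], h1.2⟩
  rw [Real.volume_Icc] at h1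
  have h2 := ENNReal.toReal_mono (by simp) h1
  rwa [ENNReal.toReal_ofReal'] at h2

lemma GG_two_le (a b u : ℝ) (hab : a < b) (hu : 0 ≤ u) :
    GG (Icc 0 a ∪ Icc b (b + a)) u ≤ 2 * max (a - u) 0 + max (a - |u - b|) 0 := by
  unfold GG
  have h1 : volume {v : ℝ | v ∈ Icc 0 a ∪ Icc b (b + a) ∧ v - u ∈ Icc 0 a ∪ Icc b (b + a)} ≤
      volume (Icc u a) + volume (Icc (b + u) (b + a)) + volume (Icc (max b u) (min (b + a) (u + a))) := by
    refine le_trans (measure_mono (t := Icc u a ∪ Icc (b + u) (b + a) ∪ Icc (max b u) (min (b + a) (u + a))) ?_) ?_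
    · rintro v ⟨h1 | h1, h2 | h2⟩
      · left; left; exact ⟨by linarith [h2.1], h1.2⟩
      · exfalso; linarith [h2.1, h1.2]
      · right
        exact ⟨max_le h1.1 (by linarith [h2.1]), le_min h1.2 (by linarith [h2.2])⟩
      · left; right; exact ⟨by linarith [h2.1], h1.2⟩
    · exact (measure_union_le _ _).trans (add_le_add_left (measure_union_le _ _) _)
  rw [Real.volume_Icc, Real.volume_Icc, Real.volume_Icc] at h1
  have h2 := ENNReal.toReal_mono (by simp) h1
  rw [ENNReal.toReal_add (by simp) (by simp), ENNReal.toReal_add (by simp) (by simp), ENNReal.toReal_ofReal',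
    ENNReal.toReal_ofReal', ENNReal.toReal_ofReal'] at h2
  have e1 : b + a - (b + u) = a - u := by ring
  have e2 : min (b + a) (u + a) - max b u = a - |u - b| := by
    rcases le_total b u with h | h
    · rw [min_eq_left (by linarith), max_eq_right h, abs_of_nonneg (by linarith)]; ring
    · rw [min_eq_right (by linarith), max_eq_left h, abs_of_nonpos (by linarith)]; ring
  rw [e1, e2] at h2
  linarith

theorem long_avg (ℓ ε : ℝ) (hℓ : 1 < ℓ) (hε : 0 < ε) :
    ∀ᶠ T in atTop, (ℓ - 1) ^ 2 / 2 - 1 / 6 - ε ≤ ∫ α in (1 : ℝ)..ℓ, (ℓ - α) * RT T α := by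
  have hcongr : ∀ T : ℝ, ∫ α in (1 : ℝ)..ℓ, (ℓ - α) * RT T α = ∫ α in (1 : ℝ)..ℓ, (max 0 (ℓ - |α|)) * RT T α := by
    intro T
    apply intervalIntegral.integral_congr
    intro α hα
    rw [uIcc_of_le hℓ.le] at hα
    have : |α| = α := abs_of_nonneg (by linarith [hα.1])
    simp only [this]
    rw [max_eq_right (by linarith [hα.2])]
  by_cases hc0 : (ℓ - 1) ^ 2 / 2 - 1 / 6 < 0
  · filter_upwards [eventually_gt_atTop 1] with T hT
    have : 0 ≤ ∫ α in (1 : ℝ)..ℓ, (ℓ - α) * RT T α := by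
      rw [intervalIntegral.integral_of_le hℓ.le]
      exact setIntegral_nonneg measurableSet_Ioc fun α hα =>
        mul_nonneg (by linarith [hα.2]) (RT_nonneg T α hT (by linarith [hα.1]))
    linarith
  push Not at hc0
  obtain ⟨η, Q, hη0, hη1, hQ, hwrap⟩ := wrap ((ℓ - 1) ^ 2 / 2 - 1 / 6) (4 * ℓ) ε ℓ ℓ hε hc0 (by linarith) hℓ.le
  have hQ0 : 0 < Q := by linarith
  filter_upwards [hwrap, eventually_gt_atTop 1, eventually_ge_atTop (2 * Q),
    lift_ev (star ℓ η hℓ.le hη0) (1 + η) Q (by linarith),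
    lift_ev (central (2 * ℓ) η (by linarith) hη0) (1 + η) Q (by linarith),
    lift_ev (La_ge ((1 + Real.log (2 * Q)) / η)) (1 + η) Q (by linarith)] with T h1 hT hTQ h2 h3 h4
  have hT0 : 0 < T := by linarith
  have hL : 0 < Real.log T := Real.log_pos hT
  rw [hcongr]
  have hQT : Q / T ≤ 1 / 2 := by rw [div_le_iff₀ hT0]; linarith
  have hG0 : ∀ v : ℝ, 0 ≤ max 0 (ℓ * Real.log T - |v|) := fun v => le_max_left _ _
  have hGK : ∀ v : ℝ, max 0 (ℓ * Real.log T - |v|) ≤ ℓ * Real.log T := fun v =>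
    max_le (by positivity) (by linarith [abs_nonneg v])
  refine h1 (fun α => max 0 (ℓ - |α|)) (fun v => max 0 (ℓ * Real.log T - |v|)) (by fun_prop) hG0
    (by fun_prop) (fun α => le_max_left _ _) (fun α => max_le (by linarith) (by linarith [abs_nonneg α]))
    (fun α hα => max_eq_left (by linarith [le_abs_self α])) ?_ ?_
  · intro α hα
    rw [abs_mul, abs_of_pos hL, mul_max_of_nonneg _ _ hL.le, mul_zero]
    congr 1; ring
  · intro κ hκ
    obtain ⟨g1, g2, g3, g4, g5, g6, g7⟩ := geo T (1 + η) Q κ hT.le (by linarith) hQT hκ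
    have k2 := h2 κ hκ
    have k3 := h3 κ hκ
    have k4 := h4 κ hκ
    rw [div_le_iff₀ hη0] at k4
    have hlogQ : Real.log Q ≤ Real.log (2 * Q) := Real.log_le_log hQ0 (by linarith)
    have hlog2Q : 0 ≤ Real.log (2 * Q) := Real.log_nonneg (by linarith)
    set Λ := La κ with hΛ
    set s := ss T κ with hs
    set Lt := Real.log T with hLt
    have hΛ0 : 0 < Λ := by nlinarith
    have hLt2 : Lt ≤ (1 + η) * Λ := by linarith
    set G' : ℝ → ℝ := fun v => max 0 (ℓ * Lt - |v + s|) with hG'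
    have hG'0 : ∀ v, 0 ≤ G' v := fun v => le_max_left _ _
    have hG'm : Measurable G' := by rw [hG']; fun_prop
    have hG'K : ∀ v, G' v ≤ ℓ * Lt := fun v => hGK (v + s)
    have hG'B : ∀ v, ℓ * Lt < v → G' v = 0 := fun v hv => max_eq_left (by linarith [le_abs_self (v + s)])
    have hint := fkG_int κ g1.le g2 G' hG'm hG'0 (ℓ * Lt) (ℓ * Lt) hG'K hG'B
    refine ⟨hint.integrableOn, ?_⟩
    -- the set
    have hb0 : 0 ≤ (ℓ - 2 * η) * Λ := mul_nonneg (by linarith) hΛ0.le
    have hvol : (volume (Icc 0 ((ℓ - 2 * η) * Λ))).toReal = (ℓ - 2 * η) * Λ := by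
      rw [Real.volume_Icc, sub_zero, ENNReal.toReal_ofReal hb0]
    have hstar := k2 (Icc 0 ((ℓ - 2 * η) * Λ)) measurableSet_Icc
      (Icc_subset_Icc_right (mul_le_mul_of_nonneg_right (by linarith) hΛ0.le)) G' hG'm hG'0 ?_ hint
    · rw [hvol] at hstar
      have hR1 : Λ ≤ ℓ * Lt := by nlinarith
      have hR2 : ℓ * Lt ≤ 2 * ℓ * Λ := by nlinarith
      have hcen := k3 (ℓ * Lt) hR1 hR2
      have htail := tail_low κ 1 (ℓ * Lt) _ g1 g2 zero_le_one hR1 G' hint (fun v hv => by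
        rw [one_mul]
        apply max_le
        · have : v ≤ ℓ * Lt := hv.trans hR1
          linarith
        · linarith [le_abs_self (v + s)]) hcen
      refine le_trans ?_ htail
      have hκΛ : 0 ≤ κ * Λ ^ 3 := by positivity
      have e1 : κ * (ℓ * Lt * Λ ^ 2 / 2 - Λ ^ 3 / 3) + η * κ * Λ ^ 3 ≤
          (ℓ * (1 + η) / 2 - 1 / 3 + η) * (κ * Λ ^ 3) := by
        have := mul_le_mul_of_nonneg_left hLt2 (by positivity : 0 ≤ κ * ℓ * Λ ^ 2 / 2)
        nlinarith
      have e2 : κ * Λ * ((ℓ - 2 * η) * Λ) ^ 2 = (ℓ - 2 * η) ^ 2 * (κ * Λ ^ 3) := by ring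
      have e3 : κ * Λ ^ 2 * ((ℓ - 2 * η) * Λ) = (ℓ - 2 * η) * (κ * Λ ^ 3) := by ring
      rw [e2, e3] at hstar
      have e4 : ((ℓ - 1) ^ 2 / 2 - 1 / 6 - 4 * ℓ * η) ≤
          ((ℓ - 2 * η) ^ 2 - (ℓ - 2 * η) - η) / 2 - (ℓ * (1 + η) / 2 - 1 / 3 + η) := by
        nlinarith [sq_nonneg η]
      have e5 := mul_le_mul_of_nonneg_right e4 hκΛ
      linarith
    · intro u v hu huv hGG
      have hGGle := GG_Icc_le ((ℓ - 2 * η) * Λ) u
      have hub : u < (ℓ - 2 * η) * Λ := by
        by_contra hc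
        push Not at hc
        rw [max_eq_right (by linarith)] at hGGle
        exact hGG (le_antisymm hGGle (GG_nn _ _))
      rw [max_eq_left (by linarith)] at hGGle
      have hv : |v + s| ≤ u + η * Λ + s := by
        have h5 := abs_add_le v s
        have h6 : |v| ≤ u + η * Λ := by
          have h7 := abs_sub_abs_le_abs_sub v u
          rw [abs_sub_comm v u, abs_of_nonneg hu] at h7
          linarith
        rw [abs_of_nonneg g5] at h5
        linarith
      have : ℓ * Lt - |v + s| ≤ G' v := le_max_right _ _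
      have h8 : ℓ * Λ ≤ ℓ * Lt := mul_le_mul_of_nonneg_left g3 (by linarith)
      linarith

end Pool.Agent.L5helper10.TV
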