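import Pool.Agent.L5helper10.TV.Rank
import Pool.Agent.H370R2.Defs2

/-! The rank inequality for Gaussian sums over a finite set of points. -/

set_option autoImplicit false

open MeasureTheory Finset Complex ComplexConjugate H370

namespace Pool.Agent.L5helper10.TV

/-- the Gaussian sum over a finite set with coefficients -/
noncomputable def FF (P : Finset ℂ) (c : ℂ → ℂ) (u t : ℝ) : ℂ := ∑ z ∈ P, c z * hh u t z

/-- measure of the points `v` of `S` with `v - u` in `S` -/
noncomputable def GG (S : Set ℝ) (u : ℝ) : ℝ := (volume {v : ℝ | v ∈ S ∧ v - u ∈ S}).toReal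

noncomputable def XX (z : ℂ) (c : ℂ → ℂ) (p : ℝ × ℝ) : ℂ :=
  c z * cexp (p.1 * (z - 1 / 2)) * cexp ((z - 1 / 2 - I * (2 * p.2)) ^ 2 / 4)

noncomputable def ZZ (z : ℂ) (p : ℝ × ℝ) : ℂ :=
  cexp (-(p.1 * (z - 1 / 2))) * cexp ((z - 1 / 2 - I * (2 * p.2)) ^ 2 / 4)

lemma XX_cont (z : ℂ) (c : ℂ → ℂ) : Continuous (XX z c) := by
  unfold XX; fun_prop

lemma ZZ_cont (z : ℂ) : Continuous (ZZ z) := by
  unfold ZZ; fun_prop

lemma ZX (z : ℂ) (c : ℂ → ℂ) (p : ℝ × ℝ) : ZZ z p * XX z c p = c z * hh 0 (2 * p.2) z := by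
  unfold ZZ XX hh
  rw [show cexp (-(p.1 * (z - 1 / 2))) * cexp ((z - 1 / 2 - I * (2 * p.2)) ^ 2 / 4) *
    (c z * cexp (p.1 * (z - 1 / 2)) * cexp ((z - 1 / 2 - I * (2 * p.2)) ^ 2 / 4)) =
    c z * (cexp (-(p.1 * (z - 1 / 2))) * cexp (p.1 * (z - 1 / 2)) *
      (cexp ((z - 1 / 2 - I * (2 * p.2)) ^ 2 / 4) * cexp ((z - 1 / 2 - I * (2 * p.2)) ^ 2 / 4))) by ring,
    ← Complex.exp_add, ← Complex.exp_add, ← Complex.exp_add, ← Complex.exp_add]
  congr 2
  push_cast
  ring

lemma XZ (z : ℂ) (c : ℂ → ℂ) (p q : ℝ × ℝ) : XX z c p * ZZ z q =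
    Real.exp (-(p.2 - q.2) ^ 2 / 2) * (c z * hh (p.1 - q.1) (p.2 + q.2) z) := by
  unfold ZZ XX hh
  rw [show c z * cexp (p.1 * (z - 1 / 2)) * cexp ((z - 1 / 2 - I * (2 * p.2)) ^ 2 / 4) *
    (cexp (-(q.1 * (z - 1 / 2))) * cexp ((z - 1 / 2 - I * (2 * q.2)) ^ 2 / 4)) =
    c z * (cexp (p.1 * (z - 1 / 2)) * cexp (-(q.1 * (z - 1 / 2))) *
      (cexp ((z - 1 / 2 - I * (2 * p.2)) ^ 2 / 4) * cexp ((z - 1 / 2 - I * (2 * q.2)) ^ 2 / 4))) by ring,
    ← Complex.exp_add, ← Complex.exp_add, ← Complex.exp_add, ofReal_exp]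
  rw [show cexp ((-(p.2 - q.2) ^ 2 / 2 : ℝ) : ℂ) * (c z * (cexp (((p.1 - q.1 : ℝ) : ℂ) * (z - 1 / 2)) *
    cexp ((z - 1 / 2 - I * ((p.2 + q.2 : ℝ) : ℂ)) ^ 2 / 2))) = c z * (cexp ((-(p.2 - q.2) ^ 2 / 2 : ℝ) : ℂ) *
    (cexp (((p.1 - q.1 : ℝ) : ℂ) * (z - 1 / 2)) *
    cexp ((z - 1 / 2 - I * ((p.2 + q.2 : ℝ) : ℂ)) ^ 2 / 2))) by ring,
    ← Complex.exp_add, ← Complex.exp_add]
  congr 2
  push_cast
  linear_combination ((1 / 2 : ℂ) * (p.2 - q.2) ^ 2) * I_sq

lemma FF_comp {α : Type*} [TopologicalSpace α] (P : Finset ℂ) (c : ℂ → ℂ) (x y : α → ℝ) (hx : Continuous x)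
    (hy : Continuous y) : Continuous (fun p => FF P c (x p) (y p)) := by
  unfold FF hh; fun_prop

lemma FF_cont (P : Finset ℂ) (c : ℂ → ℂ) : Continuous (fun p : ℝ × ℝ => FF P c p.1 p.2) := by
  unfold FF hh; fun_prop


lemma gauss_two (t : ℝ) : ∫⁻ s : ℝ, ENNReal.ofReal (Real.exp (-(2 * s - t) ^ 2)) =
    ENNReal.ofReal (Real.sqrt Real.pi / 2) := by
  have e : ∀ s : ℝ, Real.exp (-(2 * s - t) ^ 2) = (fun x : ℝ => Real.exp (-4 * x ^ 2)) (s - t / 2) := by
    intro s
    show _ = Real.exp (-4 * (s - t / 2) ^ 2)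
    congr 1; ring
  have hi : Integrable (fun x : ℝ => Real.exp (-4 * x ^ 2)) := integrable_exp_neg_mul_sq (by norm_num)
  simp_rw [e]
  rw [lintegral_sub_right_eq_self (fun x : ℝ => ENNReal.ofReal (Real.exp (-4 * x ^ 2))) (t / 2),
    ← ofReal_integral_eq_lintegral_ofReal hi (Filter.Eventually.of_forall fun x => (Real.exp_pos _).le),
    integral_gaussian]
  congr 1
  rw [Real.sqrt_div Real.pi_pos.le, show (4 : ℝ) = 2 ^ 2 by norm_num, Real.sqrt_sq (by norm_num)]

lemma inner_bound (a b : ℝ) (k : ℝ → ENNReal) (hk : Measurable k) :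
    ∫⁻ s in Set.Icc (a / 2) (b / 2), ∫⁻ s' in Set.Icc (a / 2) (b / 2),
      ENNReal.ofReal (Real.exp (-(s - s') ^ 2)) * k (s + s') ≤
    ENNReal.ofReal (Real.sqrt Real.pi / 2) * ∫⁻ t in Set.Icc a b, k t := by
  set K : ℝ → ENNReal := (Set.Icc a b).indicator k with hK
  have hKm : Measurable K := hk.indicator measurableSet_Icc
  calc ∫⁻ s in Set.Icc (a / 2) (b / 2), ∫⁻ s' in Set.Icc (a / 2) (b / 2),
      ENNReal.ofReal (Real.exp (-(s - s') ^ 2)) * k (s + s')
      ≤ ∫⁻ s in Set.Icc (a / 2) (b / 2), ∫⁻ s' in Set.Icc (a / 2) (b / 2),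
      ENNReal.ofReal (Real.exp (-(s - s') ^ 2)) * K (s + s') := by
        refine setLIntegral_mono' measurableSet_Icc fun s hs => ?_
        refine setLIntegral_mono' measurableSet_Icc fun s' hs' => ?_
        rw [hK, Set.indicator_of_mem]
        exact ⟨by linarith [hs.1, hs'.1], by linarith [hs.2, hs'.2]⟩
    _ ≤ ∫⁻ s, ∫⁻ s', ENNReal.ofReal (Real.exp (-(s - s') ^ 2)) * K (s + s') := by
        refine (setLIntegral_le_lintegral _ _).trans (lintegral_mono fun s => ?_)
        exact setLIntegral_le_lintegral _ _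
    _ = ∫⁻ s, ∫⁻ t, ENNReal.ofReal (Real.exp (-(2 * s - t) ^ 2)) * K t := by
        apply lintegral_congr
        intro s
        rw [← lintegral_add_left_eq_self (fun t => ENNReal.ofReal (Real.exp (-(2 * s - t) ^ 2)) * K t) s]
        apply lintegral_congr
        intro s'
        congr 3
        ring
    _ = ∫⁻ t, ∫⁻ s, ENNReal.ofReal (Real.exp (-(2 * s - t) ^ 2)) * K t := by
        apply lintegral_lintegral_swap
        apply Measurable.aemeasurable
        exact (ENNReal.measurable_ofReal.comp (by fun_prop)).mul (hKm.comp measurable_snd)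
    _ = ∫⁻ t, ENNReal.ofReal (Real.sqrt Real.pi / 2) * K t := by
        apply lintegral_congr
        intro t
        have hm : Measurable (fun s : ℝ => ENNReal.ofReal (Real.exp (-(2 * s - t) ^ 2))) :=
          ENNReal.measurable_ofReal.comp (by fun_prop)
        rw [lintegral_mul_const _ hm, gauss_two]
    _ = ENNReal.ofReal (Real.sqrt Real.pi / 2) * ∫⁻ t in Set.Icc a b, k t := by
        rw [lintegral_const_mul _ hKm, hK, lintegral_indicator measurableSet_Icc]

lemma GG_meas (S : Set ℝ) (hS : MeasurableSet S) : Measurable (fun u : ℝ => volume {v : ℝ | v ∈ S ∧ v - u ∈ S}) := by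
  have h : MeasurableSet {p : ℝ × ℝ | p.2 ∈ S ∧ p.2 - p.1 ∈ S} :=
    (measurable_snd hS).inter ((measurable_snd.sub measurable_fst) hS)
  exact measurable_measure_prodMk_left h

lemma double_int (S : Set ℝ) (hS : MeasurableSet S) (k : ℝ → ENNReal) (hk : Measurable k) :
    ∫⁻ v in S, ∫⁻ v' in S, k (v - v') = ∫⁻ u, volume {v : ℝ | v ∈ S ∧ v - u ∈ S} * k u := by
  have e1 : ∀ v : ℝ, ∫⁻ v' in S, k (v - v') = ∫⁻ u, S.indicator 1 (v - u) * k u := by
    intro v
    rw [← lintegral_indicator hS,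
      ← lintegral_sub_left_eq_self (fun v' => S.indicator (fun v' => k (v - v')) v') v]
    apply lintegral_congr
    intro u
    by_cases h : v - u ∈ S
    · rw [Set.indicator_of_mem h, Set.indicator_of_mem h]; simp
    · rw [Set.indicator_of_notMem h, Set.indicator_of_notMem h]; simp
  simp_rw [e1]
  rw [← lintegral_indicator hS]
  have e2 : ∀ v : ℝ, S.indicator (fun v => ∫⁻ u, S.indicator 1 (v - u) * k u) v =
      ∫⁻ u, S.indicator 1 v * (S.indicator 1 (v - u) * k u) := by
    intro v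
    by_cases h : v ∈ S
    · rw [Set.indicator_of_mem h, Set.indicator_of_mem h]; simp
    · rw [Set.indicator_of_notMem h, Set.indicator_of_notMem h]; simp
  simp_rw [e2]
  rw [lintegral_lintegral_swap]
  · apply lintegral_congr
    intro u
    have e3 : ∀ v : ℝ, S.indicator (1 : ℝ → ENNReal) v * (S.indicator 1 (v - u) * k u) =
        {v : ℝ | v ∈ S ∧ v - u ∈ S}.indicator 1 v * k u := by
      intro v
      by_cases h : v ∈ S
      · by_cases h2 : v - u ∈ S
        · rw [Set.indicator_of_mem h, Set.indicator_of_mem h2,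
            Set.indicator_of_mem (show v ∈ {v : ℝ | v ∈ S ∧ v - u ∈ S} from ⟨h, h2⟩)]
          simp
        · rw [Set.indicator_of_mem h, Set.indicator_of_notMem h2,
            Set.indicator_of_notMem (show v ∉ {v : ℝ | v ∈ S ∧ v - u ∈ S} from fun h3 => h2 h3.2)]
          simp
      · rw [Set.indicator_of_notMem h,
          Set.indicator_of_notMem (show v ∉ {v : ℝ | v ∈ S ∧ v - u ∈ S} from fun h3 => h h3.1)]
        simp
    simp_rw [e3]
    have hm : MeasurableSet {v : ℝ | v ∈ S ∧ v - u ∈ S} := hS.inter ((measurable_id.sub_const u) hS)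
    rw [lintegral_mul_const _ (measurable_one.indicator hm), lintegral_indicator_one hm]
  · apply Measurable.aemeasurable
    refine (Measurable.indicator measurable_one hS |>.comp measurable_fst).mul ?_
    exact ((Measurable.indicator measurable_one hS).comp (measurable_fst.sub measurable_snd)).mul
      (hk.comp measurable_snd)

theorem R_main (P : Finset ℂ) (c : ℂ → ℂ) (S : Set ℝ) (hS : MeasurableSet S) (R : ℝ) (hSR : S ⊆ Set.Icc 0 R)
    (a b : ℝ) (hab : a ≤ b) :
    (volume S).toReal ^ 2 * ‖∫ t in a..b, FF P c 0 t‖ ^ 2 ≤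
      2 * Real.sqrt Real.pi * P.card * ∫ u : ℝ, GG S u * ∫ t in a..b, ‖FF P c u t‖ ^ 2 := by
  set I0 : Set ℝ := Set.Icc (a / 2) (b / 2) with hI0
  have hI0m : MeasurableSet I0 := measurableSet_Icc
  set μ : Measure (ℝ × ℝ) := (volume.restrict S).prod (volume.restrict I0) with hμ
  have hSfin : volume S < ⊤ := (measure_mono hSR).trans_lt (by simp)
  have : IsFiniteMeasure (volume.restrict S) := ⟨by simpa using hSfin⟩
  have : IsFiniteMeasure (volume.restrict I0) := ⟨by simp [hI0]⟩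
  have hμr : μ = (volume : Measure (ℝ × ℝ)).restrict (S ×ˢ I0) := by
    rw [hμ, Measure.prod_restrict]; rfl
  have hmem : ∀ f : ℝ × ℝ → ℂ, Continuous f → MemLp f 2 μ := by
    intro f hf
    obtain ⟨C, hC⟩ := (isCompact_Icc (a := (0 : ℝ)) (b := R)).prod (isCompact_Icc (a := a / 2) (b := b / 2))
      |>.exists_bound_of_continuousOn hf.continuousOn
    apply MemLp.of_bound hf.aestronglyMeasurable C
    rw [hμr]
    refine ae_restrict_of_forall_mem (hS.prod hI0m) fun x hx => hC x ⟨hSR hx.1, hx.2⟩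
  have key := rank_measure μ P (fun z => XX z c) (fun z => ZZ z) (fun z => hmem _ (XX_cont z c))
    (fun z => hmem _ (ZZ_cont z))
  -- the trace
  have hint : ∀ z ∈ P, IntervalIntegrable (fun t : ℝ => c z * hh 0 t z) volume a b := by
    intro z _
    apply Continuous.intervalIntegrable
    unfold hh; fun_prop
  have htr : ∑ z ∈ P, ∫ p, ZZ z p * XX z c p ∂μ = ((volume S).toReal / 2 : ℝ) * ∫ t in a..b, FF P c 0 t := by
    have e1 : ∀ z ∈ P, ∫ p, ZZ z p * XX z c p ∂μ =
        ((volume S).toReal / 2 : ℝ) * ∫ t in a..b, c z * hh 0 t z := by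
      intro z _
      simp_rw [ZX]
      have e2 : ∫ p, c z * hh 0 (2 * p.2) z ∂μ =
          (∫ _ : ℝ, (1 : ℂ) ∂(volume.restrict S)) * ∫ s, c z * hh 0 (2 * s) z ∂(volume.restrict I0) := by
        rw [hμ, ← integral_prod_mul]
        simp
      rw [e2]
      have e3 : ∫ s, c z * hh 0 (2 * s) z ∂(volume.restrict I0) = (1 / 2 : ℂ) * ∫ t in a..b, c z * hh 0 t z := by
        rw [hI0, integral_Icc_eq_integral_Ioc, ← intervalIntegral.integral_of_le (by linarith)]
        have h4 := intervalIntegral.integral_comp_mul_left (a := a / 2) (b := b / 2)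
          (fun t : ℝ => c z * hh 0 t z) (two_ne_zero)
        rw [show (2 : ℝ) * (a / 2) = a by ring, show (2 : ℝ) * (b / 2) = b by ring] at h4
        rw [h4, real_smul]
        push_cast
        ring
      rw [e3]
      simp only [integral_const, MeasureTheory.measureReal_def, Measure.restrict_apply_univ, real_smul, mul_one]
      push_cast
      ring
    rw [sum_congr rfl e1, ← mul_sum]
    congr 1
    unfold FF
    rw [intervalIntegral.integral_finsetSum hint]
  rw [htr, norm_mul, norm_real, Real.norm_of_nonneg (by positivity)] at key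
  -- the Hilbert-Schmidt norm
  have hker : ∀ p : (ℝ × ℝ) × (ℝ × ℝ), ‖∑ z ∈ P, XX z c p.1 * ZZ z p.2‖ ^ 2 =
      Real.exp (-(p.1.2 - p.2.2) ^ 2) * ‖FF P c (p.1.1 - p.2.1) (p.1.2 + p.2.2)‖ ^ 2 := by
    intro p
    simp_rw [XZ]
    rw [← mul_sum]
    rw [norm_mul, norm_real, Real.norm_of_nonneg (Real.exp_pos _).le, mul_pow, ← Real.exp_nat_mul]
    unfold FF
    congr 2
    push_cast
    ring
  simp_rw [hker] at key
  have hFFc : Continuous (fun p : (ℝ × ℝ) × (ℝ × ℝ) => ‖FF P c (p.1.1 - p.2.1) (p.1.2 + p.2.2)‖ ^ 2) := by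
    exact (FF_comp P c (fun p : (ℝ × ℝ) × (ℝ × ℝ) => p.1.1 - p.2.1) (fun p => p.1.2 + p.2.2)
      (by fun_prop) (by fun_prop)).norm.pow 2
  have hFF2 : Continuous (fun p : ℝ × ℝ => ‖FF P c p.1 p.2‖ ^ 2) := (FF_cont P c).norm.pow 2
  set f : (ℝ × ℝ) × (ℝ × ℝ) → ℝ := fun p =>
    Real.exp (-(p.1.2 - p.2.2) ^ 2) * ‖FF P c (p.1.1 - p.2.1) (p.1.2 + p.2.2)‖ ^ 2 with hf
  have hfc : Continuous f := by
    apply Continuous.mul _ hFFc
    fun_prop
  have hfn : ∀ p, 0 ≤ f p := fun p => mul_nonneg (Real.exp_pos _).le (by positivity)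
  -- the inner function
  set E : ℝ → ℝ := fun u => ∫ t in a..b, ‖FF P c u t‖ ^ 2 with hE
  have hEc : Continuous E := intervalIntegral.continuous_parametric_intervalIntegral_of_continuous'
    (by exact hFF2) a b
  have hEn : ∀ u, 0 ≤ E u := fun u => intervalIntegral.integral_nonneg hab fun t _ => by positivity
  have hk2 : ∀ u, ∫⁻ t in Set.Icc a b, ENNReal.ofReal (‖FF P c u t‖ ^ 2) = ENNReal.ofReal (E u) := by
    intro u
    have hc1 : Continuous (fun t : ℝ => ‖FF P c u t‖ ^ 2) :=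
      (FF_comp P c (fun _ : ℝ => u) (fun t => t) (by fun_prop) (by fun_prop)).norm.pow 2
    rw [hE]
    simp only
    rw [intervalIntegral.integral_of_le hab, ← integral_Icc_eq_integral_Ioc,
      ofReal_integral_eq_lintegral_ofReal (hc1.continuousOn.integrableOn_Icc)
        (Filter.Eventually.of_forall fun t => by positivity)]
  have hL : ∫⁻ p, ENNReal.ofReal (f p) ∂(μ.prod μ) ≤
      ENNReal.ofReal (Real.sqrt Real.pi / 2) * ∫⁻ u, volume {v : ℝ | v ∈ S ∧ v - u ∈ S} * ENNReal.ofReal (E u) := by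
    have hfm : Measurable (fun p => ENNReal.ofReal (f p)) := ENNReal.measurable_ofReal.comp hfc.measurable
    rw [lintegral_prod _ hfm.aemeasurable, hμ]
    rw [lintegral_prod _ (by
      apply Measurable.aemeasurable
      exact hfm.lintegral_prod_right')]
    have e1 : ∀ v s : ℝ, ∫⁻ q, ENNReal.ofReal (f ((v, s), q)) ∂((volume.restrict S).prod (volume.restrict I0)) =
        ∫⁻ v' in S, ∫⁻ s' in I0, ENNReal.ofReal (f ((v, s), (v', s'))) := by
      intro v s
      have hm0 : Measurable (fun q : ℝ × ℝ => ENNReal.ofReal (f ((v, s), q))) := hfm.comp measurable_prodMk_left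
      rw [lintegral_prod _ hm0.aemeasurable]
    simp_rw [e1]
    have e2 : ∀ v : ℝ, ∫⁻ s in I0, ∫⁻ v' in S, ∫⁻ s' in I0, ENNReal.ofReal (f ((v, s), (v', s'))) =
        ∫⁻ v' in S, ∫⁻ s in I0, ∫⁻ s' in I0, ENNReal.ofReal (f ((v, s), (v', s'))) := by
      intro v
      apply lintegral_lintegral_swap
      apply Measurable.aemeasurable
      have : Measurable (fun x : (ℝ × ℝ) × ℝ => ENNReal.ofReal (f ((v, x.1.1), (x.1.2, x.2)))) :=
        hfm.comp (by fun_prop)
      exact this.lintegral_prod_right'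
    simp_rw [e2]
    have e3 : ∀ v v' : ℝ, ∫⁻ s in I0, ∫⁻ s' in I0, ENNReal.ofReal (f ((v, s), (v', s'))) ≤
        ENNReal.ofReal (Real.sqrt Real.pi / 2) * ENNReal.ofReal (E (v - v')) := by
      intro v v'
      rw [← hk2]
      have hm : Measurable (fun t : ℝ => ENNReal.ofReal (‖FF P c (v - v') t‖ ^ 2)) :=
        ENNReal.measurable_ofReal.comp
          ((FF_comp P c (fun _ : ℝ => v - v') (fun t => t) (by fun_prop) (by fun_prop)).norm.pow 2).measurable
      refine le_trans (le_of_eq ?_) (inner_bound a b _ hm)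
      simp only [hf]
      simp_rw [ENNReal.ofReal_mul (Real.exp_pos _).le]
      rfl
    calc ∫⁻ v in S, ∫⁻ v' in S, ∫⁻ s in I0, ∫⁻ s' in I0, ENNReal.ofReal (f ((v, s), (v', s')))
        ≤ ∫⁻ v in S, ∫⁻ v' in S, ENNReal.ofReal (Real.sqrt Real.pi / 2) * ENNReal.ofReal (E (v - v')) :=
          lintegral_mono fun v => lintegral_mono fun v' => e3 v v'
      _ = ENNReal.ofReal (Real.sqrt Real.pi / 2) * ∫⁻ v in S, ∫⁻ v' in S, ENNReal.ofReal (E (v - v')) := by
          have hEm : Measurable (fun u => ENNReal.ofReal (E u)) := ENNReal.measurable_ofReal.comp hEc.measurable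
          rw [← lintegral_const_mul]
          · apply lintegral_congr
            intro v
            rw [lintegral_const_mul]
            exact hEm.comp (by fun_prop)
          · have : Measurable (fun x : ℝ × ℝ => ENNReal.ofReal (E (x.1 - x.2))) := hEm.comp (by fun_prop)
            exact this.lintegral_prod_right'
      _ = _ := by
          have hEm : Measurable (fun u => ENNReal.ofReal (E u)) := ENNReal.measurable_ofReal.comp hEc.measurable
          rw [double_int S hS (fun u => ENNReal.ofReal (E u)) hEm]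
  have hvol : ∀ u, volume {v : ℝ | v ∈ S ∧ v - u ∈ S} = ENNReal.ofReal (GG S u) := by
    intro u
    rw [GG, ENNReal.ofReal_toReal]
    exact ((measure_mono (fun v hv => hv.1)).trans_lt hSfin).ne
  have hGGm : Measurable (GG S) := (GG_meas S hS).ennreal_toReal
  have hGGn : ∀ u, 0 ≤ GG S u := fun u => ENNReal.toReal_nonneg
  have hGGle : ∀ u, GG S u ≤ (volume S).toReal := fun u =>
    ENNReal.toReal_mono hSfin.ne (measure_mono fun v hv => hv.1)
  have hGG0 : ∀ u, u ∉ Set.Icc (-R) R → GG S u = 0 := by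
    intro u hu
    have : {v : ℝ | v ∈ S ∧ v - u ∈ S} = ∅ := by
      ext v
      simp only [Set.mem_ofPred_eq, Set.mem_empty_iff_false, iff_false]
      rintro ⟨h1, h2⟩
      have h3 := hSR h1
      have h4 := hSR h2
      exact hu ⟨by linarith [h3.1, h4.2], by linarith [h3.2, h4.1]⟩
    rw [GG, this]
    simp
  have hint2 : Integrable (fun u => GG S u * E u) := by
    obtain ⟨C, hC⟩ := (isCompact_Icc (a := -R) (b := R)).exists_bound_of_continuousOn hEc.continuousOn
    have h1 : IntegrableOn (fun u => GG S u * E u) (Set.Icc (-R) R) := by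
      apply Measure.integrableOn_of_bounded (M := (volume S).toReal * C) (by simp)
        (hGGm.mul hEc.measurable).aestronglyMeasurable
      refine ae_restrict_of_forall_mem measurableSet_Icc fun u hu => ?_
      show ‖GG S u * E u‖ ≤ _
      rw [norm_mul, Real.norm_of_nonneg (hGGn u)]
      exact mul_le_mul (hGGle u) (hC u hu) (norm_nonneg _) ENNReal.toReal_nonneg
    rw [← integrableOn_univ]
    apply h1.of_forall_sdiff_eq_zero MeasurableSet.univ
    intro u hu
    rw [hGG0 u hu.2, zero_mul]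
  have hfin : ∫⁻ p, ENNReal.ofReal (f p) ∂(μ.prod μ) ≤
      ENNReal.ofReal (Real.sqrt Real.pi / 2 * ∫ u, GG S u * E u) := by
    refine hL.trans (le_of_eq ?_)
    rw [ENNReal.ofReal_mul (by positivity), ofReal_integral_eq_lintegral_ofReal hint2
      (Filter.Eventually.of_forall fun u => mul_nonneg (hGGn u) (hEn u))]
    congr 1
    apply lintegral_congr
    intro u
    rw [hvol, ENNReal.ofReal_mul (hGGn u)]
  have hI : ∫ p, f p ∂(μ.prod μ) ≤ Real.sqrt Real.pi / 2 * ∫ u, GG S u * E u := by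
    rw [integral_eq_lintegral_of_nonneg_ae (Filter.Eventually.of_forall hfn) hfc.aestronglyMeasurable]
    apply ENNReal.toReal_le_of_le_ofReal _ hfin
    apply mul_nonneg (by positivity)
    exact integral_nonneg fun u => mul_nonneg (hGGn u) (hEn u)
  have hk3 := key.trans (mul_le_mul_of_nonneg_left hI (Nat.cast_nonneg _))
  have e9 : ((volume S).toReal / 2 * ‖∫ t in a..b, FF P c 0 t‖) ^ 2 =
    (volume S).toReal ^ 2 * ‖∫ t in a..b, FF P c 0 t‖ ^ 2 / 4 := by ring
  rw [e9] at hk3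
  linarith

end Pool.Agent.L5helper10.TV
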