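import Pool.Agent.L5helper10.TV.Cnt
import Pool.Agent.L5helper10.TV.RMain
import Pool.Agent.H370R2.PC2

/-! The rank inequality for the zeros in a block of heights. -/

set_option autoImplicit false

open Complex Filter Topology Set MeasureTheory H370 ComplexConjugate

namespace Pool.Agent.L5helper10.TV

/-- the weight of a zero -/
noncomputable def wt (κ : ℝ) (z : ℂ) : ℂ :=
  2 * (Real.cosh (κ / 2) : ℂ) - cexp (κ * (z - 1 / 2)) - cexp (-(κ * (z - 1 / 2)))

/-- the coefficient of a zero -/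
noncomputable def cF (κ : ℝ) (z : ℂ) : ℂ := (mult riemannZeta z : ℂ) * wt κ z

/-- the zeros of the block -/
noncomputable def PB (κ x y : ℝ) : Finset ℂ := Zf riemannZeta (x / κ - La κ) (y / κ + La κ)

/-- the zero sum of the block -/
noncomputable def FB (κ x y u t : ℝ) : ℂ := FF (PB κ x y) (cF κ) u t

lemma hh_shift (κ u t : ℝ) (z : ℂ) : hh (u + κ) t z = cexp (κ * (z - 1 / 2)) * hh u t z := by
  unfold hh
  rw [← mul_assoc, ← Complex.exp_add (κ * (z - 1 / 2)) (u * (z - 1 / 2))]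
  congr 2
  push_cast; ring

lemma hh_shift' (κ u t : ℝ) (z : ℂ) : hh (u - κ) t z = cexp (-(κ * (z - 1 / 2))) * hh u t z := by
  unfold hh
  rw [← mul_assoc, ← Complex.exp_add (-(κ * (z - 1 / 2))) (u * (z - 1 / 2))]
  congr 2
  push_cast; ring

lemma FB_eq (κ x y u t : ℝ) (h : 1 ≤ x / κ - La κ) : FB κ x y u t =
    2 * (Real.cosh (κ / 2) : ℂ) * AA riemannZeta (x / κ - La κ) (y / κ + La κ) u t -
      AA riemannZeta (x / κ - La κ) (y / κ + La κ) (u + κ) t -
      AA riemannZeta (x / κ - La κ) (y / κ + La κ) (u - κ) t := by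
  unfold FB FF PB cF wt
  rw [AA_eq good_zeta h, AA_eq good_zeta h, AA_eq good_zeta h, Finset.mul_sum, ← Finset.sum_sub_distrib,
    ← Finset.sum_sub_distrib]
  apply Finset.sum_congr rfl
  intro z _
  rw [hh_shift, hh_shift']
  ring

lemma wt_refl (κ : ℝ) (z : ℂ) : wt κ (1 - conj z) = conj (wt κ z) := by
  unfold wt
  rw [map_sub, map_sub, map_mul, ← Complex.exp_conj, ← Complex.exp_conj, Complex.conj_ofReal]
  simp only [map_mul, map_neg, map_sub, Complex.conj_ofReal, map_div₀, map_one, Complex.conj_ofNat]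
  have e1 : (κ : ℂ) * (1 - conj z - 1 / 2) = -(κ * (conj z - 1 / 2)) := by ring
  rw [e1, neg_neg]
  ring

lemma hh_refl (u t : ℝ) (z : ℂ) : hh (-u) t (1 - conj z) = conj (hh u t z) := by
  rw [hh_conj, hh_eq, zz_refl]
  congr 2
  push_cast; ring

lemma FB_neg (κ x y u t : ℝ) (h : 1 ≤ x / κ - La κ) : FB κ x y (-u) t = conj (FB κ x y u t) := by
  unfold FB FF
  rw [map_sum]
  have h1 := sum_refl good_zeta (U2 := y / κ + La κ) h (fun z => cF κ z * hh (-u) t z)
  unfold PB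
  rw [← h1]
  apply Finset.sum_congr rfl
  intro z hz
  rw [mem_Zf good_zeta h] at hz
  rw [hh_refl]
  unfold cF
  rw [mult_refl good_zeta hz.1 hz.2.1 (by linarith [hz.2.2.1]), wt_refl]
  simp

lemma wt_re (κ : ℝ) (hκ : 0 ≤ κ) (z : ℂ) (h0 : 0 < z.re) (h1 : z.re < 1) :
    2 - 2 * Real.cos (κ * z.im) ≤ (wt κ z).re := by
  have hre : (wt κ z).re = 2 * Real.cosh (κ / 2) - 2 * (Real.cosh (κ * (z.re - 1 / 2)) * Real.cos (κ * z.im)) := by
    unfold wt
    have e1 : ((κ : ℂ) * (z - 1 / 2)).re = κ * (z.re - 1 / 2) := by simp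
    have e2 : ((κ : ℂ) * (z - 1 / 2)).im = κ * z.im := by simp
    have e3 : (-((κ : ℂ) * (z - 1 / 2))).re = -(κ * (z.re - 1 / 2)) := by rw [neg_re, e1]
    have e4 : (-((κ : ℂ) * (z - 1 / 2))).im = -(κ * z.im) := by rw [neg_im, e2]
    rw [sub_re, sub_re, Complex.exp_re, Complex.exp_re, e1, e2, e3, e4, Real.cos_neg, Real.cosh_eq (κ * (z.re - 1 / 2))]
    have e5 : (2 * (Real.cosh (κ / 2) : ℂ)).re = 2 * Real.cosh (κ / 2) := by
      rw [show (2 : ℂ) = ((2 : ℝ) : ℂ) by push_cast; rfl, re_ofReal_mul, ofReal_re]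
    rw [e5]
    ring
  rw [hre]
  have h2 : Real.cosh (κ * (z.re - 1 / 2)) ≤ Real.cosh (κ / 2) := by
    rw [Real.cosh_le_cosh, abs_mul, abs_of_nonneg hκ, abs_of_nonneg (show 0 ≤ κ / 2 by linarith)]
    have : |z.re - 1 / 2| ≤ 1 / 2 := by rw [abs_le]; constructor <;> linarith
    nlinarith
  have h3 := Real.one_le_cosh (κ * (z.re - 1 / 2))
  have h4 := Real.cos_le_one (κ * z.im)
  nlinarith

lemma wt_norm (κ : ℝ) (hκ : 0 ≤ κ) (hκ1 : κ ≤ 1) (z : ℂ) (h0 : 0 < z.re) (h1 : z.re < 1) : ‖wt κ z‖ ≤ 8 := by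
  unfold wt
  have h2 : ‖cexp (κ * (z - 1 / 2))‖ ≤ 2 := by
    rw [Complex.norm_exp]
    have e1 : ((κ : ℂ) * (z - 1 / 2)).re = κ * (z.re - 1 / 2) := by simp
    rw [e1]
    refine le_trans (Real.exp_le_exp.2 ?_) exp_half_le
    nlinarith
  have h3 : ‖cexp (-(κ * (z - 1 / 2)))‖ ≤ 2 := by
    rw [Complex.norm_exp]
    have e1 : (-((κ : ℂ) * (z - 1 / 2))).re = -(κ * (z.re - 1 / 2)) := by simp
    rw [e1]
    refine le_trans (Real.exp_le_exp.2 ?_) exp_half_le
    nlinarith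
  have h4 : ‖(2 : ℂ) * (Real.cosh (κ / 2) : ℂ)‖ ≤ 4 := by
    rw [norm_mul, Complex.norm_real, Real.norm_of_nonneg (Real.cosh_pos _).le, Complex.norm_ofNat]
    have h5 : Real.cosh (κ / 2) ≤ 2 := by
      rw [Real.cosh_eq]
      have a1 : Real.exp (κ / 2) ≤ 2 := le_trans (Real.exp_le_exp.2 (by linarith)) exp_half_le
      have a2 : Real.exp (-(κ / 2)) ≤ 2 := le_trans (Real.exp_le_exp.2 (by linarith)) exp_half_le
      linarith
    linarith
  calc _ ≤ ‖(2 : ℂ) * (Real.cosh (κ / 2) : ℂ)‖ + ‖cexp (κ * (z - 1 / 2))‖ + ‖cexp (-(κ * (z - 1 / 2)))‖ :=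
        (norm_sub_le _ _).trans (add_le_add_left (norm_sub_le _ _) _)
    _ ≤ 8 := by linarith

lemma hh_cont_t (u : ℝ) (z : ℂ) : Continuous (fun t : ℝ => hh u t z) := by
  unfold hh; fun_prop

lemma hh0_norm (z : ℂ) (h0 : 0 < z.re) (h1 : z.re < 1) (t : ℝ) :
    ‖hh 0 t z‖ ≤ 2 * Real.exp (-(t - z.im) ^ 2 / 2) := by
  rw [pc_norm_hh]
  rw [zero_mul, Real.exp_zero, one_mul]
  have h3 : Real.exp (((z.re - 1 / 2) ^ 2 - (z.im - t) ^ 2) / 2) =
      Real.exp ((z.re - 1 / 2) ^ 2 / 2) * Real.exp (-(t - z.im) ^ 2 / 2) := by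
    rw [← Real.exp_add]; congr 1; ring
  rw [h3]
  apply mul_le_mul_of_nonneg_right _ (Real.exp_pos _).le
  refine le_trans (Real.exp_le_exp.2 ?_) exp_half_le
  nlinarith

lemma hh0_full (z : ℂ) : ∫ t : ℝ, hh 0 t z = (Real.sqrt (2 * Real.pi) : ℂ) := by
  rw [← gauss_single (zz z)]
  apply integral_congr_ae
  refine Eventually.of_forall fun t => ?_
  simp only
  rw [hh_eq]
  simp

lemma le_one_ev : ∀ᶠ κ in 𝓝[>] (0 : ℝ), κ ≤ 1 := by
  apply eventually_nhdsWithin_of_eventually_nhds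
  exact eventually_le_nhds (by norm_num)

/-- the trace -/
theorem trace_block (x y ε : ℝ) (hx : 0 < x) (hxy : x < y) (hy1 : y - x ≤ 1) (hε : 0 < ε) (hε1 : ε ≤ 1) :
    ∀ᶠ κ in 𝓝[>] (0 : ℝ),
    Real.sqrt (2 * Real.pi) * (2 - 2 * Real.cos x - 2 * (y - x) - ε) * ((y - x) * La κ / (2 * Real.pi * κ)) ≤
      (∫ t in (x / κ)..(y / κ), FB κ x y 0 t).re := by
  classical
  have hpi := Real.pi_gt_three
  have hpi4 := Real.pi_le_four
  set ε' : ℝ := ε / 200 with hε'
  have hε'0 : 0 < ε' := by positivity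
  have hy : 0 < y := by linarith
  have evt : ∀ᶠ κ in 𝓝[>] (0 : ℝ), 8 * (2 * (4 * Real.exp (-(La κ) ^ 2 / 4))) ≤ ε / 4 := by
    have h1 : Tendsto (fun κ => Real.exp (-(La κ))) (𝓝[>] (0 : ℝ)) (𝓝 0) :=
      Real.tendsto_exp_neg_atTop_nhds_zero.comp La_tendsto
    have h2 := h1.eventually_le_const (show (0 : ℝ) < ε / 256 by positivity)
    filter_upwards [h2, La_ge 4] with κ h3 h4
    have : Real.exp (-(La κ) ^ 2 / 4) ≤ Real.exp (-(La κ)) := Real.exp_le_exp.2 (by nlinarith)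
    linarith
  filter_upwards [nn_block x y ε' hx hxy hε'0, evt, La_small (x / 2) 1 (by positivity) 1,
    La_small ((y - x) / 4) 1 (by linarith) 1, La_ge 1, self_mem_nhdsWithin,
    La_small (x / 2) 1 (by positivity) 0, le_one_ev]
    with κ hN hexp h1 h2 h3 h4 h5 hκ1
  have hκ : 0 < κ := h4
  rw [pow_one, one_mul] at h1 h2
  rw [pow_zero, one_mul] at h5
  obtain ⟨hN1, hN2⟩ := hN
  set L := La κ with hL
  set D := (y - x) * L / (2 * Real.pi * κ) with hD
  have hD0 : 0 ≤ D := div_nonneg (mul_nonneg (by linarith) (by linarith)) (by positivity)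
  set a := x / κ with ha
  set b := y / κ with hb
  have hab : a ≤ b := div_le_div_of_nonneg_right hxy.le hκ.le
  have ha2 : x / 2 / κ = a / 2 := by rw [ha]; ring
  have hb4 : (y - x) / 4 / κ = (b - a) / 4 := by rw [ha, hb]; ring
  rw [ha2] at h1 h5
  rw [hb4] at h2
  have haL : 1 ≤ a - L := by linarith
  have haL2 : 1 ≤ a + L := by linarith
  set P := PB κ x y with hP
  have hPdef : P = Zf riemannZeta (a - L) (b + L) := rfl
  set Pi := Zf riemannZeta (a + L) (b - L) with hPi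
  have hsub : Pi ⊆ P := by
    intro s hs
    rw [hPi, mem_Zf good_zeta haL2] at hs
    rw [hPdef, mem_Zf good_zeta haL]
    exact zset_mono riemannZeta (by linarith) (by linarith) hs
  have hmem : ∀ z ∈ P, 0 < z.re ∧ z.re < 1 := by
    intro z hz
    rw [hPdef, mem_Zf good_zeta haL] at hz
    exact ⟨hz.1, hz.2.1⟩
  set Iz : ℂ → ℂ := fun z => ∫ t in a..b, hh 0 t z with hIz
  have hsum : (∫ t in a..b, FB κ x y 0 t) = ∑ z ∈ P, cF κ z * Iz z := by
    unfold FB FF
    rw [intervalIntegral.integral_finsetSum]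
    · apply Finset.sum_congr rfl
      intro z _
      rw [hIz, ← intervalIntegral.integral_const_mul]
    · intro z _
      exact (continuous_const.mul (hh_cont_t 0 z)).intervalIntegrable _ _
  rw [hsum, Complex.re_sum]
  have hIz8 : ∀ z ∈ P, ‖Iz z‖ ≤ 8 := by
    intro z hz
    have := int_bound (f := fun t => hh 0 t z) (K := 2) (t := z.im) hab (by norm_num)
      (fun v _ => hh0_norm z (hmem z hz).1 (hmem z hz).2 v)
    refine this.trans (by norm_num)
  have hall : ∀ z ∈ P, -(64 * (mult riemannZeta z : ℝ)) ≤ (cF κ z * Iz z).re := by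
    intro z hz
    have hn : ‖cF κ z * Iz z‖ ≤ 64 * (mult riemannZeta z : ℝ) := by
      rw [norm_mul, cF, norm_mul, Complex.norm_natCast]
      have a1 := wt_norm κ hκ.le hκ1 z (hmem z hz).1 (hmem z hz).2
      have a2 := hIz8 z hz
      have a3 : (0 : ℝ) ≤ mult riemannZeta z := Nat.cast_nonneg _
      calc (mult riemannZeta z : ℝ) * ‖wt κ z‖ * ‖Iz z‖ ≤ (mult riemannZeta z : ℝ) * 8 * 8 := by gcongr
        _ = _ := by ring
    have := (Complex.abs_re_le_norm (cF κ z * Iz z)).trans hn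
    exact (abs_le.1 this).1
  set V0 : ℝ := 2 - 2 * Real.cos x - 2 * (y - x) with hV0
  set w := Real.sqrt (2 * Real.pi) with hw
  have hw1 : 1 ≤ w := by rw [hw, Real.one_le_sqrt]; linarith
  have hw3 : w ≤ 3 := by
    rw [hw, Real.sqrt_le_left (by norm_num)]; linarith
  have hint : ∀ z ∈ Pi, (mult riemannZeta z : ℝ) * (w * V0 - ε / 4) ≤ (cF κ z * Iz z).re := by
    intro z hz
    have hzP := hmem z (hsub hz)
    rw [hPi, mem_Zf good_zeta haL2] at hz
    have hlow : a + L ≤ z.im := hz.2.2.1.le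
    have hup : z.im ≤ b - L := hz.2.2.2.1
    have hI : ‖(w : ℂ) - Iz z‖ ≤ 2 * (4 * Real.exp (-L ^ 2 / 4)) := by
      have := tail_bound (f := fun t => hh 0 t z) (hh_cont_t 0 z).aestronglyMeasurable (K := 2) (t := z.im)
        (W := L) (U1 := a) (U2 := b) (by norm_num) (hh0_norm z hzP.1 hzP.2) (by linarith) (by linarith) (by linarith)
      rwa [hh0_full] at this
    have hre := wt_re κ hκ.le z hzP.1 hzP.2
    have hcos : V0 ≤ 2 - 2 * Real.cos (κ * z.im) := by
      have e1 : x ≤ κ * z.im := by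
        have : a ≤ z.im := by linarith
        rw [ha, div_le_iff₀ hκ] at this
        linarith
      have e2 : κ * z.im ≤ y := by
        have : z.im ≤ b := by linarith
        rw [hb, le_div_iff₀ hκ] at this
        linarith
      have e3 : |Real.cos (κ * z.im) - Real.cos x| ≤ |κ * z.im - x| := by
        have := Real.abs_cos_sub_cos_le (κ * z.im) x
        exact this
      rw [abs_of_nonneg (by linarith : 0 ≤ κ * z.im - x)] at e3
      have e4 := (abs_le.1 e3).2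
      rw [hV0]; linarith
    have hmul : (cF κ z * Iz z).re = (mult riemannZeta z : ℝ) * ((wt κ z).re * w - (wt κ z * ((w : ℂ) - Iz z)).re) := by
      have e5 : cF κ z * Iz z = ((mult riemannZeta z : ℝ) : ℂ) * (wt κ z * (w : ℂ) - wt κ z * ((w : ℂ) - Iz z)) := by
        unfold cF; push_cast; ring
      rw [e5, Complex.re_ofReal_mul, Complex.sub_re, Complex.re_mul_ofReal]
    rw [hmul]
    apply mul_le_mul_of_nonneg_left _ (Nat.cast_nonneg _)
    have e6 : (wt κ z * ((w : ℂ) - Iz z)).re ≤ ε / 4 := by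
      refine (Complex.re_le_norm _).trans ?_
      rw [norm_mul]
      calc ‖wt κ z‖ * ‖(w : ℂ) - Iz z‖ ≤ 8 * (2 * (4 * Real.exp (-L ^ 2 / 4))) :=
            mul_le_mul (wt_norm κ hκ.le hκ1 z hzP.1 hzP.2) hI (norm_nonneg _) (by norm_num)
        _ ≤ ε / 4 := hexp
    have e7 : V0 * w ≤ (wt κ z).re * w := mul_le_mul_of_nonneg_right (hcos.trans hre) (by linarith)
    linarith
  rw [← Finset.sum_sdiff hsub]
  have hNNP : (NN riemannZeta (a - L) (b + L) : ℝ) = ∑ z ∈ P, (mult riemannZeta z : ℝ) := by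
    rw [NN_eq good_zeta haL]; push_cast; rfl
  have hNNPi : (NN riemannZeta (a + L) (b - L) : ℝ) = ∑ z ∈ Pi, (mult riemannZeta z : ℝ) := by
    rw [NN_eq good_zeta haL2]; push_cast; rfl
  have hsd : ∑ z ∈ P \ Pi, (mult riemannZeta z : ℝ) = NN riemannZeta (a - L) (b + L) - NN riemannZeta (a + L) (b - L) := by
    rw [hNNP, hNNPi, ← Finset.sum_sdiff hsub]; ring
  have s1 : -(64 * (NN riemannZeta (a - L) (b + L) - NN riemannZeta (a + L) (b - L) : ℝ)) ≤
      ∑ z ∈ P \ Pi, (cF κ z * Iz z).re := by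
    rw [← hsd, Finset.mul_sum, ← Finset.sum_neg_distrib]
    exact Finset.sum_le_sum fun z hz => hall z (Finset.sdiff_subset hz)
  have s2 : (NN riemannZeta (a + L) (b - L) : ℝ) * (w * V0 - ε / 4) ≤ ∑ z ∈ Pi, (cF κ z * Iz z).re := by
    rw [hNNPi, Finset.sum_mul]
    exact Finset.sum_le_sum hint
  set N1 : ℝ := ((NN riemannZeta (a - L) (b + L) : ℕ) : ℝ) with hN1d
  set N2 : ℝ := ((NN riemannZeta (a + L) (b - L) : ℕ) : ℝ) with hN2d
  have hN21 : N2 ≤ N1 := by
    have h0 : (0 : ℝ) ≤ ∑ z ∈ P \ Pi, (mult riemannZeta z : ℝ) := Finset.sum_nonneg fun _ _ => Nat.cast_nonneg _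
    rw [hsd] at h0
    linarith
  have hc1 := Real.neg_one_le_cos x
  have hc2 := Real.cos_le_one x
  have hV4 : V0 ≤ 4 := by rw [hV0]; linarith
  have hV4' : -2 ≤ V0 := by rw [hV0]; linarith
  have hwV : |w * V0 - ε / 4| ≤ 13 := by
    rw [abs_le]; constructor <;> nlinarith
  have hfin : D * (w * V0 - ε / 4) - ε' * D * 13 ≤ N2 * (w * V0 - ε / 4) := by
    have e1 : |N2 - D| ≤ ε' * D := by
      rw [abs_le]; constructor <;> linarith
    have e2 : |(N2 - D) * (w * V0 - ε / 4)| ≤ ε' * D * 13 := by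
      rw [abs_mul]
      exact mul_le_mul e1 hwV (abs_nonneg _) (by positivity)
    have e3 := (abs_le.1 e2).1
    nlinarith
  have hlast : w * (V0 - ε) * D ≤ D * (w * V0 - ε / 4) - ε' * D * 13 - 64 * (2 * ε' * D) := by
    have e1 : 141 * ε' ≤ ε * (3 / 4) := by rw [hε']; linarith
    have e2 : w * (V0 - ε) + ε / 4 + ε' * 13 + 128 * ε' ≤ w * V0 := by nlinarith
    nlinarith
  have e9 : N1 - N2 ≤ 2 * ε' * D := by linarith
  have hV0' : 2 - 2 * Real.cos x - 2 * (y - x) - ε = V0 - ε := by rw [hV0]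
  linarith

lemma PB_card (κ x y : ℝ) (h : 1 ≤ x / κ - La κ) :
    ((PB κ x y).card : ℝ) ≤ NN riemannZeta (x / κ - La κ) (y / κ + La κ) := by
  have h1 := Loc.card_le_NN good_zeta (x / κ - La κ) (y / κ + La κ) h
  have h2 : PB κ x y = (zset_finite good_zeta (x / κ - La κ) (y / κ + La κ) h).toFinset := by
    ext s
    unfold PB
    rw [mem_Zf good_zeta h, Set.Finite.mem_toFinset]
  rw [h2]
  exact_mod_cast h1

/-- the rank inequality in a block -/
theorem block_main (x y ε : ℝ) (hx : 0 < x) (hxy : x < y) (hy1 : y - x ≤ 1) (hε : 0 < ε) (hε1 : ε ≤ 1) :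
    ∀ᶠ κ in 𝓝[>] (0 : ℝ), ∀ S : Set ℝ, MeasurableSet S → ∀ R : ℝ, S ⊆ Set.Icc 0 R →
      (volume S).toReal ^ 2 * (max 0 (2 - 2 * Real.cos x - 2 * (y - x) - ε)) ^ 2 * ((y - x) * La κ / κ) * (1 - ε) ≤
      2 * Real.sqrt Real.pi * ∫ u : ℝ, GG S u * ∫ t in (x / κ)..(y / κ), ‖FB κ x y u t‖ ^ 2 := by
  have hpi := Real.pi_gt_three
  filter_upwards [trace_block x y ε hx hxy hy1 hε hε1, nn_block x y ε hx hxy hε,
    La_small (x / 2) 1 (by positivity) 1, La_ge 1, self_mem_nhdsWithin, La_small (x / 2) 1 (by positivity) 0]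
    with κ h1 h2 h3 h4 h5 h6 S hS R hSR
  have hκ : 0 < κ := h5
  rw [pow_one, one_mul] at h3
  rw [pow_zero, one_mul] at h6
  have ha2 : x / 2 / κ = (x / κ) / 2 := by ring
  rw [ha2] at h3 h6
  have haL : 1 ≤ x / κ - La κ := by linarith
  have hab : x / κ ≤ y / κ := div_le_div_of_nonneg_right hxy.le hκ.le
  have key := R_main (PB κ x y) (cF κ) S hS R hSR (x / κ) (y / κ) hab
  set D := (y - x) * La κ / (2 * Real.pi * κ) with hD
  have hD0 : 0 < D := div_pos (mul_pos (by linarith) (by linarith)) (by positivity)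
  have hDe : (y - x) * La κ / κ = 2 * Real.pi * D := by rw [hD]; field_simp
  set J := ∫ u : ℝ, GG S u * ∫ t in (x / κ)..(y / κ), ‖FB κ x y u t‖ ^ 2 with hJ
  have hJ0 : 0 ≤ J := integral_nonneg fun u => mul_nonneg ENNReal.toReal_nonneg
    (intervalIntegral.integral_nonneg hab fun t _ => by positivity)
  have hcard : ((PB κ x y).card : ℝ) ≤ (1 + ε) * D := (PB_card κ x y haL).trans h2.1
  set V := max 0 (2 - 2 * Real.cos x - 2 * (y - x) - ε) with hV
  have hV0 : 0 ≤ V := le_max_left _ _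
  set w := Real.sqrt (2 * Real.pi) with hw
  have hw2 : w ^ 2 = 2 * Real.pi := Real.sq_sqrt (by positivity)
  have hw0 : 0 < w := by positivity
  have htr : w * V * D ≤ ‖∫ t in (x / κ)..(y / κ), FF (PB κ x y) (cF κ) 0 t‖ := by
    rcases le_total 0 (2 - 2 * Real.cos x - 2 * (y - x) - ε) with h | h
    · rw [hV, max_eq_right h]
      exact h1.trans (Complex.re_le_norm _)
    · rw [hV, max_eq_left h]
      simp
  have hsq : (w * V * D) ^ 2 ≤ ‖∫ t in (x / κ)..(y / κ), FF (PB κ x y) (cF κ) 0 t‖ ^ 2 := by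
    apply pow_le_pow_left₀ (by positivity) htr
  set s2 := (volume S).toReal ^ 2 with hs2
  have hs20 : 0 ≤ s2 := by positivity
  have k1 : s2 * (w * V * D) ^ 2 ≤ 2 * Real.sqrt Real.pi * ((1 + ε) * D) * J := by
    calc s2 * (w * V * D) ^ 2 ≤ s2 * ‖∫ t in (x / κ)..(y / κ), FF (PB κ x y) (cF κ) 0 t‖ ^ 2 :=
          mul_le_mul_of_nonneg_left hsq hs20
      _ ≤ 2 * Real.sqrt Real.pi * (PB κ x y).card * J := key
      _ ≤ 2 * Real.sqrt Real.pi * ((1 + ε) * D) * J := by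
          apply mul_le_mul_of_nonneg_right _ hJ0
          exact mul_le_mul_of_nonneg_left hcard (by positivity)
  have k2 : s2 * V ^ 2 * (2 * Real.pi * D) * D ≤ (1 + ε) * (2 * Real.sqrt Real.pi * J) * D := by
    calc s2 * V ^ 2 * (2 * Real.pi * D) * D = s2 * (w * V * D) ^ 2 := by rw [← hw2]; ring
      _ ≤ 2 * Real.sqrt Real.pi * ((1 + ε) * D) * J := k1
      _ = _ := by ring
  have k3 : s2 * V ^ 2 * (2 * Real.pi * D) ≤ (1 + ε) * (2 * Real.sqrt Real.pi * J) := le_of_mul_le_mul_right k2 hD0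
  rw [hDe]
  set A := s2 * V ^ 2 * (2 * Real.pi * D) with hA
  have hA0 : 0 ≤ A := by positivity
  set B := 2 * Real.sqrt Real.pi * J with hB
  have hB0 : 0 ≤ B := by positivity
  calc A * (1 - ε) ≤ ((1 + ε) * B) * (1 - ε) := mul_le_mul_of_nonneg_right k3 (by linarith)
    _ = B - ε ^ 2 * B := by ring
    _ ≤ B := by
        have : 0 ≤ ε ^ 2 * B := by positivity
        linarith

end Pool.Agent.L5helper10.TV
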