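import Pool.Agent.L5helper10.TV.Ps2
import Pool.Agent.H370R2.NT

/-! The central part of the variance. -/

set_option autoImplicit false

open Filter Topology Set MeasureTheory H370

namespace Pool.Agent.L5helper10.TV

/-- Cauchy's inequality for the primes in a short interval -/
lemma cnt_sq_le (κ v B : ℝ) (hκ0 : 0 < κ) (hκ : κ ≤ 1) (hv : v ≤ B) :
    cnt κ v ^ 2 ≤ (1 + 2 * κ * Real.exp v) * ∑ n ∈ Finset.Ioc 0 ⌊Real.exp (B + κ / 2)⌋₊,
      if |Real.log n - v| ≤ κ / 2 then ArithmeticFunction.vonMangoldt n ^ 2 else 0 := by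
  classical
  set S := (Finset.Ioc 0 ⌊Real.exp (v + κ / 2)⌋₊).filter (fun n : ℕ => |Real.log n - v| ≤ κ / 2) with hS
  have h1 : cnt κ v = ∑ n ∈ S, ArithmeticFunction.vonMangoldt n := by
    rw [cnt_eq_sum, hS, Finset.sum_filter]
  have h2 : (S.card : ℝ) ≤ 1 + 2 * κ * Real.exp v := by
    have hsub : S ⊆ Finset.Icc ⌈Real.exp (v - κ / 2)⌉₊ ⌊Real.exp (v + κ / 2)⌋₊ := by
      intro n hn
      rw [hS, Finset.mem_filter, Finset.mem_Ioc] at hn
      rw [Finset.mem_Icc]
      refine ⟨Nat.ceil_le.2 ?_, hn.1.2⟩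
      have hn0 : (0 : ℝ) < n := by exact_mod_cast hn.1.1
      rw [← Real.le_log_iff_exp_le hn0]
      have := (abs_le.1 hn.2).1
      linarith
    have h3 := Finset.card_le_card hsub
    rw [Nat.card_Icc] at h3
    have h4 : (S.card : ℝ) ≤ ((⌊Real.exp (v + κ / 2)⌋₊ + 1 - ⌈Real.exp (v - κ / 2)⌉₊ : ℕ) : ℝ) := by
      exact_mod_cast h3
    have h5 : Real.exp (v + κ / 2) - Real.exp (v - κ / 2) = 2 * Real.sinh (κ / 2) * Real.exp v := by
      rw [Real.sinh_eq, Real.exp_add, sub_eq_add_neg v, Real.exp_add]; ring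
    have h6 := sinh_half_le κ hκ0.le hκ
    have h7 : 2 * Real.sinh (κ / 2) * Real.exp v ≤ 2 * κ * Real.exp v :=
      mul_le_mul_of_nonneg_right h6 (Real.exp_pos _).le
    have h8 : (⌊Real.exp (v + κ / 2)⌋₊ : ℝ) ≤ Real.exp (v + κ / 2) := Nat.floor_le (Real.exp_pos _).le
    have h9 : Real.exp (v - κ / 2) ≤ (⌈Real.exp (v - κ / 2)⌉₊ : ℝ) := Nat.le_ceil _
    rcases le_or_gt ⌈Real.exp (v - κ / 2)⌉₊ (⌊Real.exp (v + κ / 2)⌋₊ + 1) with h10 | h10
    · rw [Nat.cast_sub h10] at h4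
      push_cast at h4
      linarith
    · rw [Nat.sub_eq_zero_of_le h10.le] at h4
      have : 0 ≤ 2 * κ * Real.exp v := by positivity
      push_cast at h4
      linarith
  have h3 : ∑ n ∈ S, ArithmeticFunction.vonMangoldt n ^ 2 ≤ ∑ n ∈ Finset.Ioc 0 ⌊Real.exp (B + κ / 2)⌋₊,
      if |Real.log n - v| ≤ κ / 2 then ArithmeticFunction.vonMangoldt n ^ 2 else 0 := by
    rw [hS, Finset.sum_filter]
    apply Finset.sum_le_sum_of_subset_of_nonneg
    · apply Finset.Ioc_subset_Ioc_right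
      apply Nat.floor_le_floor
      apply Real.exp_le_exp.2
      linarith
    · intro n _ _
      split_ifs
      · positivity
      · exact le_rfl
  rw [h1]
  refine sq_sum_le_card_mul_sum_sq.trans ?_
  exact mul_le_mul h2 h3 (Finset.sum_nonneg fun _ _ => sq_nonneg _) (by positivity)

/-- pointwise bound for the square of the error term -/
lemma fk_sq_le (κ v B η : ℝ) (hκ0 : 0 < κ) (hκ : κ ≤ 1) (hv : v ≤ B) (hη : 0 < η) :
    fk κ v ^ 2 ≤ (1 + η) * ∑ n ∈ Finset.Ioc 0 ⌊Real.exp (B + κ / 2)⌋₊,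
      (if |Real.log n - v| ≤ κ / 2 then ArithmeticFunction.vonMangoldt n ^ 2 * (Real.exp (-v) + 2 * κ) else 0) +
      (1 + 1 / η) * (4 * κ ^ 2 * Real.exp v) := by
  have h1 := cnt_sq_le κ v B hκ0 hκ hv
  have e1 : fk κ v = Real.exp (-v / 2) * cnt κ v + -(2 * Real.sinh (κ / 2) * Real.exp (v / 2)) := by
    unfold fk
    rw [mul_sub]
    congr 1
    rw [show Real.exp (v / 2) = Real.exp (-v / 2) * Real.exp v by rw [← Real.exp_add]; congr 1; ring]
    ring
  have h2 : (Real.exp (-v / 2) * cnt κ v + -(2 * Real.sinh (κ / 2) * Real.exp (v / 2))) ^ 2 ≤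
      (1 + η) * (Real.exp (-v / 2) * cnt κ v) ^ 2 + (1 + 1 / η) * (2 * Real.sinh (κ / 2) * Real.exp (v / 2)) ^ 2 := by
    set p := Real.exp (-v / 2) * cnt κ v
    set q := 2 * Real.sinh (κ / 2) * Real.exp (v / 2)
    have h3 : 0 ≤ (1 / η) * (η * p + q) ^ 2 := by positivity
    have h4 : (1 / η) * (η * p + q) ^ 2 = η * p ^ 2 + 2 * p * q + 1 / η * q ^ 2 := by
      field_simp
      ring
    nlinarith
  rw [e1]
  refine h2.trans ?_
  have h5 : (Real.exp (-v / 2) * cnt κ v) ^ 2 ≤ ∑ n ∈ Finset.Ioc 0 ⌊Real.exp (B + κ / 2)⌋₊,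
      (if |Real.log n - v| ≤ κ / 2 then ArithmeticFunction.vonMangoldt n ^ 2 * (Real.exp (-v) + 2 * κ) else 0) := by
    have e2 : Real.exp (-v / 2) ^ 2 = Real.exp (-v) := by rw [← Real.exp_nat_mul]; congr 1; push_cast; ring
    have e3 : Real.exp (-v) * Real.exp v = 1 := by rw [← Real.exp_add]; simp
    rw [mul_pow, e2]
    set Sg := ∑ n ∈ Finset.Ioc 0 ⌊Real.exp (B + κ / 2)⌋₊,
      (if |Real.log n - v| ≤ κ / 2 then ArithmeticFunction.vonMangoldt n ^ 2 else 0) with hSg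
    calc Real.exp (-v) * cnt κ v ^ 2 ≤ Real.exp (-v) * ((1 + 2 * κ * Real.exp v) * Sg) :=
          mul_le_mul_of_nonneg_left h1 (Real.exp_pos _).le
      _ = (Real.exp (-v) + 2 * κ * (Real.exp (-v) * Real.exp v)) * Sg := by ring
      _ = (Real.exp (-v) + 2 * κ) * Sg := by rw [e3, mul_one]
      _ = _ := by
          rw [hSg, Finset.mul_sum]
          apply Finset.sum_congr rfl
          intro n _
          split_ifs
          · ring
          · ring
  have h6 : (2 * Real.sinh (κ / 2) * Real.exp (v / 2)) ^ 2 ≤ 4 * κ ^ 2 * Real.exp v := by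
    rw [mul_pow, show Real.exp (v / 2) ^ 2 = Real.exp v by rw [← Real.exp_nat_mul]; congr 1; push_cast; ring]
    apply mul_le_mul_of_nonneg_right _ (Real.exp_pos _).le
    have a1 := sinh_half_le κ hκ0.le hκ
    have a2 := sinh_half_ge κ hκ0.le
    nlinarith
  have h7 : 0 ≤ 1 / η := by positivity
  gcongr

/-- an integrable majorant of `exp v (α + β (R - v))` -/
noncomputable def DD1 (α β R B v : ℝ) : ℝ :=
  (α + β * (R - B)) * Real.exp v + 2 * β * Real.exp (B / 2) * Real.exp (1 / 2 * v)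

lemma DD1_int (α β R B : ℝ) : IntegrableOn (DD1 α β R B) (Iic B) := by
  unfold DD1
  exact ((integrableOn_exp_Iic B).const_mul _).add ((integrableOn_exp_mul_Iic (by norm_num) B).const_mul _)

lemma DD1_val (α β R B : ℝ) : ∫ v in Iic B, DD1 α β R B v = (α + β * (R - B) + 4 * β) * Real.exp B := by
  unfold DD1
  rw [integral_add ((integrableOn_exp_Iic B).const_mul _) ((integrableOn_exp_mul_Iic (by norm_num) B).const_mul _),
    integral_const_mul, integral_const_mul, integral_exp_Iic, integral_exp_mul_Iic (by norm_num)]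
  have : Real.exp B = Real.exp (B / 2) * Real.exp (1 / 2 * B) := by rw [← Real.exp_add]; congr 1; ring
  rw [this]
  ring

lemma wt_nonneg {α β R B v : ℝ} (hα : 0 ≤ α) (hβ : 0 ≤ β) (hR : B ≤ R) (hv : v ≤ B) : 0 ≤ α + β * (R - v) := by
  have : 0 ≤ β * (R - v) := mul_nonneg hβ (by linarith)
  linarith

lemma exp_wt_le {α β R B v : ℝ} (hβ : 0 ≤ β) :
    Real.exp v * (α + β * (R - v)) ≤ DD1 α β R B v := by
  unfold DD1
  have h1 : B - v ≤ 2 * Real.exp ((B - v) / 2) := by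
    have := Real.add_one_le_exp ((B - v) / 2)
    linarith
  have h2 : Real.exp v * Real.exp ((B - v) / 2) = Real.exp (B / 2) * Real.exp (1 / 2 * v) := by
    rw [← Real.exp_add, ← Real.exp_add]; congr 1; ring
  calc Real.exp v * (α + β * (R - v)) = (α + β * (R - B)) * Real.exp v + Real.exp v * β * (B - v) := by ring
    _ ≤ (α + β * (R - B)) * Real.exp v + Real.exp v * β * (2 * Real.exp ((B - v) / 2)) := by
        apply add_le_add_right
        exact mul_le_mul_of_nonneg_left h1 (by positivity)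
    _ = (α + β * (R - B)) * Real.exp v + 2 * β * (Real.exp v * Real.exp ((B - v) / 2)) := by ring
    _ = _ := by rw [h2]; ring

lemma fk_wt_int (κ α β R B : ℝ) (hκ0 : 0 < κ) (hκ : κ ≤ 1) (hα : 0 ≤ α) (hβ : 0 ≤ β) (hR : B ≤ R) :
    IntegrableOn (fun v => fk κ v ^ 2 * (α + β * (R - v))) (Iic B) := by
  apply Integrable.mono' ((DD1_int α β R B).const_mul 100)
  · exact (((fk_meas κ).pow_const 2).mul (by fun_prop)).aestronglyMeasurable
  · refine ae_restrict_of_forall_mem measurableSet_Iic fun v hv => ?_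
    have h1 := wt_nonneg hα hβ hR hv
    have h2 := fk_le κ v hκ0.le hκ
    have h3 : fk κ v ^ 2 ≤ 100 * Real.exp v := by
      rw [← sq_abs]
      calc |fk κ v| ^ 2 ≤ (10 * Real.exp (v / 2)) ^ 2 := pow_le_pow_left₀ (abs_nonneg _) h2 2
        _ = 100 * Real.exp v := by
          rw [mul_pow, ← Real.exp_nat_mul]
          norm_num
          ring
    rw [Real.norm_of_nonneg (mul_nonneg (sq_nonneg _) h1)]
    calc fk κ v ^ 2 * (α + β * (R - v)) ≤ (100 * Real.exp v) * (α + β * (R - v)) :=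
          mul_le_mul_of_nonneg_right h3 h1
      _ = 100 * (Real.exp v * (α + β * (R - v))) := by ring
      _ ≤ 100 * DD1 α β R B v := mul_le_mul_of_nonneg_left (exp_wt_le hβ) (by norm_num)

theorem core (κ α β R B η : ℝ) (hκ0 : 0 < κ) (hκ : κ ≤ 1) (hα : 0 ≤ α) (hβ : 0 ≤ β) (hR : B ≤ R) (hη : 0 < η) :
    ∫ v in Iic B, fk κ v ^ 2 * (α + β * (R - v)) ≤
      (1 + η) * ∑ n ∈ Finset.Ioc 0 ⌊Real.exp (B + κ / 2)⌋₊, ArithmeticFunction.vonMangoldt n ^ 2 *
        (κ * (Real.exp (κ / 2) / n + 2 * κ)) * (α + β * max 0 (R + κ / 2 - Real.log n)) +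
      (1 + 1 / η) * (4 * κ ^ 2 * ((α + β * (R - B) + 4 * β) * Real.exp B)) := by
  set N := ⌊Real.exp (B + κ / 2)⌋₊ with hN
  set T : ℕ → ℝ → ℝ := fun n v => (Icc (Real.log n - κ / 2) (Real.log n + κ / 2)).indicator
    (fun _ => ArithmeticFunction.vonMangoldt n ^ 2 * (Real.exp (κ / 2) / n + 2 * κ) *
      (α + β * max 0 (R + κ / 2 - Real.log n))) v with hT
  have hη' : 0 ≤ 1 / η := by positivity
  have hTint : ∀ n, Integrable (T n) := by
    intro n
    rw [hT]
    simp only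
    rw [integrable_indicator_iff measurableSet_Icc]
    exact continuous_const.continuousOn.integrableOn_Icc
  have hT0 : ∀ n v, 0 ≤ T n v := by
    intro n v
    rw [hT]
    apply Set.indicator_nonneg
    intro _ _
    have : 0 ≤ β * max 0 (R + κ / 2 - Real.log n) := mul_nonneg hβ (le_max_left _ _)
    positivity
  have hTval : ∀ n, ∫ v, T n v = ArithmeticFunction.vonMangoldt n ^ 2 *
        (κ * (Real.exp (κ / 2) / n + 2 * κ)) * (α + β * max 0 (R + κ / 2 - Real.log n)) := by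
    intro n
    rw [hT]
    simp only
    rw [integral_indicator measurableSet_Icc, setIntegral_const, smul_eq_mul]
    have : volume.real (Icc (Real.log n - κ / 2) (Real.log n + κ / 2)) = κ := by
      rw [measureReal_def, Real.volume_Icc, ENNReal.toReal_ofReal (by linarith)]
      ring
    rw [this]
    ring
  have hpt : ∀ v ∈ Iic B, fk κ v ^ 2 * (α + β * (R - v)) ≤ (1 + η) * ∑ n ∈ Finset.Ioc 0 N, T n v +
      (1 + 1 / η) * (4 * κ ^ 2 * DD1 α β R B v) := by
    intro v hv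
    have hv' : v ≤ B := hv
    have h1 := fk_sq_le κ v B η hκ0 hκ hv' hη
    have h2 := wt_nonneg hα hβ hR hv'
    refine (mul_le_mul_of_nonneg_right h1 h2).trans ?_
    rw [add_mul]
    apply add_le_add
    · rw [mul_assoc]
      apply mul_le_mul_of_nonneg_left _ (by linarith)
      rw [Finset.sum_mul]
      apply Finset.sum_le_sum
      intro n hn
      rw [hT]
      simp only
      have hn0 : (0 : ℝ) < n := by exact_mod_cast (Finset.mem_Ioc.1 hn).1
      by_cases h : |Real.log n - v| ≤ κ / 2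
      · rw [if_pos h]
        have h3 := abs_le.1 h
        rw [Set.indicator_of_mem (show v ∈ Icc (Real.log n - κ / 2) (Real.log n + κ / 2) from
          ⟨by linarith [h3.2], by linarith [h3.1]⟩)]
        have h4 : Real.exp (-v) ≤ Real.exp (κ / 2) / n := by
          rw [le_div_iff₀ hn0]
          calc Real.exp (-v) * n = Real.exp (-v) * Real.exp (Real.log n) := by rw [Real.exp_log hn0]
            _ = Real.exp (-v + Real.log n) := (Real.exp_add _ _).symm
            _ ≤ Real.exp (κ / 2) := Real.exp_le_exp.2 (by linarith [h3.2])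
        have h5 : R - v ≤ max 0 (R + κ / 2 - Real.log n) := le_trans (by linarith [h3.2]) (le_max_right _ _)
        have h6 : α + β * (R - v) ≤ α + β * max 0 (R + κ / 2 - Real.log n) := by
          have := mul_le_mul_of_nonneg_left h5 hβ
          linarith
        have h7 : 0 ≤ Real.exp (κ / 2) / n := by positivity
        apply mul_le_mul _ h6 h2 (by positivity)
        apply mul_le_mul_of_nonneg_left _ (sq_nonneg _)
        linarith
      · rw [if_neg h, zero_mul]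
        exact hT0 n v
    · rw [mul_assoc]
      apply mul_le_mul_of_nonneg_left _ (by linarith)
      rw [mul_assoc]
      exact mul_le_mul_of_nonneg_left (exp_wt_le hβ) (by positivity)
  have hint1 : Integrable (fun v => ∑ n ∈ Finset.Ioc 0 N, T n v) := integrable_finsetSum _ fun n _ => hTint n
  have hle : ∫ v in Iic B, fk κ v ^ 2 * (α + β * (R - v)) ≤ ∫ v in Iic B, ((1 + η) * ∑ n ∈ Finset.Ioc 0 N, T n v +
      (1 + 1 / η) * (4 * κ ^ 2 * DD1 α β R B v)) := by
    apply setIntegral_mono_on (fk_wt_int κ α β R B hκ0 hκ hα hβ hR) _ measurableSet_Iic hpt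
    exact (hint1.integrableOn.const_mul _).add (((DD1_int α β R B).const_mul _).const_mul _)
  refine hle.trans ?_
  rw [integral_add (hint1.integrableOn.const_mul _) (((DD1_int α β R B).const_mul _).const_mul _),
    integral_const_mul, integral_const_mul, integral_const_mul, DD1_val]
  apply add_le_add_left
  apply mul_le_mul_of_nonneg_left _ (by linarith)
  calc ∫ v in Iic B, ∑ n ∈ Finset.Ioc 0 N, T n v ≤ ∫ v, ∑ n ∈ Finset.Ioc 0 N, T n v :=
        setIntegral_le_integral hint1 (Eventually.of_forall fun v => Finset.sum_nonneg fun n _ => hT0 n v)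
    _ = ∑ n ∈ Finset.Ioc 0 N, ∫ v, T n v := integral_finsetSum _ fun n _ => hTint n
    _ = _ := Finset.sum_congr rfl fun n _ => hTval n

/-- the sums over primes in `core` -/
lemma sum_bound (κ α β R B : ℝ) (hκ0 : 0 < κ) (hα : 0 ≤ α) (hβ : 0 ≤ β) (hB : 0 ≤ B) (hR : B ≤ R) :
    ∑ n ∈ Finset.Ioc 0 ⌊Real.exp (B + κ / 2)⌋₊, ArithmeticFunction.vonMangoldt n ^ 2 *
        (κ * (Real.exp (κ / 2) / n + 2 * κ)) * (α + β * max 0 (R + κ / 2 - Real.log n)) ≤
      κ * Real.exp (κ / 2) * (8 * (α + β * (R + κ / 2)) +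
        ∫ s in (0 : ℝ)..(B + κ / 2), (α + β * (R + κ / 2 - s)) * (s + 8)) +
      2 * κ ^ 2 * ((α + β * (R + κ / 2)) * ((B + κ / 2) * (6 * Real.exp (B + κ / 2)))) := by
  set N := ⌊Real.exp (B + κ / 2)⌋₊ with hN
  set F : ℝ → ℝ := fun s => α + β * max 0 (R + κ / 2 - s) with hF
  have hN1 : 1 ≤ N := by
    rw [hN, Nat.one_le_floor_iff]
    exact Real.one_le_exp (by linarith)
  have hN1' : (1 : ℝ) ≤ N := by exact_mod_cast hN1
  have hlogN : Real.log N ≤ B + κ / 2 := by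
    rw [Real.log_le_iff_le_exp (by linarith)]
    exact Nat.floor_le (Real.exp_pos _).le
  have hlogN0 : 0 ≤ Real.log N := Real.log_nonneg hN1'
  have hF0 : ∀ s, 0 ≤ F s := fun s => add_nonneg hα (mul_nonneg hβ (le_max_left _ _))
  have hFanti : Antitone F := by
    intro s t hst
    simp only [hF]
    have : max 0 (R + κ / 2 - t) ≤ max 0 (R + κ / 2 - s) := max_le_max le_rfl (by linarith)
    have := mul_le_mul_of_nonneg_left this hβ
    linarith
  have hFc : Continuous F := by simp only [hF]; fun_prop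
  have hFz : F 0 = α + β * (R + κ / 2) := by
    simp only [hF]
    rw [sub_zero, max_eq_right (by linarith)]
  have hIoc : Finset.Ioc 0 N = Finset.Icc 1 N := by ext; simp [Nat.succ_le_iff]
  have e1 : ∑ n ∈ Finset.Ioc 0 N, ArithmeticFunction.vonMangoldt n ^ 2 *
        (κ * (Real.exp (κ / 2) / n + 2 * κ)) * (α + β * max 0 (R + κ / 2 - Real.log n)) =
      κ * Real.exp (κ / 2) * ∑ n ∈ Finset.Icc 1 N, (ArithmeticFunction.vonMangoldt n ^ 2 / n) * F (Real.log n) +
      2 * κ ^ 2 * ∑ n ∈ Finset.Icc 1 N, ArithmeticFunction.vonMangoldt n ^ 2 * F (Real.log n) := by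
    rw [hIoc, Finset.mul_sum, Finset.mul_sum, ← Finset.sum_add_distrib]
    apply Finset.sum_congr rfl
    intro n _
    simp only [hF]
    ring
  rw [e1]
  have h1 := nt_abel_bound (fun n => ArithmeticFunction.vonMangoldt n ^ 2 / n) F 8 (by norm_num)
    (hFanti.antitoneOn _) hFc hF0 (fun N hN => lam_sq_sum_nat N hN) N hN1
  have h2 : ∫ s in (0 : ℝ)..(Real.log N), F s * (s + 8) ≤
      ∫ s in (0 : ℝ)..(B + κ / 2), (α + β * (R + κ / 2 - s)) * (s + 8) := by
    have hc : Continuous (fun s => F s * (s + 8)) := hFc.mul (by fun_prop)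
    have h3 : ∫ s in (0 : ℝ)..(Real.log N), F s * (s + 8) ≤ ∫ s in (0 : ℝ)..(B + κ / 2), F s * (s + 8) := by
      rw [← intervalIntegral.integral_add_adjacent_intervals (hc.intervalIntegrable 0 (Real.log N))
        (hc.intervalIntegrable (Real.log N) (B + κ / 2))]
      have : 0 ≤ ∫ s in (Real.log N)..(B + κ / 2), F s * (s + 8) :=
        intervalIntegral.integral_nonneg hlogN fun s hs => mul_nonneg (hF0 s) (by linarith [hs.1])
      linarith
    refine h3.trans (le_of_eq ?_)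
    apply intervalIntegral.integral_congr
    intro s hs
    rw [uIcc_of_le (by linarith)] at hs
    simp only [hF]
    rw [max_eq_right (by linarith [hs.2])]
  have h4 : ∑ n ∈ Finset.Icc 1 N, ArithmeticFunction.vonMangoldt n ^ 2 * F (Real.log n) ≤
      (α + β * (R + κ / 2)) * ((B + κ / 2) * (6 * Real.exp (B + κ / 2))) := by
    have h5 : ∀ n ∈ Finset.Icc 1 N, ArithmeticFunction.vonMangoldt n ^ 2 * F (Real.log n) ≤
        (α + β * (R + κ / 2)) * ((B + κ / 2) * ArithmeticFunction.vonMangoldt n) := by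
      intro n hn
      obtain ⟨hn1, hn2⟩ := Finset.mem_Icc.1 hn
      have hn1' : (1 : ℝ) ≤ n := by exact_mod_cast hn1
      have a1 : F (Real.log n) ≤ α + β * (R + κ / 2) := by
        rw [← hFz]; exact hFanti (Real.log_nonneg hn1')
      have a2 : ArithmeticFunction.vonMangoldt n ≤ B + κ / 2 := by
        refine ArithmeticFunction.vonMangoldt_le_log.trans (le_trans ?_ hlogN)
        exact Real.log_le_log (by linarith) (by exact_mod_cast hn2)
      have a3 : 0 ≤ ArithmeticFunction.vonMangoldt n := ArithmeticFunction.vonMangoldt_nonneg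
      have a4 : 0 ≤ α + β * (R + κ / 2) := by rw [← hFz]; exact hF0 0
      calc ArithmeticFunction.vonMangoldt n ^ 2 * F (Real.log n) =
            F (Real.log n) * (ArithmeticFunction.vonMangoldt n * ArithmeticFunction.vonMangoldt n) := by ring
        _ ≤ (α + β * (R + κ / 2)) * ((B + κ / 2) * ArithmeticFunction.vonMangoldt n) := by
            apply mul_le_mul a1 _ (by positivity) a4
            exact mul_le_mul_of_nonneg_right a2 a3
    refine (Finset.sum_le_sum h5).trans ?_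
    rw [← Finset.mul_sum, ← Finset.mul_sum]
    have h6 : ∑ n ∈ Finset.Icc 1 N, ArithmeticFunction.vonMangoldt n ≤ 6 * Real.exp (B + κ / 2) := by
      have h7 : ∑ n ∈ Finset.Icc 1 N, ArithmeticFunction.vonMangoldt n = Chebyshev.psi (Real.exp (B + κ / 2)) := by
        unfold Chebyshev.psi
        rw [← hIoc]
      rw [h7]
      refine (Chebyshev.psi_le_const_mul_self (Real.exp_pos _).le).trans ?_
      apply mul_le_mul_of_nonneg_right _ (Real.exp_pos _).le
      rw [show (4 : ℝ) = 2 ^ 2 by norm_num, Real.log_pow]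
      have := Real.log_two_lt_d9
      push_cast; linarith
    apply mul_le_mul_of_nonneg_left _ (by rw [← hFz]; exact hF0 0)
    exact mul_le_mul_of_nonneg_left h6 (by linarith)
  apply add_le_add
  · apply mul_le_mul_of_nonneg_left _ (by positivity)
    refine h1.trans ?_
    rw [hFz]
    linarith
  · exact mul_le_mul_of_nonneg_left h4 (by positivity)

/-- crude bound for the mean square of the error term -/
theorem crude (κ B : ℝ) (hκ0 : 0 < κ) (hκ : κ ≤ 1) (hB : 0 ≤ B) (hBΛ : B ≤ La κ) :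
    ∫ v in Iic B, fk κ v ^ 2 ≤ 500 * κ * (1 + B) ^ 2 := by
  have h1 := core κ 1 0 B B 1 hκ0 hκ zero_le_one le_rfl le_rfl one_pos
  have h2 := sum_bound κ 1 0 B B hκ0 zero_le_one le_rfl hB le_rfl
  simp only [zero_mul, add_zero, mul_one, mul_zero, one_mul] at h1 h2
  have h3 : ∫ s in (0 : ℝ)..(B + κ / 2), (s + 8) = (B + κ / 2) ^ 2 / 2 + 8 * (B + κ / 2) := by
    rw [intervalIntegral.integral_add (by exact continuous_id.intervalIntegrable _ _) (intervalIntegrable_const)]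
    simp
    ring
  rw [h3] at h2
  have h4 : κ * Real.exp B ≤ 1 := by
    have : Real.exp B ≤ 1 / κ := by rw [← exp_La hκ0]; exact Real.exp_le_exp.2 hBΛ
    rw [le_div_iff₀ hκ0] at this
    linarith
  have h5 : Real.exp (κ / 2) ≤ 2 := le_trans (Real.exp_le_exp.2 (by linarith)) exp_half_le
  have h6 : κ * Real.exp (B + κ / 2) ≤ 2 := by
    rw [Real.exp_add]
    have := Real.exp_pos B
    have := Real.exp_pos (κ / 2)
    nlinarith [mul_pos hκ0 (Real.exp_pos B)]
  have h7 : κ * Real.exp (κ / 2) * (8 + ((B + κ / 2) ^ 2 / 2 + 8 * (B + κ / 2))) ≤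
      κ * 2 * (8 + ((B + 1) ^ 2 / 2 + 8 * (B + 1))) := by
    have : B + κ / 2 ≤ B + 1 := by linarith
    gcongr
  have h8 : 2 * κ ^ 2 * ((B + κ / 2) * (6 * Real.exp (B + κ / 2))) ≤ 24 * κ * (B + 1) := by
    calc 2 * κ ^ 2 * ((B + κ / 2) * (6 * Real.exp (B + κ / 2))) =
          12 * κ * (B + κ / 2) * (κ * Real.exp (B + κ / 2)) := by ring
      _ ≤ 12 * κ * (B + 1) * 2 := by gcongr; linarith
      _ = _ := by ring
  have h9 : 4 * κ ^ 2 * Real.exp B ≤ 4 * κ := by
    calc 4 * κ ^ 2 * Real.exp B = 4 * κ * (κ * Real.exp B) := by ring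
      _ ≤ 4 * κ * 1 := by gcongr
      _ = 4 * κ := by ring
  have h10 : ∫ v in Iic B, fk κ v ^ 2 ≤ (1 + 1) * (κ * 2 * (8 + ((B + 1) ^ 2 / 2 + 8 * (B + 1))) + 24 * κ * (B + 1)) +
      (1 + 1 / 1) * (4 * κ) := by
    refine h1.trans ?_
    have hA := h2.trans (add_le_add h7 h8)
    have := mul_le_mul_of_nonneg_left hA (show (0 : ℝ) ≤ 1 + 1 by norm_num)
    have := mul_le_mul_of_nonneg_left h9 (show (0 : ℝ) ≤ 1 + 1 / 1 by norm_num)
    linarith
  refine h10.trans ?_
  nlinarith [mul_nonneg hκ0.le hB, mul_nonneg (mul_nonneg hκ0.le hB) hB]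

theorem central (ℓ η : ℝ) (hℓ : 1 ≤ ℓ) (hη : 0 < η) : ∀ᶠ κ in 𝓝[>] (0 : ℝ), ∀ R : ℝ, La κ ≤ R → R ≤ ℓ * La κ →
    ∫ v in Iic (La κ), fk κ v ^ 2 * (R - v) ≤ κ * (R * La κ ^ 2 / 2 - La κ ^ 3 / 3) + η * κ * La κ ^ 3 := by
  set η' : ℝ := min 1 (η / (3 * ℓ)) with hη'
  have hη'0 : 0 < η' := by rw [hη']; positivity
  have hη'1 : η' ≤ 1 := min_le_left _ _
  have hη'2 : 3 * ℓ * η' ≤ η := by
    have : η' ≤ η / (3 * ℓ) := min_le_right _ _
    rw [le_div_iff₀ (by positivity)] at this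
    linarith
  set K := 2 * (800 + 40 / η') * ℓ / η with hK
  have ev1 : ∀ᶠ κ in 𝓝[>] (0 : ℝ), Real.exp (κ / 2) ≤ 1 + η' := by
    have h1 : Tendsto (fun κ : ℝ => Real.exp (κ / 2)) (𝓝[>] 0) (𝓝 1) := by
      have : Tendsto (fun κ : ℝ => Real.exp (κ / 2)) (𝓝 0) (𝓝 (Real.exp (0 / 2))) := by
        apply Continuous.tendsto; fun_prop
      rw [show Real.exp (0 / 2) = 1 by simp] at this
      exact this.mono_left nhdsWithin_le_nhds
    exact h1.eventually_le_const (by linarith)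
  filter_upwards [ev1, le_one_ev2, La_ge 1, La_ge K, self_mem_nhdsWithin] with κ h1 hκ1 h2 h3 h4 R hR1 hR2
  have hκ : 0 < κ := h4
  set L := La κ with hL
  have hc := core κ 0 1 R L η' hκ hκ1 le_rfl zero_le_one hR1 hη'0
  have hs := sum_bound κ 0 1 R L hκ le_rfl zero_le_one (by linarith) hR1
  simp only [zero_add, one_mul, mul_one] at hc hs
  have hexpL : κ * Real.exp L = 1 := by rw [hL, exp_La hκ]; field_simp
  have h5 : Real.exp (κ / 2) ≤ 2 := le_trans (Real.exp_le_exp.2 (by linarith)) exp_half_le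
  have h6 : κ * Real.exp (L + κ / 2) ≤ 2 := by
    rw [Real.exp_add, ← mul_assoc, hexpL, one_mul]; exact h5
  have hint : ∫ s in (0 : ℝ)..(L + κ / 2), (R + κ / 2 - s) * (s + 8) =
      (R + κ / 2) * (L + κ / 2) ^ 2 / 2 - (L + κ / 2) ^ 3 / 3 + 8 * ((R + κ / 2) * (L + κ / 2) - (L + κ / 2) ^ 2 / 2) := by
    have e : ∀ s : ℝ, HasDerivAt (fun s => (R + κ / 2) * s ^ 2 / 2 - s ^ 3 / 3 + 8 * ((R + κ / 2) * s - s ^ 2 / 2))
        ((R + κ / 2 - s) * (s + 8)) s := by
      intro s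
      have d1 := hasDerivAt_id s
      have d2 := (hasDerivAt_id s).pow 2
      have d3 := (hasDerivAt_id s).pow 3
      have := (((d2.const_mul (R + κ / 2)).div_const 2).sub (d3.div_const 3)).add
        (((d1.const_mul (R + κ / 2)).sub (d2.div_const 2)).const_mul 8)
      refine this.congr_deriv ?_
      simp
      ring
    rw [intervalIntegral.integral_eq_sub_of_hasDerivAt (fun s _ => e s)
      ((by fun_prop : Continuous fun s : ℝ => (R + κ / 2 - s) * (s + 8)).intervalIntegrable _ _)]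
    simp
  rw [hint] at hs
  set X := R * L ^ 2 / 2 - L ^ 3 / 3 with hX
  have hX0 : 0 ≤ X := by
    have : L * L ^ 2 ≤ R * L ^ 2 := mul_le_mul_of_nonneg_right hR1 (sq_nonneg _)
    have h3 : 0 ≤ L ^ 3 := by positivity
    rw [hX]
    nlinarith
  have hX1 : X ≤ ℓ * L ^ 3 / 2 := by
    have : R * L ^ 2 ≤ ℓ * L * L ^ 2 := mul_le_mul_of_nonneg_right hR2 (sq_nonneg _)
    have h3 : 0 ≤ L ^ 3 := by positivity
    rw [hX]
    nlinarith
  have hRL : R + κ / 2 ≤ 2 * ℓ * L := by nlinarith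
  have hR0 : 0 ≤ R := by linarith
  -- the main sum
  have hE1 : 8 * (R + κ / 2) + ((R + κ / 2) * (L + κ / 2) ^ 2 / 2 - (L + κ / 2) ^ 3 / 3 +
      8 * ((R + κ / 2) * (L + κ / 2) - (L + κ / 2) ^ 2 / 2)) ≤ X + 60 * ℓ * L ^ 2 := by
    have a1 : (L + κ / 2) ^ 2 ≤ L ^ 2 + 2 * L := by nlinarith
    have a2 : L ^ 3 ≤ (L + κ / 2) ^ 3 := pow_le_pow_left₀ (by linarith) (by linarith) 3
    have a3 : (R + κ / 2) * (L + κ / 2) ^ 2 ≤ (R + κ / 2) * (L ^ 2 + 2 * L) :=
      mul_le_mul_of_nonneg_left a1 (by linarith)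
    have a4 : (R + κ / 2) * (L ^ 2 + 2 * L) ≤ R * L ^ 2 + L ^ 2 + 4 * ℓ * L ^ 2 := by nlinarith
    have a5 : (R + κ / 2) * (L + κ / 2) ≤ 2 * ℓ * L * (2 * L) := by
      apply mul_le_mul hRL (by linarith) (by linarith) (by positivity)
    have a6 : L ≤ L ^ 2 := by nlinarith
    have a7 : R + κ / 2 ≤ 2 * ℓ * L ^ 2 := hRL.trans (by nlinarith)
    have a8 : 0 ≤ (L + κ / 2) ^ 2 := sq_nonneg _
    have a9 : L ^ 2 ≤ ℓ * L ^ 2 := by nlinarith [sq_nonneg L]
    rw [hX]
    nlinarith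
  have hm1 : κ * Real.exp (κ / 2) * (8 * (R + κ / 2) + ((R + κ / 2) * (L + κ / 2) ^ 2 / 2 - (L + κ / 2) ^ 3 / 3 +
      8 * ((R + κ / 2) * (L + κ / 2) - (L + κ / 2) ^ 2 / 2))) ≤ κ * (1 + η') * (X + 60 * ℓ * L ^ 2) := by
    have b0 : 0 ≤ 60 * ℓ * L ^ 2 := by positivity
    calc _ ≤ κ * Real.exp (κ / 2) * (X + 60 * ℓ * L ^ 2) := mul_le_mul_of_nonneg_left hE1 (by positivity)
      _ ≤ _ := by
        apply mul_le_mul_of_nonneg_right _ (by linarith)
        exact mul_le_mul_of_nonneg_left h1 hκ.le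
  have hm2 : 2 * κ ^ 2 * ((R + κ / 2) * ((L + κ / 2) * (6 * Real.exp (L + κ / 2)))) ≤ 96 * κ * (ℓ * L ^ 2) := by
    calc 2 * κ ^ 2 * ((R + κ / 2) * ((L + κ / 2) * (6 * Real.exp (L + κ / 2)))) =
          12 * κ * ((R + κ / 2) * (L + κ / 2)) * (κ * Real.exp (L + κ / 2)) := by ring
      _ ≤ 12 * κ * ((2 * ℓ * L) * (2 * L)) * 2 := by
          have : L + κ / 2 ≤ 2 * L := by linarith
          gcongr
      _ = _ := by ring
  have hm3 : 4 * κ ^ 2 * ((R - L + 4) * Real.exp L) ≤ 20 * κ * (ℓ * L) := by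
    calc 4 * κ ^ 2 * ((R - L + 4) * Real.exp L) = 4 * κ * (R - L + 4) * (κ * Real.exp L) := by ring
      _ = 4 * κ * (R - L + 4) := by rw [hexpL, mul_one]
      _ ≤ 4 * κ * (5 * (ℓ * L)) := by
          apply mul_le_mul_of_nonneg_left _ (by linarith)
          nlinarith
      _ = _ := by ring
  have hη'3 : 0 ≤ 1 / η' := by positivity
  have htot := hc.trans (add_le_add (mul_le_mul_of_nonneg_left (hs.trans (add_le_add hm1 hm2))
    (by linarith : 0 ≤ 1 + η')) (mul_le_mul_of_nonneg_left hm3 (by linarith : 0 ≤ 1 + 1 / η')))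
  refine htot.trans ?_
  have hKL : 2 * (800 + 40 / η') * ℓ ≤ η * L := by
    rw [hK, div_le_iff₀ hη] at h3
    linarith
  have c1 : (1 + η') * (κ * (1 + η') * (X + 60 * ℓ * L ^ 2) + 96 * κ * (ℓ * L ^ 2)) ≤
      κ * X + κ * (3 * η' * X) + 432 * κ * (ℓ * L ^ 2) := by
    have d1 : (1 + η') * (1 + η') ≤ 1 + 3 * η' := by nlinarith
    have d2 : (1 + η') * (1 + η') * X ≤ (1 + 3 * η') * X := mul_le_mul_of_nonneg_right d1 hX0
    have d3 : 0 ≤ ℓ * L ^ 2 := by positivity
    have d4 : (1 + η') * (1 + η') ≤ 4 := by nlinarith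
    have d5 : (1 + η') * (1 + η') * (60 * (ℓ * L ^ 2)) ≤ 4 * (60 * (ℓ * L ^ 2)) :=
      mul_le_mul_of_nonneg_right d4 (by positivity)
    have d6 : (1 + η') * (96 * (ℓ * L ^ 2)) ≤ 2 * (96 * (ℓ * L ^ 2)) :=
      mul_le_mul_of_nonneg_right (by linarith) (by positivity)
    have d7 : (1 + η') * (1 + η') * (X + 60 * ℓ * L ^ 2) + (1 + η') * (96 * (ℓ * L ^ 2)) ≤
        X + 3 * η' * X + 432 * (ℓ * L ^ 2) := by nlinarith
    have d8 := mul_le_mul_of_nonneg_left d7 hκ.le
    nlinarith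
  have c2 : (1 + 1 / η') * (20 * κ * (ℓ * L)) ≤ (20 + 20 / η') * κ * (ℓ * L ^ 2) := by
    have d1 : ℓ * L ≤ ℓ * L ^ 2 := by nlinarith
    have e1 : (1 + 1 / η') * (20 * κ * (ℓ * L)) = (20 + 20 / η') * κ * (ℓ * L) := by ring
    rw [e1]
    exact mul_le_mul_of_nonneg_left d1 (by positivity)
  have c3 : κ * (3 * η' * X) ≤ κ * (η / 2 * L ^ 3) := by
    apply mul_le_mul_of_nonneg_left _ hκ.le
    have : 3 * η' * X ≤ 3 * η' * (ℓ * L ^ 3 / 2) := mul_le_mul_of_nonneg_left hX1 (by positivity)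
    have h3 : 0 ≤ L ^ 3 := by positivity
    nlinarith
  have c4 : (800 + 40 / η') * ℓ * L ^ 2 * κ ≤ η / 2 * L ^ 3 * κ := by
    apply mul_le_mul_of_nonneg_right _ hκ.le
    have : (2 * (800 + 40 / η') * ℓ) * L ^ 2 ≤ (η * L) * L ^ 2 := mul_le_mul_of_nonneg_right hKL (sq_nonneg _)
    nlinarith
  have c5 : 0 ≤ (ℓ * L ^ 2) * κ := by positivity
  have c6 : 0 ≤ 20 / η' * ((ℓ * L ^ 2) * κ) := by positivity
  have c7 : 432 * κ * (ℓ * L ^ 2) = 432 * ((ℓ * L ^ 2) * κ) := by ring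
  have c8 : (20 + 20 / η') * κ * (ℓ * L ^ 2) = 20 * ((ℓ * L ^ 2) * κ) + 20 / η' * ((ℓ * L ^ 2) * κ) := by ring
  have c9 : (800 + 40 / η') * ℓ * L ^ 2 * κ = 800 * ((ℓ * L ^ 2) * κ) + 2 * (20 / η' * ((ℓ * L ^ 2) * κ)) := by
    ring
  have c10 : κ * (η / 2 * L ^ 3) = η / 2 * L ^ 3 * κ := by ring
  have c11 : η * κ * L ^ 3 = 2 * (η / 2 * L ^ 3 * κ) := by ring
  rw [c7] at c1
  rw [c8] at c2
  rw [c9] at c4
  rw [c10] at c3
  rw [c11]
  linarith

end Pool.Agent.L5helper10.TV
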