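import Pool.Agent.L5helper10.TV.Cen

/-! The central part with a general end point. -/

set_option autoImplicit false

open Filter Topology Set MeasureTheory H370

namespace Pool.Agent.L5helper10.TV

lemma cen_E1 (κ ℓ L R B : ℝ) (hκ : 0 < κ) (hκ1 : κ ≤ 1) (hℓ : 1 ≤ ℓ) (h2 : 1 ≤ L) (hB0 : 0 ≤ B) (hBL : B ≤ L)
    (hR0 : 0 ≤ R) (hRL : R + κ / 2 ≤ 2 * ℓ * L) :
    8 * (R + κ / 2) + ((R + κ / 2) * (B + κ / 2) ^ 2 / 2 - (B + κ / 2) ^ 3 / 3 +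
      8 * ((R + κ / 2) * (B + κ / 2) - (B + κ / 2) ^ 2 / 2)) ≤ R * B ^ 2 / 2 - B ^ 3 / 3 + 60 * ℓ * L ^ 2 := by
  have a1 : (B + κ / 2) ^ 2 ≤ B ^ 2 + 2 * L := by nlinarith
  have a2 : B ^ 3 ≤ (B + κ / 2) ^ 3 := pow_le_pow_left₀ hB0 (by linarith) 3
  have a3 : (R + κ / 2) * (B + κ / 2) ^ 2 ≤ (R + κ / 2) * (B ^ 2 + 2 * L) :=
    mul_le_mul_of_nonneg_left a1 (by linarith)
  have a0 : B ^ 2 ≤ L ^ 2 := pow_le_pow_left₀ hB0 hBL 2
  have a4 : (R + κ / 2) * (B ^ 2 + 2 * L) ≤ R * B ^ 2 + L ^ 2 + 4 * ℓ * L ^ 2 := by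
    have b1 : κ / 2 * B ^ 2 ≤ 1 * L ^ 2 := mul_le_mul (by linarith) a0 (sq_nonneg _) zero_le_one
    have b2 : (R + κ / 2) * (2 * L) ≤ 2 * ℓ * L * (2 * L) := mul_le_mul_of_nonneg_right hRL (by linarith)
    have b3 : (R + κ / 2) * (B ^ 2 + 2 * L) = R * B ^ 2 + κ / 2 * B ^ 2 + (R + κ / 2) * (2 * L) := by ring
    have b4 : 2 * ℓ * L * (2 * L) = 4 * ℓ * L ^ 2 := by ring
    rw [b3]; linarith
  have a5 : (R + κ / 2) * (B + κ / 2) ≤ 2 * ℓ * L * (2 * L) := by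
    apply mul_le_mul hRL (by linarith) (by linarith) (by positivity)
  have a6 : L ≤ L ^ 2 := by nlinarith
  have a7 : R + κ / 2 ≤ 2 * ℓ * L ^ 2 := hRL.trans (by nlinarith)
  have a8 : 0 ≤ (B + κ / 2) ^ 2 := sq_nonneg _
  have a9 : L ^ 2 ≤ ℓ * L ^ 2 := by nlinarith [sq_nonneg L]
  have b4 : 2 * ℓ * L * (2 * L) = 4 * ℓ * L ^ 2 := by ring
  rw [b4] at a5
  linarith

lemma cen_fin (κ ℓ L X η' η : ℝ) (hκ : 0 < κ) (hℓ : 1 ≤ ℓ) (h2 : 1 ≤ L) (hX0 : 0 ≤ X) (hX1 : X ≤ ℓ * L ^ 3 / 2)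
    (hη'0 : 0 < η') (hη'1 : η' ≤ 1) (hη : 0 < η) (hη'2 : 3 * ℓ * η' ≤ η) (hKL : 2 * (800 + 40 / η') * ℓ ≤ η * L) :
    (1 + η') * (κ * (1 + η') * (X + 60 * ℓ * L ^ 2) + 96 * κ * (ℓ * L ^ 2)) + (1 + 1 / η') * (20 * κ * (ℓ * L)) ≤
      κ * X + η * κ * L ^ 3 := by
  have c1 : (1 + η') * (κ * (1 + η') * (X + 60 * ℓ * L ^ 2) + 96 * κ * (ℓ * L ^ 2)) ≤
      κ * X + κ * (3 * η' * X) + 432 * κ * (ℓ * L ^ 2) := by
    have d1 : (1 + η') * (1 + η') ≤ 1 + 3 * η' := by nlinarith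
    have d2 : (1 + η') * (1 + η') * X ≤ (1 + 3 * η') * X := mul_le_mul_of_nonneg_right d1 hX0
    have d3 : 0 ≤ ℓ * L ^ 2 := by positivity
    have d4 : (1 + η') * (1 + η') ≤ 4 := by nlinarith
    have d5 : (1 + η') * (1 + η') * (60 * (ℓ * L ^ 2)) ≤ 4 * (60 * (ℓ * L ^ 2)) :=
      mul_le_mul_of_nonneg_right d4 (by positivity)
    have d6 : (1 + η') * (96 * (ℓ * L ^ 2)) ≤ 2 * (96 * (ℓ * L ^ 2)) :=
      mul_le_mul_of_nonneg_right (by linarith) (by positivity)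
    have d7 : (1 + η') * (1 + η') * (X + 60 * ℓ * L ^ 2) + (1 + η') * (96 * (ℓ * L ^ 2)) ≤
        X + 3 * η' * X + 432 * (ℓ * L ^ 2) := by nlinarith
    have d8 := mul_le_mul_of_nonneg_left d7 hκ.le
    nlinarith
  have c2 : (1 + 1 / η') * (20 * κ * (ℓ * L)) ≤ (20 + 20 / η') * κ * (ℓ * L ^ 2) := by
    have d1 : ℓ * L ≤ ℓ * L ^ 2 := mul_le_mul_of_nonneg_left (by nlinarith) (by linarith)
    have e1 : (1 + 1 / η') * (20 * κ * (ℓ * L)) = (20 + 20 / η') * κ * (ℓ * L) := by ring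
    rw [e1]
    exact mul_le_mul_of_nonneg_left d1 (by positivity)
  have c3 : κ * (3 * η' * X) ≤ κ * (η / 2 * L ^ 3) := by
    apply mul_le_mul_of_nonneg_left _ hκ.le
    have : 3 * η' * X ≤ 3 * η' * (ℓ * L ^ 3 / 2) := mul_le_mul_of_nonneg_left hX1 (by positivity)
    have h3 : 0 ≤ L ^ 3 := by positivity
    nlinarith
  have c4 : (800 + 40 / η') * ℓ * L ^ 2 * κ ≤ η / 2 * L ^ 3 * κ := by
    apply mul_le_mul_of_nonneg_right _ hκ.le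
    have : (2 * (800 + 40 / η') * ℓ) * L ^ 2 ≤ (η * L) * L ^ 2 := mul_le_mul_of_nonneg_right hKL (sq_nonneg _)
    nlinarith
  have c5 : 0 ≤ (ℓ * L ^ 2) * κ := by positivity
  have c6 : 0 ≤ 20 / η' * ((ℓ * L ^ 2) * κ) := by positivity
  have c7 : 432 * κ * (ℓ * L ^ 2) = 432 * ((ℓ * L ^ 2) * κ) := by ring
  have c8 : (20 + 20 / η') * κ * (ℓ * L ^ 2) = 20 * ((ℓ * L ^ 2) * κ) + 20 / η' * ((ℓ * L ^ 2) * κ) := by ring
  have c9 : (800 + 40 / η') * ℓ * L ^ 2 * κ = 800 * ((ℓ * L ^ 2) * κ) + 2 * (20 / η' * ((ℓ * L ^ 2) * κ)) := by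
    ring
  have c10 : κ * (η / 2 * L ^ 3) = η / 2 * L ^ 3 * κ := by ring
  have c11 : η * κ * L ^ 3 = 2 * (η / 2 * L ^ 3 * κ) := by ring
  rw [c7] at c1
  rw [c8] at c2
  rw [c9] at c4
  rw [c10] at c3
  rw [c11]
  linarith



theorem central2 (ℓ η : ℝ) (hℓ : 1 ≤ ℓ) (hη : 0 < η) : ∀ᶠ κ in 𝓝[>] (0 : ℝ), ∀ B R : ℝ, 0 ≤ B → B ≤ La κ → B ≤ R →
    R ≤ ℓ * La κ →
    ∫ v in Iic B, fk κ v ^ 2 * (R - v) ≤ κ * (R * B ^ 2 / 2 - B ^ 3 / 3) + η * κ * La κ ^ 3 := by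
  set η' : ℝ := min 1 (η / (3 * ℓ)) with hη'
  have hη'0 : 0 < η' := by rw [hη']; positivity
  have hη'1 : η' ≤ 1 := min_le_left _ _
  have hη'2 : 3 * ℓ * η' ≤ η := by
    have : η' ≤ η / (3 * ℓ) := min_le_right _ _
    rw [le_div_iff₀ (by positivity)] at this
    linarith
  set K := 2 * (800 + 40 / η') * ℓ / η with hK
  have ev1 : ∀ᶠ κ in 𝓝[>] (0 : ℝ), Real.exp (κ / 2) ≤ 1 + η' := by
    have h1 : Tendsto (fun κ : ℝ => Real.exp (κ / 2)) (𝓝[>] 0) (𝓝 1) := by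
      have : Tendsto (fun κ : ℝ => Real.exp (κ / 2)) (𝓝 0) (𝓝 (Real.exp (0 / 2))) := by
        apply Continuous.tendsto; fun_prop
      rw [show Real.exp (0 / 2) = 1 by simp] at this
      exact this.mono_left nhdsWithin_le_nhds
    exact h1.eventually_le_const (by linarith)
  filter_upwards [ev1, le_one_ev2, La_ge 1, La_ge K, self_mem_nhdsWithin] with κ h1 hκ1 h2 h3 h4 B R hB0 hBL hR1 hR2
  have hκ : 0 < κ := h4
  set L := La κ with hL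
  have hc := core κ 0 1 R B η' hκ hκ1 le_rfl zero_le_one hR1 hη'0
  have hs := sum_bound κ 0 1 R B hκ le_rfl zero_le_one hB0 hR1
  simp only [zero_add, one_mul, mul_one] at hc hs
  have hexpL : κ * Real.exp B ≤ 1 := by
    have h0 : κ * Real.exp L = 1 := by rw [hL, exp_La hκ]; field_simp
    rw [← h0]
    exact mul_le_mul_of_nonneg_left (Real.exp_le_exp.2 hBL) hκ.le
  have h5 : Real.exp (κ / 2) ≤ 2 := le_trans (Real.exp_le_exp.2 (by linarith)) exp_half_le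
  have h6 : κ * Real.exp (B + κ / 2) ≤ 2 := by
    rw [Real.exp_add, ← mul_assoc]
    calc κ * Real.exp B * Real.exp (κ / 2) ≤ 1 * 2 := mul_le_mul hexpL h5 (Real.exp_pos _).le zero_le_one
      _ = 2 := by ring
  have hint : ∫ s in (0 : ℝ)..(B + κ / 2), (R + κ / 2 - s) * (s + 8) =
      (R + κ / 2) * (B + κ / 2) ^ 2 / 2 - (B + κ / 2) ^ 3 / 3 + 8 * ((R + κ / 2) * (B + κ / 2) - (B + κ / 2) ^ 2 / 2) := by
    have e : ∀ s : ℝ, HasDerivAt (fun s => (R + κ / 2) * s ^ 2 / 2 - s ^ 3 / 3 + 8 * ((R + κ / 2) * s - s ^ 2 / 2))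
        ((R + κ / 2 - s) * (s + 8)) s := by
      intro s
      have d1 := hasDerivAt_id s
      have d2 := (hasDerivAt_id s).pow 2
      have d3 := (hasDerivAt_id s).pow 3
      have := (((d2.const_mul (R + κ / 2)).div_const 2).sub (d3.div_const 3)).add
        (((d1.const_mul (R + κ / 2)).sub (d2.div_const 2)).const_mul 8)
      refine this.congr_deriv ?_
      simp
      ring
    rw [intervalIntegral.integral_eq_sub_of_hasDerivAt (fun s _ => e s)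
      ((by fun_prop : Continuous fun s : ℝ => (R + κ / 2 - s) * (s + 8)).intervalIntegrable _ _)]
    simp
  rw [hint] at hs
  have hR0 : 0 ≤ R := by linarith
  set X := R * B ^ 2 / 2 - B ^ 3 / 3 with hX
  have hX0 : 0 ≤ X := by
    have : B * B ^ 2 ≤ R * B ^ 2 := mul_le_mul_of_nonneg_right hR1 (sq_nonneg _)
    have h3 : 0 ≤ B ^ 3 := by positivity
    rw [hX]
    nlinarith
  have hX1 : X ≤ ℓ * L ^ 3 / 2 := by
    have k1 : B ^ 2 ≤ L ^ 2 := pow_le_pow_left₀ hB0 hBL 2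
    have : R * B ^ 2 ≤ ℓ * L * L ^ 2 := mul_le_mul hR2 k1 (by positivity) (by nlinarith)
    have h3 : 0 ≤ B ^ 3 := by positivity
    rw [hX]
    nlinarith
  have hRL : R + κ / 2 ≤ 2 * ℓ * L := by nlinarith
  -- the main sum
  have hE1 : 8 * (R + κ / 2) + ((R + κ / 2) * (B + κ / 2) ^ 2 / 2 - (B + κ / 2) ^ 3 / 3 +
      8 * ((R + κ / 2) * (B + κ / 2) - (B + κ / 2) ^ 2 / 2)) ≤ X + 60 * ℓ * L ^ 2 := by
    exact cen_E1 κ ℓ L R B hκ hκ1 hℓ h2 hB0 hBL hR0 hRL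
  have hm1 : κ * Real.exp (κ / 2) * (8 * (R + κ / 2) + ((R + κ / 2) * (B + κ / 2) ^ 2 / 2 - (B + κ / 2) ^ 3 / 3 +
      8 * ((R + κ / 2) * (B + κ / 2) - (B + κ / 2) ^ 2 / 2))) ≤ κ * (1 + η') * (X + 60 * ℓ * L ^ 2) := by
    have b0 : 0 ≤ 60 * ℓ * L ^ 2 := by positivity
    calc _ ≤ κ * Real.exp (κ / 2) * (X + 60 * ℓ * L ^ 2) := mul_le_mul_of_nonneg_left hE1 (by positivity)
      _ ≤ _ := by
        apply mul_le_mul_of_nonneg_right _ (by linarith)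
        exact mul_le_mul_of_nonneg_left h1 hκ.le
  have hm2 : 2 * κ ^ 2 * ((R + κ / 2) * ((B + κ / 2) * (6 * Real.exp (B + κ / 2)))) ≤ 96 * κ * (ℓ * L ^ 2) := by
    calc 2 * κ ^ 2 * ((R + κ / 2) * ((B + κ / 2) * (6 * Real.exp (B + κ / 2)))) =
          12 * κ * ((R + κ / 2) * (B + κ / 2)) * (κ * Real.exp (B + κ / 2)) := by ring
      _ ≤ 12 * κ * ((2 * ℓ * L) * (2 * L)) * 2 := by
          have : B + κ / 2 ≤ 2 * L := by linarith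
          gcongr
      _ = _ := by ring
  have hm3 : 4 * κ ^ 2 * ((R - B + 4) * Real.exp B) ≤ 20 * κ * (ℓ * L) := by
    calc 4 * κ ^ 2 * ((R - B + 4) * Real.exp B) = 4 * κ * (R - B + 4) * (κ * Real.exp B) := by ring
      _ ≤ 4 * κ * (R - B + 4) * 1 := mul_le_mul_of_nonneg_left hexpL (mul_nonneg (by linarith) (by linarith))
      _ = 4 * κ * (R - B + 4) := by rw [mul_one]
      _ ≤ 4 * κ * (5 * (ℓ * L)) := by
          apply mul_le_mul_of_nonneg_left _ (by linarith)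
          nlinarith
      _ = _ := by ring
  have hη'3 : 0 ≤ 1 / η' := by positivity
  have htot := hc.trans (add_le_add (mul_le_mul_of_nonneg_left (hs.trans (add_le_add hm1 hm2))
    (by linarith : 0 ≤ 1 + η')) (mul_le_mul_of_nonneg_left hm3 (by linarith : 0 ≤ 1 + 1 / η')))
  refine htot.trans ?_
  have hKL : 2 * (800 + 40 / η') * ℓ ≤ η * L := by
    rw [hK, div_le_iff₀ hη] at h3
    linarith
  have hfin := cen_fin κ ℓ L X η' η hκ hℓ h2 hX0 hX1 hη'0 hη'1 hη hη'2 hKL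
  linarith

end Pool.Agent.L5helper10.TV
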