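import Pool.Agent.L5helper10.TV.EFz

/-! Number of zeros in blocks of heights. -/

set_option autoImplicit false

open Complex Filter Topology Set MeasureTheory H370

namespace Pool.Agent.L5helper10.TV

theorem nn_total : ∃ C T0 : ℝ, 0 < C ∧ 10 ≤ T0 ∧ ∀ X : ℝ, T0 ≤ X →
    |(NN riemannZeta T0 X : ℝ) - X * Real.log X / (2 * Real.pi)| ≤ C * X := by
  obtain ⟨C, T0, hC, hT0, hnn⟩ := nn_asymp good_zeta
  set K : ℝ := ((NN riemannZeta T0 (2 * T0) : ℕ) : ℝ) with hK
  have hK0 : 0 ≤ K := Nat.cast_nonneg _
  set C' : ℝ := C + 1 + K + Real.log (2 * T0) with hC'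
  have hl0 : 0 ≤ Real.log (2 * T0) := Real.log_nonneg (by linarith)
  have hpi := Real.pi_gt_three
  refine ⟨C', T0, by positivity, hT0, ?_⟩
  have main : ∀ n : ℕ, ∀ X : ℝ, T0 ≤ X → X ≤ 2 ^ n * (2 * T0) →
      |(NN riemannZeta T0 X : ℝ) - X * Real.log X / (2 * Real.pi)| ≤ C' * X := by
    intro n
    induction n with
    | zero =>
      intro X h1 h2
      rw [pow_zero, one_mul] at h2
      have h3 : (NN riemannZeta T0 X : ℝ) ≤ K := by
        have h0 : NN riemannZeta T0 X ≤ NN riemannZeta T0 (2 * T0) := NN_mono good_zeta (by linarith) le_rfl h2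
        rw [hK]; exact_mod_cast h0
      have h4 : (0 : ℝ) ≤ NN riemannZeta T0 X := Nat.cast_nonneg _
      have h5 : 0 ≤ Real.log X := Real.log_nonneg (by linarith)
      have h6 : Real.log X ≤ Real.log (2 * T0) := Real.log_le_log (by linarith) h2
      have h7 : X * Real.log X / (2 * Real.pi) ≤ X * Real.log (2 * T0) := by
        rw [div_le_iff₀ (by positivity)]
        have : X * Real.log X ≤ X * Real.log (2 * T0) := mul_le_mul_of_nonneg_left h6 (by linarith)
        have h8 : 0 ≤ X * Real.log (2 * T0) := mul_nonneg (by linarith) hl0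
        nlinarith
      have h9 : 0 ≤ X * Real.log X / (2 * Real.pi) :=
        div_nonneg (mul_nonneg (by linarith) h5) (by positivity)
      rw [abs_le]
      constructor
      · have : X * Real.log (2 * T0) ≤ C' * X := by
          rw [hC']
          nlinarith
        linarith
      · have : K ≤ C' * X := by
          rw [hC']
          nlinarith
        linarith
    | succ n ih =>
      intro X h1 h2
      rcases le_or_gt X (2 * T0) with h3 | h3
      · apply ih X h1
        have : (1 : ℝ) ≤ 2 ^ n := one_le_pow₀ (by norm_num)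
        nlinarith
      · have h4 := ih (X / 2) (by linarith) (by rw [pow_succ] at h2; linarith)
        have h5 := hnn (X / 2) (by linarith) (X / 2) X le_rfl (by linarith) (by linarith) (by linarith)
        have h6 : NN riemannZeta T0 X = NN riemannZeta T0 (X / 2) + NN riemannZeta (X / 2) X :=
          NN_add good_zeta (by linarith) (by linarith) (by linarith)
        have h6' : (NN riemannZeta T0 X : ℝ) = NN riemannZeta T0 (X / 2) + NN riemannZeta (X / 2) X := by
          exact_mod_cast h6
        have h7 : Real.log (X / 2) = Real.log X - Real.log 2 := Real.log_div (by linarith) (by norm_num)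
        have h8 : X / 2 * Real.log (X / 2) / (2 * Real.pi) + X / 2 * Real.log (X / 2) / (2 * Real.pi) =
            X * Real.log X / (2 * Real.pi) - X * (Real.log 2 / (2 * Real.pi)) := by
          rw [h7]; ring
        have h9 : Real.log 2 / (2 * Real.pi) ≤ 1 / 2 := by
          rw [div_le_iff₀ (by positivity)]
          have := Real.log_two_lt_d9
          linarith
        have h10 : 0 ≤ Real.log 2 / (2 * Real.pi) := by
          have := Real.log_two_gt_d9
          positivity
        rw [abs_le] at h4 h5 ⊢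
        have hX : 0 < X := by linarith
        have h11 : X * (Real.log 2 / (2 * Real.pi)) ≤ X * (1 / 2) := mul_le_mul_of_nonneg_left h9 hX.le
        have h12 : 0 ≤ X * (Real.log 2 / (2 * Real.pi)) := mul_nonneg hX.le h10
        have h13 : (C + 1) * X ≤ C' * X := by
          apply mul_le_mul_of_nonneg_right _ hX.le
          rw [hC']; linarith
        rw [h6']
        constructor
        · linarith [h4.1, h5.1]
        · linarith [h4.2, h5.2]
  intro X hX
  obtain ⟨n, hn⟩ := pow_unbounded_of_one_lt (X / (2 * T0)) (one_lt_two)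
  apply main n X hX
  rw [div_lt_iff₀ (by linarith)] at hn
  exact hn.le

/-- zeros in a block, from above and from below -/
theorem nn_block (x y ε : ℝ) (hx : 0 < x) (hxy : x < y) (hε : 0 < ε) : ∀ᶠ κ in 𝓝[>] (0 : ℝ),
    (NN riemannZeta (x / κ - La κ) (y / κ + La κ) : ℝ) ≤ (1 + ε) * ((y - x) * La κ / (2 * Real.pi * κ)) ∧
    (1 - ε) * ((y - x) * La κ / (2 * Real.pi * κ)) ≤ (NN riemannZeta (x / κ + La κ) (y / κ - La κ) : ℝ) := by
  obtain ⟨C, T0, hC, hT0, htot⟩ := nn_total
  have hpi := Real.pi_gt_three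
  set c0 : ℝ := |Real.log (x / 2)| + |Real.log (2 * y)| with hc0
  have hc00 : 0 ≤ c0 := by positivity
  -- the smallness of the errors
  have ev1 := La_small (x / 2) 1 (by positivity) 1
  have ev2 := La_small ((y - x) / 4) 1 (by linarith) 1
  have ev3 := La_small (ε * (y - x)) 4 (mul_pos hε (by linarith)) 1
  have ev4 := La_small (x / 4) T0 (by positivity) 0
  filter_upwards [ev1, ev2, ev3, ev4, La_ge 1, La_ge ((16 * Real.pi * y * (c0 + C)) / (ε * (y - x))),
    self_mem_nhdsWithin] with κ h1 h2 h3 h4 h5 h6 h7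
  have hκ : 0 < κ := h7
  rw [pow_one, one_mul] at h1 h2
  rw [pow_one] at h3
  rw [pow_zero, mul_one] at h4
  set L := La κ with hL
  have hy : 0 < y := by linarith
  have hX : ∀ X : ℝ, x / 2 / κ ≤ X → X ≤ 2 * y / κ → T0 ≤ X ∧
      |(NN riemannZeta T0 X : ℝ) - X * L / (2 * Real.pi)| ≤ (c0 + C) * (2 * y / κ) := by
    intro X hX1 hX2
    have hXT : T0 ≤ X := by
      have : x / 4 / κ ≤ x / 2 / κ := div_le_div_of_nonneg_right (by linarith) hκ.le
      linarith
    refine ⟨hXT, ?_⟩
    have hXp : 0 < X := by linarith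
    have k1 : Real.log X ≤ L + Real.log (2 * y) := by
      have : Real.log X ≤ Real.log (2 * y / κ) := Real.log_le_log hXp hX2
      rw [Real.log_div (by positivity) hκ.ne'] at this
      rw [hL, La]; linarith
    have k2 : L + Real.log (x / 2) ≤ Real.log X := by
      have : Real.log (x / 2 / κ) ≤ Real.log X := Real.log_le_log (by positivity) hX1
      rw [Real.log_div (by positivity) hκ.ne'] at this
      rw [hL, La]; linarith
    have k3 : |Real.log X - L| ≤ c0 := by
      rw [abs_le]
      have a1 := neg_abs_le (Real.log (x / 2))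
      have a2 := le_abs_self (Real.log (2 * y))
      have a3 := abs_nonneg (Real.log (x / 2))
      have a4 := abs_nonneg (Real.log (2 * y))
      constructor <;> linarith
    have k4 := htot X hXT
    have k5 : |X * Real.log X / (2 * Real.pi) - X * L / (2 * Real.pi)| ≤ c0 * X := by
      rw [show X * Real.log X / (2 * Real.pi) - X * L / (2 * Real.pi) = (X / (2 * Real.pi)) * (Real.log X - L) by
        ring, abs_mul, abs_of_pos (by positivity)]
      have : X / (2 * Real.pi) ≤ X := div_le_self hXp.le (by linarith)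
      calc X / (2 * Real.pi) * |Real.log X - L| ≤ X * c0 := mul_le_mul this k3 (abs_nonneg _) hXp.le
        _ = c0 * X := by ring
    calc |(NN riemannZeta T0 X : ℝ) - X * L / (2 * Real.pi)| ≤ C * X + c0 * X :=
          (abs_sub_le _ _ _).trans (add_le_add k4 k5)
      _ = (c0 + C) * X := by ring
      _ ≤ (c0 + C) * (2 * y / κ) := mul_le_mul_of_nonneg_left hX2 (by positivity)
  have hxκ : x / 2 / κ = (x / κ) / 2 := by ring
  have hyκ : 2 * y / κ = 2 * (y / κ) := by ring
  have hyxκ : (y - x) / 4 / κ = (y / κ - x / κ) / 4 := by ring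
  have hD : (y - x) * L / (2 * Real.pi * κ) = (y / κ - x / κ) * L / (2 * Real.pi) := by
    field_simp
  rw [hyxκ] at h2
  rw [hxκ] at h1
  have hxy' : x / κ < y / κ := div_lt_div_of_pos_right hxy hκ
  have hx' : 0 < x / κ := by positivity
  -- the total error
  have herr : (L * (2 * L) + 2 * ((c0 + C) * (2 * y / κ)) * (2 * Real.pi)) ≤ ε * ((y / κ - x / κ) * L) := by
    have e1 : L * (4 * L) ≤ L * (ε * (y - x) / κ) := mul_le_mul_of_nonneg_left h3 (by linarith)
    have e2 : 16 * Real.pi * y * (c0 + C) ≤ L * (ε * (y - x)) := by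
      rwa [div_le_iff₀ (mul_pos hε (by linarith))] at h6
    have e3 : 16 * Real.pi * y * (c0 + C) / κ ≤ L * (ε * (y - x)) / κ :=
      div_le_div_of_nonneg_right e2 hκ.le
    have e4 : 16 * Real.pi * y * (c0 + C) / κ = 2 * (2 * ((c0 + C) * (2 * y / κ)) * (2 * Real.pi)) := by ring
    have e5 : L * (ε * (y - x)) / κ = ε * ((y / κ - x / κ) * L) := by ring
    have e6 : L * (ε * (y - x) / κ) = ε * ((y / κ - x / κ) * L) := by ring
    rw [e4, e5] at e3
    rw [e6] at e1
    linarith
  have hyκ' : 2 * y / κ = 2 * (y / κ) := by ring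
  have hsum : ∀ X1 X2 : ℝ, T0 ≤ X1 → X1 ≤ X2 →
      (NN riemannZeta T0 X2 : ℝ) = NN riemannZeta T0 X1 + NN riemannZeta X1 X2 := by
    intro X1 X2 a1 a2
    exact_mod_cast NN_add good_zeta (by linarith) a1 a2
  rw [hD]
  have hpi2 : 0 < 2 * Real.pi := by positivity
  constructor
  · obtain ⟨t1, b1⟩ := hX (x / κ - L) (by rw [hxκ]; linarith) (by rw [hyκ']; linarith)
    obtain ⟨t2, b2⟩ := hX (y / κ + L) (by rw [hxκ]; linarith) (by rw [hyκ']; linarith)
    have h8 := hsum (x / κ - L) (y / κ + L) t1 (by linarith)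
    rw [abs_le] at b1 b2
    have h9 : (NN riemannZeta (x / κ - L) (y / κ + L) : ℝ) ≤
        (y / κ + L) * L / (2 * Real.pi) - (x / κ - L) * L / (2 * Real.pi) + 2 * ((c0 + C) * (2 * y / κ)) := by
      linarith [b1.1, b2.2]
    refine h9.trans ?_
    rw [show (y / κ + L) * L / (2 * Real.pi) - (x / κ - L) * L / (2 * Real.pi) + 2 * ((c0 + C) * (2 * y / κ)) =
      ((y / κ - x / κ) * L + (L * (2 * L) + 2 * ((c0 + C) * (2 * y / κ)) * (2 * Real.pi))) / (2 * Real.pi) by
        field_simp; ring,
      show (1 + ε) * ((y / κ - x / κ) * L / (2 * Real.pi)) =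
        ((y / κ - x / κ) * L + ε * ((y / κ - x / κ) * L)) / (2 * Real.pi) by ring]
    exact div_le_div_of_nonneg_right (by linarith) hpi2.le
  · obtain ⟨t1, b1⟩ := hX (x / κ + L) (by rw [hxκ]; linarith) (by rw [hyκ']; linarith)
    obtain ⟨t2, b2⟩ := hX (y / κ - L) (by rw [hxκ]; linarith) (by rw [hyκ']; linarith)
    have h8 := hsum (x / κ + L) (y / κ - L) t1 (by linarith)
    rw [abs_le] at b1 b2
    have h9 : (y / κ - L) * L / (2 * Real.pi) - (x / κ + L) * L / (2 * Real.pi) - 2 * ((c0 + C) * (2 * y / κ)) ≤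
        (NN riemannZeta (x / κ + L) (y / κ - L) : ℝ) := by
      linarith [b1.2, b2.1]
    refine le_trans ?_ h9
    rw [show (y / κ - L) * L / (2 * Real.pi) - (x / κ + L) * L / (2 * Real.pi) - 2 * ((c0 + C) * (2 * y / κ)) =
      ((y / κ - x / κ) * L - (L * (2 * L) + 2 * ((c0 + C) * (2 * y / κ)) * (2 * Real.pi))) / (2 * Real.pi) by
        field_simp; ring,
      show (1 - ε) * ((y / κ - x / κ) * L / (2 * Real.pi)) =
        ((y / κ - x / κ) * L - ε * ((y / κ - x / κ) * L)) / (2 * Real.pi) by ring]
    exact div_le_div_of_nonneg_right (by linarith) hpi2.le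

end Pool.Agent.L5helper10.TV
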