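import Pool.Agent.L5helper10.TV.EFell
import Pool.Agent.H370R2.DirGood
import Pool.Agent.H370R2.PC3
import Pool.Agent.H370R2.Count

/-! The explicit formula for the zeta function in blocks of heights `[x / κ, y / κ]`. -/

set_option autoImplicit false

open Complex Filter Topology Set MeasureTheory H370

namespace Pool.Agent.L5helper10.TV

/-- the von Mangoldt function as complex coefficients -/
noncomputable def lamc (n : ℕ) : ℂ := (ArithmeticFunction.vonMangoldt n : ℂ)

/-- `log (1 / κ)` -/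
noncomputable def La (κ : ℝ) : ℝ := -Real.log κ

lemma lamc_norm (n : ℕ) : ‖lamc n‖ ≤ ArithmeticFunction.vonMangoldt n := by
  unfold lamc
  rw [Complex.norm_real, Real.norm_of_nonneg ArithmeticFunction.vonMangoldt_nonneg]

lemma ld_zeta (s : ℂ) (hs : 1 < s.re) :
    deriv riemannZeta s / riemannZeta s = - ∑' n : ℕ, lamc n * (n : ℂ) ^ (-s) := by
  have h := ArithmeticFunction.LSeries_vonMangoldt_eq_deriv_riemannZeta_div hs
  rw [show deriv riemannZeta s / riemannZeta s = - (-deriv riemannZeta s / riemannZeta s) by ring, ← h]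
  congr 1
  unfold LSeries
  apply tsum_congr
  intro n
  rcases eq_or_ne n 0 with rfl | hn
  · simp [lamc]
  · rw [LSeries.term_of_ne_zero hn]
    unfold lamc
    rw [Complex.cpow_neg, div_eq_mul_inv]

lemma La_tendsto : Tendsto La (𝓝[>] (0 : ℝ)) atTop := by
  unfold La
  exact tendsto_neg_atBot_atTop.comp Real.tendsto_log_nhdsGT_zero

lemma La_ge (A : ℝ) : ∀ᶠ κ in 𝓝[>] (0 : ℝ), A ≤ La κ := La_tendsto.eventually_ge_atTop A

lemma exp_La {κ : ℝ} (hκ : 0 < κ) : Real.exp (La κ) = 1 / κ := by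
  unfold La
  rw [Real.exp_neg, Real.exp_log hκ, one_div]

/-- polynomials in `La κ` are smaller than `c / κ` -/
lemma La_small (c A : ℝ) (hc : 0 < c) (k : ℕ) : ∀ᶠ κ in 𝓝[>] (0 : ℝ), A * La κ ^ k ≤ c / κ := by
  have h1 : Tendsto (fun κ : ℝ => A * (La κ ^ k * Real.exp (-La κ))) (𝓝[>] (0 : ℝ)) (𝓝 (A * 0)) :=
    ((Real.tendsto_pow_mul_exp_neg_atTop_nhds_zero k).comp La_tendsto).const_mul A
  rw [mul_zero] at h1
  have h2 := h1.eventually_le_const hc
  filter_upwards [h2, self_mem_nhdsWithin] with κ h3 h4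
  have hκ : 0 < κ := h4
  rw [Real.exp_neg, exp_La hκ] at h3
  have h5 : A * La κ ^ k * κ ≤ c := by
    have : A * (La κ ^ k * (1 / κ)⁻¹) = A * La κ ^ k * κ := by rw [one_div, inv_inv]; ring
    rwa [this] at h3
  rw [le_div_iff₀ hκ]
  exact h5

theorem ef_block (ℓ x y : ℝ) (hℓ : 1 ≤ ℓ) (hx : 0 < x) (hxy : x < y) (hy : y ≤ 3 / 2 * x) :
    ∃ C : ℝ, 0 < C ∧ ∀ᶠ κ in 𝓝[>] (0 : ℝ), ∀ u t : ℝ, 0 ≤ u → u ≤ ℓ * La κ → x / κ ≤ t → t ≤ y / κ →
      ‖AA riemannZeta (x / κ - La κ) (y / κ + La κ) u t -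
          (1 / Real.sqrt (2 * Real.pi) : ℝ) * (La κ * cexp (I * u * t) *
              Real.exp (-u ^ 2 / 2) - PP lamc u t)‖ ≤ C * Real.exp (-u) := by
  obtain ⟨C, T0, hC, hT0, hef⟩ := explicit_ell good_zeta (good_height good_zeta) lamc lamc_norm
    (fun s hs _ => ld_zeta s hs) (2 * ℓ) (by linarith)
  obtain ⟨C3, hC3, hNN⟩ := NN_crude good_zeta
  set c0 : ℝ := |Real.log (4 / 5 * x)| with hc0
  have hc00 : 0 ≤ c0 := abs_nonneg _
  refine ⟨C + 2 * c0 + 1, by positivity, ?_⟩
  have ev1 := La_small (x / 10) (3 + c0) (by positivity) 1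
  have ev2 := La_small x (2 * (T0 + 10)) (by positivity) 0
  filter_upwards [ev1, ev2, La_ge (3 * ℓ + 6), La_ge (2 * c0 + 1), La_ge (16 * C3 * x), self_mem_nhdsWithin]
    with κ h1 h2 h3 h4 h5 h6 u t hu huL ht1 ht2
  have hκ : 0 < κ := h6
  rw [pow_one] at h1
  rw [pow_zero, mul_one] at h2
  set L := La κ with hL
  have hL1 : 1 ≤ L := by linarith
  set T : ℝ := 4 / 5 * x / κ with hT
  have hxκ : 0 < x / κ := by positivity
  have hTx : T = 4 / 5 * (x / κ) := by rw [hT]; ring
  have hx10 : x / 10 / κ = (x / κ) / 10 := by ring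
  rw [hx10] at h1
  have h1' : 2 * L + 1 + c0 ≤ (x / κ) / 10 := by nlinarith
  have hT0T : T0 + 10 ≤ T := by rw [hTx]; linarith
  have hTpos : 0 < T := by linarith
  have hlogT : Real.log T = L + Real.log (4 / 5 * x) := by
    rw [hT, Real.log_div (by positivity) hκ.ne', hL, La]; ring
  have hc1 : Real.log (4 / 5 * x) ≤ c0 := le_abs_self _
  have hc2 : -c0 ≤ Real.log (4 / 5 * x) := neg_abs_le _
  obtain ⟨U1, U2, hU1, hU1', hU2, hU2', hmain⟩ := hef T (by linarith)
  have hyx : y / κ ≤ 3 / 2 * (x / κ) := by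
    rw [show 3 / 2 * (x / κ) = (3 / 2 * x) / κ by ring]
    exact div_le_div_of_nonneg_right hy hκ.le
  have key := hmain u t hu (by nlinarith) (by linarith) (by linarith)
  have hb1 : U1 ≤ x / κ - L := by linarith
  have hb2 : y / κ + L ≤ U2 := by linarith
  have hU11 : 1 ≤ U1 := by linarith
  have hb0 : 1 ≤ x / κ - L := by linarith
  -- difference of the zero sums
  have hdiff : ‖AA riemannZeta U1 U2 u t - AA riemannZeta (x / κ - L) (y / κ + L) u t‖ ≤ Real.exp (-u) := by
    classical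
    rw [AA_eq good_zeta hU11, AA_eq good_zeta hb0]
    have hsub : Zf riemannZeta (x / κ - L) (y / κ + L) ⊆ Zf riemannZeta U1 U2 := by
      intro s hs
      rw [mem_Zf good_zeta hb0] at hs
      rw [mem_Zf good_zeta hU11]
      exact zset_mono riemannZeta hb1 hb2 hs
    rw [← Finset.sum_sdiff hsub, add_sub_cancel_right]
    have hterm : ∀ s ∈ Zf riemannZeta U1 U2 \ Zf riemannZeta (x / κ - L) (y / κ + L),
        ‖(mult riemannZeta s : ℂ) * hh u t s‖ ≤
          (mult riemannZeta s : ℝ) * (2 * Real.exp (u / 2) * Real.exp (-L ^ 2 / 2)) := by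
      intro s hs
      rw [Finset.mem_sdiff, mem_Zf good_zeta hU11, mem_Zf good_zeta hb0] at hs
      obtain ⟨hs1, hs2⟩ := hs
      rw [norm_mul, Complex.norm_natCast]
      apply mul_le_mul_of_nonneg_left _ (Nat.cast_nonneg _)
      refine (norm_hh_le hs1 u t hu).trans ?_
      apply mul_le_mul_of_nonneg_left _ (by positivity)
      apply Real.exp_le_exp.2
      have h7 : L ^ 2 ≤ (s.im - t) ^ 2 := by
        by_contra hc
        push Not at hc
        apply hs2
        have h8 := abs_lt_of_sq_lt_sq hc (by linarith)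
        rw [abs_lt] at h8
        exact ⟨hs1.1, hs1.2.1, by linarith [h8.1], by linarith [h8.2], hs1.2.2.2.2⟩
      linarith
    refine (norm_sum_le_of_le _ hterm).trans ?_
    rw [← Finset.sum_mul]
    have hle : ∑ s ∈ Zf riemannZeta U1 U2 \ Zf riemannZeta (x / κ - L) (y / κ + L), (mult riemannZeta s : ℝ) ≤
        NN riemannZeta U1 U2 := by
      rw [NN_eq good_zeta hU11]
      push_cast
      exact Finset.sum_le_sum_of_subset_of_nonneg Finset.sdiff_subset (fun s _ _ => Nat.cast_nonneg _)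
    have hN := hNN T (by linarith) U1 U2 hU1 hU2'
    have hlT : Real.log T ≤ 2 * L := by linarith
    have hTe : T = 4 / 5 * x * Real.exp L := by rw [hL, exp_La hκ, hT]; ring
    have hLe : L ≤ Real.exp L := by have := Real.add_one_le_exp L; linarith
    calc (∑ s ∈ Zf riemannZeta U1 U2 \ Zf riemannZeta (x / κ - L) (y / κ + L), (mult riemannZeta s : ℝ)) *
          (2 * Real.exp (u / 2) * Real.exp (-L ^ 2 / 2))
        ≤ (C3 * (T * Real.log T)) * (2 * Real.exp (u / 2) * Real.exp (-L ^ 2 / 2)) := by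
          apply mul_le_mul_of_nonneg_right (hle.trans hN) (by positivity)
      _ ≤ (C3 * (4 / 5 * x * Real.exp L * (2 * Real.exp L))) * (2 * Real.exp (u / 2) * Real.exp (-L ^ 2 / 2)) := by
          apply mul_le_mul_of_nonneg_right _ (by positivity)
          apply mul_le_mul_of_nonneg_left _ hC3.le
          rw [← hTe]
          apply mul_le_mul_of_nonneg_left _ hTpos.le
          linarith
      _ = 16 / 5 * C3 * x * Real.exp (2 * L + u / 2 + -L ^ 2 / 2) := by
          rw [Real.exp_add, Real.exp_add, two_mul L, Real.exp_add]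
          ring
      _ ≤ L * Real.exp (2 * L + u / 2 + -L ^ 2 / 2) := by
          apply mul_le_mul_of_nonneg_right _ (Real.exp_pos _).le
          nlinarith [mul_pos hC3 hx]
      _ ≤ Real.exp L * Real.exp (2 * L + u / 2 + -L ^ 2 / 2) :=
          mul_le_mul_of_nonneg_right hLe (Real.exp_pos _).le
      _ = Real.exp (L + (2 * L + u / 2 + -L ^ 2 / 2)) := by rw [← Real.exp_add]
      _ ≤ Real.exp (-u) := by
          apply Real.exp_le_exp.2
          nlinarith
  have hw : (0 : ℝ) ≤ 1 / Real.sqrt (2 * Real.pi) := by positivity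
  have hw1 : 1 / Real.sqrt (2 * Real.pi) ≤ 1 := by
    rw [div_le_one (by positivity), Real.one_le_sqrt]
    linarith [Real.pi_gt_three]
  have hlogd : ‖((1 / Real.sqrt (2 * Real.pi) : ℝ) : ℂ) * (Real.log T * cexp (I * u * t) *
              Real.exp (-u ^ 2 / 2) - PP lamc u t) - ((1 / Real.sqrt (2 * Real.pi) : ℝ) : ℂ) *
              (L * cexp (I * u * t) * Real.exp (-u ^ 2 / 2) - PP lamc u t)‖ ≤ 2 * c0 * Real.exp (-u) := by
    have e1 : ((1 / Real.sqrt (2 * Real.pi) : ℝ) : ℂ) * (Real.log T * cexp (I * u * t) *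
              Real.exp (-u ^ 2 / 2) - PP lamc u t) - ((1 / Real.sqrt (2 * Real.pi) : ℝ) : ℂ) *
              (L * cexp (I * u * t) * Real.exp (-u ^ 2 / 2) - PP lamc u t) =
              ((1 / Real.sqrt (2 * Real.pi) : ℝ) : ℂ) * ((Real.log (4 / 5 * x) : ℝ) : ℂ) *
              cexp (I * u * t) * ((Real.exp (-u ^ 2 / 2) : ℝ) : ℂ) := by
      rw [hlogT]; push_cast; ring
    rw [e1, norm_mul, norm_mul, norm_mul, Complex.norm_real, Complex.norm_real, Complex.norm_real,
      Real.norm_of_nonneg hw, Real.norm_of_nonneg (Real.exp_pos _).le, Real.norm_eq_abs, ← hc0,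
      show cexp (I * u * t) = cexp (((u * t : ℝ) : ℂ) * I) by push_cast; congr 1; ring,
      Complex.norm_exp_ofReal_mul_I, mul_one]
    have h8 : Real.exp (-u ^ 2 / 2) ≤ 2 * Real.exp (-u) := by
      calc Real.exp (-u ^ 2 / 2) ≤ Real.exp (1 / 2 + -u) := Real.exp_le_exp.2 (by nlinarith [sq_nonneg (u - 1)])
        _ = Real.exp (1 / 2) * Real.exp (-u) := Real.exp_add _ _
        _ ≤ 2 * Real.exp (-u) := mul_le_mul_of_nonneg_right exp_half_le (Real.exp_pos _).le
    calc 1 / Real.sqrt (2 * Real.pi) * c0 * Real.exp (-u ^ 2 / 2) ≤ 1 * c0 * (2 * Real.exp (-u)) := by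
          gcongr
      _ = 2 * c0 * Real.exp (-u) := by ring
  have htot : AA riemannZeta (x / κ - L) (y / κ + L) u t - ((1 / Real.sqrt (2 * Real.pi) : ℝ) : ℂ) *
              (L * cexp (I * u * t) * Real.exp (-u ^ 2 / 2) - PP lamc u t) =
      (AA riemannZeta U1 U2 u t - ((1 / Real.sqrt (2 * Real.pi) : ℝ) : ℂ) * (Real.log T * cexp (I * u * t) *
              Real.exp (-u ^ 2 / 2) - PP lamc u t)) -
      (AA riemannZeta U1 U2 u t - AA riemannZeta (x / κ - L) (y / κ + L) u t) +
      (((1 / Real.sqrt (2 * Real.pi) : ℝ) : ℂ) * (Real.log T * cexp (I * u * t) *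
              Real.exp (-u ^ 2 / 2) - PP lamc u t) - ((1 / Real.sqrt (2 * Real.pi) : ℝ) : ℂ) *
              (L * cexp (I * u * t) * Real.exp (-u ^ 2 / 2) - PP lamc u t)) := by ring
  rw [htot]
  refine (norm_add_le _ _).trans ?_
  refine (add_le_add ((norm_sub_le _ _).trans (add_le_add key hdiff)) hlogd).trans (le_of_eq ?_)
  ring

end Pool.Agent.L5helper10.TV
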