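import Pool.Agent.L5helper10.TV.Psx
import Pool.Agent.L5helper10.TV.EFz

/-! The change of variables from multiplicatively short intervals to short intervals. -/

set_option autoImplicit false

open Filter Topology Set MeasureTheory
open scoped ENNReal

namespace Pool.Agent.L5helper10.TV

/-- the shift between the two logarithmic coordinates -/
noncomputable def ss (T κ : ℝ) : ℝ := Real.log (2 * T * Real.sinh (κ / 2))

lemma ss_meas (T : ℝ) : Measurable (ss T) := by
  unfold ss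
  apply Real.measurable_log.comp
  exact (Real.continuous_sinh.comp (continuous_id.div_const 2)).measurable.const_mul _

/-- the centre of the interval -/
noncomputable def xc (H κ : ℝ) : ℝ := H / 2 * (Real.cosh (κ / 2) / Real.sinh (κ / 2))

lemma xc_deriv (H κ : ℝ) (hκ : 0 < κ) : HasDerivAt (xc H) (-(H * ((2 * Real.sinh (κ / 2))⁻¹) ^ 2)) κ := by
  have hs : 0 < Real.sinh (κ / 2) := Real.sinh_pos_iff.2 (by linarith)
  have h1 : HasDerivAt (fun κ : ℝ => κ / 2) (1 / 2) κ := (hasDerivAt_id κ).div_const 2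
  have h2 := ((h1.cosh).div h1.sinh hs.ne').const_mul (H / 2)
  have h3 := Real.cosh_sq (κ / 2)
  refine h2.congr_deriv ?_
  have : Real.sinh (κ / 2) * (1 / 2) * Real.sinh (κ / 2) - Real.cosh (κ / 2) * (Real.cosh (κ / 2) * (1 / 2)) = -(1 / 2) := by
    nlinarith
  rw [this]
  field_simp

lemma xc_inj (H : ℝ) (hH : 0 < H) (a b : ℝ) (ha : 0 < a) : InjOn (xc H) (Ioo a b) := by
  intro x hx y hy h
  have hx0 : 0 < x := ha.trans hx.1
  have hy0 : 0 < y := ha.trans hy.1
  have hsx : 0 < Real.sinh (x / 2) := Real.sinh_pos_iff.2 (by linarith)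
  have hsy : 0 < Real.sinh (y / 2) := Real.sinh_pos_iff.2 (by linarith)
  unfold xc at h
  have h1 := mul_left_cancel₀ (by positivity : H / 2 ≠ 0) h
  rw [div_eq_div_iff hsx.ne' hsy.ne'] at h1
  have h2 : Real.sinh (x / 2 - y / 2) = 0 := by
    rw [Real.sinh_sub]; linarith
  have h3 := Real.sinh_eq_zero.1 h2
  linarith

lemma inner_shift (T κ : ℝ) (hT : 1 ≤ T) (hκ : 0 < κ) (G : ℝ → ℝ) :
    ∫⁻ v in Ioi (La κ), ENNReal.ofReal (fk κ v ^ 2 * G (v + ss T κ)) ≤
    ∫⁻ u in Ioi (Real.log T), ENNReal.ofReal (fk κ (u - ss T κ) ^ 2 * G u) := by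
  have hs : 0 < Real.sinh (κ / 2) := Real.sinh_pos_iff.2 (by linarith)
  have hT0 : 0 < T := by linarith
  have hge := sinh_half_ge κ hκ.le
  have hsum : Real.log T ≤ La κ + ss T κ := by
    unfold La ss
    have h1 : Real.log (2 * T * Real.sinh (κ / 2)) = Real.log T + Real.log (2 * Real.sinh (κ / 2)) := by
      rw [← Real.log_mul hT0.ne' (by positivity)]; congr 1; ring
    have h2 : Real.log κ ≤ Real.log (2 * Real.sinh (κ / 2)) := Real.log_le_log hκ hge
    linarith
  rw [← lintegral_indicator measurableSet_Ioi, ← lintegral_indicator measurableSet_Ioi,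
    ← lintegral_sub_right_eq_self _ (ss T κ)]
  apply lintegral_mono
  intro u
  simp only [Set.indicator_apply, Set.mem_Ioi]
  by_cases h : La κ < u - ss T κ
  · rw [if_pos h, if_pos (by linarith), sub_add_cancel]
  · rw [if_neg h]; exact bot_le

lemma pt_id (T κ u : ℝ) (hT : 1 ≤ T) (hκ : 0 < κ) (g : ℝ) :
    ENNReal.ofReal ((2 * Real.sinh (κ / 2))⁻¹ ^ 3) * ENNReal.ofReal (fk κ (u - ss T κ) ^ 2 * g) =
    ENNReal.ofReal (g * (T ^ 2 * Real.exp (-(2 * u)))) *
      (ENNReal.ofReal (|(-(Real.exp u / T * ((2 * Real.sinh (κ / 2))⁻¹) ^ 2))|) *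
        ENNReal.ofReal ((psiH (xc (Real.exp u / T) κ) (Real.exp u / T) - Real.exp u / T) ^ 2)) := by
  have hs : 0 < Real.sinh (κ / 2) := Real.sinh_pos_iff.2 (by linarith)
  have hT0 : 0 < T := by linarith
  have hexp : Real.exp (u - ss T κ) = Real.exp u / (2 * T * Real.sinh (κ / 2)) := by
    unfold ss
    rw [Real.exp_sub, Real.exp_log (by positivity)]
  have hH : Real.exp u / T = 2 * (Real.exp (u - ss T κ) * Real.sinh (κ / 2)) := by
    rw [hexp]; field_simp
  have hx : xc (Real.exp u / T) κ = Real.exp (u - ss T κ) * Real.cosh (κ / 2) := by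
    unfold xc; rw [hexp]; field_simp
  have hfk := fk_sq_psiH κ (u - ss T κ) _ _ hx hH
  have hexp2 : Real.exp (-(u - ss T κ)) = 2 * T * Real.sinh (κ / 2) * Real.exp (-u) := by
    rw [Real.exp_neg, hexp, inv_div, Real.exp_neg, div_eq_mul_inv]
  rw [hexp2] at hfk
  rw [hfk, abs_neg, abs_of_nonneg (by positivity), ← ENNReal.ofReal_mul (by positivity),
    ← ENNReal.ofReal_mul (by positivity), mul_comm (ENNReal.ofReal (g * _)), ← ENNReal.ofReal_mul (by positivity)]
  congr 1
  have e2 : Real.exp (-(2 * u)) = Real.exp (-u) * Real.exp (-u) := by rw [← Real.exp_add]; congr 1; ring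
  have e3 : Real.exp u * Real.exp (-u) = 1 := by rw [← Real.exp_add]; simp
  rw [e2]
  have e4 : ∀ D : ℝ, Real.exp u / T * (2 * Real.sinh (κ / 2))⁻¹ ^ 2 * D * (g * (T ^ 2 * (Real.exp (-u) * Real.exp (-u)))) =
      (Real.exp u * Real.exp (-u)) * ((2 * Real.sinh (κ / 2))⁻¹ ^ 2 * D * (g * (T * Real.exp (-u)))) := by
    intro D; field_simp
  rw [e4, e3]
  field_simp

theorem cv (T q Q : ℝ) (G : ℝ → ℝ) (hT : 1 ≤ T) (hq : 1 < q) (hQT : Q / T ≤ 1 / 2)
    (hcosh : ∀ κ ∈ Ioo (q / T) (Q / T), Real.cosh (κ / 2) ≤ q) (hGm : Measurable G) :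
    ∫⁻ κ in Ioo (q / T) (Q / T), ENNReal.ofReal ((2 * Real.sinh (κ / 2))⁻¹ ^ 3) *
      ∫⁻ v in Ioi (La κ), ENNReal.ofReal (fk κ v ^ 2 * G (v + ss T κ)) ≤
    ∫⁻ u in Ioi (Real.log T), ENNReal.ofReal (G u * (T ^ 2 * Real.exp (-(2 * u)))) *
      ∫⁻ x in Ioc (Real.exp u / T) (Real.exp u), ENNReal.ofReal ((psiH x (Real.exp u / T) - Real.exp u / T) ^ 2) := by
  have hT0 : 0 < T := by linarith
  have hqT : 0 < q / T := by positivity
  have h1 : ∫⁻ κ in Ioo (q / T) (Q / T), ENNReal.ofReal ((2 * Real.sinh (κ / 2))⁻¹ ^ 3) *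
      ∫⁻ v in Ioi (La κ), ENNReal.ofReal (fk κ v ^ 2 * G (v + ss T κ)) ≤
      ∫⁻ κ in Ioo (q / T) (Q / T), ∫⁻ u in Ioi (Real.log T), ENNReal.ofReal ((2 * Real.sinh (κ / 2))⁻¹ ^ 3) *
        ENNReal.ofReal (fk κ (u - ss T κ) ^ 2 * G u) := by
    apply setLIntegral_mono' measurableSet_Ioo
    intro κ hκ
    rw [lintegral_const_mul' _ _ ENNReal.ofReal_ne_top]
    exact mul_le_mul_right (inner_shift T κ hT (hqT.trans hκ.1) G) _
  refine h1.trans ?_
  rw [lintegral_lintegral_swap]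
  · apply setLIntegral_mono' measurableSet_Ioi
    intro u hu
    set H := Real.exp u / T with hH
    have hH1 : 1 < H := by
      rw [hH, one_lt_div hT0, ← Real.log_lt_iff_lt_exp hT0]; exact hu
    have h2 : ∫⁻ κ in Ioo (q / T) (Q / T), ENNReal.ofReal ((2 * Real.sinh (κ / 2))⁻¹ ^ 3) *
        ENNReal.ofReal (fk κ (u - ss T κ) ^ 2 * G u) =
        ∫⁻ κ in Ioo (q / T) (Q / T), ENNReal.ofReal (G u * (T ^ 2 * Real.exp (-(2 * u)))) *
      (ENNReal.ofReal (|(-(H * ((2 * Real.sinh (κ / 2))⁻¹) ^ 2))|) *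
        ENNReal.ofReal ((psiH (xc H κ) H - H) ^ 2)) := by
      apply setLIntegral_congr_fun measurableSet_Ioo
      intro κ hκ
      exact pt_id T κ u hT (hqT.trans hκ.1) (G u)
    rw [h2, lintegral_const_mul' _ _ ENNReal.ofReal_ne_top]
    refine mul_le_mul_right ?_ _
    rw [← lintegral_image_eq_lintegral_abs_deriv_mul (f := xc H)
      (f' := fun κ => -(H * ((2 * Real.sinh (κ / 2))⁻¹) ^ 2)) measurableSet_Ioo
      (fun κ hκ => (xc_deriv H κ (hqT.trans hκ.1)).hasDerivWithinAt) (xc_inj H (by linarith) _ _ hqT)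
      (fun x => ENNReal.ofReal ((psiH x H - H) ^ 2))]
    apply lintegral_mono_set
    rintro x ⟨κ, hκ, rfl⟩
    have hκ0 : 0 < κ := hqT.trans hκ.1
    have hs : 0 < Real.sinh (κ / 2) := Real.sinh_pos_iff.2 (by linarith)
    have hκh : κ < 1 / 2 := hκ.2.trans_le hQT
    have hge := sinh_half_ge κ hκ0.le
    have hle := sinh_half_le κ hκ0.le (by linarith)
    constructor
    · unfold xc
      have h3 : 1 ≤ Real.cosh (κ / 2) := Real.one_le_cosh _
      have hH0 : 0 < H := by linarith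
      rw [div_mul_div_comm, lt_div_iff₀ (by positivity)]
      have h9 : 2 * Real.sinh (κ / 2) < Real.cosh (κ / 2) := by nlinarith
      have h10 := mul_lt_mul_of_pos_left h9 hH0
      linarith
    · unfold xc
      have h3 := hcosh κ hκ
      have h4 : q < T * κ := by
        have := hκ.1
        rw [div_lt_iff₀ hT0] at this
        linarith
      have h5 : Real.cosh (κ / 2) ≤ T * (2 * Real.sinh (κ / 2)) := by
        have := mul_le_mul_of_nonneg_left hge hT0.le
        linarith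
      rw [div_mul_div_comm, div_le_iff₀ (by positivity)]
      have h6 := mul_le_mul_of_nonneg_left h5 (by linarith : 0 ≤ H)
      have h7 : H * T = Real.exp u := by rw [hH]; field_simp
      calc H * Real.cosh (κ / 2) ≤ H * (T * (2 * Real.sinh (κ / 2))) := h6
        _ = (H * T) * (2 * Real.sinh (κ / 2)) := by ring
        _ = _ := by rw [h7]
  · apply Measurable.aemeasurable
    have m1 : Measurable (fun p : ℝ × ℝ => ENNReal.ofReal ((2 * Real.sinh (p.1 / 2))⁻¹ ^ 3)) := by
      apply ENNReal.measurable_ofReal.comp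
      apply Measurable.pow_const
      apply Measurable.inv
      exact ((Real.continuous_sinh.comp (continuous_id.div_const 2)).measurable.comp measurable_fst).const_mul _
    have m2 : Measurable (fun p : ℝ × ℝ => fk p.1 (p.2 - ss T p.1) ^ 2) :=
      (fk_meas2.comp (measurable_fst.prodMk (measurable_snd.sub ((ss_meas T).comp measurable_fst)))).pow_const 2
    have m3 : Measurable (fun p : ℝ × ℝ => fk p.1 (p.2 - ss T p.1) ^ 2 * G p.2) := m2.mul (hGm.comp measurable_snd)
    exact m1.mul (ENNReal.measurable_ofReal.comp m3)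

end Pool.Agent.L5helper10.TV
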