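import Pool.Agent.L5helper10.TV.Ps

/-! Mean square of the second difference of the prime sum, summed over consecutive blocks. -/

set_option autoImplicit false

open Complex Filter Topology Set MeasureTheory H370

namespace Pool.Agent.L5helper10.TV

/-- division points -/
noncomputable def xj (a δ : ℝ) (j : ℕ) : ℝ := a + j * δ

/-- upper bound of the weight in a block -/
noncomputable def Wj (a δ : ℝ) (j : ℕ) : ℝ := 2 - 2 * Real.cos (xj a δ j) + 3 * δ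

/-- the coefficient of a block -/
noncomputable def wj (κ a δ : ℝ) (j : ℕ) : ℝ := κ ^ 2 / (Wj a δ j * xj a δ (j + 1) ^ 2)

noncomputable def G0 (κ u : ℝ) : ℝ := ∫ v : ℝ, fk κ v ^ 2 * Real.exp (-(u - v) ^ 2)
noncomputable def G1 (κ u : ℝ) : ℝ := ∫ v : ℝ, fk κ v ^ 2 * Real.exp (-(u - v) ^ 2 / 2)

lemma xj_succ (a δ : ℝ) (j : ℕ) : xj a δ (j + 1) = xj a δ j + δ := by
  unfold xj; push_cast; ring

lemma xj_pos {a δ : ℝ} (ha : 0 < a) (hδ : 0 < δ) (j : ℕ) : 0 < xj a δ j := by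
  unfold xj; positivity

lemma Wj_pos {a δ : ℝ} (hδ : 0 < δ) (j : ℕ) : 0 < Wj a δ j := by
  unfold Wj
  have := Real.cos_le_one (xj a δ j)
  linarith

lemma fw_g0 (κ u : ℝ) : ∫ v : ℝ, fw κ g0 u v ^ 2 = G0 κ u := by
  unfold G0
  apply integral_congr_ae
  refine Eventually.of_forall fun v => ?_
  simp only
  unfold fw g0
  rw [mul_pow, ← Real.exp_nat_mul]
  congr 2
  push_cast; ring

lemma G1_int (κ u : ℝ) (hκ0 : 0 ≤ κ) (hκ : κ ≤ 1) : Integrable (fun v : ℝ => fk κ v ^ 2 * Real.exp (-(u - v) ^ 2 / 2)) := by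
  have hw : Win (fun x => Real.exp (-x ^ 2 / 4)) 1 := ⟨by fun_prop, fun x => by
    rw [abs_of_pos (Real.exp_pos _), one_mul]⟩
  refine (fw_sq_int κ hκ0 hκ hw u).congr (Eventually.of_forall fun v => ?_)
  simp only
  unfold fw
  rw [mul_pow, ← Real.exp_nat_mul]
  congr 2
  push_cast; ring

lemma fw_G1 (κ u : ℝ) (hκ0 : 0 ≤ κ) (hκ : κ ≤ 1) {ω : ℝ → ℝ} {B : ℝ} (h : Win ω B) :
    ∫ v : ℝ, fw κ ω u v ^ 2 ≤ B ^ 2 * G1 κ u := by
  unfold G1
  rw [← integral_const_mul]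
  apply integral_mono (fw_sq_int κ hκ0 hκ h u) ((G1_int κ u hκ0 hκ).const_mul _)
  intro v
  simp only
  unfold fw
  have h1 := h.bd (u - v)
  have h2 : ω (u - v) ^ 2 ≤ (B * Real.exp (-(u - v) ^ 2 / 4)) ^ 2 := by
    rw [← sq_abs (ω (u - v))]
    exact pow_le_pow_left₀ (abs_nonneg _) h1 2
  have h3 : (B * Real.exp (-(u - v) ^ 2 / 4)) ^ 2 = B ^ 2 * Real.exp (-(u - v) ^ 2 / 2) := by
    rw [mul_pow, ← Real.exp_nat_mul]
    congr 2
    push_cast; ring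
  rw [h3] at h2
  calc (fk κ v * ω (u - v)) ^ 2 = fk κ v ^ 2 * ω (u - v) ^ 2 := by ring
    _ ≤ fk κ v ^ 2 * (B ^ 2 * Real.exp (-(u - v) ^ 2 / 2)) := mul_le_mul_of_nonneg_left h2 (sq_nonneg _)
    _ = _ := by ring

lemma QP_cont (κ u : ℝ) : Continuous (fun t => QP κ u t) := by
  unfold QP
  have h1 := PP_cont (a := lamc) lamc_norm u
  have h2 := PP_cont (a := lamc) lamc_norm (u + κ)
  have h3 := PP_cont (a := lamc) lamc_norm (u - κ)
  fun_prop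

theorem PS (a δ : ℝ) (ha : 0 < a) (hδ : 0 < δ) (N : ℕ) (η : ℝ) (hη : 0 < η) (hη1 : η ≤ 1) :
    ∃ C : ℝ, 0 < C ∧ ∀ᶠ κ in 𝓝[>] (0 : ℝ), ∀ u : ℝ,
      ∑ j ∈ Finset.range N, wj κ a δ j * ∫ t in (xj a δ j / κ)..(xj a δ (j + 1) / κ), ‖QP κ u t‖ ^ 2 ≤
        (1 + η) * Real.pi * G0 κ u + C * κ ^ 2 * G1 κ u := by
  have hb : ∀ j : ℕ, ∃ C : ℝ, 0 < C ∧ ∀ᶠ κ in 𝓝[>] (0 : ℝ), ∀ u t : ℝ, xj a δ j / κ ≤ t → t ≤ xj a δ (j + 1) / κ →
      wj κ a δ j * ‖QP κ u t‖ ^ 2 ≤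
        (1 + η) * ‖SS κ g0 u t‖ ^ 2 + C * κ ^ 2 * (‖SS κ (rr κ (-(κ / 2))) u t‖ ^ 2 + ‖SS κ (rr κ (κ / 2)) u t‖ ^ 2 +
          ‖SS κ (pw (-(κ / 2))) u t‖ ^ 2 + ‖SS κ (pw (κ / 2)) u t‖ ^ 2) := by
    intro j
    obtain ⟨C, hC, h⟩ := QP_pt (xj a δ j) (xj a δ (j + 1)) η (xj_pos ha hδ j) (by rw [xj_succ]; linarith) hη hη1
    refine ⟨C, hC, ?_⟩
    filter_upwards [h] with κ hκ u t h1 h2
    have h3 := hκ u t h1 h2
    rw [xj_succ, show xj a δ j + δ - xj a δ j = δ by ring, ← xj_succ] at h3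
    exact h3
  choose C hC hev using hb
  have hall : ∀ᶠ κ in 𝓝[>] (0 : ℝ), ∀ j ∈ Finset.range N, ∀ u t : ℝ, xj a δ j / κ ≤ t → t ≤ xj a δ (j + 1) / κ →
      wj κ a δ j * ‖QP κ u t‖ ^ 2 ≤
        (1 + η) * ‖SS κ g0 u t‖ ^ 2 + C j * κ ^ 2 * (‖SS κ (rr κ (-(κ / 2))) u t‖ ^ 2 + ‖SS κ (rr κ (κ / 2)) u t‖ ^ 2 +
          ‖SS κ (pw (-(κ / 2))) u t‖ ^ 2 + ‖SS κ (pw (κ / 2)) u t‖ ^ 2) := by
    rw [Filter.eventually_all_finset]
    exact fun j _ => hev j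
  have hCs : 0 ≤ ∑ j ∈ Finset.range N, C j := Finset.sum_nonneg fun j _ => (hC j).le
  refine ⟨(∑ j ∈ Finset.range N, C j) * (144 * Real.pi) + 1, by positivity, ?_⟩
  filter_upwards [hall, le_one_ev2, self_mem_nhdsWithin] with κ h1 hκ1 h2 u
  have hκ : 0 < κ := h2
  have hs1 : |-(κ / 2)| ≤ 1 / 2 := by rw [abs_neg, abs_of_pos (by linarith)]; linarith
  have hs2 : |κ / 2| ≤ 1 / 2 := by rw [abs_of_pos (by linarith)]; linarith
  have hs3 : |-(κ / 2)| ≤ κ := by rw [abs_neg, abs_of_pos (by linarith)]; linarith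
  have hs4 : |κ / 2| ≤ κ := by rw [abs_of_pos (by linarith)]; linarith
  have w1 := win_rr κ (-(κ / 2)) hκ hs1 hs3
  have w2 := win_rr κ (κ / 2) hκ hs2 hs4
  have w3 := win_pw (-(κ / 2)) hs1
  have w4 := win_pw (κ / 2) hs2
  have hG1 : 0 ≤ G1 κ u := integral_nonneg fun v => mul_nonneg (sq_nonneg _) (Real.exp_pos _).le
  have hpi := Real.pi_pos
  -- one block
  have hblock : ∀ j ∈ Finset.range N,
      wj κ a δ j * (∫ t in (xj a δ j / κ)..(xj a δ (j + 1) / κ), ‖QP κ u t‖ ^ 2) ≤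
      (1 + η) * (∫ t in (xj a δ j / κ)..(xj a δ (j + 1) / κ), ‖SS κ g0 u t‖ ^ 2) +
        C j * κ ^ 2 * (144 * Real.pi * G1 κ u) := by
    intro j hj
    have hxj := xj_pos ha hδ j
    have hab : xj a δ j / κ ≤ xj a δ (j + 1) / κ := by
      apply div_le_div_of_nonneg_right _ hκ.le
      rw [xj_succ]; linarith
    have ha0 : 0 ≤ xj a δ j / κ := by positivity
    have i0 := (SS_planch κ hκ.le hκ1 win_g0 u).1.intervalIntegrable (a := xj a δ j / κ) (b := xj a δ (j + 1) / κ)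
    have i1 := (SS_planch κ hκ.le hκ1 w1 u).1.intervalIntegrable (a := xj a δ j / κ) (b := xj a δ (j + 1) / κ)
    have i2 := (SS_planch κ hκ.le hκ1 w2 u).1.intervalIntegrable (a := xj a δ j / κ) (b := xj a δ (j + 1) / κ)
    have i3 := (SS_planch κ hκ.le hκ1 w3 u).1.intervalIntegrable (a := xj a δ j / κ) (b := xj a δ (j + 1) / κ)
    have i4 := (SS_planch κ hκ.le hκ1 w4 u).1.intervalIntegrable (a := xj a δ j / κ) (b := xj a δ (j + 1) / κ)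
    have s1 := (SS_half κ hκ.le hκ1 w1 u _ _ ha0 hab).trans
      (mul_le_mul_of_nonneg_left (fw_G1 κ u hκ.le hκ1 w1) hpi.le)
    have s2 := (SS_half κ hκ.le hκ1 w2 u _ _ ha0 hab).trans
      (mul_le_mul_of_nonneg_left (fw_G1 κ u hκ.le hκ1 w2) hpi.le)
    have s3 := (SS_half κ hκ.le hκ1 w3 u _ _ ha0 hab).trans
      (mul_le_mul_of_nonneg_left (fw_G1 κ u hκ.le hκ1 w3) hpi.le)
    have s4 := (SS_half κ hκ.le hκ1 w4 u _ _ ha0 hab).trans
      (mul_le_mul_of_nonneg_left (fw_G1 κ u hκ.le hκ1 w4) hpi.le)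
    have i12 := i1.add i2
    have i123 := i12.add i3
    have i1234 := i123.add i4
    rw [← intervalIntegral.integral_const_mul]
    have e1 : ∫ t in (xj a δ j / κ)..(xj a δ (j + 1) / κ), wj κ a δ j * ‖QP κ u t‖ ^ 2 ≤
        ∫ t in (xj a δ j / κ)..(xj a δ (j + 1) / κ), ((1 + η) * ‖SS κ g0 u t‖ ^ 2 + C j * κ ^ 2 *
          (‖SS κ (rr κ (-(κ / 2))) u t‖ ^ 2 + ‖SS κ (rr κ (κ / 2)) u t‖ ^ 2 +
          ‖SS κ (pw (-(κ / 2))) u t‖ ^ 2 + ‖SS κ (pw (κ / 2)) u t‖ ^ 2)) := by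
      apply intervalIntegral.integral_mono_on hab
      · exact (continuous_const.mul ((QP_cont κ u).norm.pow 2)).intervalIntegrable _ _
      · exact (i0.const_mul _).add (i1234.const_mul _)
      · intro t ht
        exact h1 j hj u t ht.1 ht.2
    refine e1.trans ?_
    rw [intervalIntegral.integral_add (i0.const_mul _) (i1234.const_mul _), intervalIntegral.integral_const_mul,
      intervalIntegral.integral_const_mul, intervalIntegral.integral_add i123 i4, intervalIntegral.integral_add i12 i3,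
      intervalIntegral.integral_add i1 i2]
    apply add_le_add_right
    apply mul_le_mul_of_nonneg_left _ (mul_nonneg (hC j).le (sq_nonneg _))
    linarith
  have hs := Finset.sum_le_sum hblock
  rw [Finset.sum_add_distrib, ← Finset.mul_sum] at hs
  have hadj : ∑ j ∈ Finset.range N, ∫ t in (xj a δ j / κ)..(xj a δ (j + 1) / κ), ‖SS κ g0 u t‖ ^ 2 =
      ∫ t in (xj a δ 0 / κ)..(xj a δ N / κ), ‖SS κ g0 u t‖ ^ 2 :=
    intervalIntegral.sum_integral_adjacent_intervals (a := fun j => xj a δ j / κ) fun j _ =>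
      (SS_planch κ hκ.le hκ1 win_g0 u).1.intervalIntegrable
  rw [hadj] at hs
  have hx0N : xj a δ 0 / κ ≤ xj a δ N / κ := by
    apply div_le_div_of_nonneg_right _ hκ.le
    unfold xj
    have : (0 : ℝ) ≤ N := Nat.cast_nonneg N
    push_cast
    nlinarith
  have hx0 : 0 ≤ xj a δ 0 / κ := div_nonneg (xj_pos ha hδ 0).le hκ.le
  have hmain := SS_half κ hκ.le hκ1 win_g0 u _ _ hx0 hx0N
  rw [fw_g0] at hmain
  refine hs.trans ?_
  rw [← Finset.sum_mul, ← Finset.sum_mul]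
  have k1 : (1 + η) * (∫ t in (xj a δ 0 / κ)..(xj a δ N / κ), ‖SS κ g0 u t‖ ^ 2) ≤ (1 + η) * (Real.pi * G0 κ u) :=
    mul_le_mul_of_nonneg_left hmain (by linarith)
  have k2 : 0 ≤ κ ^ 2 * G1 κ u := mul_nonneg (sq_nonneg _) hG1
  nlinarith

end Pool.Agent.L5helper10.TV
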