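import Pool.Agent.L5helper10.TV.Fk
import Pool.Agent.L5helper10.TV.Ps2

/-! The integral of `(2 - 2 cos x) / x ^ 2` and its Riemann sums. -/

set_option autoImplicit false

open Complex Filter Topology Set MeasureTheory FourierTransform
open scoped ENNReal

namespace Pool.Agent.L5helper10.TV

noncomputable def hs (x : ℝ) : ℝ := (2 - 2 * Real.cos x) / x ^ 2

lemma hs_nonneg (x : ℝ) : 0 ≤ hs x := by
  unfold hs
  have := Real.cos_le_one x
  apply div_nonneg (by linarith) (sq_nonneg _)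

lemma hs_meas : Measurable hs := by unfold hs; fun_prop

noncomputable def bx (v : ℝ) : ℂ := (Icc (-1 / 2 : ℝ) (1 / 2)).indicator (fun _ => (1 : ℂ)) v

lemma bx_fourier (ξ : ℝ) (hξ : ξ ≠ 0) : ‖𝓕 bx ξ‖ ^ 2 = hs (2 * Real.pi * ξ) := by
  have h1 : 𝓕 bx ξ = ∫ v in (-1 / 2 : ℝ)..(1 / 2), cexp ((-(2 * Real.pi * ξ) * I : ℂ) * v) := by
    rw [Real.fourier_eq']
    have e1 : ∀ v : ℝ, cexp (((-2 * Real.pi * inner ℝ v ξ : ℝ) : ℂ) * I) • bx v =
        (Icc (-1 / 2 : ℝ) (1 / 2)).indicator (fun v : ℝ => cexp ((-(2 * Real.pi * ξ) * I : ℂ) * v)) v := by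
      intro v
      unfold bx
      by_cases hv : v ∈ Icc (-1 / 2 : ℝ) (1 / 2)
      · rw [Set.indicator_of_mem hv, Set.indicator_of_mem hv, smul_eq_mul, mul_one]
        congr 1
        have : inner ℝ v ξ = v * ξ := by simp [mul_comm]
        rw [this]
        push_cast; ring
      · rw [Set.indicator_of_notMem hv, Set.indicator_of_notMem hv, smul_zero]
    simp_rw [e1]
    rw [integral_indicator measurableSet_Icc, integral_Icc_eq_integral_Ioc,
      ← intervalIntegral.integral_of_le (by norm_num)]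
  have hpi := Real.pi_pos
  have hc : (-(2 * Real.pi * ξ) * I : ℂ) ≠ 0 := by
    apply mul_ne_zero _ I_ne_zero
    rw [neg_ne_zero]
    exact_mod_cast mul_ne_zero (mul_ne_zero two_ne_zero hpi.ne') hξ
  rw [h1, integral_exp_mul_complex hc, norm_div, div_pow]
  have h2 : ‖(-(2 * Real.pi * ξ) * I : ℂ)‖ ^ 2 = (2 * Real.pi * ξ) ^ 2 := by
    rw [norm_mul, norm_I, mul_one, norm_neg, show (2 * (Real.pi : ℂ) * ξ) = ((2 * Real.pi * ξ : ℝ) : ℂ) by push_cast; rfl,
      Complex.norm_real, Real.norm_eq_abs, sq_abs]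
  have h3 : cexp ((-(2 * Real.pi * ξ) * I : ℂ) * ((1 / 2 : ℝ) : ℂ)) - cexp ((-(2 * Real.pi * ξ) * I : ℂ) * ((-1 / 2 : ℝ) : ℂ)) =
      ((-(2 * Real.sin (Real.pi * ξ)) : ℝ) : ℂ) * I := by
    rw [show (-(2 * Real.pi * ξ) * I : ℂ) * ((1 / 2 : ℝ) : ℂ) = ((-(Real.pi * ξ) : ℝ) : ℂ) * I by push_cast; ring,
      show (-(2 * Real.pi * ξ) * I : ℂ) * ((-1 / 2 : ℝ) : ℂ) = ((Real.pi * ξ : ℝ) : ℂ) * I by push_cast; ring,
      Complex.exp_mul_I, Complex.exp_mul_I, ← Complex.ofReal_cos, ← Complex.ofReal_sin, ← Complex.ofReal_cos,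
      ← Complex.ofReal_sin, Real.cos_neg, Real.sin_neg]
    push_cast; ring
  rw [h2, h3, norm_mul, norm_I, mul_one, Complex.norm_real, Real.norm_eq_abs, sq_abs]
  unfold hs
  congr 1
  have h4 : Real.cos (2 * Real.pi * ξ) = 1 - 2 * Real.sin (Real.pi * ξ) ^ 2 := by
    rw [show 2 * Real.pi * ξ = 2 * (Real.pi * ξ) by ring, Real.cos_two_mul, Real.cos_sq']
    ring
  rw [h4]; ring

theorem hs_integral : Integrable hs ∧ ∫ x, hs x = 2 * Real.pi := by
  have hpi := Real.pi_pos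
  have hbm : Measurable bx := measurable_const.indicator measurableSet_Icc
  have h1 : Integrable bx := by
    unfold bx
    rw [integrable_indicator_iff measurableSet_Icc]
    exact continuous_const.continuousOn.integrableOn_Icc
  have h2 : MemLp bx 2 := by
    rw [memLp_two_iff_integrable_sq_norm hbm.aestronglyMeasurable]
    refine h1.norm.congr (Eventually.of_forall fun v => ?_)
    simp only
    unfold bx
    by_cases hv : v ∈ Icc (-1 / 2 : ℝ) (1 / 2)
    · rw [Set.indicator_of_mem hv]; simp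
    · rw [Set.indicator_of_notMem hv]; simp
  have hpl := Pool.Agent.TH794.QD.plancherel bx h1 h2
  have h3 : ∫⁻ x, ‖bx x‖ₑ ^ 2 = 1 := by
    have : ∀ x, ‖bx x‖ₑ ^ 2 = (Icc (-1 / 2 : ℝ) (1 / 2)).indicator (fun _ => (1 : ENNReal)) x := by
      intro x
      unfold bx
      by_cases hv : x ∈ Icc (-1 / 2 : ℝ) (1 / 2)
      · rw [Set.indicator_of_mem hv, Set.indicator_of_mem hv]; simp
      · rw [Set.indicator_of_notMem hv, Set.indicator_of_notMem hv]; simp
    simp_rw [this]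
    rw [lintegral_indicator measurableSet_Icc, setLIntegral_const, Real.volume_Icc]
    norm_num
  have h4 : ∫⁻ ξ, ‖𝓕 bx ξ‖ₑ ^ 2 = ∫⁻ ξ, ENNReal.ofReal (hs (2 * Real.pi * ξ)) := by
    apply lintegral_congr_ae
    have : ∀ᵐ ξ : ℝ, ξ ≠ 0 := by
      rw [ae_iff]
      simp
    filter_upwards [this] with ξ hξ
    rw [← bx_fourier ξ hξ, ← ofReal_norm, ← ENNReal.ofReal_pow (norm_nonneg _)]
  rw [h3, h4] at hpl
  have hi : Integrable (fun ξ => hs (2 * Real.pi * ξ)) := by
    refine ⟨(hs_meas.comp (measurable_const.mul measurable_id)).aestronglyMeasurable, ?_⟩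
    rw [hasFiniteIntegral_iff_ofReal (Eventually.of_forall fun ξ => hs_nonneg _), hpl]
    exact ENNReal.one_lt_top
  have hv : ∫ ξ, hs (2 * Real.pi * ξ) = 1 := by
    rw [integral_eq_lintegral_of_nonneg_ae (Eventually.of_forall fun ξ => hs_nonneg _) hi.1, hpl]
    simp
  have hne : (2 * Real.pi) ≠ 0 := by positivity
  constructor
  · exact (integrable_comp_mul_left_iff hs hne).1 hi
  · have := Measure.integral_comp_mul_left hs (2 * Real.pi)
    rw [hv, abs_of_pos (by positivity), smul_eq_mul] at this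
    field_simp at this
    linarith

lemma hs_abs (x : ℝ) : hs |x| = hs x := by
  unfold hs
  rw [Real.cos_abs, sq_abs]

lemma hs_half : ∫ x in Ioi (0 : ℝ), hs x = Real.pi := by
  have h := integral_comp_abs (f := hs)
  simp_rw [hs_abs] at h
  rw [hs_integral.2] at h
  linarith

lemma hs_le_one (x : ℝ) : hs x ≤ 1 := by
  unfold hs
  rcases eq_or_ne x 0 with h | h
  · rw [h]; simp
  · rw [div_le_one (by positivity)]
    have := Real.one_sub_sq_div_two_le_cos (x := x)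
    linarith

lemma hs_le (x : ℝ) : hs x ≤ 4 / x ^ 2 := by
  unfold hs
  apply div_le_div_of_nonneg_right _ (sq_nonneg _)
  linarith [Real.neg_one_le_cos x]

lemma hs_upper (a b : ℝ) (ha : 0 < a) (hab : a ≤ b) : ∫ x in a..b, hs x ≤ Real.pi := by
  rw [intervalIntegral.integral_of_le hab, ← hs_half]
  apply setIntegral_mono_set hs_integral.1.integrableOn
  · exact Eventually.of_forall fun x => hs_nonneg x
  · have hsub : Ioc a b ⊆ Ioi 0 := fun t ht => lt_trans ha ht.1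
    exact LE.le.eventuallyLE hsub

lemma hs_lower (a b : ℝ) (ha : 0 < a) (hab : a ≤ b) : Real.pi - a - 4 / b ≤ ∫ x in a..b, hs x := by
  have hb : 0 < b := by linarith
  have h1 : ∫ x in Ioi (0 : ℝ), hs x = (∫ x in Ioc 0 b, hs x) + ∫ x in Ioi b, hs x := by
    have hd : Disjoint (Ioc (0 : ℝ) b) (Ioi b) := Set.disjoint_left.2 (fun x h1 h2 => not_lt.2 h1.2 h2)
    rw [← setIntegral_union hd measurableSet_Ioi
      hs_integral.1.integrableOn hs_integral.1.integrableOn, Set.Ioc_union_Ioi_eq_Ioi hb.le]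
  have h2 : ∫ x in Ioc 0 b, hs x = (∫ x in (0 : ℝ)..a, hs x) + ∫ x in a..b, hs x := by
    rw [← intervalIntegral.integral_of_le hb.le, intervalIntegral.integral_add_adjacent_intervals
      hs_integral.1.intervalIntegrable hs_integral.1.intervalIntegrable]
  have h3 : ∫ x in (0 : ℝ)..a, hs x ≤ a := by
    have : ∫ x in (0 : ℝ)..a, hs x ≤ ∫ x in (0 : ℝ)..a, (1 : ℝ) :=
      intervalIntegral.integral_mono_on ha.le hs_integral.1.intervalIntegrable intervalIntegrable_const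
        fun x _ => hs_le_one x
    simpa using this
  have h4 : ∫ x in Ioi b, hs x ≤ 4 / b := by
    have hi : IntegrableOn (fun x : ℝ => x ^ (-2 : ℝ)) (Ioi b) := integrableOn_Ioi_rpow_of_lt (by norm_num) hb
    have : ∫ x in Ioi b, hs x ≤ ∫ x in Ioi b, 4 * x ^ (-2 : ℝ) := by
      apply setIntegral_mono_on hs_integral.1.integrableOn (hi.const_mul 4) measurableSet_Ioi
      intro x hx
      have hx0 : 0 < x := hb.trans hx
      refine (hs_le x).trans (le_of_eq ?_)
      rw [Real.rpow_neg hx0.le]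
      norm_num
      ring
    refine this.trans (le_of_eq ?_)
    rw [integral_const_mul, integral_Ioi_rpow_of_lt (by norm_num) hb]
    norm_num
    rw [Real.rpow_neg hb.le, Real.rpow_one]
    ring
  rw [hs_half] at h1
  linarith

/-- lower bound of the weight in a block -/
noncomputable def Vj (a δ ε : ℝ) (j : ℕ) : ℝ := max 0 (2 - 2 * Real.cos (xj a δ j) - 2 * δ - ε)

lemma cos_block (a δ : ℝ) (j : ℕ) (x : ℝ) (h1 : xj a δ j ≤ x) (h2 : x ≤ xj a δ (j + 1)) :
    |Real.cos x - Real.cos (xj a δ j)| ≤ δ := by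
  refine (Real.abs_cos_sub_cos_le x (xj a δ j)).trans ?_
  rw [abs_of_nonneg (by linarith)]
  rw [xj_succ] at h2
  linarith

lemma tele (a δ : ℝ) (ha : 0 < a) (hδ : 0 < δ) (N : ℕ) :
    ∑ j ∈ Finset.range N, δ / xj a δ (j + 1) ^ 2 ≤ 1 / a := by
  have h1 : ∀ j ∈ Finset.range N, δ / xj a δ (j + 1) ^ 2 ≤ 1 / xj a δ j - 1 / xj a δ (j + 1) := by
    intro j _
    have hx := xj_pos ha hδ j
    have hx1 := xj_pos ha hδ (j + 1)
    have h2 : 1 / xj a δ j - 1 / xj a δ (j + 1) = δ / (xj a δ j * xj a δ (j + 1)) := by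
      rw [xj_succ] at hx1 ⊢
      field_simp
      ring
    rw [h2, sq]
    apply div_le_div_of_nonneg_left hδ.le (by positivity)
    apply mul_le_mul_of_nonneg_right _ hx1.le
    rw [xj_succ]; linarith
  refine (Finset.sum_le_sum h1).trans ?_
  rw [Finset.sum_range_sub']
  have h3 := xj_pos ha hδ N
  have : xj a δ 0 = a := by unfold xj; simp
  rw [this]
  have : 0 ≤ 1 / xj a δ N := by positivity
  linarith

lemma sum_adj (a δ : ℝ) (N : ℕ) : ∑ j ∈ Finset.range N, ∫ x in (xj a δ j)..(xj a δ (j + 1)), hs x =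
    ∫ x in a..(xj a δ N), hs x := by
  rw [intervalIntegral.sum_integral_adjacent_intervals (a := fun j => xj a δ j) fun j _ =>
    hs_integral.1.intervalIntegrable]
  congr 1
  unfold xj; simp

lemma T_upper (a δ : ℝ) (ha : 0 < a) (hδ : 0 < δ) (N : ℕ) :
    ∑ j ∈ Finset.range N, δ * Wj a δ j / xj a δ (j + 1) ^ 2 ≤ Real.pi + 5 * δ / a := by
  have h1 : ∀ j ∈ Finset.range N, δ * Wj a δ j / xj a δ (j + 1) ^ 2 ≤
      (∫ x in (xj a δ j)..(xj a δ (j + 1)), hs x) + 5 * δ * (δ / xj a δ (j + 1) ^ 2) := by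
    intro j _
    have hx := xj_pos ha hδ j
    have hx1 := xj_pos ha hδ (j + 1)
    have hle : xj a δ j ≤ xj a δ (j + 1) := by rw [xj_succ]; linarith
    have h2 : ∫ x in (xj a δ j)..(xj a δ (j + 1)), (Wj a δ j / xj a δ (j + 1) ^ 2 - 5 * δ / xj a δ (j + 1) ^ 2) ≤
        ∫ x in (xj a δ j)..(xj a δ (j + 1)), hs x := by
      apply intervalIntegral.integral_mono_on hle intervalIntegrable_const hs_integral.1.intervalIntegrable
      intro x hx2
      have hx0 : 0 < x := by linarith [hx2.1]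
      have h3 := (abs_le.1 (cos_block a δ j x hx2.1 hx2.2)).2
      unfold hs Wj
      rw [← sub_div]
      calc (2 - 2 * Real.cos (xj a δ j) + 3 * δ - 5 * δ) / xj a δ (j + 1) ^ 2 ≤
          (2 - 2 * Real.cos x) / xj a δ (j + 1) ^ 2 := by
            apply div_le_div_of_nonneg_right _ (sq_nonneg _)
            linarith
        _ ≤ (2 - 2 * Real.cos x) / x ^ 2 := by
            apply div_le_div_of_nonneg_left _ (by positivity) (pow_le_pow_left₀ hx0.le hx2.2 2)
            linarith [Real.cos_le_one x]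
    rw [intervalIntegral.integral_const, smul_eq_mul] at h2
    have h4 : xj a δ (j + 1) - xj a δ j = δ := by rw [xj_succ]; ring
    rw [h4] at h2
    have h5 : δ * (Wj a δ j / xj a δ (j + 1) ^ 2 - 5 * δ / xj a δ (j + 1) ^ 2) =
        δ * Wj a δ j / xj a δ (j + 1) ^ 2 - 5 * δ * (δ / xj a δ (j + 1) ^ 2) := by ring
    rw [h5] at h2
    linarith
  refine (Finset.sum_le_sum h1).trans ?_
  rw [Finset.sum_add_distrib, sum_adj, ← Finset.mul_sum]
  have h6 := tele a δ ha hδ N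
  have h7 : a ≤ xj a δ N := by
    unfold xj
    have : (0 : ℝ) ≤ N := Nat.cast_nonneg N
    nlinarith
  have h8 := hs_upper a (xj a δ N) ha h7
  have h9 : 5 * δ * ∑ j ∈ Finset.range N, δ / xj a δ (j + 1) ^ 2 ≤ 5 * δ * (1 / a) :=
    mul_le_mul_of_nonneg_left h6 (by positivity)
  have h10 : 5 * δ / a = 5 * δ * (1 / a) := by ring
  rw [h10]
  linarith

lemma V_lower (a δ ε : ℝ) (hδ : 0 < δ) (hε : 0 < ε) (j : ℕ) :
    2 - 2 * Real.cos (xj a δ j) - 7 * δ - 2 * ε ≤ Vj a δ ε j ^ 2 / Wj a δ j := by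
  have hW := Wj_pos (a := a) hδ j
  rw [le_div_iff₀ hW]
  set q := 2 - 2 * Real.cos (xj a δ j) with hq
  have hWq : Wj a δ j = q + 3 * δ := rfl
  have hq0 : 0 ≤ q := by have := Real.cos_le_one (xj a δ j); rw [hq]; linarith
  rw [hWq]
  rcases le_total 0 (q - 2 * δ - ε) with h | h
  · have : Vj a δ ε j = q - 2 * δ - ε := by unfold Vj; rw [max_eq_right h]
    rw [this]
    nlinarith
  · have : Vj a δ ε j = 0 := by unfold Vj; rw [max_eq_left h]
    rw [this]
    nlinarith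

lemma T_lower (a δ ε : ℝ) (ha : 0 < a) (hδ : 0 < δ) (hδa : δ ≤ a / 2) (hε : 0 < ε) (N : ℕ) :
    (1 - 2 * δ / a) * (∫ x in a..(xj a δ N), hs x) - (9 * δ + 2 * ε) / a ≤
      ∑ j ∈ Finset.range N, δ * (Vj a δ ε j ^ 2 / Wj a δ j) / xj a δ (j + 1) ^ 2 := by
  have h1 : ∀ j ∈ Finset.range N, (1 - 2 * δ / a) * (∫ x in (xj a δ j)..(xj a δ (j + 1)), hs x) -
      (9 * δ + 2 * ε) * (δ / xj a δ (j + 1) ^ 2) ≤ δ * (Vj a δ ε j ^ 2 / Wj a δ j) / xj a δ (j + 1) ^ 2 := by
    intro j _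
    have hx := xj_pos ha hδ j
    have hx1 := xj_pos ha hδ (j + 1)
    have hle : xj a δ j ≤ xj a δ (j + 1) := by rw [xj_succ]; linarith
    have hxa : a ≤ xj a δ j := by
      unfold xj
      have : (0 : ℝ) ≤ j := Nat.cast_nonneg j
      nlinarith
    have hV := V_lower a δ ε hδ hε j
    have h2 : ∫ x in (xj a δ j)..(xj a δ (j + 1)), (1 - 2 * δ / a) * hs x ≤
        ∫ x in (xj a δ j)..(xj a δ (j + 1)), ((Vj a δ ε j ^ 2 / Wj a δ j) / xj a δ (j + 1) ^ 2 +
          (9 * δ + 2 * ε) / xj a δ (j + 1) ^ 2) := by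
      apply intervalIntegral.integral_mono_on hle (hs_integral.1.intervalIntegrable.const_mul _) intervalIntegrable_const
      intro x hx2
      have hx0 : 0 < x := by linarith [hx2.1]
      have h3 := (abs_le.1 (cos_block a δ j x hx2.1 hx2.2)).1
      rw [← add_div]
      have h4 : 2 - 2 * Real.cos x ≤ Vj a δ ε j ^ 2 / Wj a δ j + (9 * δ + 2 * ε) := by linarith
      have h5 : (1 - 2 * δ / a) * hs x ≤ (2 - 2 * Real.cos x) / xj a δ (j + 1) ^ 2 := by
        unfold hs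
        rw [le_div_iff₀ (by positivity)]
        have hc : 0 ≤ 2 - 2 * Real.cos x := by linarith [Real.cos_le_one x]
        have h6 : (1 - 2 * δ / a) * xj a δ (j + 1) ^ 2 ≤ x ^ 2 := by
          have h7 : (1 - δ / a) * xj a δ (j + 1) ≤ x := by
            have h8 : δ / a * xj a δ (j + 1) ≥ δ := by
              rw [ge_iff_le, div_mul_eq_mul_div, le_div_iff₀ ha]
              have : a ≤ xj a δ (j + 1) := by linarith
              nlinarith
            have h9 : (1 - δ / a) * xj a δ (j + 1) = xj a δ (j + 1) - δ / a * xj a δ (j + 1) := by ring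
            rw [h9]
            have h10 := xj_succ a δ j
            linarith [hx2.1]
          have h8 : 0 ≤ 1 - δ / a := by
            rw [sub_nonneg, div_le_one ha]; linarith
          have h9 : ((1 - δ / a) * xj a δ (j + 1)) ^ 2 ≤ x ^ 2 := pow_le_pow_left₀ (by positivity) h7 2
          have h10 : 1 - 2 * δ / a ≤ (1 - δ / a) ^ 2 := by
            have : 0 ≤ (δ / a) ^ 2 := sq_nonneg _
            have e : 2 * δ / a = 2 * (δ / a) := by ring
            rw [e]; nlinarith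
          calc (1 - 2 * δ / a) * xj a δ (j + 1) ^ 2 ≤ (1 - δ / a) ^ 2 * xj a δ (j + 1) ^ 2 :=
                mul_le_mul_of_nonneg_right h10 (sq_nonneg _)
            _ = ((1 - δ / a) * xj a δ (j + 1)) ^ 2 := by ring
            _ ≤ x ^ 2 := h9
        calc (1 - 2 * δ / a) * ((2 - 2 * Real.cos x) / x ^ 2) * xj a δ (j + 1) ^ 2 =
            ((2 - 2 * Real.cos x) / x ^ 2) * ((1 - 2 * δ / a) * xj a δ (j + 1) ^ 2) := by ring
          _ ≤ ((2 - 2 * Real.cos x) / x ^ 2) * x ^ 2 := mul_le_mul_of_nonneg_left h6 (by positivity)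
          _ = 2 - 2 * Real.cos x := by field_simp
      exact h5.trans (div_le_div_of_nonneg_right h4 (sq_nonneg _))
    rw [intervalIntegral.integral_const, smul_eq_mul, intervalIntegral.integral_const_mul] at h2
    have h4 : xj a δ (j + 1) - xj a δ j = δ := by rw [xj_succ]; ring
    rw [h4] at h2
    have h5 : δ * ((Vj a δ ε j ^ 2 / Wj a δ j) / xj a δ (j + 1) ^ 2 + (9 * δ + 2 * ε) / xj a δ (j + 1) ^ 2) =
        δ * (Vj a δ ε j ^ 2 / Wj a δ j) / xj a δ (j + 1) ^ 2 + (9 * δ + 2 * ε) * (δ / xj a δ (j + 1) ^ 2) := by ring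
    rw [h5] at h2
    linarith
  refine le_trans ?_ (Finset.sum_le_sum h1)
  rw [Finset.sum_sub_distrib, ← Finset.mul_sum, ← Finset.mul_sum, sum_adj]
  have h6 := tele a δ ha hδ N
  have h9 : (9 * δ + 2 * ε) * ∑ j ∈ Finset.range N, δ / xj a δ (j + 1) ^ 2 ≤ (9 * δ + 2 * ε) * (1 / a) :=
    mul_le_mul_of_nonneg_left h6 (by positivity)
  have h10 : (9 * δ + 2 * ε) / a = (9 * δ + 2 * ε) * (1 / a) := by ring
  rw [h10]
  linarith

theorem num (ε1 : ℝ) (h0 : 0 < ε1) (h1 : ε1 ≤ 1) : ∃ a δ ε : ℝ, ∃ N : ℕ, 0 < a ∧ 0 < δ ∧ δ ≤ a / 2 ∧ δ ≤ 1 ∧ 0 < ε ∧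
    ε ≤ ε1 ∧ ∑ j ∈ Finset.range N, δ * Wj a δ j / xj a δ (j + 1) ^ 2 ≤ Real.pi * (1 + ε1) ∧
    Real.pi * (1 - ε1) ≤ ∑ j ∈ Finset.range N, δ * (Vj a δ ε j ^ 2 / Wj a δ j) / xj a δ (j + 1) ^ 2 := by
  have hpi := Real.pi_gt_three
  have hpi4 := Real.pi_le_four
  set a : ℝ := ε1 / 2 with ha
  set δ : ℝ := ε1 * a / 17 with hδ
  set ε : ℝ := ε1 * a / 2 with hε
  have ha0 : 0 < a := by positivity
  have hδ0 : 0 < δ := by positivity
  have hε0 : 0 < ε := by positivity
  obtain ⟨N, hN⟩ := exists_nat_ge (8 / ε1 / δ)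
  have hb : 8 / ε1 ≤ xj a δ N := by
    unfold xj
    rw [div_le_iff₀ hδ0] at hN
    linarith
  refine ⟨a, δ, ε, N, ha0, hδ0, by rw [hδ]; nlinarith, by rw [hδ, ha]; nlinarith, hε0, by rw [hε, ha]; nlinarith, ?_, ?_⟩
  · refine (T_upper a δ ha0 hδ0 N).trans ?_
    have : 5 * δ / a = 5 * ε1 / 17 := by rw [hδ]; field_simp
    rw [this]
    nlinarith
  · refine le_trans ?_ (T_lower a δ ε ha0 hδ0 (by rw [hδ]; nlinarith) hε0 N)
    have hxN : 0 < xj a δ N := xj_pos ha0 hδ0 N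
    have h8 : 0 < 8 / ε1 := by positivity
    have haN : a ≤ xj a δ N := by
      unfold xj
      have : (0 : ℝ) ≤ N := Nat.cast_nonneg N
      nlinarith
    have hl := hs_lower a (xj a δ N) ha0 haN
    have h4 : 4 / xj a δ N ≤ ε1 / 2 := by
      rw [div_le_iff₀ hxN]
      rw [div_le_iff₀ h0] at hb
      linarith
    have h5 : (9 * δ + 2 * ε) / a = 9 * ε1 / 17 + ε1 := by rw [hδ, hε]; field_simp
    have h6 : 2 * δ / a = 2 * ε1 / 17 := by rw [hδ]; field_simp
    rw [h5, h6]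
    have hI : Real.pi - ε1 ≤ ∫ x in a..(xj a δ N), hs x := by linarith
    have hI0 : 0 ≤ Real.pi - ε1 := by linarith
    have h7 : (1 - 2 * ε1 / 17) * (Real.pi - ε1) ≤ (1 - 2 * ε1 / 17) * ∫ x in a..(xj a δ N), hs x :=
      mul_le_mul_of_nonneg_left hI (by linarith)
    nlinarith

end Pool.Agent.L5helper10.TV
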