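import Pool.Agent.L5helper10.TV.Zs
import Pool.Agent.L5helper10.TV.Num

/-! Bounds for the mean square of the zero sums over the blocks. -/

set_option autoImplicit false

open Complex Filter Topology Set MeasureTheory H370

namespace Pool.Agent.L5helper10.TV

/-- mean square of the zero sum over a block -/
noncomputable def Ej (κ x y u : ℝ) : ℝ := ∫ t in (x / κ)..(y / κ), ‖FB κ x y u t‖ ^ 2

lemma FB_cont (κ x y u : ℝ) : Continuous (fun t => FB κ x y u t) :=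
  FF_comp (PB κ x y) (cF κ) (fun _ => u) (fun t => t) continuous_const continuous_id

lemma Ej_nonneg {κ x y : ℝ} (h : x / κ ≤ y / κ) (u : ℝ) : 0 ≤ Ej κ x y u :=
  intervalIntegral.integral_nonneg h fun t _ => by positivity

theorem Ej_bd (ℓ x δ η : ℝ) (hℓ : 1 ≤ ℓ) (hx : 0 < x) (hδ : 0 < δ) (hδx : δ ≤ x / 2) (hη : 0 < η) :
    ∃ C : ℝ, 0 < C ∧ ∀ᶠ κ in 𝓝[>] (0 : ℝ),
      (∀ u : ℝ, 0 ≤ u → u ≤ 1 → Ej κ x (x + δ) u ≤ C * La κ ^ 2 / κ) ∧
      (∀ u : ℝ, κ ≤ u → u ≤ ℓ * La κ → Ej κ x (x + δ) u ≤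
        (1 + η) * (1 / (2 * Real.pi)) * (La κ ^ 2 * (2 - 2 * Real.cos x + 3 * δ) ^ 2 * Real.exp (-u ^ 2) * (δ / κ)) +
          C * ((∫ t in (x / κ)..((x + δ) / κ), ‖QP κ u t‖ ^ 2) + 1 / κ)) ∧
      (∀ u : ℝ, κ ≤ u → u ≤ ℓ * La κ → Ej κ x (x + δ) u ≤
        (1 + η) * (1 / (2 * Real.pi)) * (∫ t in (x / κ)..((x + δ) / κ), ‖QP κ u t‖ ^ 2) +
          C * (La κ ^ 2 * Real.exp (-u ^ 2) + Real.exp (-(2 * u))) / κ) := by
  obtain ⟨C1, hC1, hev1⟩ := FB_small x (x + δ) hx (by linarith)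
  obtain ⟨C2, hC2, hev2⟩ := FB_formula ℓ x (x + δ) hℓ hx (by linarith) (by linarith)
  have hev3 := GF_bd ℓ x δ hδ
  have hpi := Real.pi_gt_three
  set W := 2 - 2 * Real.cos x + 3 * δ with hW
  have hW0 : 0 < W := by have := Real.cos_le_one x; rw [hW]; linarith
  set w := 1 / Real.sqrt (2 * Real.pi) with hw
  have hw0 : 0 ≤ w := by positivity
  have hw2 : w ^ 2 = 1 / (2 * Real.pi) := by
    rw [hw, div_pow, Real.sq_sqrt (by positivity), one_pow]
  have hw21 : w ^ 2 ≤ 1 := by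
    rw [hw2, div_le_one (by positivity)]; linarith
  set C := C1 ^ 2 * δ + (1 + 1 / η) * (2 + 2 * C2 ^ 2 * δ + 2 * W ^ 2 * δ) with hC
  have hη' : 0 ≤ 1 / η := by positivity
  refine ⟨C, by positivity, ?_⟩
  filter_upwards [hev1, hev2, hev3, self_mem_nhdsWithin, La_ge 1] with κ k1 k2 k3 k4 k5
  have hκ : 0 < κ := k4
  have hab : x / κ ≤ (x + δ) / κ := div_le_div_of_nonneg_right (by linarith) hκ.le
  have hlen : (x + δ) / κ - x / κ = δ / κ := by ring
  set L := La κ with hL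
  have hFi : ∀ u, IntervalIntegrable (fun t => ‖FB κ x (x + δ) u t‖ ^ 2) volume (x / κ) ((x + δ) / κ) := fun u =>
    ((FB_cont κ x (x + δ) u).norm.pow 2).intervalIntegrable _ _
  have hQi : ∀ u, IntervalIntegrable (fun t => ‖QP κ u t‖ ^ 2) volume (x / κ) ((x + δ) / κ) := fun u =>
    ((QP_cont κ u).norm.pow 2).intervalIntegrable _ _
  have hQ0 : ∀ u, 0 ≤ ∫ t in (x / κ)..((x + δ) / κ), ‖QP κ u t‖ ^ 2 := fun u =>
    intervalIntegral.integral_nonneg hab fun t _ => by positivity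
  refine ⟨?_, ?_, ?_⟩
  · intro u hu hu1
    have h1 : Ej κ x (x + δ) u ≤ ∫ t in (x / κ)..((x + δ) / κ), (C1 * L) ^ 2 := by
      apply intervalIntegral.integral_mono_on hab (hFi u) intervalIntegrable_const
      intro t _
      exact pow_le_pow_left₀ (norm_nonneg _) (k1 u t hu hu1) 2
    rw [intervalIntegral.integral_const, hlen, smul_eq_mul] at h1
    refine h1.trans ?_
    have h2 : C1 ^ 2 * δ ≤ C := by
      rw [hC]
      have : 0 ≤ (1 + 1 / η) * (2 + 2 * C2 ^ 2 * δ + 2 * W ^ 2 * δ) := by positivity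
      linarith
    calc δ / κ * (C1 * L) ^ 2 = (C1 ^ 2 * δ) * L ^ 2 / κ := by ring
      _ ≤ C * L ^ 2 / κ := by gcongr
  · intro u hu huL
    have hpt : ∀ t ∈ Icc (x / κ) ((x + δ) / κ), ‖FB κ x (x + δ) u t‖ ^ 2 ≤
        (1 + η) * (1 / (2 * Real.pi)) * (L ^ 2 * W ^ 2 * Real.exp (-u ^ 2)) +
          (1 + 1 / η) * (2 * ‖QP κ u t‖ ^ 2 + 2 * C2 ^ 2) := by
      intro t ht
      have h2 := k2 u t hu huL ht.1 ht.2
      have h3 := k3 u t (by linarith) huL ht.1 ht.2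
      set Er := FB κ x (x + δ) u t - (w : ℂ) * ((L : ℂ) * GF κ u t - QP κ u t) with hEr
      have e1 : FB κ x (x + δ) u t = (w : ℂ) * ((L : ℂ) * GF κ u t) + (-((w : ℂ) * QP κ u t) + Er) := by
        rw [hEr]; ring
      have n1 : ‖(w : ℂ) * ((L : ℂ) * GF κ u t)‖ ^ 2 ≤ 1 / (2 * Real.pi) * (L ^ 2 * W ^ 2 * Real.exp (-u ^ 2)) := by
        rw [norm_mul, norm_mul, Complex.norm_real, Complex.norm_real, Real.norm_of_nonneg hw0,
          Real.norm_of_nonneg (by linarith : (0 : ℝ) ≤ L), mul_pow, mul_pow, hw2]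
        have : ‖GF κ u t‖ ^ 2 ≤ W ^ 2 * Real.exp (-u ^ 2) := by
          calc ‖GF κ u t‖ ^ 2 ≤ (W * Real.exp (-u ^ 2 / 2)) ^ 2 := pow_le_pow_left₀ (norm_nonneg _) h3 2
            _ = W ^ 2 * Real.exp (-u ^ 2) := by
                rw [mul_pow, ← Real.exp_nat_mul]; congr 2; push_cast; ring
        calc 1 / (2 * Real.pi) * (L ^ 2 * ‖GF κ u t‖ ^ 2) ≤ 1 / (2 * Real.pi) * (L ^ 2 * (W ^ 2 * Real.exp (-u ^ 2))) := by
              gcongr
          _ = _ := by ring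
      have n2 : ‖-((w : ℂ) * QP κ u t) + Er‖ ^ 2 ≤ 2 * ‖QP κ u t‖ ^ 2 + 2 * C2 ^ 2 := by
        have m1 : ‖-((w : ℂ) * QP κ u t) + Er‖ ^ 2 ≤ 2 * ‖(w : ℂ) * QP κ u t‖ ^ 2 + 2 * ‖Er‖ ^ 2 := by
          have := norm_add_sq_young (-((w : ℂ) * QP κ u t)) Er 1 one_pos
          rw [norm_neg] at this
          norm_num at this ⊢
          linarith
        have m2 : ‖(w : ℂ) * QP κ u t‖ ^ 2 ≤ ‖QP κ u t‖ ^ 2 := by
          rw [norm_mul, Complex.norm_real, Real.norm_of_nonneg hw0, mul_pow]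
          have := sq_nonneg ‖QP κ u t‖
          nlinarith
        have m3 : ‖Er‖ ^ 2 ≤ C2 ^ 2 := by
          apply pow_le_pow_left₀ (norm_nonneg _)
          refine h2.trans ?_
          have : Real.exp (-u) ≤ 1 := Real.exp_le_one_iff.2 (by linarith)
          nlinarith
        linarith
      rw [e1]
      refine (norm_add_sq_young _ _ η hη).trans ?_
      have a1 := mul_le_mul_of_nonneg_left n1 (by linarith : 0 ≤ 1 + η)
      have a2 := mul_le_mul_of_nonneg_left n2 (by linarith : 0 ≤ 1 + 1 / η)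
      linarith
    have h1 : Ej κ x (x + δ) u ≤ ∫ t in (x / κ)..((x + δ) / κ),
        ((1 + η) * (1 / (2 * Real.pi)) * (L ^ 2 * W ^ 2 * Real.exp (-u ^ 2)) +
          (1 + 1 / η) * (2 * ‖QP κ u t‖ ^ 2 + 2 * C2 ^ 2)) := by
      apply intervalIntegral.integral_mono_on hab (hFi u) _ hpt
      exact intervalIntegrable_const.add ((((hQi u).const_mul 2).add intervalIntegrable_const).const_mul _)
    rw [intervalIntegral.integral_add intervalIntegrable_const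
      ((((hQi u).const_mul 2).add intervalIntegrable_const).const_mul _), intervalIntegral.integral_const,
      intervalIntegral.integral_const_mul, intervalIntegral.integral_add ((hQi u).const_mul 2) intervalIntegrable_const,
      intervalIntegral.integral_const_mul, intervalIntegral.integral_const, hlen, smul_eq_mul, smul_eq_mul] at h1
    refine h1.trans ?_
    have hq := hQ0 u
    set q := ∫ t in (x / κ)..((x + δ) / κ), ‖QP κ u t‖ ^ 2
    have c1 : (1 + 1 / η) * (2 * q + δ / κ * (2 * C2 ^ 2)) ≤ C * (q + 1 / κ) := by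
      have d1 : (1 + 1 / η) * 2 ≤ C := by
        rw [hC]
        have : 0 ≤ C1 ^ 2 * δ := by positivity
        have : 0 ≤ (1 + 1 / η) * (2 * C2 ^ 2 * δ + 2 * W ^ 2 * δ) := by positivity
        linarith
      have d2 : (1 + 1 / η) * (2 * C2 ^ 2 * δ) ≤ C := by
        rw [hC]
        have : 0 ≤ C1 ^ 2 * δ := by positivity
        have : 0 ≤ (1 + 1 / η) * (2 + 2 * W ^ 2 * δ) := by positivity
        linarith
      calc (1 + 1 / η) * (2 * q + δ / κ * (2 * C2 ^ 2)) = ((1 + 1 / η) * 2) * q + ((1 + 1 / η) * (2 * C2 ^ 2 * δ)) * (1 / κ) := by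
            ring
        _ ≤ C * q + C * (1 / κ) := by gcongr
        _ = _ := by ring
    have c2 : δ / κ * ((1 + η) * (1 / (2 * Real.pi)) * (L ^ 2 * W ^ 2 * Real.exp (-u ^ 2))) =
        (1 + η) * (1 / (2 * Real.pi)) * (L ^ 2 * W ^ 2 * Real.exp (-u ^ 2) * (δ / κ)) := by ring
    rw [c2]
    linarith
  · intro u hu huL
    have hpt : ∀ t ∈ Icc (x / κ) ((x + δ) / κ), ‖FB κ x (x + δ) u t‖ ^ 2 ≤
        (1 + η) * (1 / (2 * Real.pi)) * ‖QP κ u t‖ ^ 2 +
          (1 + 1 / η) * (2 * (L ^ 2 * W ^ 2 * Real.exp (-u ^ 2)) + 2 * (C2 ^ 2 * Real.exp (-(2 * u)))) := by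
      intro t ht
      have h2 := k2 u t hu huL ht.1 ht.2
      have h3 := k3 u t (by linarith) huL ht.1 ht.2
      set Er := FB κ x (x + δ) u t - (w : ℂ) * ((L : ℂ) * GF κ u t - QP κ u t) with hEr
      have e1 : FB κ x (x + δ) u t = -((w : ℂ) * QP κ u t) + ((w : ℂ) * ((L : ℂ) * GF κ u t) + Er) := by
        rw [hEr]; ring
      have n1 : ‖-((w : ℂ) * QP κ u t)‖ ^ 2 = 1 / (2 * Real.pi) * ‖QP κ u t‖ ^ 2 := by
        rw [norm_neg, norm_mul, Complex.norm_real, Real.norm_of_nonneg hw0, mul_pow, hw2]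
      have n2 : ‖(w : ℂ) * ((L : ℂ) * GF κ u t) + Er‖ ^ 2 ≤ 2 * (L ^ 2 * W ^ 2 * Real.exp (-u ^ 2)) +
          2 * (C2 ^ 2 * Real.exp (-(2 * u))) := by
        have m1 : ‖(w : ℂ) * ((L : ℂ) * GF κ u t) + Er‖ ^ 2 ≤ 2 * ‖(w : ℂ) * ((L : ℂ) * GF κ u t)‖ ^ 2 + 2 * ‖Er‖ ^ 2 := by
          have := norm_add_sq_young ((w : ℂ) * ((L : ℂ) * GF κ u t)) Er 1 one_pos
          norm_num at this ⊢
          linarith
        have m2 : ‖(w : ℂ) * ((L : ℂ) * GF κ u t)‖ ^ 2 ≤ L ^ 2 * W ^ 2 * Real.exp (-u ^ 2) := by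
          rw [norm_mul, norm_mul, Complex.norm_real, Complex.norm_real, Real.norm_of_nonneg hw0,
            Real.norm_of_nonneg (by linarith : (0 : ℝ) ≤ L), mul_pow, mul_pow]
          have : ‖GF κ u t‖ ^ 2 ≤ W ^ 2 * Real.exp (-u ^ 2) := by
            calc ‖GF κ u t‖ ^ 2 ≤ (W * Real.exp (-u ^ 2 / 2)) ^ 2 := pow_le_pow_left₀ (norm_nonneg _) h3 2
              _ = W ^ 2 * Real.exp (-u ^ 2) := by
                  rw [mul_pow, ← Real.exp_nat_mul]; congr 2; push_cast; ring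
          calc w ^ 2 * (L ^ 2 * ‖GF κ u t‖ ^ 2) ≤ 1 * (L ^ 2 * (W ^ 2 * Real.exp (-u ^ 2))) := by gcongr
            _ = _ := by ring
        have m3 : ‖Er‖ ^ 2 ≤ C2 ^ 2 * Real.exp (-(2 * u)) := by
          calc ‖Er‖ ^ 2 ≤ (C2 * Real.exp (-u)) ^ 2 := pow_le_pow_left₀ (norm_nonneg _) h2 2
            _ = _ := by rw [mul_pow, ← Real.exp_nat_mul]; congr 2; push_cast; ring
        linarith
      rw [e1]
      refine (norm_add_sq_young _ _ η hη).trans ?_
      rw [n1]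
      have a2 := mul_le_mul_of_nonneg_left n2 (by linarith : 0 ≤ 1 + 1 / η)
      linarith
    have h1 : Ej κ x (x + δ) u ≤ ∫ t in (x / κ)..((x + δ) / κ),
        ((1 + η) * (1 / (2 * Real.pi)) * ‖QP κ u t‖ ^ 2 +
          (1 + 1 / η) * (2 * (L ^ 2 * W ^ 2 * Real.exp (-u ^ 2)) + 2 * (C2 ^ 2 * Real.exp (-(2 * u))))) := by
      apply intervalIntegral.integral_mono_on hab (hFi u) _ hpt
      exact ((hQi u).const_mul _).add intervalIntegrable_const
    rw [intervalIntegral.integral_add ((hQi u).const_mul _) intervalIntegrable_const, intervalIntegral.integral_const,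
      intervalIntegral.integral_const_mul, hlen, smul_eq_mul] at h1
    refine h1.trans ?_
    have d1 : (1 + 1 / η) * (2 * W ^ 2 * δ) ≤ C := by
      rw [hC]
      have : 0 ≤ C1 ^ 2 * δ := by positivity
      have : 0 ≤ (1 + 1 / η) * (2 + 2 * C2 ^ 2 * δ) := by positivity
      linarith
    have d2 : (1 + 1 / η) * (2 * C2 ^ 2 * δ) ≤ C := by
      rw [hC]
      have : 0 ≤ C1 ^ 2 * δ := by positivity
      have : 0 ≤ (1 + 1 / η) * (2 + 2 * W ^ 2 * δ) := by positivity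
      linarith
    have c1 : δ / κ * ((1 + 1 / η) * (2 * (L ^ 2 * W ^ 2 * Real.exp (-u ^ 2)) + 2 * (C2 ^ 2 * Real.exp (-(2 * u))))) ≤
        C * (L ^ 2 * Real.exp (-u ^ 2) + Real.exp (-(2 * u))) / κ := by
      calc δ / κ * ((1 + 1 / η) * (2 * (L ^ 2 * W ^ 2 * Real.exp (-u ^ 2)) + 2 * (C2 ^ 2 * Real.exp (-(2 * u))))) =
          (((1 + 1 / η) * (2 * W ^ 2 * δ)) * (L ^ 2 * Real.exp (-u ^ 2)) +
            ((1 + 1 / η) * (2 * C2 ^ 2 * δ)) * Real.exp (-(2 * u))) / κ := by ring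
        _ ≤ (C * (L ^ 2 * Real.exp (-u ^ 2)) + C * Real.exp (-(2 * u))) / κ := by gcongr
        _ = _ := by ring
    linarith

end Pool.Agent.L5helper10.TV
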