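import Pool.Agent.L5helper10.TV.Ps2
import Pool.Agent.L5helper10.TV.RMain

/-! Interchange of the integrations over the shift and over the logarithmic scale. -/

set_option autoImplicit false

open Filter Topology Set MeasureTheory

namespace Pool.Agent.L5helper10.TV

lemma int_le_of_lint {α : Type*} [MeasurableSpace α] {μ : Measure α} (f : α → ℝ) (hf : ∀ x, 0 ≤ f x) (C : ℝ)
    (hC : 0 ≤ C) (h : ∫⁻ x, ENNReal.ofReal (f x) ∂μ ≤ ENNReal.ofReal C) : ∫ x, f x ∂μ ≤ C := by
  by_cases hi : Integrable f μ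
  · rw [← ofReal_integral_eq_lintegral_ofReal hi (Eventually.of_forall hf)] at h
    exact (ENNReal.ofReal_le_ofReal_iff hC).1 h
  · rw [integral_undef hi]; exact hC

lemma gauss_lint (c v : ℝ) (hc : 0 < c) : ∫⁻ u : ℝ, ENNReal.ofReal (Real.exp (-c * (u - v) ^ 2)) =
    ENNReal.ofReal (Real.sqrt (Real.pi / c)) := by
  have hi : Integrable (fun x : ℝ => Real.exp (-c * x ^ 2)) := integrable_exp_neg_mul_sq hc
  rw [lintegral_sub_right_eq_self (fun x : ℝ => ENNReal.ofReal (Real.exp (-c * x ^ 2))) v,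
    ← ofReal_integral_eq_lintegral_ofReal hi (Filter.Eventually.of_forall fun x => (Real.exp_pos _).le),
    integral_gaussian]

lemma fk_sq (κ v : ℝ) (hκ0 : 0 ≤ κ) (hκ : κ ≤ 1) : fk κ v ^ 2 ≤ 100 * Real.exp v := by
  have h2 := fk_le κ v hκ0 hκ
  rw [← sq_abs]
  calc |fk κ v| ^ 2 ≤ (10 * Real.exp (v / 2)) ^ 2 := pow_le_pow_left₀ (abs_nonneg _) h2 2
    _ = 100 * Real.exp v := by
      rw [mul_pow, ← Real.exp_nat_mul]
      norm_num
      ring

/-- the constant in the first interchange -/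
noncomputable def K0 : ℝ := 100 * ∫ v : ℝ, Real.exp (1 * v) * Real.exp (-(1 / 16) * (0 - v) ^ 2)

lemma K0_nonneg : 0 ≤ K0 := by
  unfold K0
  have : 0 ≤ ∫ v : ℝ, Real.exp (1 * v) * Real.exp (-(1 / 16) * (0 - v) ^ 2) :=
    integral_nonneg fun v => by positivity
  linarith

lemma fk2_meas (κ : ℝ) : Measurable (fun v => ENNReal.ofReal (fk κ v ^ 2)) :=
  ENNReal.measurable_ofReal.comp ((fk_meas κ).pow_const 2)

theorem swap1 (κ U : ℝ) (hκ0 : 0 < κ) (hκ : κ ≤ 1) (hU : 0 < U) (hfi : IntegrableOn (fun v => fk κ v ^ 2) (Iic (2 * U))) :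
    ∫ u in Ioc 0 U, G1 κ u ≤ 3 * (∫ v in Iic (2 * U), fk κ v ^ 2) + K0 * U * Real.exp (-U ^ 2 / 4) := by
  have hpi := Real.pi_gt_three
  have hpi4 := Real.pi_le_four
  have hI0 : 0 ≤ ∫ v in Iic (2 * U), fk κ v ^ 2 := integral_nonneg fun v => sq_nonneg _
  apply int_le_of_lint
  · intro u
    exact integral_nonneg fun v => mul_nonneg (sq_nonneg _) (Real.exp_pos _).le
  · have := K0_nonneg
    positivity
  have e1 : ∀ u : ℝ, ENNReal.ofReal (G1 κ u) =
      ∫⁻ v, ENNReal.ofReal (fk κ v ^ 2) * ENNReal.ofReal (Real.exp (-(u - v) ^ 2 / 2)) := by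
    intro u
    unfold G1
    rw [ofReal_integral_eq_lintegral_ofReal (G1_int κ u hκ0.le hκ)
      (Eventually.of_forall fun v => mul_nonneg (sq_nonneg _) (Real.exp_pos _).le)]
    apply lintegral_congr
    intro v
    rw [ENNReal.ofReal_mul (sq_nonneg _)]
  simp_rw [e1]
  rw [lintegral_lintegral_swap]
  swap
  · apply Measurable.aemeasurable
    exact ((fk2_meas κ).comp measurable_snd).mul (ENNReal.measurable_ofReal.comp (by fun_prop))
  have e2 : ∀ v : ℝ, ∫⁻ u in Ioc 0 U, ENNReal.ofReal (fk κ v ^ 2) * ENNReal.ofReal (Real.exp (-(u - v) ^ 2 / 2)) ≤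
      (Iic (2 * U)).indicator (fun v => ENNReal.ofReal (3 * fk κ v ^ 2)) v +
      ENNReal.ofReal (100 * U * Real.exp (-U ^ 2 / 4) * (Real.exp (1 * v) * Real.exp (-(1 / 16) * (0 - v) ^ 2))) := by
    intro v
    have hm : Measurable (fun u : ℝ => ENNReal.ofReal (Real.exp (-(u - v) ^ 2 / 2))) :=
      ENNReal.measurable_ofReal.comp (by fun_prop)
    rw [lintegral_const_mul _ hm]
    rcases le_or_gt v (2 * U) with h | h
    · rw [Set.indicator_of_mem (show v ∈ Iic (2 * U) from h)]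
      refine le_trans ?_ (self_le_add_right _ _)
      have h1 : ∫⁻ u in Ioc 0 U, ENNReal.ofReal (Real.exp (-(u - v) ^ 2 / 2)) ≤ ENNReal.ofReal 3 := by
        refine (setLIntegral_le_lintegral _ _).trans ?_
        have h2 := gauss_lint (1 / 2) v (by norm_num)
        have h3 : ∀ u : ℝ, Real.exp (-(u - v) ^ 2 / 2) = Real.exp (-(1 / 2) * (u - v) ^ 2) := by
          intro u; congr 1; ring
        simp_rw [h3]
        rw [h2]
        apply ENNReal.ofReal_le_ofReal
        rw [Real.sqrt_le_left (by norm_num)]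
        rw [div_le_iff₀ (by norm_num)]
        linarith
      calc ENNReal.ofReal (fk κ v ^ 2) * ∫⁻ u in Ioc 0 U, ENNReal.ofReal (Real.exp (-(u - v) ^ 2 / 2)) ≤
          ENNReal.ofReal (fk κ v ^ 2) * ENNReal.ofReal 3 := by gcongr
        _ = ENNReal.ofReal (3 * fk κ v ^ 2) := by
            rw [← ENNReal.ofReal_mul (sq_nonneg _), mul_comm]
    · rw [Set.indicator_of_notMem (show v ∉ Iic (2 * U) from not_le.2 h), zero_add]
      have h1 : ∫⁻ u in Ioc 0 U, ENNReal.ofReal (Real.exp (-(u - v) ^ 2 / 2)) ≤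
          ENNReal.ofReal (Real.exp (-v ^ 2 / 8) * U) := by
        have h2 : ∫⁻ u in Ioc 0 U, ENNReal.ofReal (Real.exp (-(u - v) ^ 2 / 2)) ≤
            ∫⁻ u in Ioc 0 U, ENNReal.ofReal (Real.exp (-v ^ 2 / 8)) := by
          apply setLIntegral_mono' measurableSet_Ioc
          intro u hu
          apply ENNReal.ofReal_le_ofReal
          apply Real.exp_le_exp.2
          have h5 : v / 2 ≤ v - u := by linarith [hu.2]
          nlinarith [hu.1]
        refine h2.trans ?_
        rw [setLIntegral_const, Real.volume_Ioc, sub_zero, ← ENNReal.ofReal_mul (Real.exp_pos _).le]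
      calc ENNReal.ofReal (fk κ v ^ 2) * ∫⁻ u in Ioc 0 U, ENNReal.ofReal (Real.exp (-(u - v) ^ 2 / 2)) ≤
          ENNReal.ofReal (100 * Real.exp v) * ENNReal.ofReal (Real.exp (-v ^ 2 / 8) * U) := by
            gcongr
            exact fk_sq κ v hκ0.le hκ
        _ = ENNReal.ofReal (100 * Real.exp v * (Real.exp (-v ^ 2 / 8) * U)) := by
            rw [← ENNReal.ofReal_mul (by positivity)]
        _ ≤ _ := by
            apply ENNReal.ofReal_le_ofReal
            have h3 : Real.exp (-v ^ 2 / 8) ≤ Real.exp (-U ^ 2 / 4) * Real.exp (-(1 / 16) * (0 - v) ^ 2) := by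
              rw [← Real.exp_add]
              apply Real.exp_le_exp.2
              nlinarith
            rw [one_mul]
            calc 100 * Real.exp v * (Real.exp (-v ^ 2 / 8) * U) = 100 * U * Real.exp v * Real.exp (-v ^ 2 / 8) := by ring
              _ ≤ 100 * U * Real.exp v * (Real.exp (-U ^ 2 / 4) * Real.exp (-(1 / 16) * (0 - v) ^ 2)) := by gcongr
              _ = _ := by ring
  refine (lintegral_mono e2).trans ?_
  have hm2 : Measurable ((Iic (2 * U)).indicator (fun v => ENNReal.ofReal (3 * fk κ v ^ 2))) :=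
    (ENNReal.measurable_ofReal.comp (((fk_meas κ).pow_const 2).const_mul 3)).indicator measurableSet_Iic
  rw [lintegral_add_left hm2, lintegral_indicator measurableSet_Iic,
    ← ofReal_integral_eq_lintegral_ofReal (hfi.const_mul 3) (Eventually.of_forall fun v => by positivity),
    ← ofReal_integral_eq_lintegral_ofReal ((gauss_shift_int (1 / 16) 1 0 (by norm_num)).const_mul _)
      (Eventually.of_forall fun v => by positivity), integral_const_mul, integral_const_mul,
    ← ENNReal.ofReal_add (by positivity) (mul_nonneg (by positivity) (integral_nonneg fun v => by positivity))]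
  apply ENNReal.ofReal_le_ofReal
  unfold K0
  apply le_of_eq
  ring

lemma G0_int (κ u : ℝ) (hκ0 : 0 ≤ κ) (hκ : κ ≤ 1) : Integrable (fun v : ℝ => fk κ v ^ 2 * Real.exp (-(u - v) ^ 2)) := by
  refine (fw_sq_int κ hκ0 hκ win_g0 u).congr (Eventually.of_forall fun v => ?_)
  simp only
  unfold fw g0
  rw [mul_pow, ← Real.exp_nat_mul]
  congr 2
  push_cast; ring

/-- the constant in the second interchange -/
noncomputable def K1 : ℝ := 100 * ∫ v : ℝ, Real.exp (1 * v) * Real.exp (-(1 / 4) * (0 - v) ^ 2)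

lemma K1_nonneg : 0 ≤ K1 := by
  unfold K1
  have : 0 ≤ ∫ v : ℝ, Real.exp (1 * v) * Real.exp (-(1 / 4) * (0 - v) ^ 2) :=
    integral_nonneg fun v => by positivity
  linarith

lemma K1_bound (κ u : ℝ) (hκ0 : 0 ≤ κ) (hκ : κ ≤ 1) :
    ∫⁻ v, ENNReal.ofReal (fk κ v ^ 2 * Real.exp (-(u - v) ^ 2 / 4)) ≤ ENNReal.ofReal (K1 * Real.exp u) := by
  have e1 : ∀ v : ℝ, ENNReal.ofReal (fk κ v ^ 2 * Real.exp (-(u - v) ^ 2 / 4)) ≤
      (fun w => ENNReal.ofReal (100 * Real.exp u * (Real.exp (1 * w) * Real.exp (-(1 / 4) * (0 - w) ^ 2)))) (v - u) := by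
    intro v
    apply ENNReal.ofReal_le_ofReal
    calc fk κ v ^ 2 * Real.exp (-(u - v) ^ 2 / 4) ≤ 100 * Real.exp v * Real.exp (-(u - v) ^ 2 / 4) :=
          mul_le_mul_of_nonneg_right (fk_sq κ v hκ0 hκ) (Real.exp_pos _).le
      _ = _ := by
          rw [show Real.exp v = Real.exp u * Real.exp (1 * (v - u)) by rw [← Real.exp_add]; congr 1; ring,
            show -(1 / 4) * (0 - (v - u)) ^ 2 = -(u - v) ^ 2 / 4 by ring]
          ring
  refine (lintegral_mono e1).trans ?_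
  rw [lintegral_sub_right_eq_self (fun w => ENNReal.ofReal (100 * Real.exp u *
    (Real.exp (1 * w) * Real.exp (-(1 / 4) * (0 - w) ^ 2)))) u,
    ← ofReal_integral_eq_lintegral_ofReal ((gauss_shift_int (1 / 4) 1 0 (by norm_num)).const_mul _)
      (Eventually.of_forall fun v => by positivity), integral_const_mul]
  apply ENNReal.ofReal_le_ofReal
  unfold K1
  apply le_of_eq
  ring

/-- the measurable integrand of the main part -/
noncomputable def F1 (h : ℝ → ℝ) (A B' u v : ℝ) : ENNReal :=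
  ENNReal.ofReal (h v * (A * Real.exp (-1 * (u - v) ^ 2) + B' * Real.exp (-(1 / 2) * (u - v) ^ 2)))

lemma F1_meas (h : ℝ → ℝ) (hm : Measurable h) (A B' : ℝ) : Measurable (fun p : ℝ × ℝ => F1 h A B' p.1 p.2) := by
  unfold F1
  apply ENNReal.measurable_ofReal.comp
  apply Measurable.mul (hm.comp measurable_snd)
  fun_prop

lemma F1_meas' (h : ℝ → ℝ) (hm : Measurable h) (A B' u : ℝ) : Measurable (fun v : ℝ => F1 h A B' u v) := by
  unfold F1
  apply ENNReal.measurable_ofReal.comp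
  apply Measurable.mul hm
  fun_prop

lemma F1_meas2 (h : ℝ → ℝ) (hm : Measurable h) (A B' : ℝ) : Measurable (fun u : ℝ => ∫⁻ v, F1 h A B' u v) :=
  (F1_meas h hm A B').lintegral_prod_right'

lemma F1_inner (h : ℝ → ℝ) (h0 : ∀ v, 0 ≤ h v) (A B' v : ℝ) (hA : 0 ≤ A) (hB : 0 ≤ B') :
    ∫⁻ u, F1 h A B' u v ≤ ENNReal.ofReal ((A * Real.sqrt Real.pi + 3 * B') * h v) := by
  have hpi4 := Real.pi_le_four
  have e4 : ∀ u, F1 h A B' u v = ENNReal.ofReal (h v) * (ENNReal.ofReal A *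
      ENNReal.ofReal (Real.exp (-1 * (u - v) ^ 2)) + ENNReal.ofReal B' *
      ENNReal.ofReal (Real.exp (-(1 / 2) * (u - v) ^ 2))) := by
    intro u
    unfold F1
    rw [ENNReal.ofReal_mul (h0 v), ENNReal.ofReal_add (by positivity) (by positivity), ENNReal.ofReal_mul hA,
      ENNReal.ofReal_mul hB]
  simp_rw [e4]
  have m1 : Measurable (fun u : ℝ => ENNReal.ofReal (Real.exp (-1 * (u - v) ^ 2))) :=
    ENNReal.measurable_ofReal.comp (by fun_prop)
  have m2 : Measurable (fun u : ℝ => ENNReal.ofReal (Real.exp (-(1 / 2) * (u - v) ^ 2))) :=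
    ENNReal.measurable_ofReal.comp (by fun_prop)
  have m12 : Measurable (fun u : ℝ => ENNReal.ofReal A * ENNReal.ofReal (Real.exp (-1 * (u - v) ^ 2)) +
      ENNReal.ofReal B' * ENNReal.ofReal (Real.exp (-(1 / 2) * (u - v) ^ 2))) :=
    (m1.const_mul _).add (m2.const_mul _)
  rw [lintegral_const_mul _ m12, lintegral_add_left (m1.const_mul _),
    lintegral_const_mul _ m1, lintegral_const_mul _ m2, gauss_lint 1 v one_pos, gauss_lint (1 / 2) v (by norm_num),
    ← ENNReal.ofReal_mul hA, ← ENNReal.ofReal_mul hB, ← ENNReal.ofReal_add (by positivity) (by positivity),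
    ← ENNReal.ofReal_mul (h0 v)]
  apply ENNReal.ofReal_le_ofReal
  have h5 : Real.sqrt (Real.pi / (1 / 2)) ≤ 3 := by
    rw [Real.sqrt_le_left (by norm_num), div_le_iff₀ (by norm_num)]
    linarith
  rw [div_one]
  calc h v * (A * Real.sqrt Real.pi + B' * Real.sqrt (Real.pi / (1 / 2))) ≤
      h v * (A * Real.sqrt Real.pi + B' * 3) := by
        have := h0 v
        gcongr
    _ = _ := by ring

lemma part1 (h : ℝ → ℝ) (hm : Measurable h) (h0 : ∀ v, 0 ≤ h v) (hi : Integrable h) (A B' : ℝ) (hA : 0 ≤ A)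
    (hB : 0 ≤ B') : ∫⁻ u, ∫⁻ v, F1 h A B' u v ≤ ENNReal.ofReal ((A * Real.sqrt Real.pi + 3 * B') * ∫ v, h v) := by
  rw [lintegral_lintegral_swap (F1_meas h hm A B').aemeasurable]
  refine (lintegral_mono fun v => F1_inner h h0 A B' v hA hB).trans ?_
  rw [← ofReal_integral_eq_lintegral_ofReal (hi.const_mul _) (Eventually.of_forall fun v => by
      have := h0 v
      positivity), integral_const_mul]

lemma part2 (κ : ℝ) (hκ0 : 0 < κ) (hκ : κ ≤ 1) (D M : ℝ) (hD : 0 ≤ D) :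
    ∫⁻ u in Ioc 0 M, ∫⁻ v, ENNReal.ofReal (D * (fk κ v ^ 2 * Real.exp (-(u - v) ^ 2 / 4))) ≤
      ENNReal.ofReal (D * (K1 * (M * Real.exp M))) := by
  have hK1 := K1_nonneg
  have e5 : ∀ u ∈ Ioc 0 M, ∫⁻ v, ENNReal.ofReal (D * (fk κ v ^ 2 * Real.exp (-(u - v) ^ 2 / 4))) ≤
      ENNReal.ofReal (D * (K1 * Real.exp M)) := by
    intro u hu
    simp_rw [ENNReal.ofReal_mul hD]
    have hm3 : Measurable (fun v : ℝ => ENNReal.ofReal (fk κ v ^ 2 * Real.exp (-(u - v) ^ 2 / 4))) :=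
      ENNReal.measurable_ofReal.comp (((fk_meas κ).pow_const 2).mul (by fun_prop))
    rw [lintegral_const_mul _ hm3]
    gcongr
    refine (K1_bound κ u hκ0.le hκ).trans ?_
    apply ENNReal.ofReal_le_ofReal
    apply mul_le_mul_of_nonneg_left _ hK1
    exact Real.exp_le_exp.2 hu.2
  refine (setLIntegral_mono' measurableSet_Ioc e5).trans ?_
  rw [setLIntegral_const, Real.volume_Ioc, sub_zero, ← ENNReal.ofReal_mul (by positivity)]
  apply ENNReal.ofReal_le_ofReal
  apply le_of_eq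
  ring

theorem swap2 (κ : ℝ) (hκ0 : 0 < κ) (hκ : κ ≤ 1) (S : Set ℝ) (hSf : volume S < ⊤)
    (A Bc M V0 : ℝ) (hA : 0 ≤ A) (hB : 0 ≤ Bc) (hM : 0 ≤ M) (hV0 : 0 ≤ V0) (G : ℝ → ℝ) (hGm : Measurable G)
    (hG0 : ∀ v, 0 ≤ G v) (hH : ∀ u v, 0 ≤ u → |u - v| ≤ V0 → GG S u ≠ 0 → GG S u + 1 ≤ G v)
    (hGi : Integrable (fun v => fk κ v ^ 2 * G v)) :
    ∫ u in Ioc 0 M, GG S u * (A * G0 κ u + Bc * G1 κ u) ≤
      (A * Real.sqrt Real.pi + 3 * Bc * (volume S).toReal) * (∫ v, fk κ v ^ 2 * G v) +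
      (A + Bc) * (volume S).toReal * Real.exp (-V0 ^ 2 / 4) * (K1 * (M * Real.exp M)) := by
  set s := (volume S).toReal with hs
  have hs0 : 0 ≤ s := ENNReal.toReal_nonneg
  have hGGn : ∀ u, 0 ≤ GG S u := fun u => ENNReal.toReal_nonneg
  have hGGle : ∀ u, GG S u ≤ s := fun u =>
    ENNReal.toReal_mono hSf.ne (measure_mono fun v hv => hv.1)
  have hK1 := K1_nonneg
  have hfG0 : 0 ≤ ∫ v, fk κ v ^ 2 * G v := integral_nonneg fun v => mul_nonneg (sq_nonneg _) (hG0 v)
  have hpi := Real.pi_gt_three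
  have hpi4 := Real.pi_le_four
  apply int_le_of_lint
  · intro u
    have a1 : 0 ≤ G0 κ u := integral_nonneg fun v => mul_nonneg (sq_nonneg _) (Real.exp_pos _).le
    have a2 : 0 ≤ G1 κ u := integral_nonneg fun v => mul_nonneg (sq_nonneg _) (Real.exp_pos _).le
    have := hGGn u
    positivity
  · positivity
  have e1 : ∀ u : ℝ, ENNReal.ofReal (GG S u * (A * G0 κ u + Bc * G1 κ u)) =
      ∫⁻ v, ENNReal.ofReal (GG S u * (fk κ v ^ 2 * (A * Real.exp (-(u - v) ^ 2) + Bc * Real.exp (-(u - v) ^ 2 / 2)))) := by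
    intro u
    have i0 := G0_int κ u hκ0.le hκ
    have i1 := G1_int κ u hκ0.le hκ
    have e2 : GG S u * (A * G0 κ u + Bc * G1 κ u) =
        ∫ v, GG S u * (fk κ v ^ 2 * (A * Real.exp (-(u - v) ^ 2) + Bc * Real.exp (-(u - v) ^ 2 / 2))) := by
      unfold G0 G1
      rw [← integral_const_mul, ← integral_const_mul, ← integral_add (i0.const_mul A) (i1.const_mul Bc),
        ← integral_const_mul]
      apply integral_congr_ae
      refine Eventually.of_forall fun v => ?_
      simp only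
      ring
    rw [e2, ofReal_integral_eq_lintegral_ofReal]
    · refine (((i0.const_mul A).add (i1.const_mul Bc)).const_mul (GG S u)).congr (Eventually.of_forall fun v => ?_)
      simp only [Pi.add_apply]
      ring
    · refine Eventually.of_forall fun v => mul_nonneg (hGGn u) (mul_nonneg (sq_nonneg _) ?_)
      positivity
  simp_rw [e1]
  -- the pointwise inequality
  have hpt : ∀ u v : ℝ, 0 ≤ u → GG S u * (fk κ v ^ 2 * (A * Real.exp (-(u - v) ^ 2) + Bc * Real.exp (-(u - v) ^ 2 / 2))) ≤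
      fk κ v ^ 2 * G v * (A * Real.exp (-1 * (u - v) ^ 2) + Bc * s * Real.exp (-(1 / 2) * (u - v) ^ 2)) +
      (A + Bc) * s * Real.exp (-V0 ^ 2 / 4) * (fk κ v ^ 2 * Real.exp (-(u - v) ^ 2 / 4)) := by
    intro u v hu
    have hf := sq_nonneg (fk κ v)
    have hE1 : Real.exp (-1 * (u - v) ^ 2) = Real.exp (-(u - v) ^ 2) := by congr 1; ring
    have hE2 : Real.exp (-(1 / 2) * (u - v) ^ 2) = Real.exp (-(u - v) ^ 2 / 2) := by congr 1; ring
    rw [hE1, hE2]
    have p1 := Real.exp_pos (-(u - v) ^ 2)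
    have p2 := Real.exp_pos (-(u - v) ^ 2 / 2)
    have p3 := Real.exp_pos (-(u - v) ^ 2 / 4)
    rcases le_or_gt |u - v| V0 with h | h
    · have hterm : GG S u * (fk κ v ^ 2 * (A * Real.exp (-(u - v) ^ 2) + Bc * Real.exp (-(u - v) ^ 2 / 2))) ≤
          fk κ v ^ 2 * G v * (A * Real.exp (-(u - v) ^ 2) + Bc * s * Real.exp (-(u - v) ^ 2 / 2)) := by
        by_cases hz : GG S u = 0
        · rw [hz, zero_mul]
          have := hG0 v
          positivity
        · have h1 := hH u v hu h hz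
          have h2 : GG S u ≤ G v := by linarith
          have h3 : 1 ≤ G v := by linarith [hGGn u]
          have h4 : GG S u ≤ s * G v := by
            calc GG S u ≤ s := hGGle u
              _ = s * 1 := by ring
              _ ≤ s * G v := mul_le_mul_of_nonneg_left h3 hs0
          calc GG S u * (fk κ v ^ 2 * (A * Real.exp (-(u - v) ^ 2) + Bc * Real.exp (-(u - v) ^ 2 / 2))) =
              fk κ v ^ 2 * (A * Real.exp (-(u - v) ^ 2)) * GG S u + fk κ v ^ 2 * (Bc * Real.exp (-(u - v) ^ 2 / 2)) *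
                GG S u := by ring
            _ ≤ fk κ v ^ 2 * (A * Real.exp (-(u - v) ^ 2)) * G v + fk κ v ^ 2 * (Bc * Real.exp (-(u - v) ^ 2 / 2)) *
                (s * G v) := by gcongr
            _ = _ := by ring
      have : 0 ≤ (A + Bc) * s * Real.exp (-V0 ^ 2 / 4) * (fk κ v ^ 2 * Real.exp (-(u - v) ^ 2 / 4)) := by positivity
      linarith
    · have hsq : V0 ^ 2 ≤ (u - v) ^ 2 := by
        rw [← sq_abs (u - v)]
        exact pow_le_pow_left₀ hV0 h.le 2
      have q1 : Real.exp (-(u - v) ^ 2) ≤ Real.exp (-V0 ^ 2 / 4) * Real.exp (-(u - v) ^ 2 / 4) := by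
        rw [← Real.exp_add]
        apply Real.exp_le_exp.2
        nlinarith
      have q2 : Real.exp (-(u - v) ^ 2 / 2) ≤ Real.exp (-V0 ^ 2 / 4) * Real.exp (-(u - v) ^ 2 / 4) := by
        rw [← Real.exp_add]
        apply Real.exp_le_exp.2
        nlinarith
      have hterm : GG S u * (fk κ v ^ 2 * (A * Real.exp (-(u - v) ^ 2) + Bc * Real.exp (-(u - v) ^ 2 / 2))) ≤
          (A + Bc) * s * Real.exp (-V0 ^ 2 / 4) * (fk κ v ^ 2 * Real.exp (-(u - v) ^ 2 / 4)) := by
        calc GG S u * (fk κ v ^ 2 * (A * Real.exp (-(u - v) ^ 2) + Bc * Real.exp (-(u - v) ^ 2 / 2))) ≤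
            s * (fk κ v ^ 2 * (A * (Real.exp (-V0 ^ 2 / 4) * Real.exp (-(u - v) ^ 2 / 4)) +
              Bc * (Real.exp (-V0 ^ 2 / 4) * Real.exp (-(u - v) ^ 2 / 4)))) := by
              have := hGGle u
              gcongr
          _ = _ := by ring
      have : 0 ≤ fk κ v ^ 2 * G v * (A * Real.exp (-(u - v) ^ 2) + Bc * s * Real.exp (-(u - v) ^ 2 / 2)) := by
        have := hG0 v
        positivity
      linarith
  have hhm : Measurable (fun v => fk κ v ^ 2 * G v) := ((fk_meas κ).pow_const 2).mul hGm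
  have hh0 : ∀ v, 0 ≤ fk κ v ^ 2 * G v := fun v => mul_nonneg (sq_nonneg _) (hG0 v)
  have hD : 0 ≤ (A + Bc) * s * Real.exp (-V0 ^ 2 / 4) := by positivity
  have hF1m' : ∀ u, Measurable (fun v => F1 (fun v => fk κ v ^ 2 * G v) A (Bc * s) u v) := fun u =>
    F1_meas' (fun v => fk κ v ^ 2 * G v) hhm A (Bc * s) u
  have step1 : ∫⁻ u in Ioc 0 M, ∫⁻ v, ENNReal.ofReal (GG S u * (fk κ v ^ 2 * (A * Real.exp (-(u - v) ^ 2) +
      Bc * Real.exp (-(u - v) ^ 2 / 2)))) ≤ ∫⁻ u in Ioc 0 M, ((∫⁻ v, F1 (fun v => fk κ v ^ 2 * G v) A (Bc * s) u v) +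
      ∫⁻ v, ENNReal.ofReal ((A + Bc) * s * Real.exp (-V0 ^ 2 / 4) * (fk κ v ^ 2 * Real.exp (-(u - v) ^ 2 / 4)))) := by
    apply setLIntegral_mono' measurableSet_Ioc
    intro u hu
    rw [← lintegral_add_left (hF1m' u)]
    apply lintegral_mono
    intro v
    unfold F1
    have hx1 := hh0 v
    beta_reduce
    rw [← ENNReal.ofReal_add (by positivity) (by positivity)]
    exact ENNReal.ofReal_le_ofReal (hpt u v hu.1.le)
  refine step1.trans ?_
  have hF1u := F1_meas2 (fun v => fk κ v ^ 2 * G v) hhm A (Bc * s)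
  rw [lintegral_add_left hF1u]
  have p1 := (setLIntegral_le_lintegral (Ioc 0 M) _).trans
    (part1 (fun v => fk κ v ^ 2 * G v) hhm hh0 hGi A (Bc * s) hA (mul_nonneg hB hs0))
  have p2 := part2 κ hκ0 hκ ((A + Bc) * s * Real.exp (-V0 ^ 2 / 4)) M hD
  refine (add_le_add p1 p2).trans (le_of_eq ?_)
  rw [← ENNReal.ofReal_add (mul_nonneg (by positivity) hfG0) (by positivity)]
  congr 1
  ring

end Pool.Agent.L5helper10.TV
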