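import Pool.Agent.L5helper10.TV.Eb
import Pool.Agent.L5helper10.TV.Sw

/-! Bounds for the weighted mean square over all the blocks. -/

set_option autoImplicit false

open Filter Topology Set MeasureTheory H370

namespace Pool.Agent.L5helper10.TV

/-- the weighted mean square over all blocks -/
noncomputable def EE (κ a δ : ℝ) (N : ℕ) (u : ℝ) : ℝ :=
  ∑ j ∈ Finset.range N, wj κ a δ j * Ej κ (xj a δ j) (xj a δ (j + 1)) u

/-- the upper Riemann sum -/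
noncomputable def TT (a δ : ℝ) (N : ℕ) : ℝ := ∑ j ∈ Finset.range N, δ * Wj a δ j / xj a δ (j + 1) ^ 2

lemma G0_nonneg (κ u : ℝ) : 0 ≤ G0 κ u := integral_nonneg fun v => mul_nonneg (sq_nonneg _) (Real.exp_pos _).le
lemma G1_nonneg (κ u : ℝ) : 0 ≤ G1 κ u := integral_nonneg fun v => mul_nonneg (sq_nonneg _) (Real.exp_pos _).le

lemma G0_le_G1 (κ u : ℝ) (hκ0 : 0 ≤ κ) (hκ : κ ≤ 1) : G0 κ u ≤ G1 κ u := by
  apply integral_mono (G0_int κ u hκ0 hκ) (G1_int κ u hκ0 hκ)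
  intro v
  apply mul_le_mul_of_nonneg_left _ (sq_nonneg _)
  apply Real.exp_le_exp.2
  nlinarith [sq_nonneg (u - v)]

lemma wj_nonneg (κ a δ : ℝ) (hδ : 0 < δ) (j : ℕ) : 0 ≤ wj κ a δ j := by
  unfold wj
  have := Wj_pos (a := a) hδ j
  positivity

theorem EE_bd (ℓ a δ η : ℝ) (N : ℕ) (hℓ : 1 ≤ ℓ) (ha : 0 < a) (hδ : 0 < δ) (hδa : δ ≤ a / 2) (hη : 0 < η)
    (hη1 : η ≤ 1) :
    ∃ C : ℝ, 0 < C ∧ ∀ᶠ κ in 𝓝[>] (0 : ℝ),
      (∀ u : ℝ, 0 ≤ u → u ≤ 1 → EE κ a δ N u ≤ C * (κ * La κ ^ 2)) ∧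
      (∀ u : ℝ, κ ≤ u → u ≤ ℓ * La κ → EE κ a δ N u ≤
        (1 + η) * (1 / (2 * Real.pi)) * (κ * La κ ^ 2 * Real.exp (-u ^ 2)) * TT a δ N + C * (G1 κ u + κ)) ∧
      (∀ u : ℝ, κ ≤ u → u ≤ ℓ * La κ → EE κ a δ N u ≤
        (1 + η) ^ 2 / 2 * G0 κ u + C * (κ ^ 2 * G1 κ u) +
          C * (κ * (La κ ^ 2 * Real.exp (-u ^ 2) + Real.exp (-(2 * u))))) := by
  have hpi := Real.pi_gt_three
  have hb : ∀ j : ℕ, ∃ C : ℝ, 0 < C ∧ ∀ᶠ κ in 𝓝[>] (0 : ℝ),
      (∀ u : ℝ, 0 ≤ u → u ≤ 1 → Ej κ (xj a δ j) (xj a δ (j + 1)) u ≤ C * La κ ^ 2 / κ) ∧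
      (∀ u : ℝ, κ ≤ u → u ≤ ℓ * La κ → Ej κ (xj a δ j) (xj a δ (j + 1)) u ≤
        (1 + η) * (1 / (2 * Real.pi)) * (La κ ^ 2 * Wj a δ j ^ 2 * Real.exp (-u ^ 2) * (δ / κ)) +
          C * ((∫ t in (xj a δ j / κ)..(xj a δ (j + 1) / κ), ‖QP κ u t‖ ^ 2) + 1 / κ)) ∧
      (∀ u : ℝ, κ ≤ u → u ≤ ℓ * La κ → Ej κ (xj a δ j) (xj a δ (j + 1)) u ≤
        (1 + η) * (1 / (2 * Real.pi)) * (∫ t in (xj a δ j / κ)..(xj a δ (j + 1) / κ), ‖QP κ u t‖ ^ 2) +
          C * (La κ ^ 2 * Real.exp (-u ^ 2) + Real.exp (-(2 * u))) / κ) := by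
    intro j
    have hxa : a ≤ xj a δ j := by
      unfold xj
      have : (0 : ℝ) ≤ j := Nat.cast_nonneg j
      nlinarith
    obtain ⟨C, hC, h⟩ := Ej_bd ℓ (xj a δ j) δ η hℓ (xj_pos ha hδ j) hδ (by linarith) hη
    rw [← xj_succ] at h
    exact ⟨C, hC, h⟩
  choose Cj hCj hev using hb
  have hall : ∀ᶠ κ in 𝓝[>] (0 : ℝ), ∀ j ∈ Finset.range N,
      (∀ u : ℝ, 0 ≤ u → u ≤ 1 → Ej κ (xj a δ j) (xj a δ (j + 1)) u ≤ Cj j * La κ ^ 2 / κ) ∧
      (∀ u : ℝ, κ ≤ u → u ≤ ℓ * La κ → Ej κ (xj a δ j) (xj a δ (j + 1)) u ≤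
        (1 + η) * (1 / (2 * Real.pi)) * (La κ ^ 2 * Wj a δ j ^ 2 * Real.exp (-u ^ 2) * (δ / κ)) +
          Cj j * ((∫ t in (xj a δ j / κ)..(xj a δ (j + 1) / κ), ‖QP κ u t‖ ^ 2) + 1 / κ)) ∧
      (∀ u : ℝ, κ ≤ u → u ≤ ℓ * La κ → Ej κ (xj a δ j) (xj a δ (j + 1)) u ≤
        (1 + η) * (1 / (2 * Real.pi)) * (∫ t in (xj a δ j / κ)..(xj a δ (j + 1) / κ), ‖QP κ u t‖ ^ 2) +
          Cj j * (La κ ^ 2 * Real.exp (-u ^ 2) + Real.exp (-(2 * u))) / κ) := by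
    rw [Filter.eventually_all_finset]
    exact fun j _ => hev j
  obtain ⟨CP, hCP, hPS⟩ := PS a δ ha hδ N η hη hη1
  set Cs := ∑ j ∈ Finset.range N, Cj j with hCs
  have hCs0 : 0 ≤ Cs := Finset.sum_nonneg fun j _ => (hCj j).le
  have hCjs : ∀ j ∈ Finset.range N, Cj j ≤ Cs := fun j hj =>
    Finset.single_le_sum (f := Cj) (fun i _ => (hCj i).le) hj
  set Ds := ∑ j ∈ Finset.range N, Cj j / (Wj a δ j * xj a δ (j + 1) ^ 2) with hDs
  have hDs0 : 0 ≤ Ds := Finset.sum_nonneg fun j _ => by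
    have := Wj_pos (a := a) hδ j
    have := (hCj j).le
    positivity
  refine ⟨Ds + Cs * (2 * Real.pi + CP) + CP + 1, by positivity, ?_⟩
  filter_upwards [hall, hPS, self_mem_nhdsWithin, le_one_ev, La_ge 1] with κ h1 h2 h3 hκ1 h4
  have hκ : 0 < κ := h3
  set L := La κ with hL
  have hG0 := G0_nonneg κ
  have hG1 := G1_nonneg κ
  have hwC : ∀ j, wj κ a δ j * (Cj j / κ) = κ * (Cj j / (Wj a δ j * xj a δ (j + 1) ^ 2)) := by
    intro j
    unfold wj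
    field_simp
  have hwE : ∀ j, wj κ a δ j * (Wj a δ j ^ 2 * (δ / κ)) = κ * (δ * Wj a δ j / xj a δ (j + 1) ^ 2) := by
    intro j
    have := Wj_pos (a := a) hδ j
    have := xj_pos ha hδ (j + 1)
    unfold wj
    field_simp
  set Cf := Ds + Cs * (2 * Real.pi + CP) + CP + 1 with hCf
  have hDf : Ds ≤ Cf := by
    rw [hCf]
    have : 0 ≤ Cs * (2 * Real.pi + CP) := by positivity
    linarith
  refine ⟨?_, ?_, ?_⟩
  · intro u hu hu1
    unfold EE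
    calc ∑ j ∈ Finset.range N, wj κ a δ j * Ej κ (xj a δ j) (xj a δ (j + 1)) u ≤
        ∑ j ∈ Finset.range N, κ * L ^ 2 * (Cj j / (Wj a δ j * xj a δ (j + 1) ^ 2)) := by
          apply Finset.sum_le_sum
          intro j hj
          have := mul_le_mul_of_nonneg_left ((h1 j hj).1 u hu hu1) (wj_nonneg κ a δ hδ j)
          refine this.trans (le_of_eq ?_)
          calc wj κ a δ j * (Cj j * L ^ 2 / κ) = (wj κ a δ j * (Cj j / κ)) * L ^ 2 := by ring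
            _ = _ := by rw [hwC]; ring
      _ = κ * L ^ 2 * Ds := by rw [← Finset.mul_sum]
      _ ≤ κ * L ^ 2 * Cf := by gcongr
      _ = _ := by ring
  · intro u hu huL
    unfold EE
    set q : ℕ → ℝ := fun j => ∫ t in (xj a δ j / κ)..(xj a δ (j + 1) / κ), ‖QP κ u t‖ ^ 2 with hq
    have hq0 : ∀ j, 0 ≤ q j := fun j => intervalIntegral.integral_nonneg (by
      apply div_le_div_of_nonneg_right _ hκ.le
      rw [xj_succ]; linarith) fun t _ => by positivity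
    have hps := h2 u
    have hG01 := G0_le_G1 κ u hκ.le hκ1
    have hterm : ∀ j ∈ Finset.range N, wj κ a δ j * Ej κ (xj a δ j) (xj a δ (j + 1)) u ≤
        (1 + η) * (1 / (2 * Real.pi)) * (κ * L ^ 2 * Real.exp (-u ^ 2)) * (δ * Wj a δ j / xj a δ (j + 1) ^ 2) +
        Cs * (wj κ a δ j * q j) + κ * (Cj j / (Wj a δ j * xj a δ (j + 1) ^ 2)) := by
      intro j hj
      have hw := wj_nonneg κ a δ hδ j
      have := mul_le_mul_of_nonneg_left ((h1 j hj).2.1 u hu huL) hw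
      refine this.trans ?_
      have e1 : wj κ a δ j * ((1 + η) * (1 / (2 * Real.pi)) * (L ^ 2 * Wj a δ j ^ 2 * Real.exp (-u ^ 2) * (δ / κ)) +
          Cj j * (q j + 1 / κ)) = (1 + η) * (1 / (2 * Real.pi)) * (L ^ 2 * Real.exp (-u ^ 2)) *
            (wj κ a δ j * (Wj a δ j ^ 2 * (δ / κ))) + Cj j * (wj κ a δ j * q j) + wj κ a δ j * (Cj j / κ) := by ring
      rw [e1, hwE, hwC]
      have : Cj j * (wj κ a δ j * q j) ≤ Cs * (wj κ a δ j * q j) :=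
        mul_le_mul_of_nonneg_right (hCjs j hj) (mul_nonneg hw (hq0 j))
      have e2 : (1 + η) * (1 / (2 * Real.pi)) * (L ^ 2 * Real.exp (-u ^ 2)) * (κ * (δ * Wj a δ j / xj a δ (j + 1) ^ 2)) =
          (1 + η) * (1 / (2 * Real.pi)) * (κ * L ^ 2 * Real.exp (-u ^ 2)) * (δ * Wj a δ j / xj a δ (j + 1) ^ 2) := by
        ring
      rw [e2]
      linarith
    refine (Finset.sum_le_sum hterm).trans ?_
    rw [Finset.sum_add_distrib, Finset.sum_add_distrib, ← Finset.mul_sum, ← Finset.mul_sum, ← Finset.mul_sum]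
    have e3 : ∑ j ∈ Finset.range N, wj κ a δ j * q j ≤ (2 * Real.pi + CP) * G1 κ u := by
      refine hps.trans ?_
      have a1 : (1 + η) * Real.pi * G0 κ u ≤ 2 * Real.pi * G1 κ u := by
        apply mul_le_mul _ hG01 (hG0 u) (by positivity)
        nlinarith
      have a2 : CP * κ ^ 2 * G1 κ u ≤ CP * G1 κ u := by
        apply mul_le_mul_of_nonneg_right _ (hG1 u)
        have : κ ^ 2 ≤ 1 := by nlinarith
        nlinarith
      linarith
    have e4 : Cs * ∑ j ∈ Finset.range N, wj κ a δ j * q j ≤ Cf * G1 κ u := by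
      calc Cs * ∑ j ∈ Finset.range N, wj κ a δ j * q j ≤ Cs * ((2 * Real.pi + CP) * G1 κ u) :=
            mul_le_mul_of_nonneg_left e3 hCs0
        _ = (Cs * (2 * Real.pi + CP)) * G1 κ u := by ring
        _ ≤ Cf * G1 κ u := by
            apply mul_le_mul_of_nonneg_right _ (hG1 u)
            rw [hCf]; linarith
    have e5 : κ * Ds ≤ Cf * κ := by
      calc κ * Ds = Ds * κ := by ring
        _ ≤ Cf * κ := mul_le_mul_of_nonneg_right hDf hκ.le
    unfold TT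
    rw [← hDs]
    linarith
  · intro u hu huL
    unfold EE
    set q : ℕ → ℝ := fun j => ∫ t in (xj a δ j / κ)..(xj a δ (j + 1) / κ), ‖QP κ u t‖ ^ 2 with hq
    have hps := h2 u
    set P := L ^ 2 * Real.exp (-u ^ 2) + Real.exp (-(2 * u)) with hP
    have hP0 : 0 ≤ P := by positivity
    have hterm : ∀ j ∈ Finset.range N, wj κ a δ j * Ej κ (xj a δ j) (xj a δ (j + 1)) u ≤
        (1 + η) * (1 / (2 * Real.pi)) * (wj κ a δ j * q j) + κ * P * (Cj j / (Wj a δ j * xj a δ (j + 1) ^ 2)) := by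
      intro j hj
      have hw := wj_nonneg κ a δ hδ j
      have := mul_le_mul_of_nonneg_left ((h1 j hj).2.2 u hu huL) hw
      refine this.trans (le_of_eq ?_)
      have e1 : wj κ a δ j * ((1 + η) * (1 / (2 * Real.pi)) * q j + Cj j * P / κ) =
          (1 + η) * (1 / (2 * Real.pi)) * (wj κ a δ j * q j) + (wj κ a δ j * (Cj j / κ)) * P := by ring
      rw [e1, hwC]
      ring
    refine (Finset.sum_le_sum hterm).trans ?_
    rw [Finset.sum_add_distrib, ← Finset.mul_sum, ← Finset.mul_sum, ← hDs]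
    have e3 : (1 + η) * (1 / (2 * Real.pi)) * ∑ j ∈ Finset.range N, wj κ a δ j * q j ≤
        (1 + η) ^ 2 / 2 * G0 κ u + Cf * (κ ^ 2 * G1 κ u) := by
      have a0 : 0 ≤ (1 + η) * (1 / (2 * Real.pi)) := by positivity
      have a1 := mul_le_mul_of_nonneg_left hps a0
      refine a1.trans ?_
      have a2 : (1 + η) * (1 / (2 * Real.pi)) * ((1 + η) * Real.pi * G0 κ u + CP * κ ^ 2 * G1 κ u) =
          (1 + η) ^ 2 / 2 * G0 κ u + ((1 + η) * (1 / (2 * Real.pi)) * CP) * (κ ^ 2 * G1 κ u) := by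
        field_simp
      rw [a2]
      have a3 : (1 + η) * (1 / (2 * Real.pi)) * CP ≤ Cf := by
        have b1 : (1 + η) * (1 / (2 * Real.pi)) ≤ 1 := by
          rw [mul_one_div, div_le_one (by positivity)]
          linarith
        have b2 : (1 + η) * (1 / (2 * Real.pi)) * CP ≤ 1 * CP := mul_le_mul_of_nonneg_right b1 hCP.le
        rw [hCf]
        have : 0 ≤ Cs * (2 * Real.pi + CP) := by positivity
        linarith
      have a4 : 0 ≤ κ ^ 2 * G1 κ u := mul_nonneg (sq_nonneg _) (hG1 u)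
      have := mul_le_mul_of_nonneg_right a3 a4
      linarith
    have e5 : κ * P * Ds ≤ Cf * (κ * P) := by
      calc κ * P * Ds = Ds * (κ * P) := by ring
        _ ≤ Cf * (κ * P) := mul_le_mul_of_nonneg_right hDf (by positivity)
    linarith

end Pool.Agent.L5helper10.TV
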