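import Pool.Agent.L5helper10.TV.Fin1

/-! Lower bound for the normalised variance in every window of length two. -/

set_option autoImplicit false

open Filter Topology Set MeasureTheory
open scoped ENNReal

namespace Pool.Agent.L5helper10.TV

lemma hH_two (a b Lt s ηΛ u v : ℝ) (hs : 0 ≤ s) (hcond : a + ηΛ + s + 1 ≤ Lt) (hab : a < b) (hu : 0 ≤ u)
    (huv : |u - v| ≤ ηΛ) (hGG : GG (Icc 0 a ∪ Icc b (b + a)) u ≠ 0) :
    GG (Icc 0 a ∪ Icc b (b + a)) u + 1 ≤ 2 * max 0 (Lt - |v + s|) + max 0 (Lt - |v + s - b|) := by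
  have h1 := GG_two_le a b u hab hu
  have hv1 : |v + s| ≤ u + ηΛ + s := by
    have h5 := abs_add_le v s
    have h6 : |v| ≤ u + ηΛ := by
      have h7 := abs_sub_abs_le_abs_sub v u
      rw [abs_sub_comm v u, abs_of_nonneg hu] at h7
      linarith
    rw [abs_of_nonneg hs] at h5
    linarith
  have hv2 : |v + s - b| ≤ |u - b| + ηΛ + s := by
    have h5 : v + s - b = (u - b) + ((v - u) + s) := by ring
    have h6 := abs_add_le (u - b) ((v - u) + s)
    have h7 := abs_add_le (v - u) s
    rw [abs_sub_comm v u, abs_of_nonneg hs] at h7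
    rw [h5]; linarith
  have m1 : a - u + 1 ≤ max 0 (Lt - |v + s|) := le_trans (by linarith) (le_max_right _ _)
  have m2 : a - |u - b| + 1 ≤ max 0 (Lt - |v + s - b|) := le_trans (by linarith) (le_max_right _ _)
  have m3 : 0 ≤ max 0 (Lt - |v + s|) := le_max_left _ _
  have m4 : 0 ≤ max 0 (Lt - |v + s - b|) := le_max_left _ _
  rcases le_total (a - u) 0 with hA | hA
  · rw [max_eq_right hA] at h1
    rcases le_or_gt (a - |u - b|) 0 with hB | hB
    · rw [max_eq_right hB] at h1
      exact absurd (le_antisymm (by linarith) (GG_nn _ _)) hGG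
    · rw [max_eq_left hB.le] at h1
      linarith
  · rw [max_eq_left hA] at h1
    rcases le_total (a - |u - b|) 0 with hB | hB
    · rw [max_eq_right hB] at h1
      linarith
    · rw [max_eq_left hB] at h1
      linarith

theorem window (B ε : ℝ) (hB : 2 ≤ B) (hε : 0 < ε) :
    ∀ᶠ T in atTop, ∀ β : ℝ, 2 ≤ β → β ≤ B →
      2 / 3 - ε ≤ ∫ α in (β - 1)..(β + 1), (1 - |α - β|) * RT T α := by
  have hcongr : ∀ T β : ℝ, 2 ≤ β → β ≤ B → ∫ α in (β - 1)..(β + 1), (1 - |α - β|) * RT T α =
      ∫ α in (1 : ℝ)..(B + 1), (max 0 (1 - |α - β|)) * RT T α := by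
    intro T β h2 hβB
    have h1 : ∫ α in (β - 1)..(β + 1), (1 - |α - β|) * RT T α =
        ∫ α in (β - 1)..(β + 1), (max 0 (1 - |α - β|)) * RT T α := by
      apply intervalIntegral.integral_congr
      intro α hα
      rw [uIcc_of_le (by linarith)] at hα
      have : |α - β| ≤ 1 := abs_le.2 ⟨by linarith [hα.1], by linarith [hα.2]⟩
      simp only
      rw [max_eq_right (by linarith)]
    rw [h1, intervalIntegral.integral_of_le (by linarith), intervalIntegral.integral_of_le (by linarith)]
    symm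
    apply setIntegral_eq_of_subset_of_forall_sdiff_eq_zero measurableSet_Ioc
    · exact Ioc_subset_Ioc (by linarith) (by linarith)
    · intro α hα
      have : 1 ≤ |α - β| := by
        by_contra hc
        push Not at hc
        rw [abs_lt] at hc
        exact hα.2 ⟨by linarith [hc.1], by linarith [hc.2]⟩
      rw [max_eq_left (by linarith), zero_mul]
  obtain ⟨η, Q, hη0, hη1, hQ, hwrap⟩ := wrap (2 / 3) 12 ε (B + 1) 1 hε (by norm_num) (by norm_num) (by linarith)
  have hQ0 : 0 < Q := by linarith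
  filter_upwards [hwrap, eventually_gt_atTop 1, eventually_ge_atTop (2 * Q),
    lift_ev (star (2 * B + 2) η (by linarith) hη0) (1 + η) Q (by linarith),
    lift_ev (central 2 η (by norm_num) hη0) (1 + η) Q (by linarith),
    lift_ev (La_ge ((1 + Real.log (2 * Q)) / η)) (1 + η) Q (by linarith)] with T h1 hT hTQ h2 h3 h4 β hβ2 hβB
  have hT0 : 0 < T := by linarith
  have hL : 0 < Real.log T := Real.log_pos hT
  rw [hcongr T β hβ2 hβB]
  have hQT : Q / T ≤ 1 / 2 := by rw [div_le_iff₀ hT0]; linarith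
  have hG0 : ∀ v : ℝ, 0 ≤ 2 * max 0 (Real.log T - |v|) + max 0 (Real.log T - |v - β * Real.log T|) := fun v => by
    have := le_max_left 0 (Real.log T - |v|)
    have := le_max_left 0 (Real.log T - |v - β * Real.log T|)
    linarith
  have hGK : ∀ v : ℝ, 2 * max 0 (Real.log T - |v|) + max 0 (Real.log T - |v - β * Real.log T|) ≤ 3 * Real.log T := by
    intro v
    have k1 : max 0 (Real.log T - |v|) ≤ Real.log T := max_le hL.le (by linarith [abs_nonneg v])
    have k2 : max 0 (Real.log T - |v - β * Real.log T|) ≤ Real.log T :=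
      max_le hL.le (by linarith [abs_nonneg (v - β * Real.log T)])
    linarith
  refine h1 (fun α => max 0 (1 - |α - β|))
    (fun v => 2 * max 0 (Real.log T - |v|) + max 0 (Real.log T - |v - β * Real.log T|)) (by fun_prop) hG0
    (by fun_prop) (fun α => le_max_left _ _) (fun α => max_le (by linarith) (by linarith [abs_nonneg (α - β)]))
    (fun α hα => max_eq_left (by linarith [le_abs_self (α - β)])) ?_ ?_
  · intro α hα
    have e1 : Real.log T - |α * Real.log T| ≤ 0 := by
      rw [abs_mul, abs_of_pos hL, abs_of_pos (by linarith : (0 : ℝ) < α)]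
      nlinarith
    have e2 : α * Real.log T - β * Real.log T = (α - β) * Real.log T := by ring
    rw [max_eq_left e1, e2, abs_mul, abs_of_pos hL, mul_max_of_nonneg _ _ hL.le, mul_zero, mul_zero, zero_add]
    congr 1; ring
  · intro κ hκ
    obtain ⟨g1, g2, g3, g4, g5, g6, g7⟩ := geo T (1 + η) Q κ hT.le (by linarith) hQT hκ
    have k2 := h2 κ hκ
    have k3 := h3 κ hκ
    have k4 := h4 κ hκ
    rw [div_le_iff₀ hη0] at k4
    have hlogQ : Real.log Q ≤ Real.log (2 * Q) := Real.log_le_log hQ0 (by linarith)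
    have hlog2Q : 0 ≤ Real.log (2 * Q) := Real.log_nonneg (by linarith)
    have hlog2 : Real.log 2 ≤ 1 := by linarith [Real.log_two_lt_d9]
    set Λ := La κ with hΛ
    set s := ss T κ with hs
    set Lt := Real.log T with hLt
    have hΛ0 : 0 < Λ := by nlinarith
    have hLt2 : Lt + 1 / 2 ≤ (1 + η) * Λ := by linarith
    set b := β * Lt with hb
    set G' : ℝ → ℝ := fun v => 2 * max 0 (Lt - |v + s|) + max 0 (Lt - |v + s - b|) with hG'
    have hG'0 : ∀ v, 0 ≤ G' v := fun v => hG0 (v + s)
    have hG'm : Measurable G' := by rw [hG']; fun_prop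
    have hG'K : ∀ v, G' v ≤ 3 * Lt := fun v => hGK (v + s)
    have hG'B : ∀ v, b + Lt < v → G' v = 0 := by
      intro v hv
      have hb0 : 0 ≤ b := by rw [hb]; positivity
      have k1 : max 0 (Lt - |v + s|) = 0 := max_eq_left (by linarith [le_abs_self (v + s)])
      have k2 : max 0 (Lt - |v + s - b|) = 0 := max_eq_left (by linarith [le_abs_self (v + s - b)])
      show 2 * max 0 (Lt - |v + s|) + max 0 (Lt - |v + s - b|) = 0
      rw [k1, k2]; ring
    have hint := fkG_int κ g1.le g2 G' hG'm hG'0 (3 * Lt) (b + Lt) hG'K hG'B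
    refine ⟨hint.integrableOn, ?_⟩
    -- the set
    set a := (1 - 2 * η) * Λ with ha
    have ha0 : 0 ≤ a := mul_nonneg (by linarith) hΛ0.le
    have haΛ : a ≤ Λ := by rw [ha]; nlinarith
    have hb2 : 2 * Lt ≤ b := mul_le_mul_of_nonneg_right hβ2 hL.le
    have hbB : b ≤ B * Lt := mul_le_mul_of_nonneg_right hβB hL.le
    have hab : a < b := by linarith
    have hLt3 : Lt ≤ 2 * Λ := by nlinarith
    have hvol : (volume (Icc 0 a ∪ Icc b (b + a))).toReal = 2 * a := by
      rw [measure_union _ measurableSet_Icc, ENNReal.toReal_add (by simp) (by simp), Real.volume_Icc, Real.volume_Icc,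
        ENNReal.toReal_ofReal (by linarith), ENNReal.toReal_ofReal (by linarith)]
      · ring
      · rw [Set.disjoint_left]
        intro x hx hx2
        linarith [hx.2, hx2.1]
    have hstar := k2 (Icc 0 a ∪ Icc b (b + a)) (measurableSet_Icc.union measurableSet_Icc) ?_ G' hG'm hG'0 ?_ hint
    · rw [hvol] at hstar
      have hR1 : Λ ≤ Lt + 1 / 2 := by linarith
      have hR2 : Lt + 1 / 2 ≤ 2 * Λ := by nlinarith
      have hcen := k3 (Lt + 1 / 2) hR1 hR2
      have htail := tail_low κ 2 (Lt + 1 / 2) _ g1 g2 (by norm_num) hR1 G' hint (fun v hv => by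
        have n1 : max 0 (Lt - |v + s|) ≤ Lt - v := max_le (by linarith) (by linarith [le_abs_self (v + s)])
        have n2 : max 0 (Lt - |v + s - b|) ≤ 1 := by
          apply max_le zero_le_one
          have := neg_abs_le (v + s - b)
          linarith
        show 2 * max 0 (Lt - |v + s|) + max 0 (Lt - |v + s - b|) ≤ 2 * (Lt + 1 / 2 - v)
        linarith) hcen
      refine le_trans ?_ htail
      have hκΛ : 0 ≤ κ * Λ ^ 3 := by positivity
      have e1 : κ * ((Lt + 1 / 2) * Λ ^ 2 / 2 - Λ ^ 3 / 3) + η * κ * Λ ^ 3 ≤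
          ((1 + η) / 2 - 1 / 3 + η) * (κ * Λ ^ 3) := by
        have := mul_le_mul_of_nonneg_left hLt2 (by positivity : 0 ≤ κ * Λ ^ 2 / 2)
        nlinarith
      have e2 : κ * Λ * (2 * a) ^ 2 = 4 * (1 - 2 * η) ^ 2 * (κ * Λ ^ 3) := by rw [ha]; ring
      have e3 : κ * Λ ^ 2 * (2 * a) = 2 * (1 - 2 * η) * (κ * Λ ^ 3) := by rw [ha]; ring
      rw [e2, e3] at hstar
      have e4 : (2 / 3 - 12 * η) ≤
          (4 * (1 - 2 * η) ^ 2 - 2 * (1 - 2 * η) - η) / 2 - 2 * ((1 + η) / 2 - 1 / 3 + η) := by
        nlinarith [sq_nonneg η]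
      have e5 := mul_le_mul_of_nonneg_right e4 hκΛ
      linarith
    · apply union_subset
      · apply Icc_subset_Icc_right
        nlinarith
      · intro x hx
        refine ⟨by linarith [hx.1], hx.2.trans ?_⟩
        have : B * Lt ≤ B * (2 * Λ) := mul_le_mul_of_nonneg_left hLt3 (by linarith)
        linarith
    · intro u v hu huv hGG
      apply hH_two a b Lt s (η * Λ) u v g5 _ hab hu huv hGG
      linarith

end Pool.Agent.L5helper10.TV
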