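import Pool.Agent.L5helper10.TV.Fin2
import Pool.Agent.L5helper10.TV.Cen2

/-! Lower bound for the normalised variance in short windows. -/

set_option autoImplicit false

open Filter Topology Set MeasureTheory
open scoped ENNReal

namespace Pool.Agent.L5helper10.TV

/-- the central part against a truncated linear weight -/
lemma cen_trunc (κ R s b Λ η : ℝ) (hκ0 : 0 < κ) (hκ : κ ≤ 1) (hη : 0 < η) (hΛ : Λ = La κ) (hΛη : 2000 / η ≤ Λ) (hΛ1 : 1 ≤ Λ)
    (hs : 0 ≤ s) (hR : 0 ≤ R) (hb : R + Λ + s ≤ b + 1)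
    (hc : ∀ B R : ℝ, 0 ≤ B → B ≤ La κ → B ≤ R → R ≤ 2 * La κ →
      ∫ v in Iic B, fk κ v ^ 2 * (R - v) ≤ κ * (R * B ^ 2 / 2 - B ^ 3 / 3) + η * κ * La κ ^ 3) (hR2 : R ≤ 2 * Λ) :
    ∫ v in Iic Λ, fk κ v ^ 2 * (2 * max 0 (R - |v + s|) + max 0 (R - |v + s - b|)) ≤
      κ * R ^ 3 / 3 + 3 * η * (κ * Λ ^ 3) := by
  set B0 := min R Λ with hB0
  have hB00 : 0 ≤ B0 := le_min hR (by linarith)
  have hB0R : B0 ≤ R := min_le_left _ _
  have hB0Λ : B0 ≤ Λ := min_le_right _ _
  have h1 := hc B0 R hB00 (by rw [← hΛ]; exact hB0Λ) hB0R (by rw [← hΛ]; exact hR2)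
  rw [← hΛ] at h1
  have h2 : R * B0 ^ 2 / 2 - B0 ^ 3 / 3 ≤ R ^ 3 / 6 := by
    nlinarith [mul_nonneg (sub_nonneg.2 hB0R) (sq_nonneg (R - B0)), mul_nonneg hB00 (sq_nonneg (R - B0)),
      mul_nonneg hR (sq_nonneg (R - B0))]
  have h3 : ∫ v in Iic Λ, fk κ v ^ 2 ≤ 500 * κ * (1 + Λ) ^ 2 := crude κ Λ hκ0 hκ (by linarith) (by rw [hΛ])
  have h4 : 500 * κ * (1 + Λ) ^ 2 ≤ η * (κ * Λ ^ 3) := by
    have k1 : 500 * (1 + Λ) ^ 2 ≤ 2000 * Λ ^ 2 := by nlinarith
    have k2 : 2000 ≤ η * Λ := by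
      rw [div_le_iff₀ hη] at hΛη; linarith
    have k3 : 2000 * Λ ^ 2 ≤ η * Λ * Λ ^ 2 := mul_le_mul_of_nonneg_right k2 (sq_nonneg _)
    have k4 := mul_le_mul_of_nonneg_left (k1.trans k3) hκ0.le
    nlinarith
  have i1 : IntegrableOn (fun v => fk κ v ^ 2) (Iic Λ) := by
    have := fk_wt_int κ 1 0 Λ Λ hκ0 hκ zero_le_one le_rfl le_rfl
    simpa using this
  have i2 : IntegrableOn (fun v => fk κ v ^ 2 * (R - v)) (Iic B0) := by
    have := fk_wt_int κ 0 1 R B0 hκ0 hκ le_rfl zero_le_one hB0R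
    simpa using this
  have hfun : (fun v => (Iic B0).indicator (fun v => fk κ v ^ 2 * (R - v)) v) = fun v => (Iic B0).indicator
      (fun v => fk κ v ^ 2 * (R - v)) v := rfl
  have i3 : Integrable ((Iic B0).indicator (fun v => fk κ v ^ 2 * (R - v))) := i2.integrable_indicator measurableSet_Iic
  have h5 : ∀ v ∈ Iic Λ, fk κ v ^ 2 * (2 * max 0 (R - |v + s|) + max 0 (R - |v + s - b|)) ≤
      2 * (Iic B0).indicator (fun v => fk κ v ^ 2 * (R - v)) v + fk κ v ^ 2 := by
    intro v hv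
    have hv' : v ≤ Λ := hv
    have n2 : max 0 (R - |v + s - b|) ≤ 1 := by
      apply max_le zero_le_one
      have := neg_abs_le (v + s - b)
      linarith
    have hf := sq_nonneg (fk κ v)
    simp only [Set.indicator_apply, Set.mem_Iic]
    by_cases hvB : v ≤ B0
    · rw [if_pos hvB]
      have n1 : max 0 (R - |v + s|) ≤ R - v := max_le (by linarith) (by linarith [le_abs_self (v + s)])
      have := mul_le_mul_of_nonneg_left (by linarith : 2 * max 0 (R - |v + s|) + max 0 (R - |v + s - b|) ≤ 2 * (R - v) + 1) hf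
      linarith
    · rw [if_neg hvB]
      have hvR : R ≤ v := by
        by_contra hcon
        push Not at hcon
        exact hvB (le_min hcon.le hv')
      have n1 : max 0 (R - |v + s|) = 0 := max_eq_left (by linarith [le_abs_self (v + s)])
      rw [n1]
      have := mul_le_mul_of_nonneg_left n2 hf
      linarith
  have hR0 : ∀ v, 0 ≤ fk κ v ^ 2 * (2 * max 0 (R - |v + s|) + max 0 (R - |v + s - b|)) := by
    intro v
    have := le_max_left 0 (R - |v + s|)
    have := le_max_left 0 (R - |v + s - b|)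
    positivity
  have i4 : IntegrableOn (fun v => 2 * (Iic B0).indicator (fun v => fk κ v ^ 2 * (R - v)) v + fk κ v ^ 2) (Iic Λ) :=
    (i3.integrableOn.const_mul 2).add i1
  have i5 : IntegrableOn (fun v => 2 * (Iic B0).indicator (fun v => fk κ v ^ 2 * (R - v)) v) (Iic Λ) :=
    i3.integrableOn.const_mul 2
  have h6 : ∫ v in Iic Λ, fk κ v ^ 2 * (2 * max 0 (R - |v + s|) + max 0 (R - |v + s - b|)) ≤
      ∫ v in Iic Λ, (2 * (Iic B0).indicator (fun v => fk κ v ^ 2 * (R - v)) v + fk κ v ^ 2) := by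
    apply integral_mono_of_nonneg (Eventually.of_forall hR0) i4
    exact ae_restrict_of_forall_mem measurableSet_Iic h5
  rw [integral_add i5 i1, integral_const_mul, setIntegral_indicator measurableSet_Iic] at h6
  have h7 : Iic Λ ∩ Iic B0 = Iic B0 := by
    rw [Iic_inter_Iic, inf_eq_right.2 hB0Λ]
  rw [h7] at h6
  have h8 := mul_le_mul_of_nonneg_left h2 hκ0.le
  linarith

lemma win_e1 (κ a Lt η Λ : ℝ) (hκ : 0 ≤ κ) (ha : 0 ≤ a) (ha1 : a ≤ 1) (hL : 0 ≤ Lt) (hη0 : 0 ≤ η) (hη1 : η ≤ 1 / 20)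
    (hΛ : 0 ≤ Λ) (hLt2 : Lt ≤ (1 + η) * Λ) :
    κ * (a * Lt) ^ 3 / 3 ≤ (a ^ 3 / 3 + 4 / 3 * η) * (κ * Λ ^ 3) := by
  have hκΛ : 0 ≤ κ * Λ ^ 3 := by positivity
  have m1 : Lt ^ 3 ≤ ((1 + η) * Λ) ^ 3 := pow_le_pow_left₀ hL hLt2 3
  have m2 : (1 + η) ^ 3 ≤ 1 + 4 * η := by nlinarith [sq_nonneg η, mul_nonneg hη0 (sq_nonneg η)]
  have m3 : a ^ 3 ≤ 1 := pow_le_one₀ ha ha1
  have m4 : 0 ≤ a ^ 3 := by positivity
  have m5 : a ^ 3 * (1 + η) ^ 3 ≤ a ^ 3 + 4 * η := by nlinarith
  calc κ * (a * Lt) ^ 3 / 3 = κ * a ^ 3 / 3 * Lt ^ 3 := by ring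
    _ ≤ κ * a ^ 3 / 3 * ((1 + η) * Λ) ^ 3 := mul_le_mul_of_nonneg_left m1 (by positivity)
    _ = (a ^ 3 * (1 + η) ^ 3) / 3 * (κ * Λ ^ 3) := by ring
    _ ≤ (a ^ 3 + 4 * η) / 3 * (κ * Λ ^ 3) := by
        apply mul_le_mul_of_nonneg_right _ hκΛ
        linarith
    _ = _ := by ring

lemma win_e4 (a η : ℝ) (ha : 0 ≤ a) (ha1 : a ≤ 1) (hη0 : 0 ≤ η) :
    (2 * a ^ 2 - a - a ^ 3 / 3 - 14 * η) ≤
      (4 * (a - 2 * η) ^ 2 - 2 * (a - 2 * η) - η) / 2 - (a ^ 3 / 3 + 4 / 3 * η) - 3 * η := by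
  have h1 : a * η ≤ η := by nlinarith
  nlinarith [sq_nonneg η]

theorem window2 (a B ε : ℝ) (ha : 0 < a) (ha1 : a ≤ 1) (hε : 0 < ε) :
    ∀ᶠ T in atTop, ∀ β : ℝ, 1 + a ≤ β → β ≤ B →
      2 * a ^ 2 - a - a ^ 3 / 3 - ε ≤ ∫ α in (β - a)..(β + a), (a - |α - β|) * RT T α := by
  by_cases hc0 : 2 * a ^ 2 - a - a ^ 3 / 3 < 0
  · filter_upwards [eventually_gt_atTop 1] with T hT β hβ hβB
    have : 0 ≤ ∫ α in (β - a)..(β + a), (a - |α - β|) * RT T α := by
      rw [intervalIntegral.integral_of_le (by linarith)]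
      exact setIntegral_nonneg measurableSet_Ioc fun α hα =>
        mul_nonneg (by
          have : |α - β| ≤ a := abs_le.2 ⟨by linarith [hα.1], by linarith [hα.2]⟩
          linarith) (RT_nonneg T α hT (by linarith [hα.1]))
    linarith
  push Not at hc0
  have hah : 1 / 2 < a := by
    by_contra hc
    push Not at hc
    have h1 : 0 < a ^ 3 := by positivity
    nlinarith
  rcases lt_or_ge B 1 with hB1 | hB1
  · exact Eventually.of_forall fun T β h1 h2 => by linarith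
  have hcongr : ∀ T β : ℝ, 1 + a ≤ β → β ≤ B → ∫ α in (β - a)..(β + a), (a - |α - β|) * RT T α =
      ∫ α in (1 : ℝ)..(B + 1), (max 0 (a - |α - β|)) * RT T α := by
    intro T β h2 hβB
    have h1 : ∫ α in (β - a)..(β + a), (a - |α - β|) * RT T α =
        ∫ α in (β - a)..(β + a), (max 0 (a - |α - β|)) * RT T α := by
      apply intervalIntegral.integral_congr
      intro α hα
      rw [uIcc_of_le (by linarith)] at hα
      have : |α - β| ≤ a := abs_le.2 ⟨by linarith [hα.1], by linarith [hα.2]⟩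
      simp only
      rw [max_eq_right (by linarith)]
    rw [h1, intervalIntegral.integral_of_le (by linarith), intervalIntegral.integral_of_le (by linarith)]
    symm
    apply setIntegral_eq_of_subset_of_forall_sdiff_eq_zero measurableSet_Ioc
    · exact Ioc_subset_Ioc (by linarith) (by linarith)
    · intro α hα
      have : a ≤ |α - β| := by
        by_contra hc
        push Not at hc
        rw [abs_lt] at hc
        exact hα.2 ⟨by linarith [hc.1], by linarith [hc.2]⟩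
      rw [max_eq_left (by linarith), zero_mul]
  obtain ⟨η, Q, hη0, hη1, hQ, hwrap⟩ := wrap (2 * a ^ 2 - a - a ^ 3 / 3) 14 ε (B + 1) 1 hε hc0 (by norm_num) (by linarith)
  have hQ0 : 0 < Q := by linarith
  filter_upwards [hwrap, eventually_gt_atTop 1, eventually_ge_atTop (2 * Q),
    lift_ev (star (2 * B + 2) η (by linarith) hη0) (1 + η) Q (by linarith),
    lift_ev (central2 2 η (by norm_num) hη0) (1 + η) Q (by linarith),
    lift_ev (La_ge ((1 + Real.log (2 * Q)) / η)) (1 + η) Q (by linarith),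
    lift_ev (La_ge (2000 / η)) (1 + η) Q (by linarith)] with T h1 hT hTQ h2 h3 h4 h5 β hβ2 hβB
  have hT0 : 0 < T := by linarith
  have hL : 0 < Real.log T := Real.log_pos hT
  rw [hcongr T β hβ2 hβB]
  have hQT : Q / T ≤ 1 / 2 := by rw [div_le_iff₀ hT0]; linarith
  have hG0 : ∀ v : ℝ, 0 ≤ 2 * max 0 (a * Real.log T - |v|) + max 0 (a * Real.log T - |v - β * Real.log T|) := fun v => by
    have := le_max_left 0 (a * Real.log T - |v|)
    have := le_max_left 0 (a * Real.log T - |v - β * Real.log T|)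
    linarith
  have haL : 0 < a * Real.log T := by positivity
  have hGK : ∀ v : ℝ, 2 * max 0 (a * Real.log T - |v|) + max 0 (a * Real.log T - |v - β * Real.log T|) ≤
      3 * (a * Real.log T) := by
    intro v
    have k1 : max 0 (a * Real.log T - |v|) ≤ a * Real.log T := max_le haL.le (by linarith [abs_nonneg v])
    have k2 : max 0 (a * Real.log T - |v - β * Real.log T|) ≤ a * Real.log T :=
      max_le haL.le (by linarith [abs_nonneg (v - β * Real.log T)])
    linarith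
  refine h1 (fun α => max 0 (a - |α - β|))
    (fun v => 2 * max 0 (a * Real.log T - |v|) + max 0 (a * Real.log T - |v - β * Real.log T|)) (by fun_prop) hG0
    (by fun_prop) (fun α => le_max_left _ _) (fun α => max_le (by linarith) (by linarith [abs_nonneg (α - β)]))
    (fun α hα => max_eq_left (by linarith [le_abs_self (α - β)])) ?_ ?_
  · intro α hα
    have e1 : a * Real.log T - |α * Real.log T| ≤ 0 := by
      rw [abs_mul, abs_of_pos hL, abs_of_pos (by linarith : (0 : ℝ) < α)]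
      nlinarith
    have e2 : α * Real.log T - β * Real.log T = (α - β) * Real.log T := by ring
    rw [max_eq_left e1, e2, abs_mul, abs_of_pos hL, mul_max_of_nonneg _ _ hL.le, mul_zero, mul_zero, zero_add]
    congr 1; ring
  · intro κ hκ
    obtain ⟨g1, g2, g3, g4, g5, g6, g7⟩ := geo T (1 + η) Q κ hT.le (by linarith) hQT hκ
    have k2 := h2 κ hκ
    have k3 := h3 κ hκ
    have k4 := h4 κ hκ
    have k5 := h5 κ hκ
    rw [div_le_iff₀ hη0] at k4
    have hlogQ : Real.log Q ≤ Real.log (2 * Q) := Real.log_le_log hQ0 (by linarith)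
    have hlog2Q : 0 ≤ Real.log (2 * Q) := Real.log_nonneg (by linarith)
    have hlog2 : Real.log 2 ≤ 1 := by linarith [Real.log_two_lt_d9]
    obtain ⟨Λ, hΛ⟩ : ∃ Λ, Λ = La κ := ⟨_, rfl⟩
    rw [← hΛ] at g3 g4 g7 k2 k4 k5 ⊢
    set s := ss T κ with hs
    set Lt := Real.log T with hLt
    have hΛ1 : 1 ≤ Λ := by
      have : η * 1 ≤ η * Λ := by linarith
      nlinarith
    have hΛ0 : 0 < Λ := by linarith
    have hLt2 : Lt ≤ (1 + η) * Λ := by linarith
    set b := β * Lt with hb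
    set G' : ℝ → ℝ := fun v => 2 * max 0 (a * Lt - |v + s|) + max 0 (a * Lt - |v + s - b|) with hG'
    have hG'0 : ∀ v, 0 ≤ G' v := fun v => hG0 (v + s)
    have hG'm : Measurable G' := by rw [hG']; fun_prop
    have hG'K : ∀ v, G' v ≤ 3 * (a * Lt) := fun v => hGK (v + s)
    have haLt : a * Lt ≤ Lt := by nlinarith
    have hG'B : ∀ v, b + Lt < v → G' v = 0 := by
      intro v hv
      have hb0 : 0 ≤ b := by rw [hb]; exact mul_nonneg (by linarith) hL.le
      have k1 : max 0 (a * Lt - |v + s|) = 0 := max_eq_left (by linarith [le_abs_self (v + s)])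
      have k2 : max 0 (a * Lt - |v + s - b|) = 0 := max_eq_left (by linarith [le_abs_self (v + s - b)])
      show 2 * max 0 (a * Lt - |v + s|) + max 0 (a * Lt - |v + s - b|) = 0
      rw [k1, k2]; ring
    have hint := fkG_int κ g1.le g2 G' hG'm hG'0 (3 * (a * Lt)) (b + Lt) hG'K hG'B
    refine ⟨hint.integrableOn, ?_⟩
    -- the set
    set A := (a - 2 * η) * Λ with hA
    have hA0 : 0 ≤ A := mul_nonneg (by linarith) hΛ0.le
    have hAΛ : A ≤ Λ := by rw [hA]; nlinarith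
    have hb2 : (1 + a) * Lt ≤ b := mul_le_mul_of_nonneg_right hβ2 hL.le
    have hbB : b ≤ B * Lt := mul_le_mul_of_nonneg_right hβB hL.le
    have hAb : A < b := by nlinarith
    have hLt3 : Lt ≤ 2 * Λ := by nlinarith
    have hvol : (volume (Icc 0 A ∪ Icc b (b + A))).toReal = 2 * A := by
      rw [measure_union _ measurableSet_Icc, ENNReal.toReal_add (by simp) (by simp), Real.volume_Icc, Real.volume_Icc,
        ENNReal.toReal_ofReal (by linarith), ENNReal.toReal_ofReal (by linarith)]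
      · ring
      · rw [Set.disjoint_left]
        intro x hx hx2
        linarith [hx.2, hx2.1]
    have hstar := k2 (Icc 0 A ∪ Icc b (b + A)) (measurableSet_Icc.union measurableSet_Icc) ?_ G' hG'm hG'0 ?_ hint
    · rw [hvol] at hstar
      have hcen := cen_trunc κ (a * Lt) s b Λ η g1 g2 hη0 hΛ k5 hΛ1 g5 haL.le (by linarith) k3 (by linarith)
      have hsplit := intervalIntegral.integral_Iic_add_Ioi (b := Λ) hint.integrableOn hint.integrableOn
      have hκΛ : 0 ≤ κ * Λ ^ 3 := by positivity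
      have e1 : κ * (a * Lt) ^ 3 / 3 ≤ (a ^ 3 / 3 + 4 / 3 * η) * (κ * Λ ^ 3) :=
        win_e1 κ a Lt η Λ g1.le ha.le ha1 hL.le hη0.le hη1 hΛ0.le hLt2
      have e2 : κ * Λ * (2 * A) ^ 2 = 4 * (a - 2 * η) ^ 2 * (κ * Λ ^ 3) := by rw [hA]; ring
      have e3 : κ * Λ ^ 2 * (2 * A) = 2 * (a - 2 * η) * (κ * Λ ^ 3) := by rw [hA]; ring
      rw [e2, e3] at hstar
      have e4 := win_e4 a η ha.le ha1 hη0.le
      have e5 := mul_le_mul_of_nonneg_right e4 hκΛ
      have hcen' : ∫ v in Iic Λ, fk κ v ^ 2 * G' v ≤ κ * (a * Lt) ^ 3 / 3 + 3 * η * (κ * Λ ^ 3) := hcen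
      have hfin : (2 * a ^ 2 - a - a ^ 3 / 3 - 14 * η) * (κ * Λ ^ 3) ≤ ∫ v in Ioi Λ, fk κ v ^ 2 * G' v := by
        linarith
      exact hfin
    · apply union_subset
      · apply Icc_subset_Icc_right
        nlinarith
      · intro x hx
        refine ⟨by linarith [hx.1], hx.2.trans ?_⟩
        have : B * Lt ≤ B * (2 * Λ) := mul_le_mul_of_nonneg_left hLt3 (by linarith)
        linarith
    · intro u v hu huv hGG
      apply hH_two A b (a * Lt) s (η * Λ) u v g5 _ hAb hu huv hGG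
      have : a * Λ ≤ a * Lt := mul_le_mul_of_nonneg_left g3 ha.le
      linarith

end Pool.Agent.L5helper10.TV
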