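import Pool.Agent.TH794.QD.Planch

/-! The error term of the primes in multiplicatively short intervals and Plancherel for its windowed
Fourier transforms. -/

set_option autoImplicit false

open Complex Filter Topology Set MeasureTheory FourierTransform
open scoped ENNReal

namespace Pool.Agent.L5helper10.TV

/-- the weighted number of prime powers `n` with `|log n - v| ≤ κ / 2` -/
noncomputable def cnt (κ v : ℝ) : ℝ :=
  ∑' n : ℕ, if |Real.log n - v| ≤ κ / 2 then ArithmeticFunction.vonMangoldt n else 0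

/-- the normalised error term -/
noncomputable def fk (κ v : ℝ) : ℝ :=
  Real.exp (-v / 2) * (cnt κ v - 2 * Real.sinh (κ / 2) * Real.exp v)

lemma cnt_term_nonneg (κ v : ℝ) (n : ℕ) :
    0 ≤ if |Real.log n - v| ≤ κ / 2 then ArithmeticFunction.vonMangoldt n else 0 := by
  split_ifs
  · exact ArithmeticFunction.vonMangoldt_nonneg
  · exact le_rfl

lemma cnt_nonneg (κ v : ℝ) : 0 ≤ cnt κ v := tsum_nonneg (cnt_term_nonneg κ v)

lemma cnt_term_zero (κ v : ℝ) (n : ℕ) (hn : n ∉ Finset.Ioc 0 ⌊Real.exp (v + κ / 2)⌋₊) :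
    (if |Real.log n - v| ≤ κ / 2 then ArithmeticFunction.vonMangoldt n else 0) = 0 := by
  rcases Nat.eq_zero_or_pos n with h | h
  · rw [h]; simp
  · rw [if_neg]
    intro h1
    apply hn
    rw [Finset.mem_Ioc]
    refine ⟨h, Nat.le_floor ?_⟩
    have h2 := (abs_le.1 h1).2
    have h3 : (0 : ℝ) < n := by exact_mod_cast h
    rw [← Real.log_le_iff_le_exp h3]
    linarith

lemma cnt_eq_sum (κ v : ℝ) : cnt κ v = ∑ n ∈ Finset.Ioc 0 ⌊Real.exp (v + κ / 2)⌋₊,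
    if |Real.log n - v| ≤ κ / 2 then ArithmeticFunction.vonMangoldt n else 0 :=
  tsum_eq_sum fun n hn => cnt_term_zero κ v n hn

lemma cnt_summable (κ v : ℝ) : Summable (fun n : ℕ =>
    if |Real.log n - v| ≤ κ / 2 then ArithmeticFunction.vonMangoldt n else 0) :=
  summable_of_ne_finset_zero (s := Finset.Ioc 0 ⌊Real.exp (v + κ / 2)⌋₊) fun n hn => cnt_term_zero κ v n hn

lemma cnt_le (κ v : ℝ) (hκ : κ ≤ 1) : cnt κ v ≤ 10 * Real.exp v := by
  rw [cnt_eq_sum]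
  have h1 : ∑ n ∈ Finset.Ioc 0 ⌊Real.exp (v + κ / 2)⌋₊,
      (if |Real.log n - v| ≤ κ / 2 then ArithmeticFunction.vonMangoldt n else 0) ≤
      Chebyshev.psi (Real.exp (v + κ / 2)) := by
    unfold Chebyshev.psi
    apply Finset.sum_le_sum
    intro n _
    split_ifs
    · exact le_rfl
    · exact ArithmeticFunction.vonMangoldt_nonneg
  refine h1.trans ((Chebyshev.psi_le_const_mul_self (Real.exp_pos _).le).trans ?_)
  have h2 : Real.exp (v + κ / 2) ≤ Real.exp v * (33 / 20) := by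
    rw [Real.exp_add]
    apply mul_le_mul_of_nonneg_left _ (Real.exp_pos _).le
    have h3 := Real.exp_one_lt_d9
    have h4 : Real.exp (κ / 2) ^ 2 ≤ Real.exp 1 := by
      rw [← Real.exp_nat_mul]
      apply Real.exp_le_exp.2
      push_cast; linarith
    nlinarith [Real.exp_pos (κ / 2)]
  have h5 : Real.log 4 ≤ 14 / 10 := by
    rw [show (4 : ℝ) = 2 ^ 2 by norm_num, Real.log_pow]
    have := Real.log_two_lt_d9
    push_cast; linarith
  have h6 := Real.exp_pos v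
  nlinarith [Real.exp_pos (v + κ / 2)]

lemma sinh_half_le (κ : ℝ) (hκ0 : 0 ≤ κ) (hκ : κ ≤ 1) : 2 * Real.sinh (κ / 2) ≤ 2 * κ := by
  rw [Real.sinh_eq]
  have h1 : Real.exp (κ / 2) ≤ 1 + κ := by
    have := Real.exp_bound_div_one_sub_of_interval (x := κ / 2) (by linarith) (by linarith)
    refine this.trans ?_
    rw [div_le_iff₀ (by linarith)]
    nlinarith
  have h2 : 1 - κ / 2 ≤ Real.exp (-(κ / 2)) := by
    have := Real.add_one_le_exp (-(κ / 2)); linarith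
  linarith

lemma sinh_half_ge (κ : ℝ) (hκ0 : 0 ≤ κ) : κ ≤ 2 * Real.sinh (κ / 2) := by
  have := Real.self_le_sinh_iff.2 (show 0 ≤ κ / 2 by linarith)
  linarith

lemma fk_le (κ v : ℝ) (hκ0 : 0 ≤ κ) (hκ : κ ≤ 1) : |fk κ v| ≤ 10 * Real.exp (v / 2) := by
  unfold fk
  rw [abs_mul, abs_of_pos (Real.exp_pos _)]
  have h1 := cnt_le κ v hκ
  have h2 := cnt_nonneg κ v
  have h3 := sinh_half_le κ hκ0 hκ
  have h4 := sinh_half_ge κ hκ0
  have h5 := Real.exp_pos v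
  have h6 : |cnt κ v - 2 * Real.sinh (κ / 2) * Real.exp v| ≤ 10 * Real.exp v := by
    rw [abs_le]
    constructor <;> nlinarith
  calc Real.exp (-v / 2) * |cnt κ v - 2 * Real.sinh (κ / 2) * Real.exp v| ≤
      Real.exp (-v / 2) * (10 * Real.exp v) := mul_le_mul_of_nonneg_left h6 (Real.exp_pos _).le
    _ = 10 * (Real.exp (-v / 2) * Real.exp v) := by ring
    _ = 10 * Real.exp (v / 2) := by rw [← Real.exp_add]; congr 2; ring

lemma cnt_meas : Measurable (fun p : ℝ × ℝ => cnt p.1 p.2) := by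
  have h1 : ∀ p : ℝ × ℝ, cnt p.1 p.2 = (∑' n : ℕ, ENNReal.ofReal
      (if |Real.log n - p.2| ≤ p.1 / 2 then ArithmeticFunction.vonMangoldt n else 0)).toReal := by
    intro p
    rw [ENNReal.tsum_toReal_eq (fun n => ENNReal.ofReal_ne_top)]
    unfold cnt
    apply tsum_congr
    intro n
    rw [ENNReal.toReal_ofReal (cnt_term_nonneg p.1 p.2 n)]
  simp_rw [h1]
  apply Measurable.ennreal_toReal
  apply Measurable.tsum
  intro n
  apply ENNReal.measurable_ofReal.comp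
  apply Measurable.ite _ measurable_const measurable_const
  apply measurableSet_le
  · fun_prop
  · fun_prop

lemma fk_meas2 : Measurable (fun p : ℝ × ℝ => fk p.1 p.2) := by
  unfold fk
  apply Measurable.mul
  · fun_prop
  · exact cnt_meas.sub (by fun_prop)

lemma fk_meas (κ : ℝ) : Measurable (fk κ) := fk_meas2.comp measurable_prodMk_left

/-- windows with Gaussian decay -/
structure Win (ω : ℝ → ℝ) (B : ℝ) : Prop where
  cont : Continuous ω
  bd : ∀ x, |ω x| ≤ B * Real.exp (-x ^ 2 / 4)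

lemma Win.nonneg {ω : ℝ → ℝ} {B : ℝ} (h : Win ω B) : 0 ≤ B := by
  have := (abs_nonneg _).trans (h.bd 0)
  simpa using this

/-- the windowed function -/
noncomputable def fw (κ : ℝ) (ω : ℝ → ℝ) (u v : ℝ) : ℝ := fk κ v * ω (u - v)

lemma fw_meas (κ : ℝ) {ω : ℝ → ℝ} {B : ℝ} (h : Win ω B) (u : ℝ) : Measurable (fw κ ω u) :=
  (fk_meas κ).mul (h.cont.measurable.comp (measurable_const.sub measurable_id))

lemma gauss_shift_int (b c u : ℝ) (hb : 0 < b) :
    Integrable (fun v : ℝ => Real.exp (c * v) * Real.exp (-b * (u - v) ^ 2)) := by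
  have h1 : Integrable (fun v : ℝ => Real.exp (-b * v ^ 2)) := integrable_exp_neg_mul_sq hb
  have h2 := (h1.comp_sub_right (u + c / (2 * b))).const_mul (Real.exp (c * u + c ^ 2 / (4 * b)))
  refine h2.congr (Eventually.of_forall fun v => ?_)
  simp only
  rw [← Real.exp_add, ← Real.exp_add]
  congr 1
  field_simp
  ring

lemma fw_bd (κ : ℝ) (hκ0 : 0 ≤ κ) (hκ : κ ≤ 1) {ω : ℝ → ℝ} {B : ℝ} (h : Win ω B) (u v : ℝ) :
    ‖fw κ ω u v‖ ≤ 10 * B * (Real.exp (1 / 2 * v) * Real.exp (-(1 / 4) * (u - v) ^ 2)) := by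
  unfold fw
  rw [norm_mul, Real.norm_eq_abs, Real.norm_eq_abs]
  have h1 := fk_le κ v hκ0 hκ
  have h2 := h.bd (u - v)
  calc |fk κ v| * |ω (u - v)| ≤ (10 * Real.exp (v / 2)) * (B * Real.exp (-(u - v) ^ 2 / 4)) :=
        mul_le_mul h1 h2 (abs_nonneg _) (by positivity)
    _ = 10 * B * (Real.exp (1 / 2 * v) * Real.exp (-(1 / 4) * (u - v) ^ 2)) := by
        rw [show (1 / 2 * v : ℝ) = v / 2 by ring, show -(1 / 4) * (u - v) ^ 2 = -(u - v) ^ 2 / 4 by ring]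
        ring

lemma fw_int (κ : ℝ) (hκ0 : 0 ≤ κ) (hκ : κ ≤ 1) {ω : ℝ → ℝ} {B : ℝ} (h : Win ω B) (u : ℝ) :
    Integrable (fw κ ω u) := by
  apply Integrable.mono' ((gauss_shift_int (1 / 4) (1 / 2) u (by norm_num)).const_mul (10 * B))
    (fw_meas κ h u).aestronglyMeasurable
  exact Eventually.of_forall (fw_bd κ hκ0 hκ h u)

lemma fw_sq_int (κ : ℝ) (hκ0 : 0 ≤ κ) (hκ : κ ≤ 1) {ω : ℝ → ℝ} {B : ℝ} (h : Win ω B) (u : ℝ) :
    Integrable (fun v => fw κ ω u v ^ 2) := by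
  apply Integrable.mono' ((gauss_shift_int (1 / 2) 1 u (by norm_num)).const_mul ((10 * B) ^ 2))
    ((fw_meas κ h u).pow_const 2).aestronglyMeasurable
  refine Eventually.of_forall fun v => ?_
  have h1 := fw_bd κ hκ0 hκ h u v
  rw [norm_pow]
  calc ‖fw κ ω u v‖ ^ 2 ≤ (10 * B * (Real.exp (1 / 2 * v) * Real.exp (-(1 / 4) * (u - v) ^ 2))) ^ 2 :=
        pow_le_pow_left₀ (norm_nonneg _) h1 2
    _ = (10 * B) ^ 2 * (Real.exp (1 * v) * Real.exp (-(1 / 2) * (u - v) ^ 2)) := by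
        rw [mul_pow, mul_pow (Real.exp _), ← Real.exp_nat_mul, ← Real.exp_nat_mul]
        congr 3 <;> (push_cast; ring)

/-- the windowed Fourier transform of the error term -/
noncomputable def SS (κ : ℝ) (ω : ℝ → ℝ) (u t : ℝ) : ℂ :=
  ∫ v : ℝ, (fw κ ω u v : ℂ) * cexp (I * t * (u - v))

lemma SS_fourier (κ : ℝ) (ω : ℝ → ℝ) (u t : ℝ) :
    SS κ ω u t = cexp (I * t * u) * 𝓕 (fun v => (fw κ ω u v : ℂ)) (t / (2 * Real.pi)) := by
  rw [Real.fourier_eq', ← integral_const_mul]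
  unfold SS
  apply integral_congr_ae
  refine Eventually.of_forall fun v => ?_
  simp only
  rw [smul_eq_mul]
  have e1 : ((-2 * Real.pi * inner ℝ v (t / (2 * Real.pi)) : ℝ) : ℂ) * I = -(I * t * v) := by
    have : inner ℝ v (t / (2 * Real.pi)) = t / (2 * Real.pi) * v := by simp [mul_comm]
    rw [this]
    push_cast
    have hpi : (Real.pi : ℂ) ≠ 0 := by exact_mod_cast Real.pi_ne_zero
    field_simp
  rw [e1, ← mul_assoc, ← Complex.exp_add]
  rw [mul_comm]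
  congr 2
  ring

lemma SS_norm (κ : ℝ) (ω : ℝ → ℝ) (u t : ℝ) :
    ‖SS κ ω u t‖ = ‖𝓕 (fun v => (fw κ ω u v : ℂ)) (t / (2 * Real.pi))‖ := by
  rw [SS_fourier, norm_mul, show I * t * u = ((t * u : ℝ) : ℂ) * I by push_cast; ring,
    Complex.norm_exp_ofReal_mul_I, one_mul]

lemma SS_neg (κ : ℝ) (ω : ℝ → ℝ) (u t : ℝ) : SS κ ω u (-t) = (starRingEnd ℂ) (SS κ ω u t) := by
  unfold SS
  rw [← integral_conj]
  apply integral_congr_ae
  refine Eventually.of_forall fun v => ?_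
  simp only
  rw [map_mul, Complex.conj_ofReal, ← Complex.exp_conj]
  congr 2
  simp only [map_mul, map_sub, conj_I, Complex.conj_ofReal]
  push_cast; ring

theorem SS_planch (κ : ℝ) (hκ0 : 0 ≤ κ) (hκ : κ ≤ 1) {ω : ℝ → ℝ} {B : ℝ} (h : Win ω B) (u : ℝ) :
    Integrable (fun t : ℝ => ‖SS κ ω u t‖ ^ 2) ∧
    ∫ t : ℝ, ‖SS κ ω u t‖ ^ 2 = 2 * Real.pi * ∫ v : ℝ, fw κ ω u v ^ 2 := by
  set G : ℝ → ℂ := fun v => (fw κ ω u v : ℂ) with hG
  have hGm : AEStronglyMeasurable G := (Complex.measurable_ofReal.comp (fw_meas κ h u)).aestronglyMeasurable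
  have h1 : Integrable G := (fw_int κ hκ0 hκ h u).ofReal
  have hsq := fw_sq_int κ hκ0 hκ h u
  have h2 : MemLp G 2 := by
    rw [memLp_two_iff_integrable_sq_norm hGm]
    refine hsq.congr (Eventually.of_forall fun v => ?_)
    simp only [hG]
    rw [Complex.norm_real, Real.norm_eq_abs, sq_abs]
  have hpl := Pool.Agent.TH794.QD.plancherel G h1 h2
  have hc : Continuous (𝓕 G) := by
    exact VectorFourier.fourierIntegral_continuous Real.continuous_fourierChar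
      (by exact continuous_inner) h1
  have hGi : ∫⁻ x, ‖G x‖ₑ ^ 2 = ENNReal.ofReal (∫ v : ℝ, fw κ ω u v ^ 2) := by
    rw [ofReal_integral_eq_lintegral_ofReal hsq (Eventually.of_forall fun v => sq_nonneg _)]
    apply lintegral_congr
    intro v
    rw [← ofReal_norm, ← ENNReal.ofReal_pow (norm_nonneg _)]
    simp only [hG]
    rw [Complex.norm_real, Real.norm_eq_abs, sq_abs]
  rw [hGi] at hpl
  have hFi : Integrable (fun ξ => ‖𝓕 G ξ‖ ^ 2) := by
    refine ⟨(hc.norm.pow 2).aestronglyMeasurable, ?_⟩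
    rw [hasFiniteIntegral_iff_enorm]
    have : ∫⁻ ξ, ‖‖𝓕 G ξ‖ ^ 2‖ₑ = ∫⁻ ξ, ‖𝓕 G ξ‖ₑ ^ 2 := by
      apply lintegral_congr
      intro ξ
      rw [enorm_pow, enorm_norm]
    rw [this, hpl]
    exact ENNReal.ofReal_lt_top
  have hFe : ∫ ξ, ‖𝓕 G ξ‖ ^ 2 = ∫ v : ℝ, fw κ ω u v ^ 2 := by
    rw [integral_eq_lintegral_of_nonneg_ae (Eventually.of_forall fun ξ => by positivity) hFi.1]
    have : ∫⁻ ξ, ENNReal.ofReal (‖𝓕 G ξ‖ ^ 2) = ∫⁻ ξ, ‖𝓕 G ξ‖ₑ ^ 2 := by
      apply lintegral_congr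
      intro ξ
      rw [← ofReal_norm, ← ENNReal.ofReal_pow (norm_nonneg _)]
    rw [this, hpl, ENNReal.toReal_ofReal (integral_nonneg fun v => sq_nonneg _)]
  have hpi : (2 * Real.pi) ≠ 0 := by positivity
  have hn : (fun t : ℝ => ‖SS κ ω u t‖ ^ 2) = fun t : ℝ => (fun ξ => ‖𝓕 G ξ‖ ^ 2) (t / (2 * Real.pi)) := by
    funext t
    rw [SS_norm]
  rw [hn]
  refine ⟨hFi.comp_div hpi, ?_⟩
  rw [Measure.integral_comp_div (fun ξ => ‖𝓕 G ξ‖ ^ 2) (2 * Real.pi), hFe, abs_of_pos (by positivity), smul_eq_mul]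

theorem SS_half (κ : ℝ) (hκ0 : 0 ≤ κ) (hκ : κ ≤ 1) {ω : ℝ → ℝ} {B : ℝ} (h : Win ω B) (u a b : ℝ)
    (ha : 0 ≤ a) (hab : a ≤ b) :
    ∫ t in a..b, ‖SS κ ω u t‖ ^ 2 ≤ Real.pi * ∫ v : ℝ, fw κ ω u v ^ 2 := by
  obtain ⟨h1, h2⟩ := SS_planch κ hκ0 hκ h u
  have h3 : ∀ t : ℝ, ‖SS κ ω u |t|‖ ^ 2 = ‖SS κ ω u t‖ ^ 2 := by
    intro t
    rcases abs_cases t with ⟨h4, -⟩ | ⟨h4, -⟩
    · rw [h4]
    · rw [h4, SS_neg]; simp
  have h4 := integral_comp_abs (f := fun t => ‖SS κ ω u t‖ ^ 2)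
  simp only [h3] at h4
  rw [h4] at h2
  rw [intervalIntegral.integral_of_le hab]
  have h5 : ∫ t in Ioc a b, ‖SS κ ω u t‖ ^ 2 ≤ ∫ t in Ioi 0, ‖SS κ ω u t‖ ^ 2 := by
    apply setIntegral_mono_set h1.integrableOn
    · exact Eventually.of_forall fun t => by positivity
    · have hsub : Ioc a b ⊆ Ioi 0 := fun t ht => lt_of_le_of_lt ha ht.1
      exact LE.le.eventuallyLE hsub
  refine h5.trans (le_of_eq ?_)
  linarith

end Pool.Agent.L5helper10.TV
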