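import Pool.Agent.L5helper10.TV.Rt

/-! From lower bounds in multiplicatively short intervals to lower bounds for the normalised variance. -/

set_option autoImplicit false

open Filter Topology Set MeasureTheory
open scoped ENNReal

namespace Pool.Agent.L5helper10.TV

lemma inv_sq_lint (a b c : ℝ) (ha : 0 < a) (hab : a ≤ b) (hc : 0 ≤ c) :
    ∫⁻ κ in Ioo a b, ENNReal.ofReal (c * (κ⁻¹) ^ 2) = ENNReal.ofReal (c * (1 / a - 1 / b)) := by
  have hcont : ContinuousOn (fun κ : ℝ => c * (κ⁻¹) ^ 2) (Icc a b) := by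
    apply ContinuousOn.mul continuousOn_const
    apply ContinuousOn.pow
    apply ContinuousOn.inv₀ continuousOn_id
    intro x hx
    exact (ha.trans_le hx.1).ne'
  have hint : IntervalIntegrable (fun κ : ℝ => c * (κ⁻¹) ^ 2) volume a b := by
    apply ContinuousOn.intervalIntegrable
    rwa [uIcc_of_le hab]
  have h1 : ∫ κ in a..b, c * (κ⁻¹) ^ 2 = c * (1 / a - 1 / b) := by
    have h := intervalIntegral.integral_eq_sub_of_hasDerivAt (f := fun κ : ℝ => -(c * κ⁻¹))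
      (f' := fun κ : ℝ => c * (κ⁻¹) ^ 2) (a := a) (b := b) ?_ hint
    · rw [h]; field_simp; ring
    · intro x hx
      rw [uIcc_of_le hab] at hx
      have hx0 : x ≠ 0 := (ha.trans_le hx.1).ne'
      refine (((hasDerivAt_inv hx0).const_mul c).neg).congr_deriv ?_
      field_simp
  rw [← h1, intervalIntegral.integral_of_le hab, ofReal_integral_eq_lintegral_ofReal]
  · exact (restrict_Ioo_eq_restrict_Ioc (μ := volume) (a := a) (b := b)) ▸ rfl
  · exact (intervalIntegrable_iff_integrableOn_Ioc_of_le hab).1 hint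
  · exact Eventually.of_forall fun x => by positivity

theorem master (T q Q ρ c ℓ B : ℝ) (w G : ℝ → ℝ) (hT : 1 < T) (hq : 1 < q) (hqQ : q ≤ Q) (hQT : Q / T ≤ 1 / 2)
    (hcosh : ∀ κ ∈ Ioo (q / T) (Q / T), Real.cosh (κ / 2) ≤ q) (hρ0 : 0 < ρ)
    (hρ : ∀ κ ∈ Ioo (q / T) (Q / T), 2 * Real.sinh (κ / 2) ≤ ρ * κ) (hGm : Measurable G) (hG0 : ∀ v, 0 ≤ G v)
    (hℓ : 1 ≤ ℓ) (hwm : Measurable w) (hw0 : ∀ α, 0 ≤ w α) (hwB : ∀ α, w α ≤ B) (hwℓ : ∀ α, ℓ < α → w α = 0)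
    (hGw : ∀ α, 1 < α → G (α * Real.log T) = Real.log T * w α) (hc : 0 ≤ c)
    (hl : ∀ κ ∈ Ioo (q / T) (Q / T), IntegrableOn (fun v => fk κ v ^ 2 * G (v + ss T κ)) (Ioi (La κ)) ∧
      c * κ * Real.log T ^ 3 ≤ ∫ v in Ioi (La κ), fk κ v ^ 2 * G (v + ss T κ)) :
    c * (ρ⁻¹ ^ 3) * (1 / q - 1 / Q) ≤ ∫ α in (1 : ℝ)..ℓ, w α * RT T α := by
  have hT0 : 0 < T := by linarith
  have hL : 0 < Real.log T := Real.log_pos hT
  have h1 := cv T q Q G hT.le hq hQT hcosh hGm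
  rw [rhs_alpha T hT G] at h1
  -- right-hand side
  have hwint : IntegrableOn (fun α => w α * RT T α) (Ioc 1 ℓ) := by
    refine Integrable.mono' (g := fun _ => B * (81 * (T ^ ℓ) ^ 2 / Real.log T)) (integrableOn_const (by simp)) ?_ ?_
    · exact (hwm.aestronglyMeasurable).mul (RT_meas T hT 1 ℓ zero_le_one)
    · refine ae_restrict_of_forall_mem measurableSet_Ioc fun α hα => ?_
      have hR := RT_nonneg T α hT (by linarith [hα.1])
      rw [Real.norm_of_nonneg (mul_nonneg (hw0 α) hR)]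
      exact mul_le_mul (hwB α) (RT_bd T α ℓ hT hα.1.le hα.2) hR ((hw0 α).trans (hwB α))
  have h2 : ∫⁻ α in Ioi (1 : ℝ), ENNReal.ofReal (G (α * Real.log T) * RT T α) =
      ENNReal.ofReal (Real.log T * ∫ α in (1 : ℝ)..ℓ, w α * RT T α) := by
    rw [intervalIntegral.integral_of_le hℓ, ← integral_const_mul,
      ofReal_integral_eq_lintegral_ofReal (hwint.const_mul _)
        (ae_restrict_of_forall_mem measurableSet_Ioc fun α hα =>
          mul_nonneg hL.le (mul_nonneg (hw0 α) (RT_nonneg T α hT (by linarith [hα.1]))))]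
    have hsub : Ioc (1 : ℝ) ℓ ⊆ Ioi 1 := Ioc_subset_Ioi_self
    rw [← lintegral_indicator measurableSet_Ioi, ← lintegral_indicator measurableSet_Ioc]
    congr 1
    funext α
    simp only [Set.indicator_apply, Set.mem_Ioi, Set.mem_Ioc]
    by_cases ha : 1 < α
    · by_cases hb : α ≤ ℓ
      · rw [if_pos ha, if_pos ⟨ha, hb⟩, hGw α ha, mul_assoc]
      · rw [if_pos ha, if_neg (fun h => hb h.2), hGw α ha, hwℓ α (not_le.1 hb)]
        simp
    · rw [if_neg ha, if_neg (fun h => ha h.1)]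
  have hI0 : 0 ≤ ∫ α in (1 : ℝ)..ℓ, w α * RT T α := by
    rw [intervalIntegral.integral_of_le hℓ]
    exact setIntegral_nonneg measurableSet_Ioc fun α hα =>
      mul_nonneg (hw0 α) (RT_nonneg T α hT (by linarith [hα.1]))
  rw [h2, ← ENNReal.ofReal_mul (by positivity)] at h1
  -- left-hand side
  have hqT : 0 < q / T := by positivity
  have h3 : ENNReal.ofReal (c * ρ⁻¹ ^ 3 * Real.log T ^ 3 * (1 / (q / T) - 1 / (Q / T))) ≤
      ∫⁻ κ in Ioo (q / T) (Q / T), ENNReal.ofReal ((2 * Real.sinh (κ / 2))⁻¹ ^ 3) *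
      ∫⁻ v in Ioi (La κ), ENNReal.ofReal (fk κ v ^ 2 * G (v + ss T κ)) := by
    rw [← inv_sq_lint (q / T) (Q / T) _ hqT (div_le_div_of_nonneg_right hqQ hT0.le) (by positivity)]
    apply setLIntegral_mono' measurableSet_Ioo
    intro κ hκ
    have hκ0 : 0 < κ := hqT.trans hκ.1
    have hs : 0 < Real.sinh (κ / 2) := Real.sinh_pos_iff.2 (by linarith)
    obtain ⟨k1, k2⟩ := hl κ hκ
    rw [← ofReal_integral_eq_lintegral_ofReal k1 (Eventually.of_forall fun v => mul_nonneg (sq_nonneg _) (hG0 _)),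
      ← ENNReal.ofReal_mul (by positivity)]
    apply ENNReal.ofReal_le_ofReal
    have k3 : (ρ * κ)⁻¹ ≤ (2 * Real.sinh (κ / 2))⁻¹ := inv_anti₀ (by positivity) (hρ κ hκ)
    have k4 : (ρ * κ)⁻¹ ^ 3 ≤ (2 * Real.sinh (κ / 2))⁻¹ ^ 3 := pow_le_pow_left₀ (by positivity) k3 3
    calc c * ρ⁻¹ ^ 3 * Real.log T ^ 3 * κ⁻¹ ^ 2 = (ρ * κ)⁻¹ ^ 3 * (c * κ * Real.log T ^ 3) := by
          rw [mul_inv, mul_pow]; field_simp
      _ ≤ (2 * Real.sinh (κ / 2))⁻¹ ^ 3 * (c * κ * Real.log T ^ 3) :=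
          mul_le_mul_of_nonneg_right k4 (by positivity)
      _ ≤ _ := mul_le_mul_of_nonneg_left k2 (by positivity)
  have h4 := h3.trans h1
  rw [ENNReal.ofReal_le_ofReal_iff (by positivity)] at h4
  have h5 : c * ρ⁻¹ ^ 3 * Real.log T ^ 3 * (1 / (q / T) - 1 / (Q / T)) =
      (T * Real.log T ^ 3) * (c * ρ⁻¹ ^ 3 * (1 / q - 1 / Q)) := by
    have hQ0 : 0 < Q := by linarith
    field_simp
  have h6 : T * Real.log T ^ 2 * (Real.log T * ∫ α in (1 : ℝ)..ℓ, w α * RT T α) =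
      (T * Real.log T ^ 3) * ∫ α in (1 : ℝ)..ℓ, w α * RT T α := by ring
  rw [h5, h6] at h4
  exact le_of_mul_le_mul_left h4 (by positivity)

end Pool.Agent.L5helper10.TV
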