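import Pool.Agent.L5helper10.TV.Fk

/-! Primes in short intervals: the relation with multiplicatively short intervals. -/

set_option autoImplicit false

open Complex Filter Topology Set MeasureTheory
open scoped ENNReal

namespace Pool.Agent.L5helper10.TV

/-- the weighted number of prime powers in the interval of length `H` centred at `x` -/
noncomputable def psiH (x H : ℝ) : ℝ :=
  ∑ᶠ n ∈ {n : ℕ | 1 ≤ n ∧ x - H / 2 ≤ n ∧ (n : ℝ) ≤ x + H / 2}, ArithmeticFunction.vonMangoldt n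

lemma psiH_eq (x H : ℝ) : psiH x H = ∑ n ∈ Finset.Ioc 0 ⌊x + H / 2⌋₊,
    if x - H / 2 ≤ n ∧ (n : ℝ) ≤ x + H / 2 then ArithmeticFunction.vonMangoldt n else 0 := by
  unfold psiH
  have hset : {n : ℕ | 1 ≤ n ∧ x - H / 2 ≤ n ∧ (n : ℝ) ≤ x + H / 2} =
      ((Finset.Ioc 0 ⌊x + H / 2⌋₊).filter (fun n : ℕ => x - H / 2 ≤ n ∧ (n : ℝ) ≤ x + H / 2) : Finset ℕ) := by
    ext n
    simp only [Set.mem_ofPred_eq, Finset.coe_filter, Finset.mem_Ioc]
    constructor
    · rintro ⟨h1, h2, h3⟩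
      exact ⟨⟨h1, Nat.le_floor h3⟩, h2, h3⟩
    · rintro ⟨⟨h1, h2⟩, h3, h4⟩
      exact ⟨h1, h3, h4⟩
  rw [hset, finsum_mem_coe_finset, Finset.sum_filter]

lemma psiH_tsum (x H : ℝ) : psiH x H = ∑' n : ℕ,
    if 1 ≤ n ∧ x - H / 2 ≤ n ∧ (n : ℝ) ≤ x + H / 2 then ArithmeticFunction.vonMangoldt n else 0 := by
  rw [psiH_eq, tsum_eq_sum (s := Finset.Ioc 0 ⌊x + H / 2⌋₊)]
  · apply Finset.sum_congr rfl
    intro n hn
    rw [Finset.mem_Ioc] at hn
    have : 1 ≤ n := hn.1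
    simp only [this, true_and]
  · intro n hn
    rw [if_neg]
    rintro ⟨h1, h2, h3⟩
    exact hn (Finset.mem_Ioc.2 ⟨h1, Nat.le_floor h3⟩)

lemma psiH_nonneg (x H : ℝ) : 0 ≤ psiH x H := by
  rw [psiH_eq]
  apply Finset.sum_nonneg
  intro n _
  split_ifs
  · exact ArithmeticFunction.vonMangoldt_nonneg
  · exact le_rfl

lemma psiH_le (x H : ℝ) (h : 0 ≤ x + H / 2) : psiH x H ≤ 6 * (x + H / 2) := by
  rw [psiH_eq]
  have h1 : ∑ n ∈ Finset.Ioc 0 ⌊x + H / 2⌋₊,
      (if x - H / 2 ≤ n ∧ (n : ℝ) ≤ x + H / 2 then ArithmeticFunction.vonMangoldt n else 0) ≤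
      Chebyshev.psi (x + H / 2) := by
    unfold Chebyshev.psi
    apply Finset.sum_le_sum
    intro n _
    split_ifs
    · exact le_rfl
    · exact ArithmeticFunction.vonMangoldt_nonneg
  refine h1.trans ((Chebyshev.psi_le_const_mul_self h).trans ?_)
  have h5 : Real.log 4 ≤ 14 / 10 := by
    rw [show (4 : ℝ) = 2 ^ 2 by norm_num, Real.log_pow]
    have := Real.log_two_lt_d9
    push_cast; linarith
  nlinarith

lemma psiH_meas : Measurable (fun p : ℝ × ℝ => psiH p.1 p.2) := by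
  have h0 : ∀ (p : ℝ × ℝ) (n : ℕ), 0 ≤
      if 1 ≤ n ∧ p.1 - p.2 / 2 ≤ n ∧ (n : ℝ) ≤ p.1 + p.2 / 2 then ArithmeticFunction.vonMangoldt n else 0 := by
    intro p n
    split_ifs
    · exact ArithmeticFunction.vonMangoldt_nonneg
    · exact le_rfl
  have h1 : ∀ p : ℝ × ℝ, psiH p.1 p.2 = (∑' n : ℕ, ENNReal.ofReal
      (if 1 ≤ n ∧ p.1 - p.2 / 2 ≤ n ∧ (n : ℝ) ≤ p.1 + p.2 / 2 then ArithmeticFunction.vonMangoldt n else 0)).toReal := by
    intro p
    rw [ENNReal.tsum_toReal_eq (fun n => ENNReal.ofReal_ne_top), psiH_tsum]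
    apply tsum_congr
    intro n
    rw [ENNReal.toReal_ofReal (h0 p n)]
  simp_rw [h1]
  apply Measurable.ennreal_toReal
  apply Measurable.tsum
  intro n
  apply ENNReal.measurable_ofReal.comp
  apply Measurable.ite _ measurable_const measurable_const
  have e : {a : ℝ × ℝ | 1 ≤ n ∧ a.1 - a.2 / 2 ≤ n ∧ (n : ℝ) ≤ a.1 + a.2 / 2} =
      {_a : ℝ × ℝ | 1 ≤ n} ∩ ({a : ℝ × ℝ | a.1 - a.2 / 2 ≤ n} ∩ {a : ℝ × ℝ | (n : ℝ) ≤ a.1 + a.2 / 2}) := by
    ext a; simp only [Set.mem_ofPred_eq, Set.mem_inter_iff]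
  rw [e]
  apply MeasurableSet.inter (MeasurableSet.const _)
  apply MeasurableSet.inter
  · exact measurableSet_le (by fun_prop) measurable_const
  · exact measurableSet_le measurable_const (by fun_prop)

/-- the counting function in the two coordinates -/
lemma cnt_psiH (κ v : ℝ) : cnt κ v = psiH (Real.exp v * Real.cosh (κ / 2)) (2 * (Real.exp v * Real.sinh (κ / 2))) := by
  rw [psiH_tsum]
  unfold cnt
  apply tsum_congr
  intro n
  have e1 : Real.exp v * Real.cosh (κ / 2) - 2 * (Real.exp v * Real.sinh (κ / 2)) / 2 = Real.exp (v - κ / 2) := by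
    rw [sub_eq_add_neg v, Real.exp_add, Real.cosh_eq, Real.sinh_eq]; ring
  have e2 : Real.exp v * Real.cosh (κ / 2) + 2 * (Real.exp v * Real.sinh (κ / 2)) / 2 = Real.exp (v + κ / 2) := by
    rw [Real.exp_add, Real.cosh_eq, Real.sinh_eq]; ring
  rw [e1, e2]
  rcases Nat.eq_zero_or_pos n with h | h
  · rw [h]; simp
  have hn : (0 : ℝ) < n := by exact_mod_cast h
  have h1 : 1 ≤ n := h
  congr 1
  rw [abs_le]
  simp only [h1, true_and, eq_iff_iff]
  constructor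
  · rintro ⟨a1, a2⟩
    constructor
    · rw [← Real.exp_log hn]; exact Real.exp_le_exp.2 (by linarith)
    · rw [← Real.exp_log hn]; exact Real.exp_le_exp.2 (by linarith)
  · rintro ⟨a1, a2⟩
    have b1 := (Real.le_log_iff_exp_le hn).2 a1
    have b2 := (Real.log_le_iff_le_exp hn).2 a2
    constructor <;> linarith

/-- the square of the normalised error term in the coordinates of the problem -/
lemma fk_sq_psiH (κ v x H : ℝ) (hx : x = Real.exp v * Real.cosh (κ / 2)) (hH : H = 2 * (Real.exp v * Real.sinh (κ / 2))) :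
    fk κ v ^ 2 = Real.exp (-v) * (psiH x H - H) ^ 2 := by
  unfold fk
  rw [cnt_psiH, ← hx, ← hH, mul_pow, ← Real.exp_nat_mul]
  have e1 : ((2 : ℕ) : ℝ) * (-v / 2) = -v := by push_cast; ring
  rw [e1]
  congr 2
  rw [hH]; ring

end Pool.Agent.L5helper10.TV
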