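import Pool.Agent.L5helper10.TV.Fk
import Pool.Agent.L5helper10.TV.EFz

/-! The second difference of the prime sum in terms of the error term in short intervals. -/

set_option autoImplicit false

open Complex Filter Topology Set MeasureTheory H370

namespace Pool.Agent.L5helper10.TV

/-- the kernel -/
noncomputable def mm (t x : ℝ) : ℂ :=
  cexp (I * t * x) * ((1 / 2 + I * t - x) * (Real.exp (-x ^ 2 / 2) : ℂ))

/-- the kernel of the second difference -/
noncomputable def MM (κ u t v : ℝ) : ℂ :=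
  (Real.exp (κ / 4) : ℂ) * mm t (u - v - κ / 2) - (Real.exp (-κ / 4) : ℂ) * mm t (u - v + κ / 2)

/-- the second difference of the prime sum -/
noncomputable def QP (κ u t : ℝ) : ℂ :=
  2 * (Real.cosh (κ / 2) : ℂ) * PP lamc u t - PP lamc (u + κ) t - PP lamc (u - κ) t

lemma abs_mul_exp_le (x : ℝ) : |x| * Real.exp (-x ^ 2 / 2) ≤ Real.exp (-x ^ 2 / 4) := by
  have h1 : |x| ≤ Real.exp (x ^ 2 / 4) := by
    have h2 := Real.add_one_le_exp (x ^ 2 / 4)
    have h3 : |x| ≤ x ^ 2 / 4 + 1 := by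
      rw [← sq_abs x]
      nlinarith [sq_nonneg (|x| / 2 - 1)]
    linarith
  calc |x| * Real.exp (-x ^ 2 / 2) ≤ Real.exp (x ^ 2 / 4) * Real.exp (-x ^ 2 / 2) :=
        mul_le_mul_of_nonneg_right h1 (Real.exp_pos _).le
    _ = Real.exp (-x ^ 2 / 4) := by rw [← Real.exp_add]; congr 1; ring

lemma mm_norm (t x : ℝ) : ‖mm t x‖ ≤ (3 / 2 + |t|) * Real.exp (-x ^ 2 / 4) := by
  unfold mm
  rw [norm_mul, norm_mul, Complex.norm_real, Real.norm_of_nonneg (Real.exp_pos _).le,
    show I * t * x = ((t * x : ℝ) : ℂ) * I by push_cast; ring, Complex.norm_exp_ofReal_mul_I, one_mul]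
  have h1 : ‖(1 / 2 + I * t - x : ℂ)‖ ≤ 1 / 2 + |t| + |x| := by
    calc ‖(1 / 2 + I * t - x : ℂ)‖ ≤ ‖(1 / 2 : ℂ)‖ + ‖I * (t : ℂ)‖ + ‖(x : ℂ)‖ :=
          (norm_sub_le _ _).trans (add_le_add_left (norm_add_le _ _) _)
      _ = 1 / 2 + |t| + |x| := by
          rw [norm_mul, Complex.norm_I, one_mul, Complex.norm_real, Complex.norm_real, Real.norm_eq_abs,
            Real.norm_eq_abs]
          norm_num
  have h2 : Real.exp (-x ^ 2 / 2) ≤ Real.exp (-x ^ 2 / 4) := Real.exp_le_exp.2 (by nlinarith [sq_nonneg x])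
  have h3 := abs_mul_exp_le x
  calc ‖(1 / 2 + I * t - x : ℂ)‖ * Real.exp (-x ^ 2 / 2) ≤ (1 / 2 + |t| + |x|) * Real.exp (-x ^ 2 / 2) :=
        mul_le_mul_of_nonneg_right h1 (Real.exp_pos _).le
    _ = (1 / 2 + |t|) * Real.exp (-x ^ 2 / 2) + |x| * Real.exp (-x ^ 2 / 2) := by ring
    _ ≤ (1 / 2 + |t|) * Real.exp (-x ^ 2 / 4) + Real.exp (-x ^ 2 / 4) := by gcongr
    _ = _ := by ring

lemma mm_cont (t : ℝ) : Continuous (mm t) := by
  unfold mm; fun_prop

lemma MM_cont (κ u t : ℝ) : Continuous (MM κ u t) := by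
  unfold MM mm; fun_prop

noncomputable def KK (u t v : ℝ) : ℂ := (Real.exp (v / 2) : ℂ) * mm t (u - v)

lemma KK_int (u t : ℝ) : Integrable (KK u t) := by
  have hc : Continuous (KK u t) := by unfold KK mm; fun_prop
  apply Integrable.mono' ((gauss_shift_int (1 / 4) (1 / 2) u (by norm_num)).const_mul (3 / 2 + |t|))
    hc.aestronglyMeasurable
  refine Eventually.of_forall fun v => ?_
  unfold KK
  rw [norm_mul, Complex.norm_real, Real.norm_of_nonneg (Real.exp_pos _).le]
  calc Real.exp (v / 2) * ‖mm t (u - v)‖ ≤ Real.exp (v / 2) * ((3 / 2 + |t|) * Real.exp (-(u - v) ^ 2 / 4)) :=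
        mul_le_mul_of_nonneg_left (mm_norm t _) (Real.exp_pos _).le
    _ = (3 / 2 + |t|) * (Real.exp (1 / 2 * v) * Real.exp (-(1 / 4) * (u - v) ^ 2)) := by
        rw [show (1 / 2 * v : ℝ) = v / 2 by ring, show -(1 / 4) * (u - v) ^ 2 = -(u - v) ^ 2 / 4 by ring]
        ring

lemma exp_MM (κ u t v : ℝ) : (Real.exp (v / 2) : ℂ) * MM κ u t v = KK u t (v + κ / 2) - KK u t (v - κ / 2) := by
  unfold MM KK
  rw [mul_sub, ← mul_assoc, ← mul_assoc, ← ofReal_mul, ← ofReal_mul, ← Real.exp_add, ← Real.exp_add]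
  congr 3
  · congr 2; ring
  · ring
  · congr 2; ring
  · ring

lemma MM_zero (κ u t : ℝ) : ∫ v : ℝ, (Real.exp (v / 2) : ℂ) * MM κ u t v = 0 := by
  simp_rw [exp_MM]
  rw [integral_sub ((KK_int u t).comp_add_right _) ((KK_int u t).comp_sub_right _),
    integral_add_right_eq_self, integral_sub_right_eq_self, sub_self]

lemma eMM_int (κ u t : ℝ) : Integrable (fun v : ℝ => (Real.exp (v / 2) : ℂ) * MM κ u t v) := by
  simp_rw [exp_MM]
  exact ((KK_int u t).comp_add_right _).sub ((KK_int u t).comp_sub_right _)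

lemma cMM_int (κ u t : ℝ) (hκ : κ ≤ 1) : Integrable (fun v : ℝ => (cnt κ v : ℂ) * ((Real.exp (-v / 2) : ℂ) * MM κ u t v)) := by
  have h := (eMM_int κ u t).bdd_mul (c := 10) (f := fun v => ((Real.exp (-v) * cnt κ v : ℝ) : ℂ))
    (Complex.measurable_ofReal.comp ((by fun_prop : Measurable fun v : ℝ => Real.exp (-v)).mul
      (cnt_meas.comp measurable_prodMk_left))).aestronglyMeasurable
    (Eventually.of_forall fun v => by
      rw [Complex.norm_real, Real.norm_of_nonneg (mul_nonneg (Real.exp_pos _).le (cnt_nonneg _ _))]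
      have := cnt_le κ v hκ
      calc Real.exp (-v) * cnt κ v ≤ Real.exp (-v) * (10 * Real.exp v) :=
            mul_le_mul_of_nonneg_left this (Real.exp_pos _).le
        _ = 10 * (Real.exp (-v) * Real.exp v) := by ring
        _ = 10 := by rw [← Real.exp_add]; simp)
  refine h.congr (Eventually.of_forall fun v => ?_)
  simp only
  rw [ofReal_mul, show (Real.exp (-v / 2) : ℂ) = (Real.exp (-v) : ℂ) * (Real.exp (v / 2) : ℂ) by
    rw [← ofReal_mul, ← Real.exp_add]; congr 2; ring]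
  ring

/-- the primitive -/
noncomputable def hx (u t y : ℝ) : ℂ := cexp (-(y : ℂ) / 2 + I * t * (u - y) - (u - y) ^ 2 / 2)

lemma hx_deriv (u t y : ℝ) : HasDerivAt (hx u t) (-((Real.exp (-y / 2) : ℂ) * mm t (u - y))) y := by
  have h1 : HasDerivAt (fun y : ℝ => -(y : ℂ) / 2 + I * t * (u - y) - (u - y) ^ 2 / 2)
      (-(1 : ℂ) / 2 + I * t * (0 - 1) - (2 * (u - y) ^ (2 - 1) * (0 - 1)) / 2) y := by
    have hy : HasDerivAt (fun y : ℝ => (y : ℂ)) 1 y := Complex.ofRealCLM.hasDerivAt (x := y)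
    have huy : HasDerivAt (fun y : ℝ => (u : ℂ) - y) (0 - 1) y := (hasDerivAt_const y (u : ℂ)).sub hy
    have h2 : HasDerivAt (fun y : ℝ => ((u : ℂ) - y) ^ 2) (2 * (u - y) ^ (2 - 1) * (0 - 1)) y := by
      exact (huy.pow 2).congr_deriv (by push_cast; ring)
    exact ((hy.neg.div_const 2).add (huy.const_mul (I * t))).sub (h2.div_const 2)
  have h3 := h1.cexp
  unfold hx
  refine h3.congr_deriv ?_
  unfold mm
  rw [ofReal_exp, ofReal_exp]
  rw [show -(cexp ((-y / 2 : ℝ) : ℂ) * (cexp (I * t * ((u - y : ℝ) : ℂ)) * ((1 / 2 + I * t - ((u - y : ℝ) : ℂ)) *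
    cexp ((-(u - y) ^ 2 / 2 : ℝ) : ℂ)))) = (cexp ((-y / 2 : ℝ) : ℂ) * cexp (I * t * ((u - y : ℝ) : ℂ)) *
      cexp ((-(u - y) ^ 2 / 2 : ℝ) : ℂ)) * (-(1 / 2) - I * t + (u - y)) by push_cast; ring,
    ← Complex.exp_add, ← Complex.exp_add]
  congr 1
  · congr 1; push_cast; ring
  · ring

noncomputable def HH (κ u t v : ℝ) : ℂ :=
  -((Real.exp (κ / 2) : ℂ) * hx u t (v + κ / 2)) + (Real.exp (-κ / 2) : ℂ) * hx u t (v - κ / 2)

lemma HH_deriv (κ u t v : ℝ) : HasDerivAt (HH κ u t) ((Real.exp (-v / 2) : ℂ) * MM κ u t v) v := by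
  have h1 := ((hx_deriv u t (v + κ / 2)).comp_add_const v (κ / 2)).const_mul (Real.exp (κ / 2) : ℂ)
  have h2 := ((hx_deriv u t (v - κ / 2)).comp_sub_const v (κ / 2)).const_mul (Real.exp (-κ / 2) : ℂ)
  have h3 := h1.neg.add h2
  unfold HH
  refine h3.congr_deriv ?_
  unfold MM
  have e1 : (Real.exp (κ / 2) : ℂ) * (Real.exp (-(v + κ / 2) / 2) : ℂ) =
      (Real.exp (-v / 2) : ℂ) * (Real.exp (κ / 4) : ℂ) := by
    rw [← ofReal_mul, ← ofReal_mul, ← Real.exp_add, ← Real.exp_add]; congr 2; ring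
  have e2 : (Real.exp (-κ / 2) : ℂ) * (Real.exp (-(v - κ / 2) / 2) : ℂ) =
      (Real.exp (-v / 2) : ℂ) * (Real.exp (-κ / 4) : ℂ) := by
    rw [← ofReal_mul, ← ofReal_mul, ← Real.exp_add, ← Real.exp_add]; congr 2; ring
  have e3 : u - (v + κ / 2) = u - v - κ / 2 := by ring
  have e4 : u - (v - κ / 2) = u - v + κ / 2 := by ring
  rw [e3, e4]
  linear_combination (mm t (u - v - κ / 2)) * e1 - (mm t (u - v + κ / 2)) * e2

noncomputable def gg (u t y : ℝ) : ℂ := cexp (I * t * (u - y)) * (Real.exp (-(u - y) ^ 2 / 2) : ℂ)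

lemma hx_gg (u t y : ℝ) : hx u t y = (Real.exp (-y / 2) : ℂ) * gg u t y := by
  unfold hx gg
  rw [ofReal_exp, ofReal_exp, ← Complex.exp_add, ← Complex.exp_add]
  congr 1
  push_cast; ring

lemma HH_diff (κ u t a : ℝ) : ∫ v in (a - κ / 2)..(a + κ / 2), (Real.exp (-v / 2) : ℂ) * MM κ u t v =
    (Real.exp (-a / 2) : ℂ) * (2 * (Real.cosh (κ / 2) : ℂ) * gg u t a - gg (u + κ) t a - gg (u - κ) t a) := by
  rw [intervalIntegral.integral_eq_sub_of_hasDerivAt (fun v _ => HH_deriv κ u t v)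
    ((by
      have := MM_cont κ u t
      fun_prop : Continuous fun v : ℝ => (Real.exp (-v / 2) : ℂ) * MM κ u t v).intervalIntegrable _ _)]
  unfold HH
  rw [hx_gg, hx_gg, hx_gg, hx_gg]
  have g1 : gg u t (a + κ / 2 + κ / 2) = gg (u - κ) t a := by
    unfold gg
    rw [show (u : ℂ) - ((a + κ / 2 + κ / 2 : ℝ) : ℂ) = ((u - κ : ℝ) : ℂ) - a by push_cast; ring,
      show u - (a + κ / 2 + κ / 2) = u - κ - a by ring]
  have g2 : gg u t (a - κ / 2 - κ / 2) = gg (u + κ) t a := by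
    unfold gg
    rw [show (u : ℂ) - ((a - κ / 2 - κ / 2 : ℝ) : ℂ) = ((u + κ : ℝ) : ℂ) - a by push_cast; ring,
      show u - (a - κ / 2 - κ / 2) = u + κ - a by ring]
  have g3 : a + κ / 2 - κ / 2 = a := by ring
  have g4 : a - κ / 2 + κ / 2 = a := by ring
  rw [g1, g2, g3, g4]
  have e1 : (Real.exp (κ / 2) : ℂ) * (Real.exp (-(a + κ / 2 + κ / 2) / 2) : ℂ) = (Real.exp (-a / 2) : ℂ) := by
    rw [← ofReal_mul, ← Real.exp_add]; congr 2; ring
  have e2 : (Real.exp (-κ / 2) : ℂ) * (Real.exp (-(a - κ / 2 - κ / 2) / 2) : ℂ) = (Real.exp (-a / 2) : ℂ) := by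
    rw [← ofReal_mul, ← Real.exp_add]; congr 2; ring
  have e3 : 2 * (Real.cosh (κ / 2) : ℂ) = (Real.exp (κ / 2) : ℂ) + (Real.exp (-κ / 2) : ℂ) := by
    rw [Real.cosh_eq, show -κ / 2 = -(κ / 2) by ring]; push_cast; ring
  rw [e3]
  linear_combination (-(gg (u - κ) t a)) * e1 - (gg (u + κ) t a) * e2

lemma MM_bd (κ u t : ℝ) (hκ0 : 0 ≤ κ) (hκ : κ ≤ 1) : ∃ C : ℝ, 0 ≤ C ∧ ∀ v : ℝ,
    ‖MM κ u t v‖ ≤ C * Real.exp (-(5 / 2) * v) := by
  have h1 : ∀ x : ℝ, ‖mm t x‖ ≤ (3 / 2 + |t|) * Real.exp (5 / 2 * x + 25 / 4) := by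
    intro x
    refine (mm_norm t x).trans ?_
    apply mul_le_mul_of_nonneg_left _ (by positivity)
    apply Real.exp_le_exp.2
    nlinarith [sq_nonneg (x / 2 + 5 / 2)]
  refine ⟨(2 + 2) * ((3 / 2 + |t|) * Real.exp (5 / 2 * (u + 1) + 25 / 4)), by positivity, fun v => ?_⟩
  unfold MM
  have h2 : ∀ s : ℝ, |s| ≤ 1 → ‖mm t (u - v + s)‖ ≤ (3 / 2 + |t|) * Real.exp (5 / 2 * (u + 1) + 25 / 4) *
      Real.exp (-(5 / 2) * v) := by
    intro s hs
    refine (h1 _).trans ?_
    rw [mul_assoc, ← Real.exp_add]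
    apply mul_le_mul_of_nonneg_left _ (by positivity)
    apply Real.exp_le_exp.2
    have := (abs_le.1 hs).2
    linarith
  have h3 := h2 (-(κ / 2)) (by rw [abs_neg, abs_of_nonneg (by linarith)]; linarith)
  have h4 := h2 (κ / 2) (by rw [abs_of_nonneg (by linarith)]; linarith)
  have e1 : Real.exp (κ / 4) ≤ 2 := le_trans (Real.exp_le_exp.2 (by linarith)) exp_half_le
  have e2 : Real.exp (-κ / 4) ≤ 2 := le_trans (Real.exp_le_exp.2 (by linarith)) exp_half_le
  rw [show u - v - κ / 2 = u - v + -(κ / 2) by ring]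
  calc ‖_‖ ≤ ‖(Real.exp (κ / 4) : ℂ) * mm t (u - v + -(κ / 2))‖ + ‖(Real.exp (-κ / 4) : ℂ) * mm t (u - v + κ / 2)‖ :=
        norm_sub_le _ _
    _ ≤ 2 * ((3 / 2 + |t|) * Real.exp (5 / 2 * (u + 1) + 25 / 4) * Real.exp (-(5 / 2) * v)) +
        2 * ((3 / 2 + |t|) * Real.exp (5 / 2 * (u + 1) + 25 / 4) * Real.exp (-(5 / 2) * v)) := by
        rw [norm_mul, norm_mul, Complex.norm_real, Complex.norm_real, Real.norm_of_nonneg (Real.exp_pos _).le,
          Real.norm_of_nonneg (Real.exp_pos _).le]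
        gcongr
    _ = _ := by ring

lemma PP_gg (u t : ℝ) : PP lamc u t = ∑' n : ℕ, lamc n * ((Real.sqrt n : ℂ)⁻¹ * gg u t (Real.log n)) := by
  unfold PP gg
  apply tsum_congr
  intro n
  ring

lemma PP_summable (u t : ℝ) : Summable (fun n : ℕ => lamc n * ((Real.sqrt n : ℂ)⁻¹ * gg u t (Real.log n))) := by
  refine (pterm_summable (a := lamc) lamc_norm u t).congr fun n => ?_
  unfold pterm gg
  ring

lemma sqrt_exp (n : ℕ) (hn : 0 < n) : ((Real.sqrt n : ℂ))⁻¹ = (Real.exp (-Real.log n / 2) : ℂ) := by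
  rw [← ofReal_inv]
  congr 1
  have h : (0 : ℝ) < n := by exact_mod_cast hn
  rw [show -Real.log n / 2 = -(Real.log n * (1 / 2)) by ring, Real.exp_neg, Real.sqrt_eq_rpow,
    Real.rpow_def_of_pos h]

lemma QP_tsum (κ u t : ℝ) : QP κ u t = ∑' n : ℕ, lamc n *
    ∫ v in (Real.log n - κ / 2)..(Real.log n + κ / 2), (Real.exp (-v / 2) : ℂ) * MM κ u t v := by
  unfold QP
  rw [PP_gg, PP_gg, PP_gg, ← tsum_mul_left, ← ((PP_summable u t).mul_left _).tsum_sub (PP_summable (u + κ) t),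
    ← (((PP_summable u t).mul_left _).sub (PP_summable (u + κ) t)).tsum_sub (PP_summable (u - κ) t)]
  apply tsum_congr
  intro n
  rw [HH_diff]
  rcases Nat.eq_zero_or_pos n with h | h
  · rw [h]; simp [lamc]
  · rw [sqrt_exp n h]
    ring

lemma QP_eq1 (κ u t : ℝ) (hκ0 : 0 < κ) (hκ : κ ≤ 1) :
    QP κ u t = ∫ v : ℝ, (cnt κ v : ℂ) * ((Real.exp (-v / 2) : ℂ) * MM κ u t v) := by
  set K : ℝ → ℂ := fun v => (Real.exp (-v / 2) : ℂ) * MM κ u t v with hK
  have hKc : Continuous K := by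
    have := MM_cont κ u t
    simp only [hK]
    fun_prop
  obtain ⟨C, hC, hb⟩ := MM_bd κ u t hκ0.le hκ
  have hKb : ∀ v, ‖K v‖ ≤ C * Real.exp (-3 * v) := by
    intro v
    simp only [hK]
    rw [norm_mul, Complex.norm_real, Real.norm_of_nonneg (Real.exp_pos _).le]
    calc Real.exp (-v / 2) * ‖MM κ u t v‖ ≤ Real.exp (-v / 2) * (C * Real.exp (-(5 / 2) * v)) :=
          mul_le_mul_of_nonneg_left (hb v) (Real.exp_pos _).le
      _ = C * (Real.exp (-v / 2) * Real.exp (-(5 / 2) * v)) := by ring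
      _ = C * Real.exp (-3 * v) := by rw [← Real.exp_add]; congr 2; ring
  set I0 : ℕ → Set ℝ := fun n => Icc (Real.log n - κ / 2) (Real.log n + κ / 2) with hI0
  have hmemI : ∀ (n : ℕ) (v : ℝ), v ∈ I0 n ↔ |Real.log n - v| ≤ κ / 2 := by
    intro n v
    simp only [hI0, Set.mem_Icc]
    rw [abs_le]
    constructor
    · rintro ⟨h1, h2⟩; constructor <;> linarith
    · rintro ⟨h1, h2⟩; constructor <;> linarith
  set T : ℕ → ℝ → ℂ := fun n => (I0 n).indicator (fun v => lamc n * K v) with hT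
  have hTint : ∀ n, Integrable (T n) := by
    intro n
    rw [hT]
    simp only
    rw [integrable_indicator_iff measurableSet_Icc]
    exact (continuous_const.mul hKc).continuousOn.integrableOn_Icc
  have hTval : ∀ n, ∫ v, T n v = lamc n * ∫ v in (Real.log n - κ / 2)..(Real.log n + κ / 2), K v := by
    intro n
    rw [hT]
    simp only
    rw [integral_indicator measurableSet_Icc, integral_Icc_eq_integral_Ioc,
      ← intervalIntegral.integral_of_le (by linarith), intervalIntegral.integral_const_mul]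
  have hTsum : Summable (fun n => ∫ v, ‖T n v‖) := by
    have hb2 : ∀ n : ℕ, ∫ v, ‖T n v‖ ≤ (C * 8) * (1 / (n : ℝ) ^ 2) := by
      intro n
      rcases Nat.eq_zero_or_pos n with h | h
      · rw [h, hT]
        simp [lamc]
      · have hn : (0 : ℝ) < n := by exact_mod_cast h
        have e1 : ∀ v, ‖T n v‖ ≤ (I0 n).indicator (fun _ => C * 8 * (1 / (n : ℝ) ^ 2)) v := by
          intro v
          rw [hT]
          simp only
          by_cases hv : v ∈ I0 n
          · rw [Set.indicator_of_mem hv, Set.indicator_of_mem hv, norm_mul]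
            have hv2 := (hmemI n v).1 hv
            have a1 : ‖lamc n‖ ≤ n := by
              refine (lamc_norm n).trans (ArithmeticFunction.vonMangoldt_le_log.trans ?_)
              have := Real.log_le_sub_one_of_pos hn
              linarith
            have a2 : ‖K v‖ ≤ C * (8 * (1 / (n : ℝ) ^ 3)) := by
              refine (hKb v).trans (mul_le_mul_of_nonneg_left ?_ hC)
              have a3 : 1 / (n : ℝ) ^ 3 = Real.exp (-3 * Real.log n) := by
                rw [show -3 * Real.log n = -(3 * Real.log n) by ring, Real.exp_neg, one_div]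
                congr 1
                rw [show (3 : ℝ) * Real.log n = ((3 : ℕ) : ℝ) * Real.log n by push_cast; ring, Real.exp_nat_mul,
                  Real.exp_log hn]
              rw [a3]
              have a4 : Real.exp (3 / 2) ≤ 8 := by
                have := exp_half_le
                have h5 : Real.exp (3 / 2) = Real.exp (1 / 2) ^ 3 := by rw [← Real.exp_nat_mul]; norm_num
                rw [h5]
                calc Real.exp (1 / 2) ^ 3 ≤ 2 ^ 3 := pow_le_pow_left₀ (Real.exp_pos _).le this 3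
                  _ = 8 := by norm_num
              calc Real.exp (-3 * v) ≤ Real.exp (3 / 2 + -3 * Real.log n) := by
                    apply Real.exp_le_exp.2
                    have := (abs_le.1 hv2).2
                    linarith
                _ = Real.exp (3 / 2) * Real.exp (-3 * Real.log n) := Real.exp_add _ _
                _ ≤ 8 * Real.exp (-3 * Real.log n) := mul_le_mul_of_nonneg_right a4 (Real.exp_pos _).le
            calc ‖lamc n‖ * ‖K v‖ ≤ n * (C * (8 * (1 / (n : ℝ) ^ 3))) :=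
                  mul_le_mul a1 a2 (norm_nonneg _) hn.le
              _ = C * 8 * (1 / (n : ℝ) ^ 2) := by field_simp
          · rw [Set.indicator_of_notMem hv, Set.indicator_of_notMem hv]; simp
        have e2 : ∫ v, (I0 n).indicator (fun _ => C * 8 * (1 / (n : ℝ) ^ 2)) v = κ * (C * 8 * (1 / (n : ℝ) ^ 2)) := by
          rw [integral_indicator measurableSet_Icc, setIntegral_const, smul_eq_mul]
          congr 1
          rw [measureReal_def, Real.volume_Icc, ENNReal.toReal_ofReal (by linarith)]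
          ring
        have e3 : ∫ v, ‖T n v‖ ≤ κ * (C * 8 * (1 / (n : ℝ) ^ 2)) := by
          rw [← e2]
          apply integral_mono (hTint n).norm _ e1
          rw [integrable_indicator_iff measurableSet_Icc]
          exact continuous_const.continuousOn.integrableOn_Icc
        refine e3.trans ?_
        have : 0 ≤ C * 8 * (1 / (n : ℝ) ^ 2) := by positivity
        nlinarith
    refine Summable.of_nonneg_of_le (fun n => integral_nonneg fun v => norm_nonneg _) hb2 ?_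
    exact sum_inv_sq.mul_left _
  rw [QP_tsum]
  have h1 : ∑' n : ℕ, ∫ v, T n v = ∫ v, ∑' n : ℕ, T n v :=
    integral_tsum_of_summable_integral_norm hTint hTsum
  simp_rw [hTval] at h1
  rw [h1]
  apply integral_congr_ae
  refine Eventually.of_forall fun v => ?_
  simp only
  have h2 : ∀ n, T n v = ((if |Real.log n - v| ≤ κ / 2 then ArithmeticFunction.vonMangoldt n else 0 : ℝ) : ℂ) * K v := by
    intro n
    rw [hT]
    simp only
    by_cases hv : v ∈ I0 n
    · rw [Set.indicator_of_mem hv, if_pos ((hmemI n v).1 hv)]; rfl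
    · rw [Set.indicator_of_notMem hv, if_neg (fun h => hv ((hmemI n v).2 h))]; simp
  simp_rw [h2]
  rw [tsum_mul_right]
  congr 1
  rw [← Complex.ofReal_tsum]
  rfl

theorem QP_eq (κ u t : ℝ) (hκ0 : 0 < κ) (hκ : κ ≤ 1) :
    QP κ u t = ∫ v : ℝ, (fk κ v : ℂ) * MM κ u t v := by
  rw [QP_eq1 κ u t hκ0 hκ]
  have h1 : ∀ v : ℝ, (fk κ v : ℂ) * MM κ u t v = (cnt κ v : ℂ) * ((Real.exp (-v / 2) : ℂ) * MM κ u t v) -
      ((2 * Real.sinh (κ / 2) : ℝ) : ℂ) * ((Real.exp (v / 2) : ℂ) * MM κ u t v) := by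
    intro v
    have e1 : fk κ v = Real.exp (-v / 2) * cnt κ v - 2 * Real.sinh (κ / 2) * Real.exp (v / 2) := by
      unfold fk
      rw [mul_sub]
      congr 1
      rw [show Real.exp (v / 2) = Real.exp (-v / 2) * Real.exp v by rw [← Real.exp_add]; congr 1; ring]
      ring
    rw [e1]
    push_cast
    ring
  simp_rw [h1]
  rw [integral_sub (cMM_int κ u t hκ) ((eMM_int κ u t).const_mul _), integral_const_mul, MM_zero, mul_zero, sub_zero]

end Pool.Agent.L5helper10.TV
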