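import Mathlib

/-! Rank inequality: the square of the trace of an operator of rank `n` is at most `n` times the square of its
Hilbert-Schmidt norm; the form of this for kernels which are sums of products. -/

set_option autoImplicit false

open MeasureTheory Finset Complex ComplexConjugate

namespace Pool.Agent.L5helper10.TV

theorem rank_hilbert {E : Type*} [NormedAddCommGroup E] [InnerProductSpace ℂ E] {ι : Type*} (P : Finset ι)
    (x y : ι → E) :
    ‖∑ i ∈ P, inner ℂ (y i) (x i)‖ ^ 2 ≤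
      P.card * (∑ i ∈ P, ∑ j ∈ P, inner ℂ (y i) (y j) * inner ℂ (x j) (x i)).re := by
  classical
  set V : Submodule ℂ E := Submodule.span ℂ (P.image x : Set E) with hV
  have hVfin : FiniteDimensional ℂ V := FiniteDimensional.span_finset ℂ (P.image x)
  have hrank : Module.finrank ℂ V ≤ P.card := by
    refine (finrank_span_finset_le_card (R := ℂ) (P.image x)).trans card_image_le
  set b := stdOrthonormalBasis ℂ V with hb
  have hmem : ∀ i ∈ P, x i ∈ V := fun i hi => Submodule.subset_span (by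
    simp only [coe_image, Set.mem_image, mem_coe]
    exact ⟨i, hi, rfl⟩)
  set w : Fin (Module.finrank ℂ V) → E := fun k => ∑ i ∈ P, inner ℂ (x i) (b k : E) • y i with hw
  -- Parseval in V
  have hpars : ∀ i ∈ P, ∀ z : E, ∑ k, inner ℂ z (b k : E) * inner ℂ (b k : E) (x i) = inner ℂ z (x i) := by
    intro i hi z
    have h1 : (x i : E) = ∑ k, inner ℂ (b k : E) (x i) • (b k : E) := by
      have h2 := b.sum_repr' ⟨x i, hmem i hi⟩
      have h3 := congrArg (fun v : V => (v : E)) h2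
      simp only [AddSubmonoidClass.coe_finsetSum, SetLike.val_smul, Submodule.coe_inner] at h3
      exact h3.symm
    conv_rhs => rw [h1, inner_sum]
    apply sum_congr rfl
    intro k _
    rw [inner_smul_right]
    ring
  have h1 : ∑ k, inner ℂ (w k) (b k : E) = ∑ i ∈ P, inner ℂ (y i) (x i) := by
    simp only [hw]
    simp_rw [sum_inner, inner_smul_left, inner_conj_symm]
    rw [sum_comm]
    apply sum_congr rfl
    intro i hi
    rw [← hpars i hi (y i)]
    apply sum_congr rfl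
    intro k _
    ring
  have h2 : ((∑ k, ‖w k‖ ^ 2 : ℝ) : ℂ) =
      ∑ i ∈ P, ∑ j ∈ P, inner ℂ (y i) (y j) * inner ℂ (x j) (x i) := by
    push_cast
    have e1 : ∀ k, ((‖w k‖ : ℂ)) ^ 2 = ∑ i ∈ P, ∑ j ∈ P,
        inner ℂ (b k : E) (x i) * inner ℂ (x j) (b k : E) * inner ℂ (y i) (y j) := by
      intro k
      have e0 : ((‖w k‖ : ℂ)) ^ 2 = inner ℂ (w k) (w k) := (inner_self_eq_norm_sq_to_K (𝕜 := ℂ) (w k)).symm
      rw [e0]
      simp only [hw]
      rw [sum_inner]
      apply sum_congr rfl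
      intro i _
      rw [inner_sum]
      apply sum_congr rfl
      intro j _
      rw [inner_smul_left, inner_smul_right, inner_conj_symm]
      ring
    simp_rw [e1]
    rw [sum_comm]
    apply sum_congr rfl
    intro i hi
    rw [sum_comm]
    apply sum_congr rfl
    intro j _
    rw [← hpars i hi (x j), mul_sum]
    apply sum_congr rfl
    intro k _
    ring
  rw [← h1, ← h2, ofReal_re]
  have h3 : ‖∑ k, inner ℂ (w k) (b k : E)‖ ≤ ∑ k, ‖w k‖ := by
    refine (norm_sum_le _ _).trans (sum_le_sum fun k _ => ?_)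
    have h4 : ‖(b k : E)‖ = 1 := by
      exact b.orthonormal.1 k
    calc ‖inner ℂ (w k) (b k : E)‖ ≤ ‖w k‖ * ‖(b k : E)‖ := norm_inner_le_norm _ _
      _ = ‖w k‖ := by rw [h4, mul_one]
  calc ‖∑ k, inner ℂ (w k) (b k : E)‖ ^ 2 ≤ (∑ k, ‖w k‖) ^ 2 := by gcongr
    _ ≤ (univ : Finset (Fin (Module.finrank ℂ V))).card * ∑ k, ‖w k‖ ^ 2 := sq_sum_le_card_mul_sum_sq
    _ ≤ P.card * ∑ k, ‖w k‖ ^ 2 := by
        apply mul_le_mul_of_nonneg_right _ (sum_nonneg fun _ _ => by positivity)
        rw [card_univ, Fintype.card_fin]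
        exact_mod_cast hrank

section measure

variable {Ω : Type*} [MeasurableSpace Ω] (μ : Measure Ω) [SigmaFinite μ] {ι : Type*}

theorem rank_measure (P : Finset ι) (X Z : ι → Ω → ℂ) (hX : ∀ i, MemLp (X i) 2 μ) (hZ : ∀ i, MemLp (Z i) 2 μ) :
    ‖∑ i ∈ P, ∫ a, Z i a * X i a ∂μ‖ ^ 2 ≤
      P.card * ∫ p, ‖∑ i ∈ P, X i p.1 * Z i p.2‖ ^ 2 ∂(μ.prod μ) := by
  have hY : ∀ i, MemLp (fun a => conj (Z i a)) 2 μ := fun i => (hZ i).star
  have h := rank_hilbert P (fun i => (hX i).toLp) (fun i => (hY i).toLp)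
  have e1 : ∀ i j, inner ℂ ((hY i).toLp) ((hX j).toLp) = ∫ a, Z i a * X j a ∂μ := by
    intro i j
    rw [L2.inner_def]
    apply integral_congr_ae
    filter_upwards [(hY i).coeFn_toLp, (hX j).coeFn_toLp] with a h1 h2
    rw [h1, h2]
    simp [mul_comm]
  have e2 : ∀ i j, inner ℂ ((hY i).toLp) ((hY j).toLp) = ∫ a, Z i a * conj (Z j a) ∂μ := by
    intro i j
    rw [L2.inner_def]
    apply integral_congr_ae
    filter_upwards [(hY i).coeFn_toLp, (hY j).coeFn_toLp] with a h1 h2
    rw [h1, h2]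
    simp [mul_comm]
  have e3 : ∀ i j, inner ℂ ((hX j).toLp) ((hX i).toLp) = ∫ a, X i a * conj (X j a) ∂μ := by
    intro i j
    rw [L2.inner_def]
    apply integral_congr_ae
    filter_upwards [(hX i).coeFn_toLp, (hX j).coeFn_toLp] with a h1 h2
    rw [h1, h2]
    simp
  simp only [e1, e2, e3] at h
  refine h.trans (le_of_eq ?_)
  congr 1
  -- integrability
  have hXX : ∀ i j, Integrable (fun a => X i a * conj (X j a)) μ := fun i j =>
    (hX i).integrable_mul (hX j).star
  have hZZ : ∀ i j, Integrable (fun a => Z i a * conj (Z j a)) μ := fun i j =>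
    (hZ i).integrable_mul (hZ j).star
  have hint : ∀ i j, Integrable (fun p : Ω × Ω => (X i p.1 * conj (X j p.1)) * (Z i p.2 * conj (Z j p.2)))
      (μ.prod μ) := fun i j => (hXX i j).mul_prod (hZZ i j)
  have e4 : ∀ p : Ω × Ω, ((‖∑ i ∈ P, X i p.1 * Z i p.2‖ ^ 2 : ℝ) : ℂ) =
      ∑ i ∈ P, ∑ j ∈ P, (X i p.1 * conj (X j p.1)) * (Z i p.2 * conj (Z j p.2)) := by
    intro p
    rw [ofReal_pow, ← Complex.mul_conj', map_sum, sum_mul_sum]
    apply sum_congr rfl
    intro i _
    apply sum_congr rfl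
    intro j _
    rw [map_mul]
    ring
  have e5 : ((∫ p, ‖∑ i ∈ P, X i p.1 * Z i p.2‖ ^ 2 ∂(μ.prod μ) : ℝ) : ℂ) =
      ∑ i ∈ P, ∑ j ∈ P, (∫ a, Z i a * conj (Z j a) ∂μ) * ∫ a, X i a * conj (X j a) ∂μ := by
    rw [← integral_complex_ofReal]
    simp_rw [e4]
    rw [integral_finsetSum _ (fun i _ => integrable_finsetSum _ fun j _ => hint i j)]
    apply sum_congr rfl
    intro i _
    rw [integral_finsetSum _ (fun j _ => hint i j)]
    apply sum_congr rfl
    intro j _
    rw [integral_prod_mul (fun a => X i a * conj (X j a)) (fun a => Z i a * conj (Z j a))]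
    ring
  rw [← e5, ofReal_re]

end measure

end Pool.Agent.L5helper10.TV
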