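import Pool.Agent.L5helper10.TV.Cv

/-! The normalised variance of the problem. -/

set_option autoImplicit false

open Filter Topology Set MeasureTheory
open scoped ENNReal

namespace Pool.Agent.L5helper10.TV

/-- the mean square of the problem -/
noncomputable def JJ (X H : ℝ) : ℝ := (1 / X) * ∫ x in H..X, |psiH x H - H| ^ 2

/-- the normalised mean square at `X = T ^ α`, `H = T ^ (α - 1)` -/
noncomputable def RT (T α : ℝ) : ℝ := JJ (T ^ α) (T ^ (α - 1)) / (T ^ (α - 1) * Real.log T)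

lemma JJ_nonneg (X H : ℝ) (hX : 1 ≤ X) (hHX : H ≤ X) : 0 ≤ JJ X H := by
  unfold JJ
  have : 0 ≤ ∫ x in H..X, |psiH x H - H| ^ 2 := intervalIntegral.integral_nonneg hHX fun x _ => by positivity
  positivity

lemma RT_nonneg (T α : ℝ) (hT : 1 < T) (hα : 0 ≤ α) : 0 ≤ RT T α := by
  unfold RT
  have h1 : 1 ≤ T ^ α := Real.one_le_rpow hT.le hα
  have h2 := JJ_nonneg (T ^ α) (T ^ (α - 1)) h1 (Real.rpow_le_rpow_of_exponent_le hT.le (by linarith))
  have h3 : 0 < Real.log T := Real.log_pos hT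
  have : 0 < T := by linarith
  positivity

lemma sq_bd (X H x : ℝ) (hH : 0 ≤ H) (hHX : H ≤ X) (hx1 : 0 ≤ x) (hx : x ≤ X) : |psiH x H - H| ^ 2 ≤ 81 * X ^ 2 := by
  have h1 := psiH_le x H (by linarith)
  have h2 := psiH_nonneg x H
  have h3 : |psiH x H - H| ≤ 9 * X := by
    rw [abs_le]; constructor <;> linarith
  calc |psiH x H - H| ^ 2 ≤ (9 * X) ^ 2 := pow_le_pow_left₀ (abs_nonneg _) h3 2
    _ = _ := by ring

lemma sq_meas (H : ℝ) : Measurable (fun x => |psiH x H - H| ^ 2) := by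
  have h1 : Measurable (fun x => psiH x H) := psiH_meas.comp (measurable_id.prodMk measurable_const)
  exact ((h1.sub_const H).abs).pow_const 2

lemma sq_intOn (X H : ℝ) (hH : 0 ≤ H) (hHX : H ≤ X) : IntegrableOn (fun x => |psiH x H - H| ^ 2) (Ioc H X) := by
  apply Measure.integrableOn_of_bounded (M := 81 * X ^ 2) (by simp) (sq_meas H).aestronglyMeasurable
  refine ae_restrict_of_forall_mem measurableSet_Ioc fun x hx => ?_
  rw [Real.norm_of_nonneg (by positivity)]
  exact sq_bd X H x hH hHX (by linarith [hx.1]) hx.2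

lemma JJ_le (X H : ℝ) (hX : 1 ≤ X) (hH : 0 ≤ H) (hHX : H ≤ X) : JJ X H ≤ 81 * X ^ 2 := by
  unfold JJ
  have h1 : ∫ x in H..X, |psiH x H - H| ^ 2 ≤ ∫ x in H..X, 81 * X ^ 2 := by
    apply intervalIntegral.integral_mono_on hHX
    · rw [intervalIntegrable_iff_integrableOn_Ioc_of_le hHX]
      exact sq_intOn X H hH hHX
    · exact intervalIntegrable_const
    · intro x hx
      exact sq_bd X H x hH hHX (by linarith [hx.1]) hx.2
  rw [intervalIntegral.integral_const, smul_eq_mul] at h1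
  have hX0 : 0 < X := by linarith
  rw [one_div, inv_mul_le_iff₀ hX0]
  have : (X - H) * (81 * X ^ 2) ≤ X * (81 * X ^ 2) := mul_le_mul_of_nonneg_right (by linarith) (by positivity)
  linarith

lemma JJ_lint (X H : ℝ) (hX : 1 ≤ X) (hH : 0 ≤ H) (hHX : H ≤ X) :
    ∫⁻ x in Ioc H X, ENNReal.ofReal ((psiH x H - H) ^ 2) = ENNReal.ofReal (X * JJ X H) := by
  have hX0 : 0 < X := by linarith
  have e1 : X * JJ X H = ∫ x in Ioc H X, |psiH x H - H| ^ 2 := by
    unfold JJ
    rw [intervalIntegral.integral_of_le hHX]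
    field_simp
  rw [e1, ofReal_integral_eq_lintegral_ofReal (sq_intOn X H hH hHX) (Eventually.of_forall fun x => by positivity)]
  congr 1
  funext x
  rw [sq_abs]

lemma RT_meas (T : ℝ) (hT : 1 < T) (a b : ℝ) (ha : 0 ≤ a) :
    AEStronglyMeasurable (RT T) (volume.restrict (Ioc a b)) := by
  have h1 : Measurable (fun p : ℝ × ℝ => (Ioc (T ^ (p.1 - 1)) (T ^ p.1)).indicator (fun x => |psiH x (T ^ (p.1 - 1)) - T ^ (p.1 - 1)| ^ 2) p.2) := by
    have hm : Measurable (fun p : ℝ × ℝ => |psiH p.2 (T ^ (p.1 - 1)) - T ^ (p.1 - 1)| ^ 2) := by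
      have k1 : Measurable (fun p : ℝ × ℝ => T ^ (p.1 - 1)) := by fun_prop
      have k2 : Measurable (fun p : ℝ × ℝ => psiH p.2 (T ^ (p.1 - 1))) := psiH_meas.comp (measurable_snd.prodMk k1)
      exact ((k2.sub k1).abs).pow_const 2
    have hset : MeasurableSet {p : ℝ × ℝ | T ^ (p.1 - 1) < p.2 ∧ p.2 ≤ T ^ p.1} := by
      apply MeasurableSet.inter
      · exact measurableSet_lt (by fun_prop) measurable_snd
      · exact measurableSet_le measurable_snd (by fun_prop)
    have e : (fun p : ℝ × ℝ => (Ioc (T ^ (p.1 - 1)) (T ^ p.1)).indicator (fun x => |psiH x (T ^ (p.1 - 1)) - T ^ (p.1 - 1)| ^ 2) p.2) =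
        {p : ℝ × ℝ | T ^ (p.1 - 1) < p.2 ∧ p.2 ≤ T ^ p.1}.indicator (fun p : ℝ × ℝ => |psiH p.2 (T ^ (p.1 - 1)) - T ^ (p.1 - 1)| ^ 2) := by
      funext p
      simp only [Set.indicator_apply, Set.mem_Ioc, Set.mem_ofPred_eq]
    rw [e]
    exact hm.indicator hset
  have h2 : Measurable (fun α : ℝ => ∫ x, (Ioc (T ^ (α - 1)) (T ^ α)).indicator (fun x => |psiH x (T ^ (α - 1)) - T ^ (α - 1)| ^ 2) x) :=
    (h1.stronglyMeasurable.integral_prod_right').measurable
  have h3 : Measurable (fun α : ℝ => (1 / T ^ α) * (∫ x, (Ioc (T ^ (α - 1)) (T ^ α)).indicator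
      (fun x => |psiH x (T ^ (α - 1)) - T ^ (α - 1)| ^ 2) x) / (T ^ (α - 1) * Real.log T)) := by
    have k1 : Measurable (fun α : ℝ => 1 / T ^ α) := by fun_prop
    have k2 : Measurable (fun α : ℝ => T ^ (α - 1) * Real.log T) := by fun_prop
    exact (k1.mul h2).div k2
  refine h3.aestronglyMeasurable.congr ?_
  refine ae_restrict_of_forall_mem measurableSet_Ioc fun α hα => ?_
  have hα0 : 0 ≤ α := by linarith [hα.1]
  have : T ^ (α - 1) ≤ T ^ α := Real.rpow_le_rpow_of_exponent_le hT.le (by linarith)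
  unfold RT JJ
  beta_reduce
  rw [intervalIntegral.integral_of_le this, integral_indicator measurableSet_Ioc]

lemma RT_bd (T α b : ℝ) (hT : 1 < T) (hα : 1 ≤ α) (hb : α ≤ b) : RT T α ≤ 81 * (T ^ b) ^ 2 / Real.log T := by
  unfold RT
  have hT0 : 0 < T := by linarith
  have hl : 0 < Real.log T := Real.log_pos hT
  have h1 : 1 ≤ T ^ α := Real.one_le_rpow hT.le (by linarith)
  have h2 : 1 ≤ T ^ (α - 1) := Real.one_le_rpow hT.le (by linarith)
  have h3 : T ^ (α - 1) ≤ T ^ α := Real.rpow_le_rpow_of_exponent_le hT.le (by linarith)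
  have h4 : T ^ α ≤ T ^ b := Real.rpow_le_rpow_of_exponent_le hT.le hb
  have h5 := JJ_le (T ^ α) (T ^ (α - 1)) h1 (by positivity) h3
  have h6 : (T ^ α) ^ 2 ≤ (T ^ b) ^ 2 := pow_le_pow_left₀ (by positivity) h4 2
  rw [div_le_div_iff₀ (by positivity) hl]
  have h7 : JJ (T ^ α) (T ^ (α - 1)) ≤ 81 * (T ^ b) ^ 2 := h5.trans (by linarith)
  calc JJ (T ^ α) (T ^ (α - 1)) * Real.log T ≤ 81 * (T ^ b) ^ 2 * Real.log T := mul_le_mul_of_nonneg_right h7 hl.le
    _ = 81 * (T ^ b) ^ 2 * (1 * Real.log T) := by ring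
    _ ≤ 81 * (T ^ b) ^ 2 * (T ^ (α - 1) * Real.log T) := by
        apply mul_le_mul_of_nonneg_left _ (by positivity)
        exact mul_le_mul_of_nonneg_right h2 hl.le

/-- the right-hand side of `cv` in the coordinate `α` -/
theorem rhs_alpha (T : ℝ) (hT : 1 < T) (G : ℝ → ℝ) :
    ∫⁻ u in Ioi (Real.log T), ENNReal.ofReal (G u * (T ^ 2 * Real.exp (-(2 * u)))) *
      ∫⁻ x in Ioc (Real.exp u / T) (Real.exp u), ENNReal.ofReal ((psiH x (Real.exp u / T) - Real.exp u / T) ^ 2) =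
    ENNReal.ofReal (T * Real.log T ^ 2) * ∫⁻ α in Ioi (1 : ℝ), ENNReal.ofReal (G (α * Real.log T) * RT T α) := by
  have hT0 : 0 < T := by linarith
  have hl : 0 < Real.log T := Real.log_pos hT
  have himg : (fun α : ℝ => α * Real.log T) '' Ioi 1 = Ioi (Real.log T) := by
    ext y
    simp only [Set.mem_image, Set.mem_Ioi]
    constructor
    · rintro ⟨x, hx, rfl⟩
      have := mul_lt_mul_of_pos_right hx hl
      linarith
    · intro hy
      exact ⟨y / Real.log T, (one_lt_div hl).2 hy, by field_simp⟩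
  rw [← himg, lintegral_image_eq_lintegral_abs_deriv_mul (f := fun α : ℝ => α * Real.log T)
    (f' := fun _ => Real.log T) measurableSet_Ioi
    (fun α _ => by simpa using ((hasDerivAt_id α).mul_const (Real.log T)).hasDerivWithinAt)
    (fun x _ y _ h => mul_right_cancel₀ hl.ne' h), ← lintegral_const_mul' _ _ ENNReal.ofReal_ne_top]
  apply setLIntegral_congr_fun measurableSet_Ioi
  intro α hα
  have hα1 : 1 < α := hα
  have e1 : Real.exp (α * Real.log T) = T ^ α := by rw [Real.rpow_def_of_pos hT0]; congr 1; ring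
  have e2 : T ^ α / T = T ^ (α - 1) := by rw [Real.rpow_sub_one hT0.ne']
  have h1 : 1 ≤ T ^ α := Real.one_le_rpow hT.le (by linarith)
  have h2 : 0 < T ^ (α - 1) := by positivity
  have h3 : T ^ (α - 1) ≤ T ^ α := Real.rpow_le_rpow_of_exponent_le hT.le (by linarith)
  simp only
  rw [e1, e2, JJ_lint _ _ h1 h2.le h3, abs_of_pos hl]
  have e3 : JJ (T ^ α) (T ^ (α - 1)) = RT T α * (T ^ (α - 1) * Real.log T) := by
    unfold RT; field_simp
  have e4 : Real.exp (-(2 * (α * Real.log T))) = (T ^ α)⁻¹ * (T ^ α)⁻¹ := by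
    rw [← e1, ← Real.exp_neg, ← Real.exp_add]; congr 1; ring
  have hRT := RT_nonneg T α hT (by linarith)
  have hJJ := JJ_nonneg (T ^ α) (T ^ (α - 1)) h1 h3
  rw [mul_comm (ENNReal.ofReal (G _ * _)), ← ENNReal.ofReal_mul (by positivity), ← ENNReal.ofReal_mul hl.le,
    ← ENNReal.ofReal_mul (by positivity)]
  congr 1
  rw [e3, e4, ← e2]
  field_simp

end Pool.Agent.L5helper10.TV
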