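import Pool.Agent.L5helper10.TV.Eb2

/-! Splitting of the integral over the shift. -/

set_option autoImplicit false

open Filter Topology Set MeasureTheory H370

namespace Pool.Agent.L5helper10.TV

lemma G1_le (κ u : ℝ) (hκ0 : 0 ≤ κ) (hκ : κ ≤ 1) : G1 κ u ≤ K1 * Real.exp u := by
  have hK := K1_nonneg
  unfold G1
  apply int_le_of_lint
  · exact fun v => mul_nonneg (sq_nonneg _) (Real.exp_pos _).le
  · positivity
  refine le_trans (lintegral_mono fun v => ?_) (K1_bound κ u hκ0 hκ)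
  apply ENNReal.ofReal_le_ofReal
  apply mul_le_mul_of_nonneg_left _ (sq_nonneg _)
  apply Real.exp_le_exp.2
  nlinarith [sq_nonneg (u - v)]

lemma G1_meas (κ : ℝ) : Measurable (G1 κ) := by
  have h : Measurable (fun p : ℝ × ℝ => fk κ p.2 ^ 2 * Real.exp (-(p.1 - p.2) ^ 2 / 2)) :=
    (((fk_meas κ).pow_const 2).comp measurable_snd).mul (by fun_prop)
  exact (h.stronglyMeasurable.integral_prod_right').measurable

lemma G0_meas (κ : ℝ) : Measurable (G0 κ) := by
  have h : Measurable (fun p : ℝ × ℝ => fk κ p.2 ^ 2 * Real.exp (-(p.1 - p.2) ^ 2)) :=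
    (((fk_meas κ).pow_const 2).comp measurable_snd).mul (by fun_prop)
  exact (h.stronglyMeasurable.integral_prod_right').measurable

lemma bdd_intOn (f : ℝ → ℝ) (hf : Measurable f) (a b C : ℝ) (h : ∀ u ∈ Ioc a b, |f u| ≤ C) :
    IntegrableOn f (Ioc a b) := by
  apply Measure.integrableOn_of_bounded (M := C) (by simp) hf.aestronglyMeasurable
  exact ae_restrict_of_forall_mem measurableSet_Ioc fun u hu => by rw [Real.norm_eq_abs]; exact h u hu

lemma G1_intOn (κ : ℝ) (hκ0 : 0 ≤ κ) (hκ : κ ≤ 1) (a b : ℝ) : IntegrableOn (G1 κ) (Ioc a b) := by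
  apply bdd_intOn _ (G1_meas κ) a b (K1 * Real.exp b)
  intro u hu
  rw [abs_of_nonneg (G1_nonneg κ u)]
  refine (G1_le κ u hκ0 hκ).trans (mul_le_mul_of_nonneg_left (Real.exp_le_exp.2 hu.2) K1_nonneg)

lemma GG_bdd (S : Set ℝ) (hSf : volume S < ⊤) (u : ℝ) : GG S u ≤ (volume S).toReal :=
  ENNReal.toReal_mono hSf.ne (measure_mono fun v hv => hv.1)

lemma GG_nn (S : Set ℝ) (u : ℝ) : 0 ≤ GG S u := ENNReal.toReal_nonneg

lemma GG_measR (S : Set ℝ) (hS : MeasurableSet S) : Measurable (GG S) := (GG_meas S hS).ennreal_toReal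

lemma GG_neg (S : Set ℝ) (u : ℝ) : GG S (-u) = GG S u := by
  unfold GG
  congr 1
  have h : {v : ℝ | v ∈ S ∧ v - -u ∈ S} = (fun v => v + u) ⁻¹' {v : ℝ | v ∈ S ∧ v - u ∈ S} := by
    ext v
    simp only [Set.mem_ofPred_eq, Set.mem_preimage]
    rw [sub_neg_eq_add, add_sub_cancel_right, and_comm]
  rw [h, measure_preimage_add_right]

lemma GG_zero (S : Set ℝ) (M : ℝ) (hS : S ⊆ Icc 0 M) (u : ℝ) (hu : M < u) : GG S u = 0 := by
  unfold GG
  have : {v : ℝ | v ∈ S ∧ v - u ∈ S} = ∅ := by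
    ext v
    simp only [Set.mem_ofPred_eq, Set.mem_empty_iff_false, iff_false]
    rintro ⟨h1, h2⟩
    have h3 := hS h1
    have h4 := hS h2
    linarith [h3.2, h4.1]
  rw [this]; simp

lemma GG_mul_intOn (S : Set ℝ) (hS : MeasurableSet S) (hSf : volume S < ⊤) (f : ℝ → ℝ) (a b : ℝ)
    (hf : IntegrableOn f (Ioc a b)) : IntegrableOn (fun u => GG S u * f u) (Ioc a b) :=
  hf.bdd_mul (c := (volume S).toReal) (GG_measR S hS).aestronglyMeasurable
    (Eventually.of_forall fun u => by rw [Real.norm_of_nonneg (GG_nn S u)]; exact GG_bdd S hSf u)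

lemma GG_mul_le (S : Set ℝ) (hSf : volume S < ⊤) (x u : ℝ) (hx : 0 ≤ x) : GG S u * x ≤ (volume S).toReal * x :=
  mul_le_mul_of_nonneg_right (GG_bdd S hSf u) hx

theorem I_split (κ : ℝ) (hκ0 : 0 < κ) (hκ : κ ≤ 1) (S : Set ℝ) (hS : MeasurableSet S) (hSf : volume S < ⊤)
    (E : ℝ → ℝ) (hE : Continuous E) (U M c1 c2 c3 c4 A Bc : ℝ) (hκU : κ ≤ U) (hUM : U ≤ M) (h1 : 0 ≤ c1) (h2 : 0 ≤ c2)
    (h3 : 0 ≤ c3) (h4 : 0 ≤ c4) (hA : 0 ≤ A) (hB : 0 ≤ Bc)
    (b1 : ∀ u ∈ Ioc 0 κ, E u ≤ c1) (b2 : ∀ u ∈ Ioc κ U, E u ≤ c2 * Real.exp (-u ^ 2) + c3 * (G1 κ u + κ))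
    (b3 : ∀ u ∈ Ioc U M, E u ≤ A * G0 κ u + Bc * G1 κ u + c4) :
    ∫ u in Ioc 0 M, GG S u * E u ≤ (volume S).toReal * (c1 * κ) +
      (volume S).toReal * (c2 * (Real.sqrt Real.pi / 2) + c3 * ((∫ u in Ioc 0 U, G1 κ u) + κ * U)) +
      (∫ u in Ioc 0 M, GG S u * (A * G0 κ u + Bc * G1 κ u)) + (volume S).toReal * (c4 * M) := by
  set s := (volume S).toReal with hs
  have hs0 : 0 ≤ s := ENNReal.toReal_nonneg
  have hEi : ∀ a b : ℝ, IntegrableOn (fun u => GG S u * E u) (Ioc a b) := fun a b =>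
    GG_mul_intOn S hS hSf E a b (hE.continuousOn.integrableOn_Icc.mono_set Ioc_subset_Icc_self)
  have hG0i : ∀ a b, IntegrableOn (G0 κ) (Ioc a b) := by
    intro a b
    apply bdd_intOn _ (G0_meas κ) a b (K1 * Real.exp b)
    intro u hu
    rw [abs_of_nonneg (G0_nonneg κ u)]
    exact ((G0_le_G1 κ u hκ0.le hκ).trans (G1_le κ u hκ0.le hκ)).trans
      (mul_le_mul_of_nonneg_left (Real.exp_le_exp.2 hu.2) K1_nonneg)
  have hG1i := G1_intOn κ hκ0.le hκ
  have hAB : ∀ a b, IntegrableOn (fun u => GG S u * (A * G0 κ u + Bc * G1 κ u)) (Ioc a b) := fun a b =>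
    GG_mul_intOn S hS hSf _ a b (((hG0i a b).const_mul A).add ((hG1i a b).const_mul Bc))
  -- split
  have e1 : ∫ u in Ioc 0 M, GG S u * E u = (∫ u in Ioc 0 κ, GG S u * E u) + (∫ u in Ioc κ U, GG S u * E u) +
      ∫ u in Ioc U M, GG S u * E u := by
    have hd1 : Disjoint (Ioc (0 : ℝ) κ) (Ioc κ U) := Set.disjoint_left.2 (fun x h1 h2 => not_lt.2 h1.2 h2.1)
    have hd2 : Disjoint (Ioc (0 : ℝ) U) (Ioc U M) := Set.disjoint_left.2 (fun x h1 h2 => not_lt.2 h1.2 h2.1)
    rw [← setIntegral_union hd1 measurableSet_Ioc (hEi 0 κ) (hEi κ U), Ioc_union_Ioc_eq_Ioc hκ0.le hκU,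
      ← setIntegral_union hd2 measurableSet_Ioc (hEi 0 U) (hEi U M), Ioc_union_Ioc_eq_Ioc (hκ0.le.trans hκU) hUM]
  rw [e1]
  have i1 : ∫ u in Ioc 0 κ, GG S u * E u ≤ s * (c1 * κ) := by
    have : ∫ u in Ioc 0 κ, GG S u * E u ≤ ∫ u in Ioc 0 κ, s * c1 := by
      apply setIntegral_mono_on (hEi 0 κ) (integrableOn_const (by simp)) measurableSet_Ioc
      intro u hu
      exact (mul_le_mul_of_nonneg_left (b1 u hu) (GG_nn S u)).trans (GG_mul_le S hSf c1 u h1)
    refine this.trans (le_of_eq ?_)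
    rw [setIntegral_const, measureReal_def, Real.volume_Ioc, sub_zero, ENNReal.toReal_ofReal hκ0.le, smul_eq_mul]
    ring
  have i2 : ∫ u in Ioc κ U, GG S u * E u ≤
      s * (c2 * (Real.sqrt Real.pi / 2) + c3 * ((∫ u in Ioc 0 U, G1 κ u) + κ * U)) := by
    have hgi : IntegrableOn (fun u : ℝ => Real.exp (-u ^ 2)) (Ioi 0) := by
      have := integrable_exp_neg_mul_sq (b := 1) one_pos
      simp only [neg_mul, one_mul] at this
      exact this.integrableOn
    have hgi2 : IntegrableOn (fun u : ℝ => Real.exp (-u ^ 2)) (Ioc κ U) :=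
      hgi.mono_set fun u hu => hκ0.trans hu.1
    have hci : IntegrableOn (fun _ : ℝ => κ) (Ioc κ U) := integrableOn_const (by simp)
    have : ∫ u in Ioc κ U, GG S u * E u ≤ ∫ u in Ioc κ U, s * (c2 * Real.exp (-u ^ 2) + c3 * (G1 κ u + κ)) := by
      apply setIntegral_mono_on (hEi κ U) _ measurableSet_Ioc
      · intro u hu
        refine (mul_le_mul_of_nonneg_left (b2 u hu) (GG_nn S u)).trans (GG_mul_le S hSf _ u ?_)
        have := G1_nonneg κ u
        positivity
      · exact ((hgi2.const_mul c2).add (((hG1i κ U).add hci).const_mul c3)).const_mul s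
    refine this.trans ?_
    rw [integral_const_mul]
    apply mul_le_mul_of_nonneg_left _ hs0
    have hGc : IntegrableOn (fun u => G1 κ u + κ) (Ioc κ U) := (hG1i κ U).add hci
    have hGc3 : IntegrableOn (fun u => c3 * (G1 κ u + κ)) (Ioc κ U) := hGc.const_mul c3
    have hge2 : IntegrableOn (fun u : ℝ => c2 * Real.exp (-u ^ 2)) (Ioc κ U) := hgi2.const_mul c2
    rw [integral_add hge2 hGc3, integral_const_mul, integral_const_mul,
      integral_add (hG1i κ U) hci]
    have g1 : ∫ u in Ioc κ U, Real.exp (-u ^ 2) ≤ Real.sqrt Real.pi / 2 := by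
      have hg := integral_gaussian_Ioi 1
      simp only [neg_mul, one_mul, div_one] at hg
      rw [← hg]
      apply setIntegral_mono_set hgi
      · exact Eventually.of_forall fun u => (Real.exp_pos _).le
      · have hsub : Ioc κ U ⊆ Ioi 0 := fun u hu => hκ0.trans hu.1
        exact LE.le.eventuallyLE hsub
    have g2 : ∫ u in Ioc κ U, G1 κ u ≤ ∫ u in Ioc 0 U, G1 κ u := by
      apply setIntegral_mono_set (hG1i 0 U)
      · exact Eventually.of_forall fun u => G1_nonneg κ u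
      · have hsub : Ioc κ U ⊆ Ioc 0 U := Ioc_subset_Ioc_left hκ0.le
        exact LE.le.eventuallyLE hsub
    have g3 : ∫ _ in Ioc κ U, κ ≤ κ * U := by
      rw [setIntegral_const, measureReal_def, Real.volume_Ioc, ENNReal.toReal_ofReal (by linarith), smul_eq_mul]
      nlinarith
    have := mul_le_mul_of_nonneg_left g1 h2
    have := mul_le_mul_of_nonneg_left (add_le_add g2 g3) h3
    linarith
  have i3 : ∫ u in Ioc U M, GG S u * E u ≤ (∫ u in Ioc 0 M, GG S u * (A * G0 κ u + Bc * G1 κ u)) + s * (c4 * M) := by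
    have hci : IntegrableOn (fun _ : ℝ => s * c4) (Ioc U M) := integrableOn_const (by simp)
    have : ∫ u in Ioc U M, GG S u * E u ≤ ∫ u in Ioc U M, (GG S u * (A * G0 κ u + Bc * G1 κ u) + s * c4) := by
      apply setIntegral_mono_on (hEi U M) ((hAB U M).add hci) measurableSet_Ioc
      intro u hu
      refine (mul_le_mul_of_nonneg_left (b3 u hu) (GG_nn S u)).trans ?_
      rw [mul_add]
      exact add_le_add_right (GG_mul_le S hSf c4 u h4) _
    refine this.trans ?_
    rw [integral_add (hAB U M) hci]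
    have g1 : ∫ u in Ioc U M, GG S u * (A * G0 κ u + Bc * G1 κ u) ≤ ∫ u in Ioc 0 M, GG S u * (A * G0 κ u + Bc * G1 κ u) := by
      apply setIntegral_mono_set (hAB 0 M)
      · refine Eventually.of_forall fun u => ?_
        have := G0_nonneg κ u
        have := G1_nonneg κ u
        have := GG_nn S u
        simp only [Pi.zero_apply]
        positivity
      · have hsub : Ioc U M ⊆ Ioc 0 M := Ioc_subset_Ioc_left (hκ0.le.trans hκU)
        exact LE.le.eventuallyLE hsub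
    have g2 : ∫ _ in Ioc U M, s * c4 ≤ s * (c4 * M) := by
      rw [setIntegral_const, measureReal_def, Real.volume_Ioc, ENNReal.toReal_ofReal (by linarith), smul_eq_mul]
      have : 0 ≤ s * c4 := mul_nonneg hs0 h4
      nlinarith
    linarith
  linarith

end Pool.Agent.L5helper10.TV
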