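import Pool.Agent.L5helper10.TV.Spl
import Pool.Agent.L5helper10.TV.Num
import Pool.Agent.L5helper10.TV.Cen

/-! The main inequality. -/

set_option autoImplicit false

open Filter Topology Set MeasureTheory H370

namespace Pool.Agent.L5helper10.TV

lemma gauss_small (q p A c : ℝ) (hq : 0 < q) (hA : 0 ≤ A) (hc : 0 < c) :
    ∀ᶠ κ in 𝓝[>] (0 : ℝ), A * Real.exp (p * La κ - q * La κ ^ 2) ≤ c * κ := by
  filter_upwards [La_ge ((p + 2) / q), La_small c A hc 0, self_mem_nhdsWithin, La_ge 0] with κ h1 h2 h3 h4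
  have hκ : 0 < κ := h3
  rw [pow_zero, mul_one, le_div_iff₀ hκ] at h2
  rw [div_le_iff₀ hq] at h1
  have h5 : p * La κ - q * La κ ^ 2 ≤ -La κ + -La κ := by nlinarith
  have h6 : Real.exp (-La κ) = κ := by rw [Real.exp_neg, exp_La hκ]; simp
  calc A * Real.exp (p * La κ - q * La κ ^ 2) ≤ A * Real.exp (-La κ + -La κ) :=
        mul_le_mul_of_nonneg_left (Real.exp_le_exp.2 h5) hA
    _ = (A * κ) * κ := by rw [Real.exp_add, h6]; ring
    _ ≤ c * κ := mul_le_mul_of_nonneg_right h2 hκ.le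

lemma Ej_cont (κ x y : ℝ) : Continuous (fun u => Ej κ x y u) := by
  unfold Ej
  apply intervalIntegral.continuous_parametric_intervalIntegral_of_continuous'
  exact ((FF_cont (PB κ x y) (cF κ)).norm.pow 2)

lemma EE_cont (κ a δ : ℝ) (N : ℕ) : Continuous (EE κ a δ N) := by
  unfold EE
  exact continuous_finsetSum _ fun j _ => (Ej_cont κ _ _).const_mul _

lemma Ej_neg (κ x y u : ℝ) (h : 1 ≤ x / κ - La κ) : Ej κ x y (-u) = Ej κ x y u := by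
  unfold Ej
  congr 1
  funext t
  rw [FB_neg κ x y u t h, Complex.norm_conj]

/-- lower bound of the total energy -/
lemma lower_EE (a δ ε : ℝ) (N : ℕ) (ha : 0 < a) (hδ : 0 < δ) (hδ1 : δ ≤ 1) (hε : 0 < ε) (hε1 : ε ≤ 1) :
    ∀ᶠ κ in 𝓝[>] (0 : ℝ), ∀ S : Set ℝ, MeasurableSet S → ∀ M : ℝ, 0 ≤ M → S ⊆ Icc 0 M →
      (volume S).toReal ^ 2 * (κ * La κ) * (1 - ε) *
        (∑ j ∈ Finset.range N, δ * (Vj a δ ε j ^ 2 / Wj a δ j) / xj a δ (j + 1) ^ 2) ≤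
      4 * Real.sqrt Real.pi * ∫ u in Ioc 0 M, GG S u * EE κ a δ N u := by
  have hev : ∀ᶠ κ in 𝓝[>] (0 : ℝ), ∀ j ∈ Finset.range N, (∀ S : Set ℝ, MeasurableSet S → ∀ R : ℝ, S ⊆ Set.Icc 0 R →
      (volume S).toReal ^ 2 * (max 0 (2 - 2 * Real.cos (xj a δ j) - 2 * (xj a δ (j + 1) - xj a δ j) - ε)) ^ 2 *
        ((xj a δ (j + 1) - xj a δ j) * La κ / κ) * (1 - ε) ≤
      2 * Real.sqrt Real.pi * ∫ u : ℝ, GG S u * ∫ t in (xj a δ j / κ)..(xj a δ (j + 1) / κ),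
        ‖FB κ (xj a δ j) (xj a δ (j + 1)) u t‖ ^ 2) := by
    rw [eventually_all_finset]
    intro j _
    exact block_main (xj a δ j) (xj a δ (j + 1)) ε (xj_pos ha hδ j) (by rw [xj_succ]; linarith)
      (by rw [xj_succ]; linarith) hε hε1
  have hev2 : ∀ᶠ κ in 𝓝[>] (0 : ℝ), ∀ j ∈ Finset.range N, 1 ≤ xj a δ j / κ - La κ := by
    rw [eventually_all_finset]
    intro j _
    have hx := xj_pos ha hδ j
    filter_upwards [La_small (xj a δ j / 2) 1 (by positivity) 1, La_small (xj a δ j / 2) 1 (by positivity) 0] with κ h1 h2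
    rw [pow_one, one_mul] at h1
    rw [pow_zero, one_mul] at h2
    have e : xj a δ j / κ = xj a δ j / 2 / κ + xj a δ j / 2 / κ := by ring
    rw [e]; linarith
  filter_upwards [hev, hev2, self_mem_nhdsWithin, La_ge 0] with κ h1 h2 h3 h4 S hS M hM hSM
  have hκ : 0 < κ := h3
  have hSf : volume S < ⊤ := lt_of_le_of_lt (measure_mono hSM) (by simp)
  have hGE_cont : ∀ j, Continuous (fun u => Ej κ (xj a δ j) (xj a δ (j + 1)) u) := fun j => Ej_cont κ _ _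
  -- the even function
  have hfold : ∀ E : ℝ → ℝ, Continuous E → (∀ u, E (-u) = E u) →
      ∫ u : ℝ, GG S u * E u = 2 * ∫ u in Ioc 0 M, GG S u * E u := by
    intro E hE hEn
    have e1 : ∀ u : ℝ, GG S u * E u = (fun x => GG S x * E x) |u| := by
      intro u
      rcases abs_choice u with h | h
      · simp only [h]
      · simp only [h, GG_neg, hEn]
    have e2 : ∫ u : ℝ, GG S u * E u = ∫ u : ℝ, (fun x => GG S x * E x) |u| := by
      congr 1; funext u; exact e1 u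
    rw [e2]
    refine (integral_comp_abs (f := fun x => GG S x * E x)).trans ?_
    congr 1
    apply setIntegral_eq_of_subset_of_forall_sdiff_eq_zero measurableSet_Ioi Ioc_subset_Ioi_self
    intro u hu
    have : M < u := by
      by_contra hc
      exact hu.2 ⟨hu.1, not_lt.1 hc⟩
    rw [GG_zero S M hSM u this, zero_mul]
  have hInt : ∀ E : ℝ → ℝ, Continuous E → IntegrableOn (fun u => GG S u * E u) (Ioc 0 M) := fun E hE =>
    GG_mul_intOn S hS hSf E 0 M (hE.continuousOn.integrableOn_Icc.mono_set Ioc_subset_Icc_self)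
  have e3 : ∫ u in Ioc 0 M, GG S u * EE κ a δ N u =
      ∑ j ∈ Finset.range N, wj κ a δ j * ∫ u in Ioc 0 M, GG S u * Ej κ (xj a δ j) (xj a δ (j + 1)) u := by
    have : ∀ u, GG S u * EE κ a δ N u =
        ∑ j ∈ Finset.range N, wj κ a δ j * (GG S u * Ej κ (xj a δ j) (xj a δ (j + 1)) u) := by
      intro u
      unfold EE
      rw [Finset.mul_sum]
      exact Finset.sum_congr rfl fun j _ => by ring
    simp_rw [this]
    rw [integral_finsetSum]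
    · exact Finset.sum_congr rfl fun j _ => by rw [integral_const_mul]
    · intro j _
      exact (hInt _ (hGE_cont j)).const_mul _
  rw [e3, Finset.mul_sum, Finset.mul_sum]
  apply Finset.sum_le_sum
  intro j hj
  have h5 := h1 j hj S hS M hSM
  have h6 : ∫ u : ℝ, GG S u * ∫ t in (xj a δ j / κ)..(xj a δ (j + 1) / κ),
        ‖FB κ (xj a δ j) (xj a δ (j + 1)) u t‖ ^ 2 =
      2 * ∫ u in Ioc 0 M, GG S u * Ej κ (xj a δ j) (xj a δ (j + 1)) u :=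
    hfold (fun u => Ej κ (xj a δ j) (xj a δ (j + 1)) u) (hGE_cont j) (fun u => Ej_neg κ _ _ u (h2 j hj))
  rw [h6] at h5
  have hw := wj_nonneg κ a δ hδ j
  have h7 := mul_le_mul_of_nonneg_left h5 hw
  have hWp := Wj_pos (a := a) hδ j
  have hxp := xj_pos ha hδ (j + 1)
  have e4 : xj a δ (j + 1) - xj a δ j = δ := by rw [xj_succ]; ring
  rw [e4] at h7
  have e5 : wj κ a δ j * ((volume S).toReal ^ 2 * (max 0 (2 - 2 * Real.cos (xj a δ j) - 2 * δ - ε)) ^ 2 *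
      (δ * La κ / κ) * (1 - ε)) =
      (volume S).toReal ^ 2 * (κ * La κ) * (1 - ε) * (δ * (Vj a δ ε j ^ 2 / Wj a δ j) / xj a δ (j + 1) ^ 2) := by
    unfold wj Vj
    field_simp
  rw [← e5]
  refine h7.trans (le_of_eq ?_)
  ring

/-- numerical end of the argument -/
lemma star_alg (X Y P ε1 ℓ2 κΛ err Tp Tm I pi ε η : ℝ) (hpi : 3 < pi) (hX0 : 0 ≤ X) (hY0 : 0 ≤ Y) (hP0 : 0 ≤ P)
    (hε1 : 0 < ε1) (hε1h : ε1 ≤ 1 / 2) (hε0 : 0 < ε) (hε : ε ≤ ε1) (hη : 0 < η) (hκ : 0 ≤ κΛ) (hℓ2 : 0 ≤ ℓ2)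
    (hX : X ≤ ℓ2 * κΛ) (hY : Y ≤ ℓ2 * κΛ)
    (hTm : pi * (1 - ε1) ≤ Tm) (hTp : Tp ≤ pi * (1 + ε1)) (hεη : ε1 * ℓ2 ≤ η / 24)
    (h1 : X * (1 - ε) * Tm ≤ I)
    (h2 : I ≤ (1 + ε1) * Tp * Y + pi * ((1 + ε1) ^ 2 + ε1) * P + err) (herr : err ≤ η / 2 * κΛ) :
    X ≤ Y + P + η * κΛ := by
  by_cases hc : X ≤ P
  · have : 0 ≤ η * κΛ := by positivity
    linarith
  push Not at hc
  have g1 : X * (1 - 2 * ε1) * pi ≤ X * (1 - ε) * Tm := by
    have k1 : (1 - 2 * ε1) * pi ≤ (1 - ε) * Tm := by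
      have k2 : (1 - ε1) * (pi * (1 - ε1)) ≤ (1 - ε) * Tm :=
        mul_le_mul (by linarith) hTm (mul_nonneg (by linarith) (by linarith)) (by linarith)
      nlinarith [sq_nonneg ε1, mul_nonneg (by linarith : (0 : ℝ) ≤ pi) (sq_nonneg ε1)]
    have := mul_le_mul_of_nonneg_left k1 hX0
    linarith
  have g2 : (1 + ε1) * Tp * Y ≤ pi * (1 + 3 * ε1) * Y := by
    apply mul_le_mul_of_nonneg_right _ hY0
    have k1 : (1 + ε1) * Tp ≤ (1 + ε1) * (pi * (1 + ε1)) := mul_le_mul_of_nonneg_left hTp (by linarith)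
    have k2 : (1 + ε1) ^ 2 ≤ 1 + 3 * ε1 := by nlinarith
    have k3 := mul_le_mul_of_nonneg_left k2 (by linarith : (0 : ℝ) ≤ pi)
    nlinarith
  have g3 : pi * ((1 + ε1) ^ 2 + ε1) * P ≤ pi * (1 + 4 * ε1) * P := by
    apply mul_le_mul_of_nonneg_right _ hP0
    apply mul_le_mul_of_nonneg_left _ (by linarith)
    nlinarith
  have h3 : X * (1 - 2 * ε1) * pi ≤ pi * (1 + 3 * ε1) * Y + pi * (1 + 4 * ε1) * P + η / 2 * κΛ := by linarith
  have g4 : ε1 * X ≤ η / 24 * κΛ := by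
    have := mul_le_mul_of_nonneg_left hX hε1.le
    have := mul_le_mul_of_nonneg_right hεη hκ
    nlinarith
  have g5 : ε1 * Y ≤ η / 24 * κΛ := by
    have := mul_le_mul_of_nonneg_left hY hε1.le
    have := mul_le_mul_of_nonneg_right hεη hκ
    nlinarith
  have g6 : ε1 * P ≤ η / 24 * κΛ := le_trans (mul_le_mul_of_nonneg_left hc.le hε1.le) g4
  have hηk : 0 ≤ η * κΛ := by positivity
  have h4 : X * pi ≤ pi * (Y + P + 2 * (ε1 * X) + 3 * (ε1 * Y) + 4 * (ε1 * P)) + η / 2 * κΛ := by nlinarith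
  have h5 : X * pi ≤ pi * (Y + P + η * κΛ) := by
    have k1 : pi * (2 * (ε1 * X) + 3 * (ε1 * Y) + 4 * (ε1 * P)) ≤ pi * (9 * (η / 24 * κΛ)) :=
      mul_le_mul_of_nonneg_left (by linarith) (by linarith)
    have k2 : η / 2 * κΛ ≤ pi * (1 / 6 * (η * κΛ)) := by nlinarith
    nlinarith
  have h6 : pi * X ≤ pi * (Y + P + η * κΛ) := by linarith
  exact le_of_mul_le_mul_left h6 (by linarith)

lemma sqrt_pi_le : Real.sqrt Real.pi ≤ 2 := by
  rw [show (2 : ℝ) = Real.sqrt 4 by rw [show (4 : ℝ) = 2 ^ 2 by norm_num, Real.sqrt_sq (by norm_num)]]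
  exact Real.sqrt_le_sqrt Real.pi_le_four

/-- the upper bound for fixed `κ` -/
lemma star_up (κ ℓ η ε1 θ C a δ : ℝ) (N : ℕ) (hκ : 0 < κ) (hκ1 : κ ≤ 1) (hℓ : 1 ≤ ℓ) (hη : 0 < η)
    (hε1p : 0 < ε1) (hε1h : ε1 ≤ 1 / 2) (hδ : 0 < δ) (ha : 0 < a) (hC : 0 < C) (hθ0 : 0 < θ)
    (hθh : θ ≤ 1 / 2) (hθη : 108000 * ℓ * C * θ ≤ η / 16)
    (b1 : ∀ u : ℝ, 0 ≤ u → u ≤ 1 → EE κ a δ N u ≤ C * (κ * La κ ^ 2))
    (b2 : ∀ u : ℝ, κ ≤ u → u ≤ ℓ * La κ → EE κ a δ N u ≤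
        (1 + ε1) * (1 / (2 * Real.pi)) * (κ * La κ ^ 2 * Real.exp (-u ^ 2)) * TT a δ N + C * (G1 κ u + κ))
    (b3 : ∀ u : ℝ, κ ≤ u → u ≤ ℓ * La κ → EE κ a δ N u ≤
        (1 + ε1) ^ 2 / 2 * G0 κ u + C * (κ ^ 2 * G1 κ u) +
          C * (κ * (La κ ^ 2 * Real.exp (-u ^ 2) + Real.exp (-(2 * u)))))
    (hL1 : 1 ≤ La κ) (hLθ : 1 / θ ≤ La κ) (c1 : 8 * ℓ * C * κ ≤ η / 16)
    (c2 : (8 * ℓ * C * K0 * θ) * Real.exp (-(θ ^ 2 / 4) * La κ ^ 2) ≤ η / 16 * κ)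
    (c3 : 8 * ℓ * C * θ * (16 / η) ≤ La κ)
    (c4 : (8 * (2 + C) * ℓ ^ 2 * K1) * Real.exp (ℓ * La κ - η ^ 2 / 4 * La κ ^ 2) ≤ η / 16 * κ)
    (c5 : (8 * ℓ ^ 2 * C) * Real.exp (2 * La κ - θ ^ 2 * La κ ^ 2) ≤ η / 32 * κ)
    (c6 : 8 * ℓ ^ 2 * C * (32 / η) ≤ La κ) (c7 : 16 * C * ℓ * (La κ * κ ^ 2) ≤ ε1)
    (S : Set ℝ) (hS : MeasurableSet S) (hSM : S ⊆ Icc 0 (ℓ * La κ)) (G : ℝ → ℝ) (hGm : Measurable G)
    (hG0 : ∀ v, 0 ≤ G v)
    (hH : ∀ u v, 0 ≤ u → |u - v| ≤ η * La κ → GG S u ≠ 0 → GG S u + 1 ≤ G v)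
    (hGi : Integrable (fun v => fk κ v ^ 2 * G v)) :
    4 * Real.sqrt Real.pi * (∫ u in Ioc 0 (ℓ * La κ), GG S u * EE κ a δ N u) ≤
      (1 + ε1) * TT a δ N * (κ * La κ ^ 2 * (volume S).toReal) +
      Real.pi * ((1 + ε1) ^ 2 + ε1) * (2 * ∫ v, fk κ v ^ 2 * G v) + η / 2 * (κ * La κ ^ 3) := by
  have hpi := Real.pi_gt_three
  have hpi4 := Real.pi_le_four
  have hsq := sqrt_pi_le
  have hsq0 : 0 ≤ Real.sqrt Real.pi := Real.sqrt_nonneg _
  have hsq2 : Real.sqrt Real.pi * Real.sqrt Real.pi = Real.pi := Real.mul_self_sqrt (by linarith)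
  have hK0 := K0_nonneg
  have hK1 := K1_nonneg
  generalize hΛ : La κ = Λ at *
  have hℓ0 : 0 < ℓ := by linarith
  have hΛ0 : 0 < Λ := by linarith
  set s := (volume S).toReal with hs
  have hs0 : 0 ≤ s := ENNReal.toReal_nonneg
  have hM0 : 0 ≤ ℓ * Λ := by positivity
  have hSf : volume S < ⊤ := lt_of_le_of_lt (measure_mono hSM) (by simp)
  have hsM : s ≤ ℓ * Λ := by
    have h1 : volume S ≤ volume (Icc 0 (ℓ * Λ)) := measure_mono hSM
    rw [Real.volume_Icc, sub_zero] at h1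
    have := ENNReal.toReal_mono (by simp) h1
    rwa [ENNReal.toReal_ofReal hM0] at this
  set Φ := ∫ v, fk κ v ^ 2 * G v with hΦ
  have hΦ0 : 0 ≤ Φ := integral_nonneg fun v => mul_nonneg (sq_nonneg _) (hG0 v)
  obtain ⟨U, hU⟩ : ∃ U, U = θ * Λ := ⟨_, rfl⟩
  have hU1 : 1 ≤ U := by
    rw [hU]
    rw [div_le_iff₀ hθ0] at hLθ
    linarith
  have hUM : U ≤ ℓ * Λ := by rw [hU]; exact mul_le_mul_of_nonneg_right (by linarith) hΛ0.le
  have hκU : κ ≤ U := hκ1.trans hU1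
  have hTT0 : 0 ≤ TT a δ N := by
    unfold TT
    exact Finset.sum_nonneg fun j _ => by
      have := Wj_pos (a := a) hδ j
      have := xj_pos ha hδ (j + 1)
      positivity
  have hspl := I_split κ hκ hκ1 S hS hSf (EE κ a δ N) (EE_cont κ a δ N) U (ℓ * Λ) (C * (κ * Λ ^ 2))
    ((1 + ε1) * (1 / (2 * Real.pi)) * (κ * Λ ^ 2) * TT a δ N) C
    (C * (κ * (Λ ^ 2 * Real.exp (-U ^ 2) + Real.exp (-(2 * U))))) ((1 + ε1) ^ 2 / 2) (C * κ ^ 2)
    hκU hUM (by positivity) (by positivity) hC.le (by positivity) (by positivity) (by positivity)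
    (fun u hu => b1 u hu.1.le (hu.2.trans hκ1))
    (fun u hu => (b2 u hu.1.le (hu.2.trans hUM)).trans (le_of_eq (by ring)))
    (fun u hu => by
      have h1 := b3 u (hκU.trans hu.1.le) hu.2
      have h2 : Real.exp (-u ^ 2) ≤ Real.exp (-U ^ 2) := Real.exp_le_exp.2 (by nlinarith [hu.1])
      have h3 : Real.exp (-(2 * u)) ≤ Real.exp (-(2 * U)) := Real.exp_le_exp.2 (by linarith [hu.1])
      have h4 : C * (κ * (Λ ^ 2 * Real.exp (-u ^ 2) + Real.exp (-(2 * u)))) ≤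
          C * (κ * (Λ ^ 2 * Real.exp (-U ^ 2) + Real.exp (-(2 * U)))) := by
        apply mul_le_mul_of_nonneg_left _ hC.le
        apply mul_le_mul_of_nonneg_left _ hκ.le
        exact add_le_add (mul_le_mul_of_nonneg_left h2 (by positivity)) h3
      linarith)
  have hfi : IntegrableOn (fun v => fk κ v ^ 2) (Iic (2 * U)) := by
    have := fk_wt_int κ 1 0 (2 * U) (2 * U) hκ hκ1 zero_le_one le_rfl le_rfl
    simpa using this
  have hsw1 := swap1 κ U hκ hκ1 (by linarith) hfi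
  have hcr := crude κ (2 * U) hκ hκ1 (by linarith)
    (by rw [hU, hΛ, ← mul_assoc]; exact (mul_le_mul_of_nonneg_right (by linarith : 2 * θ ≤ 1) hΛ0.le).trans (by linarith))
  have hsw2 := swap2 κ hκ hκ1 S hSf ((1 + ε1) ^ 2 / 2) (C * κ ^ 2) (ℓ * Λ) (η * Λ) (by positivity) (by positivity)
    hM0 (by positivity) G hGm hG0 hH hGi
  rw [← hs] at hspl hsw2
  rw [← hΦ] at hsw2
  set I := ∫ u in Ioc 0 (ℓ * Λ), GG S u * EE κ a δ N u with hI
  set SW := ∫ u in Ioc 0 (ℓ * Λ), GG S u * ((1 + ε1) ^ 2 / 2 * G0 κ u + C * κ ^ 2 * G1 κ u) with hSW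
  set G1I := ∫ u in Ioc 0 U, G1 κ u with hG1I
  -- the error terms
  have hG1b : G1I ≤ 13500 * κ * U ^ 2 + K0 * U * Real.exp (-U ^ 2 / 4) := by
    have h1 : (1 + 2 * U) ^ 2 ≤ 9 * U ^ 2 := by nlinarith
    have h2 : 3 * (500 * κ * (1 + 2 * U) ^ 2) ≤ 13500 * κ * U ^ 2 := by nlinarith
    linarith
  have hexp1 : Real.exp (-U ^ 2 / 4) = Real.exp (-(θ ^ 2 / 4) * Λ ^ 2) := by rw [hU]; congr 1; ring
  have hκΛ3 : 0 ≤ κ * Λ ^ 3 := by positivity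
  -- e1
  have q1 : 8 * (s * (C * (κ * Λ ^ 2) * κ)) ≤ η / 16 * (κ * Λ ^ 3) := by
    have h1 : 8 * (s * (C * (κ * Λ ^ 2) * κ)) ≤ 8 * ((ℓ * Λ) * (C * (κ * Λ ^ 2) * κ)) := by
      have : 0 ≤ C * (κ * Λ ^ 2) * κ := by positivity
      have := mul_le_mul_of_nonneg_right hsM this
      linarith
    have h2 := mul_le_mul_of_nonneg_right c1 hκΛ3
    calc _ ≤ _ := h1
      _ = 8 * ℓ * C * κ * (κ * Λ ^ 3) := by ring
      _ ≤ _ := h2
  have q2a : 8 * (s * (C * (13500 * κ * U ^ 2))) ≤ η / 16 * (κ * Λ ^ 3) := by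
    have h0 : 0 ≤ C * (13500 * κ * U ^ 2) := by positivity
    have h1 := mul_le_mul_of_nonneg_right hsM h0
    have h2 : 108000 * ℓ * C * θ ^ 2 ≤ η / 16 := by
      have : θ ^ 2 ≤ θ := by nlinarith
      have := mul_le_mul_of_nonneg_left this (by positivity : 0 ≤ 108000 * ℓ * C)
      linarith
    have h3 := mul_le_mul_of_nonneg_right h2 hκΛ3
    calc _ ≤ 8 * (ℓ * Λ * (C * (13500 * κ * U ^ 2))) := by linarith
      _ = 108000 * ℓ * C * θ ^ 2 * (κ * Λ ^ 3) := by rw [hU]; ring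
      _ ≤ _ := h3
  have q2b : 8 * (s * (C * (K0 * U * Real.exp (-U ^ 2 / 4)))) ≤ η / 16 * (κ * Λ ^ 3) := by
    have h0 : 0 ≤ C * (K0 * U * Real.exp (-U ^ 2 / 4)) := by positivity
    have h1 := mul_le_mul_of_nonneg_right hsM h0
    have h3 := mul_le_mul_of_nonneg_right c2 (by positivity : 0 ≤ Λ ^ 2)
    have h4 : η / 16 * κ * Λ ^ 2 ≤ η / 16 * (κ * Λ ^ 3) := by
      have : κ * Λ ^ 2 * 1 ≤ κ * Λ ^ 2 * Λ := mul_le_mul_of_nonneg_left hL1 (by positivity)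
      have := mul_le_mul_of_nonneg_left this (by positivity : 0 ≤ η / 16)
      calc _ = η / 16 * (κ * Λ ^ 2 * 1) := by ring
        _ ≤ _ := this
        _ = _ := by ring
    calc _ ≤ 8 * (ℓ * Λ * (C * (K0 * U * Real.exp (-U ^ 2 / 4)))) := by linarith
      _ = 8 * ℓ * C * K0 * θ * Real.exp (-(θ ^ 2 / 4) * Λ ^ 2) * Λ ^ 2 := by rw [hexp1, hU]; ring
      _ ≤ _ := h3.trans h4
  have q2c : 8 * (s * (C * (κ * U))) ≤ η / 16 * (κ * Λ ^ 3) := by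
    have h0 : 0 ≤ C * (κ * U) := by positivity
    have h1 := mul_le_mul_of_nonneg_right hsM h0
    have h2 : 8 * ℓ * C * θ ≤ η / 16 * Λ := by
      have := mul_le_mul_of_nonneg_left c3 (by positivity : 0 ≤ η / 16)
      have e : η / 16 * (8 * ℓ * C * θ * (16 / η)) = 8 * ℓ * C * θ := by field_simp
      linarith
    have h3 := mul_le_mul_of_nonneg_right h2 (by positivity : 0 ≤ κ * Λ ^ 2)
    calc _ ≤ 8 * (ℓ * Λ * (C * (κ * U))) := by linarith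
      _ = 8 * ℓ * C * θ * (κ * Λ ^ 2) := by rw [hU]; ring
      _ ≤ _ := h3
      _ = _ := by ring
  have q3 : 24 * (C * κ ^ 2) * s ≤ 2 * 3 * ε1 := by
    have h1 := mul_le_mul_of_nonneg_left hsM (by positivity : 0 ≤ 24 * (C * κ ^ 2))
    calc _ ≤ _ := h1
      _ = 3 / 2 * (16 * C * ℓ * (Λ * κ ^ 2)) := by ring
      _ ≤ 3 / 2 * ε1 := by linarith
      _ ≤ _ := by linarith
  have q4 : 8 * (((1 + ε1) ^ 2 / 2 + C * κ ^ 2) * s * Real.exp (-(η * Λ) ^ 2 / 4) *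
      (K1 * (ℓ * Λ * Real.exp (ℓ * Λ)))) ≤ η / 16 * (κ * Λ ^ 3) := by
    have h0 : (1 + ε1) ^ 2 / 2 + C * κ ^ 2 ≤ 2 + C := by
      have : κ ^ 2 ≤ 1 := by nlinarith
      have := mul_le_mul_of_nonneg_left this hC.le
      nlinarith
    have h1 : ((1 + ε1) ^ 2 / 2 + C * κ ^ 2) * s ≤ (2 + C) * (ℓ * Λ) :=
      mul_le_mul h0 hsM hs0 (by positivity)
    have hE : 0 ≤ Real.exp (-(η * Λ) ^ 2 / 4) * (K1 * (ℓ * Λ * Real.exp (ℓ * Λ))) := by positivity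
    have h2 := mul_le_mul_of_nonneg_right h1 hE
    have hexp : Real.exp (-(η * Λ) ^ 2 / 4) * Real.exp (ℓ * Λ) = Real.exp (ℓ * Λ - η ^ 2 / 4 * Λ ^ 2) := by
      rw [← Real.exp_add]; congr 1; ring
    have h3 := mul_le_mul_of_nonneg_right c4 (by positivity : 0 ≤ Λ ^ 2)
    have h4 : η / 16 * κ * Λ ^ 2 ≤ η / 16 * (κ * Λ ^ 3) := by
      have : κ * Λ ^ 2 * 1 ≤ κ * Λ ^ 2 * Λ := mul_le_mul_of_nonneg_left hL1 (by positivity)
      have := mul_le_mul_of_nonneg_left this (by positivity : 0 ≤ η / 16)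
      calc _ = η / 16 * (κ * Λ ^ 2 * 1) := by ring
        _ ≤ _ := this
        _ = _ := by ring
    calc _ = 8 * (((1 + ε1) ^ 2 / 2 + C * κ ^ 2) * s * (Real.exp (-(η * Λ) ^ 2 / 4) * (K1 * (ℓ * Λ * Real.exp (ℓ * Λ))))) := by
          ring
      _ ≤ 8 * ((2 + C) * (ℓ * Λ) * (Real.exp (-(η * Λ) ^ 2 / 4) * (K1 * (ℓ * Λ * Real.exp (ℓ * Λ))))) := by linarith
      _ = 8 * (2 + C) * ℓ ^ 2 * K1 * (Real.exp (-(η * Λ) ^ 2 / 4) * Real.exp (ℓ * Λ)) * Λ ^ 2 := by ring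
      _ ≤ _ := by rw [hexp]; exact h3.trans h4
  have q5 : 8 * (s * (C * (κ * (Λ ^ 2 * Real.exp (-U ^ 2) + Real.exp (-(2 * U)))) * (ℓ * Λ))) ≤ η / 16 * (κ * Λ ^ 3) := by
    have h0 : 0 ≤ C * (κ * (Λ ^ 2 * Real.exp (-U ^ 2) + Real.exp (-(2 * U)))) * (ℓ * Λ) := by positivity
    have h1 := mul_le_mul_of_nonneg_right hsM h0
    have h2 : Λ ^ 2 * Real.exp (-U ^ 2) ≤ Real.exp (2 * Λ - θ ^ 2 * Λ ^ 2) := by
      have e1 : Λ ≤ Real.exp Λ := by linarith [Real.add_one_le_exp Λ]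
      have e2 : Λ ^ 2 ≤ Real.exp (2 * Λ) := by
        have := pow_le_pow_left₀ hΛ0.le e1 2
        rwa [← Real.exp_nat_mul, Nat.cast_ofNat] at this
      have e3 : Real.exp (2 * Λ - θ ^ 2 * Λ ^ 2) = Real.exp (2 * Λ) * Real.exp (-U ^ 2) := by
        rw [← Real.exp_add, hU]; congr 1; ring
      rw [e3]
      exact mul_le_mul_of_nonneg_right e2 (Real.exp_pos _).le
    have h3 : Real.exp (-(2 * U)) ≤ 1 := Real.exp_le_one_iff.2 (by linarith)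
    have h4 : 8 * ℓ ^ 2 * C ≤ η / 32 * Λ := by
      have := mul_le_mul_of_nonneg_left c6 (by positivity : 0 ≤ η / 32)
      have e : η / 32 * (8 * ℓ ^ 2 * C * (32 / η)) = 8 * ℓ ^ 2 * C := by field_simp
      linarith
    have h5 : 8 * ℓ ^ 2 * C * (Λ ^ 2 * Real.exp (-U ^ 2) + Real.exp (-(2 * U))) ≤ η / 16 * Λ := by
      have k1 := mul_le_mul_of_nonneg_left h2 (by positivity : 0 ≤ 8 * ℓ ^ 2 * C)
      have k2 := mul_le_mul_of_nonneg_left h3 (by positivity : 0 ≤ 8 * ℓ ^ 2 * C)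
      have k3 : η / 32 * κ ≤ η / 32 * Λ := mul_le_mul_of_nonneg_left (hκ1.trans hL1) (by positivity)
      linarith
    have h6 := mul_le_mul_of_nonneg_right h5 (by positivity : 0 ≤ κ * Λ ^ 2)
    calc _ ≤ 8 * (ℓ * Λ * (C * (κ * (Λ ^ 2 * Real.exp (-U ^ 2) + Real.exp (-(2 * U)))) * (ℓ * Λ))) := by linarith
      _ = 8 * ℓ ^ 2 * C * (Λ ^ 2 * Real.exp (-U ^ 2) + Real.exp (-(2 * U))) * (κ * Λ ^ 2) := by ring
      _ ≤ _ := h6
      _ = _ := by ring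
  -- put together
  have t1 : 4 * Real.sqrt Real.pi * (s * (C * (κ * Λ ^ 2) * κ)) ≤ 8 * (s * (C * (κ * Λ ^ 2) * κ)) :=
    mul_le_mul_of_nonneg_right (by linarith) (by positivity)
  have t2 : 4 * Real.sqrt Real.pi * (s * ((1 + ε1) * (1 / (2 * Real.pi)) * (κ * Λ ^ 2) * TT a δ N * (Real.sqrt Real.pi / 2))) =
      (1 + ε1) * TT a δ N * (κ * Λ ^ 2 * s) := by
    calc _ = (Real.sqrt Real.pi * Real.sqrt Real.pi) * (1 / Real.pi) * ((1 + ε1) * TT a δ N * (κ * Λ ^ 2 * s)) := by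
          field_simp; ring
      _ = _ := by rw [hsq2]; field_simp
  have t3 : 4 * Real.sqrt Real.pi * (s * (C * (G1I + κ * U))) ≤ 8 * (s * (C * (13500 * κ * U ^ 2))) +
      8 * (s * (C * (K0 * U * Real.exp (-U ^ 2 / 4)))) + 8 * (s * (C * (κ * U))) := by
    have h1 : s * (C * (G1I + κ * U)) ≤ s * (C * (13500 * κ * U ^ 2 + K0 * U * Real.exp (-U ^ 2 / 4) + κ * U)) := by
      apply mul_le_mul_of_nonneg_left _ hs0
      apply mul_le_mul_of_nonneg_left _ hC.le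
      linarith
    have h2 : 0 ≤ s * (C * (13500 * κ * U ^ 2 + K0 * U * Real.exp (-U ^ 2 / 4) + κ * U)) := by positivity
    calc _ ≤ 4 * Real.sqrt Real.pi * (s * (C * (13500 * κ * U ^ 2 + K0 * U * Real.exp (-U ^ 2 / 4) + κ * U))) :=
          mul_le_mul_of_nonneg_left h1 (by positivity)
      _ ≤ 8 * (s * (C * (13500 * κ * U ^ 2 + K0 * U * Real.exp (-U ^ 2 / 4) + κ * U))) :=
          mul_le_mul_of_nonneg_right (by linarith) h2
      _ = _ := by ring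
  have t4 : 4 * Real.sqrt Real.pi * SW ≤ Real.pi * ((1 + ε1) ^ 2 + ε1) * (2 * Φ) + η / 16 * (κ * Λ ^ 3) := by
    have h1 := mul_le_mul_of_nonneg_left hsw2 (by positivity : 0 ≤ 4 * Real.sqrt Real.pi)
    have h2 : 4 * Real.sqrt Real.pi * (((1 + ε1) ^ 2 / 2 + C * κ ^ 2) * s * Real.exp (-(η * Λ) ^ 2 / 4) *
      (K1 * (ℓ * Λ * Real.exp (ℓ * Λ)))) ≤ η / 16 * (κ * Λ ^ 3) :=
      le_trans (mul_le_mul_of_nonneg_right (by linarith) (by positivity)) q4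
    have h3 : 4 * Real.sqrt Real.pi * (((1 + ε1) ^ 2 / 2 * Real.sqrt Real.pi + 3 * (C * κ ^ 2) * s) * Φ) ≤
        Real.pi * ((1 + ε1) ^ 2 + ε1) * (2 * Φ) := by
      have k1 : 4 * Real.sqrt Real.pi * ((1 + ε1) ^ 2 / 2 * Real.sqrt Real.pi + 3 * (C * κ ^ 2) * s) ≤
          2 * Real.pi * ((1 + ε1) ^ 2 + ε1) := by
        have e1 : 4 * Real.sqrt Real.pi * ((1 + ε1) ^ 2 / 2 * Real.sqrt Real.pi + 3 * (C * κ ^ 2) * s) =
            2 * (Real.sqrt Real.pi * Real.sqrt Real.pi) * (1 + ε1) ^ 2 + Real.sqrt Real.pi * (12 * (C * κ ^ 2) * s) := by ring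
        rw [e1, hsq2]
        have e2 : Real.sqrt Real.pi * (12 * (C * κ ^ 2) * s) ≤ 2 * (12 * (C * κ ^ 2) * s) :=
          mul_le_mul_of_nonneg_right hsq (by positivity)
        have e3 : 2 * 3 * ε1 ≤ 2 * Real.pi * ε1 := mul_le_mul_of_nonneg_right (by linarith) hε1p.le
        linarith
      have := mul_le_mul_of_nonneg_right k1 hΦ0
      linarith
    linarith
  have t5 : 4 * Real.sqrt Real.pi * (s * (C * (κ * (Λ ^ 2 * Real.exp (-U ^ 2) + Real.exp (-(2 * U)))) * (ℓ * Λ))) ≤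
      8 * (s * (C * (κ * (Λ ^ 2 * Real.exp (-U ^ 2) + Real.exp (-(2 * U)))) * (ℓ * Λ))) :=
    mul_le_mul_of_nonneg_right (by linarith) (by positivity)
  have hfin := mul_le_mul_of_nonneg_left hspl (by positivity : 0 ≤ 4 * Real.sqrt Real.pi)
  have hηκ : 0 ≤ η * (κ * Λ ^ 3) := mul_nonneg hη.le hκΛ3
  linarith

end Pool.Agent.L5helper10.TV
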