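import Pool.Agent.L5helper10.TV.Star

/-! The main inequality, final form. -/

set_option autoImplicit false

open Filter Topology Set MeasureTheory H370

namespace Pool.Agent.L5helper10.TV

lemma gauss_small' (q A c : ℝ) (hq : 0 < q) (hA : 0 ≤ A) (hc : 0 < c) :
    ∀ᶠ κ in 𝓝[>] (0 : ℝ), A * Real.exp (-q * La κ ^ 2) ≤ c * κ := by
  filter_upwards [gauss_small q 0 A c hq hA hc] with κ h
  have : -q * La κ ^ 2 = 0 * La κ - q * La κ ^ 2 := by ring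
  rw [this]; exact h

lemma sq_small (A c : ℝ) (hA : 0 ≤ A) (hc : 0 < c) : ∀ᶠ κ in 𝓝[>] (0 : ℝ), A * (La κ * κ ^ 2) ≤ c := by
  filter_upwards [La_small c A hc 1, le_one_ev, self_mem_nhdsWithin, La_ge 0] with κ h1 h2 h3 h4
  have hκ : 0 < κ := h3
  rw [pow_one, le_div_iff₀ hκ] at h1
  have h5 : 0 ≤ A * La κ * κ := by positivity
  calc A * (La κ * κ ^ 2) = A * La κ * κ * κ := by ring
    _ ≤ A * La κ * κ * 1 := mul_le_mul_of_nonneg_left h2 h5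
    _ ≤ c := by linarith

theorem star_up_ev (ℓ η ε1 θ C a δ : ℝ) (N : ℕ) (hℓ : 1 ≤ ℓ) (hη : 0 < η)
    (hε1p : 0 < ε1) (hε1h : ε1 ≤ 1 / 2) (hδ : 0 < δ) (ha : 0 < a) (hC : 0 < C) (hθ0 : 0 < θ)
    (hθh : θ ≤ 1 / 2) (hθη : 108000 * ℓ * C * θ ≤ η / 16)
    (hE : ∀ᶠ κ in 𝓝[>] (0 : ℝ), (∀ u : ℝ, 0 ≤ u → u ≤ 1 → EE κ a δ N u ≤ C * (κ * La κ ^ 2)) ∧
      (∀ u : ℝ, κ ≤ u → u ≤ ℓ * La κ → EE κ a δ N u ≤
        (1 + ε1) * (1 / (2 * Real.pi)) * (κ * La κ ^ 2 * Real.exp (-u ^ 2)) * TT a δ N + C * (G1 κ u + κ)) ∧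
      (∀ u : ℝ, κ ≤ u → u ≤ ℓ * La κ → EE κ a δ N u ≤
        (1 + ε1) ^ 2 / 2 * G0 κ u + C * (κ ^ 2 * G1 κ u) +
          C * (κ * (La κ ^ 2 * Real.exp (-u ^ 2) + Real.exp (-(2 * u)))))) :
    ∀ᶠ κ in 𝓝[>] (0 : ℝ), ∀ S : Set ℝ, MeasurableSet S → S ⊆ Icc 0 (ℓ * La κ) →
      ∀ G : ℝ → ℝ, Measurable G → (∀ v, 0 ≤ G v) →
      (∀ u v, 0 ≤ u → |u - v| ≤ η * La κ → GG S u ≠ 0 → GG S u + 1 ≤ G v) →
      Integrable (fun v => fk κ v ^ 2 * G v) →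
      4 * Real.sqrt Real.pi * (∫ u in Ioc 0 (ℓ * La κ), GG S u * EE κ a δ N u) ≤
      (1 + ε1) * TT a δ N * (κ * La κ ^ 2 * (volume S).toReal) +
      Real.pi * ((1 + ε1) ^ 2 + ε1) * (2 * ∫ v, fk κ v ^ 2 * G v) + η / 2 * (κ * La κ ^ 3) := by
  have hK0 := K0_nonneg
  have hK1 := K1_nonneg
  have hℓ0 : 0 < ℓ := by linarith
  have e1 : ∀ᶠ κ in 𝓝[>] (0 : ℝ), 8 * ℓ * C * κ ≤ η / 16 := by
    filter_upwards [La_small (η / 16) (8 * ℓ * C) (by positivity) 0, self_mem_nhdsWithin] with κ h1 h2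
    have hκ : 0 < κ := h2
    rwa [pow_zero, mul_one, le_div_iff₀ hκ] at h1
  have e2 := gauss_small' (θ ^ 2 / 4) (8 * ℓ * C * K0 * θ) (η / 16) (by positivity) (by positivity) (by positivity)
  have e4 := gauss_small (η ^ 2 / 4) ℓ (8 * (2 + C) * ℓ ^ 2 * K1) (η / 16) (by positivity) (by positivity) (by positivity)
  have e5 := gauss_small (θ ^ 2) 2 (8 * ℓ ^ 2 * C) (η / 32) (by positivity) (by positivity) (by positivity)
  have e7 := sq_small (16 * C * ℓ) ε1 (by positivity) hε1p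
  have eκ : ∀ᶠ κ in 𝓝[>] (0 : ℝ), 0 < κ := self_mem_nhdsWithin
  have eall := (hE.and (eκ.and (le_one_ev.and ((La_ge 1).and ((La_ge (1 / θ)).and (e1.and (e2.and
    ((La_ge (8 * ℓ * C * θ * (16 / η))).and (e4.and (e5.and ((La_ge (8 * ℓ ^ 2 * C * (32 / η))).and e7)))))))))))
  refine eall.mono fun κ h => ?_
  obtain ⟨⟨b1, b2, b3⟩, hκ, hκ1, hL1, hLθ, c1, c2, c3, c4, c5, c6, c7⟩ := h
  intro S hS hSM G hGm hG0 hH hGi
  exact star_up κ ℓ η ε1 θ C a δ N hκ hκ1 hℓ hη hε1p hε1h hδ ha hC hθ0 hθh hθη b1 b2 b3 hL1 hLθ c1 c2 c3 c4 c5 c6 c7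
    S hS hSM G hGm hG0 hH hGi

theorem star (ℓ η : ℝ) (hℓ : 1 ≤ ℓ) (hη : 0 < η) :
    ∀ᶠ κ in 𝓝[>] (0 : ℝ), ∀ S : Set ℝ, MeasurableSet S → S ⊆ Icc 0 (ℓ * La κ) →
      ∀ G : ℝ → ℝ, Measurable G → (∀ v, 0 ≤ G v) →
      (∀ u v, 0 ≤ u → |u - v| ≤ η * La κ → GG S u ≠ 0 → GG S u + 1 ≤ G v) →
      Integrable (fun v => fk κ v ^ 2 * G v) →
      κ * La κ * (volume S).toReal ^ 2 ≤ κ * La κ ^ 2 * (volume S).toReal + 2 * (∫ v, fk κ v ^ 2 * G v) +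
        η * (κ * La κ ^ 3) := by
  have hpi := Real.pi_gt_three
  have hℓ0 : 0 < ℓ := by linarith
  set ε1 : ℝ := min (1 / 2) (η / (24 * ℓ ^ 2)) with hε1
  have hε1p : 0 < ε1 := by rw [hε1]; positivity
  have hε1h : ε1 ≤ 1 / 2 := min_le_left _ _
  have hε1η : ε1 * ℓ ^ 2 ≤ η / 24 := by
    have : ε1 ≤ η / (24 * ℓ ^ 2) := min_le_right _ _
    rw [le_div_iff₀ (by positivity)] at this
    linarith
  obtain ⟨a, δ, ε, N, ha, hδ, hδa, hδ1, hε, hεε, hT1, hT2⟩ := num ε1 hε1p (by linarith)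
  obtain ⟨C, hC, hEE⟩ := EE_bd ℓ a δ ε1 N hℓ ha hδ hδa hε1p (by linarith)
  set θ : ℝ := min (1 / 2) (η / (16 * 108000 * ℓ * C)) with hθ
  have hθ0 : 0 < θ := by rw [hθ]; positivity
  have hθh : θ ≤ 1 / 2 := min_le_left _ _
  have hθη : 108000 * ℓ * C * θ ≤ η / 16 := by
    have : θ ≤ η / (16 * 108000 * ℓ * C) := min_le_right _ _
    rw [le_div_iff₀ (by positivity)] at this
    linarith
  have hup := star_up_ev ℓ η ε1 θ C a δ N hℓ hη hε1p hε1h hδ ha hC hθ0 hθh hθη hEE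
  have hlow := lower_EE a δ ε N ha hδ hδ1 hε (by linarith)
  have eκ : ∀ᶠ κ in 𝓝[>] (0 : ℝ), 0 < κ := self_mem_nhdsWithin
  refine (hup.and (hlow.and (eκ.and (La_ge 1)))).mono fun κ h => ?_
  obtain ⟨k1, k2, hκ, hL1⟩ := h
  intro S hS hSM G hGm hG0 hH hGi
  have h1 := k1 S hS hSM G hGm hG0 hH hGi
  have hM0 : 0 ≤ ℓ * La κ := by positivity
  have h2 := k2 S hS (ℓ * La κ) hM0 hSM
  have hsM : (volume S).toReal ≤ ℓ * La κ := by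
    have h1 : volume S ≤ volume (Icc 0 (ℓ * La κ)) := measure_mono hSM
    rw [Real.volume_Icc, sub_zero] at h1
    have := ENNReal.toReal_mono (by simp) h1
    rwa [ENNReal.toReal_ofReal hM0] at this
  have hs0 : 0 ≤ (volume S).toReal := ENNReal.toReal_nonneg
  have hΦ0 : 0 ≤ ∫ v, fk κ v ^ 2 * G v := integral_nonneg fun v => mul_nonneg (sq_nonneg _) (hG0 v)
  generalize (volume S).toReal = s at *
  generalize (∫ v, fk κ v ^ 2 * G v) = Φ at *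
  have hΛ0 : 0 < La κ := by linarith
  have h3 := star_alg (κ * La κ * s ^ 2) (κ * La κ ^ 2 * s) (2 * Φ) ε1 (ℓ ^ 2) (κ * La κ ^ 3) (η / 2 * (κ * La κ ^ 3))
    (TT a δ N) _ _ Real.pi ε η hpi (by positivity) (by positivity) (by positivity) hε1p hε1h hε hεε hη (by positivity)
    (by positivity) ?_ ?_ hT2 hT1 hε1η (le_trans (le_of_eq ?_) h2) (h1.trans (le_of_eq (by ring))) le_rfl
  · exact h3
  · have := pow_le_pow_left₀ hs0 hsM 2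
    have := mul_le_mul_of_nonneg_left this (by positivity : 0 ≤ κ * La κ)
    calc _ ≤ _ := this
      _ = _ := by ring
  · have := mul_le_mul_of_nonneg_left hsM (by positivity : 0 ≤ κ * La κ ^ 2)
    have h4 : ℓ * (κ * La κ ^ 3) ≤ ℓ ^ 2 * (κ * La κ ^ 3) :=
      mul_le_mul_of_nonneg_right (by nlinarith) (by positivity)
    calc _ ≤ _ := this
      _ = ℓ * (κ * La κ ^ 3) := by ring
      _ ≤ _ := h4
  · ring

end Pool.Agent.L5helper10.TV
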