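import Pool.Agent.L5helper10.TV.Ms
import Pool.Agent.L5helper10.TV.Star2

/-! Uniform form of the transfer to the normalised variance. -/

set_option autoImplicit false

open Filter Topology Set MeasureTheory
open scoped ENNReal

namespace Pool.Agent.L5helper10.TV

lemma lift_ev {P : ℝ → Prop} (h : ∀ᶠ κ in 𝓝[>] (0 : ℝ), P κ) (q Q : ℝ) (hq : 0 < q) :
    ∀ᶠ T in atTop, ∀ κ ∈ Ioo (q / T) (Q / T), P κ := by
  obtain ⟨κ0, hκ0, hsub⟩ := mem_nhdsGT_iff_exists_Ioo_subset.1 h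
  have hκ0' : 0 < κ0 := hκ0
  filter_upwards [eventually_gt_atTop 0, eventually_ge_atTop (Q / κ0)] with T hT hT2 κ hκ
  apply hsub
  refine ⟨lt_trans (by positivity) hκ.1, hκ.2.trans_le ?_⟩
  rw [div_le_iff₀ hκ0'] at hT2
  rw [div_le_iff₀ hT]
  linarith

lemma geo (T q Q κ : ℝ) (hT : 1 ≤ T) (hq : 1 ≤ q) (hQT : Q / T ≤ 1 / 2) (hκ : κ ∈ Ioo (q / T) (Q / T)) :
    0 < κ ∧ κ ≤ 1 ∧ La κ ≤ Real.log T ∧ Real.log T ≤ La κ + Real.log Q ∧ 0 ≤ ss T κ ∧ ss T κ ≤ Real.log (2 * Q) ∧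
      La κ + ss T κ ≤ Real.log T + Real.log 2 := by
  have hT0 : 0 < T := by linarith
  have hκ0 : 0 < κ := lt_trans (by positivity) hκ.1
  have hκ1 : κ ≤ 1 := by linarith [hκ.2]
  have hs : 0 < Real.sinh (κ / 2) := Real.sinh_pos_iff.2 (by linarith)
  have hge := sinh_half_ge κ hκ0.le
  have hle := sinh_half_le κ hκ0.le hκ1
  have h1 : q < κ * T := (div_lt_iff₀ hT0).1 hκ.1
  have h2 : κ * T < Q := (lt_div_iff₀ hT0).1 hκ.2
  have hQ0 : 0 < Q := by nlinarith
  refine ⟨hκ0, hκ1, ?_, ?_, ?_, ?_, ?_⟩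
  · unfold La
    have : 0 ≤ Real.log (κ * T) := Real.log_nonneg (by linarith)
    rw [Real.log_mul hκ0.ne' hT0.ne'] at this
    linarith
  · unfold La
    have : Real.log (κ * T) ≤ Real.log Q := Real.log_le_log (by positivity) h2.le
    rw [Real.log_mul hκ0.ne' hT0.ne'] at this
    linarith
  · unfold ss
    apply Real.log_nonneg
    have := mul_le_mul_of_nonneg_left hge hT0.le
    linarith
  · unfold ss
    apply Real.log_le_log (by positivity)
    have := mul_le_mul_of_nonneg_left hle hT0.le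
    linarith
  · unfold La ss
    have h3 : Real.log (2 * T * Real.sinh (κ / 2)) ≤ Real.log (T * (2 * κ)) := by
      apply Real.log_le_log (by positivity)
      have := mul_le_mul_of_nonneg_left hle hT0.le
      linarith
    rw [Real.log_mul hT0.ne' (by positivity), Real.log_mul (by norm_num) hκ0.ne'] at h3
    linarith

lemma cosh_le_ev (q : ℝ) (hq : 1 < q) : ∀ᶠ κ in 𝓝[>] (0 : ℝ), Real.cosh (κ / 2) ≤ q := by
  have h1 : Tendsto (fun κ : ℝ => Real.cosh (κ / 2)) (𝓝[>] 0) (𝓝 1) := by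
    have h : Continuous (fun κ : ℝ => Real.cosh (κ / 2)) := Real.continuous_cosh.comp (continuous_id.div_const 2)
    have := h.tendsto 0
    simp only [zero_div, Real.cosh_zero] at this
    exact this.mono_left nhdsWithin_le_nhds
  exact h1.eventually_le_const hq

lemma sinh_le_ev (ρ : ℝ) (hρ : 1 < ρ) : ∀ᶠ κ in 𝓝[>] (0 : ℝ), 2 * Real.sinh (κ / 2) ≤ ρ * κ := by
  filter_upwards [cosh_le_ev ρ hρ, self_mem_nhdsWithin] with κ h1 h2
  have hκ : 0 < κ := h2
  -- `sinh x ≤ x cosh x`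
  have h3 : Real.sinh (κ / 2) ≤ κ / 2 * Real.cosh (κ / 2) := by
    have hmono : MonotoneOn (fun x : ℝ => x * Real.cosh x - Real.sinh x) (Ici 0) := by
      apply monotoneOn_of_deriv_nonneg (convex_Ici 0)
      · fun_prop
      · fun_prop
      · intro x hx
        rw [interior_Ici] at hx
        have hx0 : 0 < x := hx
        have hd : HasDerivAt (fun x : ℝ => x * Real.cosh x - Real.sinh x) (1 * Real.cosh x + x * Real.sinh x - Real.cosh x) x :=
          ((hasDerivAt_id x).mul (Real.hasDerivAt_cosh x)).sub (Real.hasDerivAt_sinh x)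
        rw [hd.deriv]
        have := Real.sinh_pos_iff.2 hx0
        have := mul_pos hx0 this
        linarith
    have := hmono (Set.mem_Ici.2 (le_refl (0 : ℝ))) (Set.mem_Ici.2 (by positivity : (0 : ℝ) ≤ κ / 2)) (by positivity)
    simp only [zero_mul, Real.sinh_zero, sub_zero] at this
    linarith
  have h4 : κ / 2 * Real.cosh (κ / 2) ≤ κ / 2 * ρ := mul_le_mul_of_nonneg_left h1 (by positivity)
  linarith

/-- integrability against bounded weights vanishing on the right -/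
lemma fkG_int (κ : ℝ) (hκ0 : 0 ≤ κ) (hκ : κ ≤ 1) (G : ℝ → ℝ) (hGm : Measurable G) (hG0 : ∀ v, 0 ≤ G v) (K B : ℝ)
    (hGK : ∀ v, G v ≤ K) (hGB : ∀ v, B < v → G v = 0) : Integrable (fun v => fk κ v ^ 2 * G v) := by
  have hK : 0 ≤ K := (hG0 0).trans (hGK 0)
  have h1 : IntegrableOn (fun v : ℝ => 100 * K * Real.exp v) (Iic B) := (integrableOn_exp_Iic B).const_mul _
  have h2 : Integrable ((Iic B).indicator (fun v : ℝ => 100 * K * Real.exp v)) := h1.integrable_indicator measurableSet_Iic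
  refine h2.mono' (((fk_meas κ).pow_const 2).mul hGm).aestronglyMeasurable (Eventually.of_forall fun v => ?_)
  rw [Real.norm_of_nonneg (mul_nonneg (sq_nonneg _) (hG0 v))]
  simp only [Set.indicator_apply, Set.mem_Iic]
  split_ifs with h
  · have h3 := fk_sq κ v hκ0 hκ
    calc fk κ v ^ 2 * G v ≤ 100 * Real.exp v * K := mul_le_mul h3 (hGK v) (hG0 v) (by positivity)
      _ = _ := by ring
  · rw [hGB v (not_le.1 h), mul_zero]

/-- the tail integral from the full integral and the central part -/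
lemma tail_low (κ m R X : ℝ) (hκ0 : 0 < κ) (hκ : κ ≤ 1) (hm : 0 ≤ m) (hR : La κ ≤ R) (G : ℝ → ℝ)
    (hi : Integrable (fun v => fk κ v ^ 2 * G v)) (hGc : ∀ v, v ≤ La κ → G v ≤ m * (R - v))
    (hc : ∫ v in Iic (La κ), fk κ v ^ 2 * (R - v) ≤ X) :
    (∫ v, fk κ v ^ 2 * G v) - m * X ≤ ∫ v in Ioi (La κ), fk κ v ^ 2 * G v := by
  have h1 := intervalIntegral.integral_Iic_add_Ioi (b := La κ) hi.integrableOn hi.integrableOn
  have hwi : IntegrableOn (fun v => fk κ v ^ 2 * (R - v)) (Iic (La κ)) := by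
    have := fk_wt_int κ 0 1 R (La κ) hκ0 hκ le_rfl zero_le_one hR
    simpa using this
  have h2 : ∫ v in Iic (La κ), fk κ v ^ 2 * G v ≤ ∫ v in Iic (La κ), m * (fk κ v ^ 2 * (R - v)) := by
    apply setIntegral_mono_on hi.integrableOn (hwi.const_mul m) measurableSet_Iic
    intro v hv
    have := mul_le_mul_of_nonneg_left (hGc v hv) (sq_nonneg (fk κ v))
    linarith
  rw [integral_const_mul] at h2
  have h3 := mul_le_mul_of_nonneg_left hc hm
  linarith

/-- the transfer for large `T` with all constants chosen -/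
theorem wrap (c0 K ε ℓ B : ℝ) (hε : 0 < ε) (hc0 : 0 ≤ c0) (hK : 0 ≤ K) (hℓ : 1 ≤ ℓ) :
    ∃ η Q : ℝ, 0 < η ∧ η ≤ 1 / 20 ∧ 2 ≤ Q ∧ ∀ᶠ T in atTop, ∀ w G : ℝ → ℝ, Measurable G → (∀ v, 0 ≤ G v) →
      Measurable w → (∀ α, 0 ≤ w α) → (∀ α, w α ≤ B) → (∀ α, ℓ < α → w α = 0) →
      (∀ α, 1 < α → G (α * Real.log T) = Real.log T * w α) →
      (∀ κ ∈ Ioo ((1 + η) / T) (Q / T), IntegrableOn (fun v => fk κ v ^ 2 * G (v + ss T κ)) (Ioi (La κ)) ∧
        (c0 - K * η) * (κ * La κ ^ 3) ≤ ∫ v in Ioi (La κ), fk κ v ^ 2 * G (v + ss T κ)) →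
      c0 - ε ≤ ∫ α in (1 : ℝ)..ℓ, w α * RT T α := by
  set η : ℝ := min (1 / 20) (ε / (K + 8 * c0 + 1)) with hη
  have hD : 0 < K + 8 * c0 + 1 := by linarith
  have hη0 : 0 < η := by rw [hη]; positivity
  have hη1 : η ≤ 1 / 20 := min_le_left _ _
  have hη2 : (K + 8 * c0) * η ≤ ε := by
    have : η ≤ ε / (K + 8 * c0 + 1) := min_le_right _ _
    rw [le_div_iff₀ hD] at this
    nlinarith
  have hQ2 : 2 ≤ 1 / η := by rw [le_div_iff₀ hη0]; linarith
  refine ⟨η, 1 / η, hη0, hη1, hQ2, ?_⟩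
  filter_upwards [eventually_gt_atTop 1, eventually_ge_atTop (2 * (1 / η)),
    lift_ev (cosh_le_ev (1 + η) (by linarith)) (1 + η) (1 / η) (by linarith),
    lift_ev (sinh_le_ev (1 + η) (by linarith)) (1 + η) (1 / η) (by linarith),
    eventually_ge_atTop (Real.exp ((1 + η) / η * Real.log (1 / η)))]
    with T hT hTQ h1 h2 hTe w G hGm hG0 hwm hw0 hwB hwℓ hGw hl
  have hT0 : 0 < T := by linarith
  have hL : 0 < Real.log T := Real.log_pos hT
  have hQT : 1 / η / T ≤ 1 / 2 := by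
    rw [div_le_iff₀ hT0]; linarith
  by_cases hcs : c0 - K * η ≤ 0
  · have hI0 : 0 ≤ ∫ α in (1 : ℝ)..ℓ, w α * RT T α := by
      rw [intervalIntegral.integral_of_le hℓ]
      exact setIntegral_nonneg measurableSet_Ioc fun α hα =>
        mul_nonneg (hw0 α) (RT_nonneg T α hT (by linarith [hα.1]))
    have : 0 ≤ 8 * c0 * η := by positivity
    nlinarith
  push Not at hcs
  have hlogT : (1 + η) / η * Real.log (1 / η) ≤ Real.log T := by
    rw [Real.le_log_iff_exp_le hT0]; exact hTe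
  have hm := master T (1 + η) (1 / η) (1 + η) ((c0 - K * η) * (1 - η) ^ 3) ℓ B w G hT (by linarith) (by linarith) hQT
    h1 (by linarith) h2 hGm hG0 hℓ hwm hw0 hwB hwℓ hGw (mul_nonneg hcs.le (pow_nonneg (by linarith) 3))
    (fun κ hκ => by
      obtain ⟨k1, k2⟩ := hl κ hκ
      refine ⟨k1, le_trans ?_ k2⟩
      obtain ⟨g1, g2, g3, g4, g5, g6, g7⟩ := geo T (1 + η) (1 / η) κ hT.le (by linarith) hQT hκ
      have h3 : (1 - η) * Real.log T ≤ La κ := by
        have h4 : Real.log (1 / η) ≤ η / (1 + η) * Real.log T := by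
          have := mul_le_mul_of_nonneg_left hlogT (by positivity : 0 ≤ η / (1 + η))
          have e : η / (1 + η) * ((1 + η) / η * Real.log (1 / η)) = Real.log (1 / η) := by field_simp
          linarith
        have h5 : η / (1 + η) * Real.log T ≤ η * Real.log T := by
          apply mul_le_mul_of_nonneg_right _ hL.le
          rw [div_le_iff₀ (by linarith)]
          nlinarith
        linarith
      have h4 : ((1 - η) * Real.log T) ^ 3 ≤ La κ ^ 3 := pow_le_pow_left₀ (mul_nonneg (by linarith) hL.le) h3 3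
      have h5 := mul_le_mul_of_nonneg_left h4 (by positivity : 0 ≤ (c0 - K * η) * κ)
      calc _ = (c0 - K * η) * κ * ((1 - η) * Real.log T) ^ 3 := by ring
        _ ≤ _ := h5
        _ = _ := by ring)
  refine le_trans ?_ hm
  have hr : 1 - η ≤ (1 + η)⁻¹ := by
    rw [← one_div, le_div_iff₀ (by linarith)]
    nlinarith
  have hr3 : (1 - η) ^ 3 ≤ ((1 + η)⁻¹) ^ 3 := pow_le_pow_left₀ (by linarith) hr 3
  have hr4 : 1 - 2 * η ≤ 1 / (1 + η) - 1 / (1 / η) := by
    rw [one_div_one_div, one_div]; linarith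
  have hA : (c0 - K * η) * (1 - η) ^ 3 * ((1 - η) ^ 3) * (1 - 2 * η) ≤
      (c0 - K * η) * (1 - η) ^ 3 * (((1 + η)⁻¹) ^ 3) * (1 / (1 + η) - 1 / (1 / η)) := by
    have hn : 0 ≤ (c0 - K * η) * (1 - η) ^ 3 := mul_nonneg hcs.le (pow_nonneg (by linarith) 3)
    apply mul_le_mul (mul_le_mul_of_nonneg_left hr3 hn) hr4 (by linarith)
    exact mul_nonneg hn (by positivity)
  refine le_trans ?_ hA
  have hB : 1 - 8 * η ≤ (1 - η) ^ 3 * ((1 - η) ^ 3) * (1 - 2 * η) := by
    have e1 : (1 - η) ^ 3 * ((1 - η) ^ 3) = (1 - η) ^ 6 := by ring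
    have e2 : 1 - 6 * η ≤ (1 - η) ^ 6 := by
      have := one_add_mul_le_pow (a := -η) (by linarith) 6
      push_cast at this
      have e : (1 + -η) = 1 - η := by ring
      rw [e] at this
      linarith
    rw [e1]
    have e3 : (1 - 6 * η) * (1 - 2 * η) ≤ (1 - η) ^ 6 * (1 - 2 * η) := mul_le_mul_of_nonneg_right e2 (by linarith)
    nlinarith
  have hC : (c0 - K * η) * (1 - 8 * η) ≤ (c0 - K * η) * ((1 - η) ^ 3 * ((1 - η) ^ 3) * (1 - 2 * η)) :=
    mul_le_mul_of_nonneg_left hB hcs.le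
  have hD : c0 - ε ≤ (c0 - K * η) * (1 - 8 * η) := by
    have : 0 ≤ K * η * η := by positivity
    nlinarith
  calc c0 - ε ≤ _ := hD
    _ ≤ _ := hC
    _ = _ := by ring

end Pool.Agent.L5helper10.TV
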