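import Pool.Agent.L5helper10.TV.Blk
import Pool.Agent.L5helper10.TV.Ps2

/-! The zero sum of a block in terms of the prime sum. -/

set_option autoImplicit false

open Complex Filter Topology Set MeasureTheory H370

namespace Pool.Agent.L5helper10.TV

/-- the contribution of the Gamma factor -/
noncomputable def gm (u t : ℝ) : ℂ := cexp (I * u * t) * (Real.exp (-u ^ 2 / 2) : ℂ)

noncomputable def GF (κ u t : ℝ) : ℂ :=
  2 * (Real.cosh (κ / 2) : ℂ) * gm u t - gm (u + κ) t - gm (u - κ) t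

lemma GF_eq (κ u t : ℝ) : GF κ u t = gm u t * (((2 - 2 * Real.cos (κ * t) : ℝ) : ℂ) +
    ((2 * Real.cosh (κ / 2) - 2 : ℝ) : ℂ) - cexp (I * κ * t) * ((Real.exp (-(u * κ) - κ ^ 2 / 2) - 1 : ℝ) : ℂ) -
      cexp (-(I * κ * t)) * ((Real.exp (u * κ - κ ^ 2 / 2) - 1 : ℝ) : ℂ)) := by
  have e1 : gm (u + κ) t = gm u t * (cexp (I * κ * t) * (Real.exp (-(u * κ) - κ ^ 2 / 2) : ℂ)) := by
    unfold gm
    rw [ofReal_exp, ofReal_exp, ofReal_exp, ← Complex.exp_add, ← Complex.exp_add, ← Complex.exp_add,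
      ← Complex.exp_add]
    congr 1
    push_cast; ring
  have e2 : gm (u - κ) t = gm u t * (cexp (-(I * κ * t)) * (Real.exp (u * κ - κ ^ 2 / 2) : ℂ)) := by
    unfold gm
    rw [ofReal_exp, ofReal_exp, ofReal_exp, ← Complex.exp_add, ← Complex.exp_add, ← Complex.exp_add,
      ← Complex.exp_add]
    congr 1
    push_cast; ring
  have e3 : ((2 * Real.cos (κ * t) : ℝ) : ℂ) = cexp (I * κ * t) + cexp (-(I * κ * t)) := by
    rw [ofReal_mul, ofReal_cos, Complex.cos]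
    push_cast
    rw [show ((κ : ℂ) * t) * I = I * κ * t by ring, show -((κ : ℂ) * t) * I = -(I * κ * t) by ring]
    ring
  unfold GF
  rw [e1, e2, ofReal_sub, e3]
  push_cast
  ring

lemma norm_gm (u t : ℝ) : ‖gm u t‖ = Real.exp (-u ^ 2 / 2) := by
  unfold gm
  rw [norm_mul, Complex.norm_real, Real.norm_of_nonneg (Real.exp_pos _).le,
    show I * u * t = ((u * t : ℝ) : ℂ) * I by push_cast; ring, Complex.norm_exp_ofReal_mul_I, one_mul]

lemma cosh_small (ε : ℝ) (hε : 0 < ε) : ∀ᶠ κ in 𝓝[>] (0 : ℝ), 2 * Real.cosh (κ / 2) - 2 ≤ ε := by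
  have h1 : Tendsto (fun κ : ℝ => 2 * Real.cosh (κ / 2) - 2) (𝓝[>] 0) (𝓝 0) := by
    have : Tendsto (fun κ : ℝ => 2 * Real.cosh (κ / 2) - 2) (𝓝 0) (𝓝 (2 * Real.cosh (0 / 2) - 2)) := by
      apply Continuous.tendsto
      have := Real.continuous_cosh
      fun_prop
    rw [show 2 * Real.cosh (0 / 2) - 2 = (0 : ℝ) by simp] at this
    exact this.mono_left nhdsWithin_le_nhds
  exact h1.eventually_le_const hε

theorem GF_bd (ℓ x δ : ℝ) (hδ : 0 < δ) : ∀ᶠ κ in 𝓝[>] (0 : ℝ), ∀ u t : ℝ,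
    0 ≤ u → u ≤ ℓ * La κ → x / κ ≤ t → t ≤ (x + δ) / κ →
    ‖GF κ u t‖ ≤ (2 - 2 * Real.cos x + 3 * δ) * Real.exp (-u ^ 2 / 2) := by
  -- smallness of `u κ`
  have ev1 := La_small (δ / 16) (|ℓ| + 1) (by positivity) 1
  have ev0 : ∀ᶠ κ in 𝓝[>] (0 : ℝ), κ * (κ + 1) ≤ δ / 16 ∧ κ ≤ 1 := by
    have h1 : Tendsto (fun κ : ℝ => κ * (κ + 1)) (𝓝[>] 0) (𝓝 0) := by
      have : Tendsto (fun κ : ℝ => κ * (κ + 1)) (𝓝 0) (𝓝 (0 * (0 + 1))) := by
        apply Continuous.tendsto; fun_prop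
      rw [zero_mul] at this
      exact this.mono_left nhdsWithin_le_nhds
    exact (h1.eventually_le_const (by positivity)).and le_one_ev
  have ev2 : ∀ᶠ κ in 𝓝[>] (0 : ℝ), (|ℓ| + 1) * La κ * κ ≤ 1 / 2 := by
    filter_upwards [La_small (1 / 2) (|ℓ| + 1) (by positivity) 1, self_mem_nhdsWithin] with κ h1 h2
    have hκ : 0 < κ := h2
    rw [pow_one, le_div_iff₀ hκ] at h1
    exact h1
  filter_upwards [ev1, ev0, ev2, cosh_small (δ / 4) (by positivity), La_ge 1, self_mem_nhdsWithin]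
    with κ h1 h0 h2 h3 h4 h5 u t hu huL ht1 ht2
  have hκ : 0 < κ := h5
  obtain ⟨h0, h0'⟩ := h0
  rw [pow_one, le_div_iff₀ hκ] at h1
  have huk : u * κ ≤ δ / 16 := by
    calc u * κ ≤ ((|ℓ| + 1) * La κ) * κ := by
          apply mul_le_mul_of_nonneg_right _ hκ.le
          have := le_abs_self ℓ
          nlinarith
      _ ≤ δ / 16 := h1
  have huk2 : u * κ ≤ 1 / 2 := by
    calc u * κ ≤ ((|ℓ| + 1) * La κ) * κ := by
          apply mul_le_mul_of_nonneg_right _ hκ.le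
          have := le_abs_self ℓ
          nlinarith
      _ ≤ 1 / 2 := h2
  have huk0 : 0 ≤ u * κ := mul_nonneg hu hκ.le
  have hκt1 : x ≤ κ * t := by rw [div_le_iff₀ hκ] at ht1; linarith
  have hκt2 : κ * t ≤ x + δ := by rw [le_div_iff₀ hκ] at ht2; linarith
  have hcos : 2 - 2 * Real.cos (κ * t) ≤ 2 - 2 * Real.cos x + 2 * δ := by
    have e3 : |Real.cos (κ * t) - Real.cos x| ≤ |κ * t - x| := Real.abs_cos_sub_cos_le (κ * t) x
    rw [abs_of_nonneg (by linarith : 0 ≤ κ * t - x)] at e3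
    have e4 := (abs_le.1 e3).1
    linarith
  have hcos0 : 0 ≤ 2 - 2 * Real.cos (κ * t) := by linarith [Real.cos_le_one (κ * t)]
  have hcosh0 : 0 ≤ 2 * Real.cosh (κ / 2) - 2 := by linarith [Real.one_le_cosh (κ / 2)]
  rw [GF_eq, norm_mul, norm_gm, mul_comm]
  apply mul_le_mul_of_nonneg_right _ (Real.exp_pos _).le
  have n1 : ‖cexp (I * κ * t)‖ = 1 := by
    rw [show I * κ * t = ((κ * t : ℝ) : ℂ) * I by push_cast; ring, Complex.norm_exp_ofReal_mul_I]
  have n2 : ‖cexp (-(I * κ * t))‖ = 1 := by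
    rw [show -(I * κ * t) = ((-(κ * t) : ℝ) : ℂ) * I by push_cast; ring, Complex.norm_exp_ofReal_mul_I]
  have a1 : |Real.exp (-(u * κ) - κ ^ 2 / 2) - 1| ≤ δ / 4 := by
    have b1 : Real.exp (-(u * κ) - κ ^ 2 / 2) ≤ 1 := Real.exp_le_one_iff.2 (by nlinarith)
    have b2 := Real.add_one_le_exp (-(u * κ) - κ ^ 2 / 2)
    rw [abs_le]
    constructor <;> nlinarith
  have a2 : |Real.exp (u * κ - κ ^ 2 / 2) - 1| ≤ δ / 4 := by
    have b2 := Real.add_one_le_exp (u * κ - κ ^ 2 / 2)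
    have b3 : Real.exp (u * κ - κ ^ 2 / 2) ≤ Real.exp (u * κ) := Real.exp_le_exp.2 (by nlinarith)
    have b4 : Real.exp (u * κ) ≤ 1 + 2 * (u * κ) := by
      have := Real.exp_bound_div_one_sub_of_interval (x := u * κ) huk0 (by linarith)
      refine this.trans ?_
      rw [div_le_iff₀ (by linarith)]
      nlinarith
    rw [abs_le]
    constructor <;> nlinarith
  calc ‖_‖ ≤ ‖((2 - 2 * Real.cos (κ * t) : ℝ) : ℂ)‖ + ‖((2 * Real.cosh (κ / 2) - 2 : ℝ) : ℂ)‖ +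
        ‖cexp (I * κ * t) * ((Real.exp (-(u * κ) - κ ^ 2 / 2) - 1 : ℝ) : ℂ)‖ +
        ‖cexp (-(I * κ * t)) * ((Real.exp (u * κ - κ ^ 2 / 2) - 1 : ℝ) : ℂ)‖ :=
        (norm_sub_le _ _).trans (add_le_add_left ((norm_sub_le _ _).trans (add_le_add_left (norm_add_le _ _) _)) _)
    _ ≤ (2 - 2 * Real.cos x + 2 * δ) + δ / 4 + δ / 4 + δ / 4 := by
        rw [norm_mul, norm_mul, n1, n2, one_mul, one_mul, Complex.norm_real, Complex.norm_real, Complex.norm_real,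
          Complex.norm_real, Real.norm_of_nonneg hcos0, Real.norm_of_nonneg hcosh0, Real.norm_eq_abs,
          Real.norm_eq_abs]
        linarith
    _ ≤ _ := by linarith

/-- the explicit formula for the weighted zero sum of a block -/
theorem FB_formula (ℓ x y : ℝ) (hℓ : 1 ≤ ℓ) (hx : 0 < x) (hxy : x < y) (hy : y ≤ 3 / 2 * x) :
    ∃ C : ℝ, 0 < C ∧ ∀ᶠ κ in 𝓝[>] (0 : ℝ), ∀ u t : ℝ, κ ≤ u → u ≤ ℓ * La κ → x / κ ≤ t → t ≤ y / κ →
      ‖FB κ x y u t - (1 / Real.sqrt (2 * Real.pi) : ℝ) * ((La κ : ℂ) * GF κ u t - QP κ u t)‖ ≤ C * Real.exp (-u) := by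
  obtain ⟨C, hC, hev⟩ := ef_block (ℓ + 1) x y (by linarith) hx hxy hy
  refine ⟨8 * C, by positivity, ?_⟩
  filter_upwards [hev, La_ge 1, le_one_ev, self_mem_nhdsWithin, La_small (x / 2) 1 (by positivity) 1,
    La_small (x / 2) 1 (by positivity) 0] with κ h1 h2 h3 h4 h5 h6 u t hu huL ht1 ht2
  have hκ : 0 < κ := h4
  rw [pow_one, one_mul] at h5
  rw [pow_zero, one_mul] at h6
  have ha2 : x / 2 / κ = (x / κ) / 2 := by ring
  rw [ha2] at h5 h6
  have haL : 1 ≤ x / κ - La κ := by linarith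
  rw [FB_eq κ x y u t haL]
  have k0 := h1 u t (by linarith) (by nlinarith) ht1 ht2
  have k1 := h1 (u + κ) t (by linarith) (by nlinarith) ht1 ht2
  have k2 := h1 (u - κ) t (by linarith) (by nlinarith) ht1 ht2
  set A0 := AA riemannZeta (x / κ - La κ) (y / κ + La κ) u t
  set A1 := AA riemannZeta (x / κ - La κ) (y / κ + La κ) (u + κ) t
  set A2 := AA riemannZeta (x / κ - La κ) (y / κ + La κ) (u - κ) t
  set w : ℂ := ((1 / Real.sqrt (2 * Real.pi) : ℝ) : ℂ)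
  have hsplit : 2 * (Real.cosh (κ / 2) : ℂ) * A0 - A1 - A2 - w * ((La κ : ℂ) * GF κ u t - QP κ u t) =
      2 * (Real.cosh (κ / 2) : ℂ) * (A0 - w * (La κ * cexp (I * u * t) * Real.exp (-u ^ 2 / 2) - PP lamc u t)) -
      (A1 - w * (La κ * cexp (I * ((u + κ : ℝ) : ℂ) * t) * Real.exp (-(u + κ) ^ 2 / 2) - PP lamc (u + κ) t)) -
      (A2 - w * (La κ * cexp (I * ((u - κ : ℝ) : ℂ) * t) * Real.exp (-(u - κ) ^ 2 / 2) - PP lamc (u - κ) t)) := by
    unfold GF gm QP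
    ring
  rw [hsplit]
  have hcosh : ‖2 * (Real.cosh (κ / 2) : ℂ)‖ ≤ 4 := by
    rw [norm_mul, Complex.norm_real, Real.norm_of_nonneg (Real.cosh_pos _).le, Complex.norm_ofNat]
    have h5 : Real.cosh (κ / 2) ≤ 2 := by
      rw [Real.cosh_eq]
      have a1 : Real.exp (κ / 2) ≤ 2 := le_trans (Real.exp_le_exp.2 (by linarith)) exp_half_le
      have a2 : Real.exp (-(κ / 2)) ≤ 2 := le_trans (Real.exp_le_exp.2 (by linarith)) exp_half_le
      linarith
    linarith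
  have e1 : Real.exp (-(u + κ)) ≤ Real.exp (-u) := Real.exp_le_exp.2 (by linarith)
  have e2 : Real.exp (-(u - κ)) ≤ 3 * Real.exp (-u) := by
    rw [show -(u - κ) = κ + -u by ring, Real.exp_add]
    apply mul_le_mul_of_nonneg_right _ (Real.exp_pos _).le
    have := Real.exp_one_lt_d9
    have : Real.exp κ ≤ Real.exp 1 := Real.exp_le_exp.2 h3
    linarith
  calc ‖_‖ ≤ ‖2 * (Real.cosh (κ / 2) : ℂ)‖ * (C * Real.exp (-u)) + C * Real.exp (-(u + κ)) +
        C * Real.exp (-(u - κ)) := by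
        refine (norm_sub_le _ _).trans (add_le_add ((norm_sub_le _ _).trans (add_le_add ?_ k1)) k2)
        rw [norm_mul]
        exact mul_le_mul_of_nonneg_left k0 (norm_nonneg _)
    _ ≤ 4 * (C * Real.exp (-u)) + C * Real.exp (-u) + C * (3 * Real.exp (-u)) := by gcongr
    _ = _ := by ring

/-- crude bound near `u = 0` -/
theorem FB_small (x y : ℝ) (hx : 0 < x) (hy : y ≤ 3 / 2 * x) :
    ∃ C : ℝ, 0 < C ∧ ∀ᶠ κ in 𝓝[>] (0 : ℝ), ∀ u t : ℝ, 0 ≤ u → u ≤ 1 → ‖FB κ x y u t‖ ≤ C * La κ := by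
  obtain ⟨C, hC, hZ⟩ := Zg_le good_zeta
  set c0 : ℝ := |Real.log (4 / 5 * x)| with hc0
  have hc00 : 0 ≤ c0 := abs_nonneg _
  refine ⟨64 * C, by positivity, ?_⟩
  filter_upwards [La_ge (c0 + 1), La_small (x / 10) (3 + c0) (by positivity) 1, La_small x 10 hx 0, le_one_ev,
    self_mem_nhdsWithin] with κ h1 h2 h3 h4 h5 u t hu hu1
  have hκ : 0 < κ := h5
  rw [pow_one] at h2
  rw [pow_zero, mul_one] at h3
  set L := La κ with hL
  have hL1 : 1 ≤ L := by linarith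
  set T : ℝ := 4 / 5 * x / κ with hT
  have hTx : T = 4 / 5 * (x / κ) := by rw [hT]; ring
  have hx10 : x / 10 / κ = (x / κ) / 10 := by ring
  rw [hx10] at h2
  have h2' : L + 1 ≤ (x / κ) / 10 := by nlinarith
  have hyx : y / κ ≤ 3 / 2 * (x / κ) := by
    rw [show 3 / 2 * (x / κ) = (3 / 2 * x) / κ by ring]
    exact div_le_div_of_nonneg_right hy hκ.le
  have haL : 1 ≤ x / κ - L := by linarith
  have hZg := hZ T (by rw [hTx]; linarith) (x / κ - L) (y / κ + L) (by rw [hTx]; linarith) (by rw [hTx]; linarith) t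
  have hlogT : Real.log T = L + Real.log (4 / 5 * x) := by
    rw [hT, Real.log_div (by positivity) hκ.ne', hL, La]; ring
  have hlogT2 : Real.log T ≤ 2 * L := by
    rw [hlogT]
    have := le_abs_self (Real.log (4 / 5 * x))
    linarith
  unfold FB FF
  have hterm : ∀ z ∈ PB κ x y, ‖cF κ z * hh u t z‖ ≤
      32 * ((mult riemannZeta z : ℝ) * Real.exp (-(z.im - t) ^ 2 / 2)) := by
    intro z hz
    unfold PB at hz
    rw [mem_Zf good_zeta haL] at hz
    rw [norm_mul, cF, norm_mul, Complex.norm_natCast]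
    have a1 := wt_norm κ hκ.le h4 z hz.1 hz.2.1
    have a2 := norm_hh_le hz u t hu
    have a3 : (0 : ℝ) ≤ mult riemannZeta z := Nat.cast_nonneg _
    have a4 : Real.exp (u / 2) ≤ 2 := le_trans (Real.exp_le_exp.2 (by linarith)) exp_half_le
    calc (mult riemannZeta z : ℝ) * ‖wt κ z‖ * ‖hh u t z‖ ≤
          (mult riemannZeta z : ℝ) * 8 * (2 * Real.exp (u / 2) * Real.exp (-(z.im - t) ^ 2 / 2)) := by gcongr
      _ ≤ (mult riemannZeta z : ℝ) * 8 * (2 * 2 * Real.exp (-(z.im - t) ^ 2 / 2)) := by gcongr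
      _ = _ := by ring
  refine (norm_sum_le_of_le _ hterm).trans ?_
  rw [← Finset.mul_sum]
  have : ∑ z ∈ PB κ x y, (mult riemannZeta z : ℝ) * Real.exp (-(z.im - t) ^ 2 / 2) ≤ C * Real.log T := hZg
  calc 32 * ∑ z ∈ PB κ x y, (mult riemannZeta z : ℝ) * Real.exp (-(z.im - t) ^ 2 / 2) ≤ 32 * (C * (2 * L)) := by
        apply mul_le_mul_of_nonneg_left _ (by norm_num)
        exact this.trans (mul_le_mul_of_nonneg_left hlogT2 hC.le)
    _ = _ := by ring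

end Pool.Agent.L5helper10.TV
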